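import Pool.Agent.DA.Defs
import Pool.Agent.Helper13.DV.GP2

/-! Sections 9.7, 9.8 : Newton, choosing independent elements -/

set_option autoImplicit false

namespace Pool.Agent.DA

open Finset Polynomial

namespace PSAux

open Helper13.DV

theorem esymm_mem {Ω : Type*} [Field Ω] [CharZero Ω] (L : Subfield Ω) (n : ℕ) (z : ℕ → Ω)
    (h : ∀ a, ∑ i ∈ range n, z i ^ a ∈ L) (k : ℕ) :
    MvPolynomial.aeval (fun i : Fin n => z i) (MvPolynomial.esymm (Fin n) Ω k) ∈ L := by
  induction k using Nat.strong_induction_on with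
  | _ k ih =>
    rcases Nat.eq_zero_or_pos k with rfl | hk
    · rw [MvPolynomial.esymm_zero, map_one]; exact L.one_mem
    · have hps : ∀ a, MvPolynomial.aeval (fun i : Fin n => z i)
          (MvPolynomial.psum (Fin n) Ω a) ∈ L := by
        intro a
        rw [MvPolynomial.psum, map_sum]
        simp only [map_pow, MvPolynomial.aeval_X]
        have := h a
        rw [Finset.sum_range] at this
        exact this
      have h1 := congrArg (MvPolynomial.aeval (fun i : Fin n => z i))
        (MvPolynomial.mul_esymm_eq_sum (Fin n) Ω k)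
      rw [map_mul, map_mul, map_sum] at h1
      have h2 : (k : Ω) * MvPolynomial.aeval (fun i : Fin n => z i)
          (MvPolynomial.esymm (Fin n) Ω k) ∈ L := by
        have e : MvPolynomial.aeval (fun i : Fin n => z i) (k : MvPolynomial (Fin n) Ω) =
            (k : Ω) := by simp
        rw [e] at h1
        rw [h1]
        refine L.mul_mem ?_ (sum_mem fun a ha => ?_)
        · rw [map_pow, map_neg, map_one]
          exact L.pow_mem (L.neg_mem L.one_mem) _
        · rw [map_mul, map_mul, map_pow, map_neg, map_one]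
          refine L.mul_mem (L.mul_mem (L.pow_mem (L.neg_mem L.one_mem) _) (ih _ ?_)) (hps _)
          simp only [mem_filter] at ha
          exact ha.2
      have hk0 : (k : Ω) ≠ 0 := by exact_mod_cast hk.ne'
      have h3 := L.mul_mem (L.inv_mem (natCast_mem L k)) h2
      rwa [← mul_assoc, inv_mul_cancel₀ hk0, one_mul] at h3

theorem ind_swap {Ω : Type*} [Field Ω] {f : Subfield Ω} {x y : Ω}
    (h : AlgebraicIndependent f ![x, y]) : AlgebraicIndependent f ![y, x] := by
  have h2 := h.comp (![1, 0] : Fin 2 → Fin 2) (by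
    intro a b hab
    fin_cases a <;> fin_cases b <;> simp_all)
  convert h2 using 1
  ext i
  fin_cases i <;> rfl

theorem pair_iff {Ω : Type*} [Field Ω] {f : Subfield Ω} {x y : Ω} :
    AlgebraicIndependent f ![x, y] ↔ Transcendental f x ∧ Transcendental (ad f {x}) y := by
  constructor
  · intro h
    refine ⟨h.transcendental 0, ?_⟩
    rw [ad, transcendental_closure_iff]
    have h' := h.transcendental_adjoin (s := {0}) (i := 1) (by simp)
    rw [Set.image_singleton] at h'
    exact h'
  · rintro ⟨h1, h2⟩
    rw [AlgebraicIndependent.iff_transcendental_adjoin_image (1 : Fin 2)]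
    constructor
    · letI : Unique {j : Fin 2 // j ≠ 1} :=
        { default := ⟨0, by simp⟩
          uniq := by
            rintro ⟨j, hj⟩
            apply Subtype.ext
            fin_cases j
            · rfl
            · exact absurd rfl hj }
      rw [algebraicIndependent_unique_type_iff]
      exact h1
    · have e : (![x, y] '' ({1}ᶜ : Set (Fin 2))) = {x} := by
        ext w
        simp only [Set.mem_image, Set.mem_compl_iff, Set.mem_singleton_iff]
        constructor
        · rintro ⟨i, hi, rfl⟩
          fin_cases i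
          · rfl
          · exact absurd rfl hi
        · rintro rfl
          exact ⟨0, by simp, rfl⟩
      rw [e]
      rw [ad, transcendental_closure_iff] at h2
      exact h2

theorem alg_of_ad {Ω : Type*} [Field Ω] (f : Subfield Ω) (S : Set Ω)
    (hS : ∀ s ∈ S, IsAlgebraic f s) {b : Ω} (hb : IsAlgebraic (ad f S) b) : IsAlgebraic f b := by
  refine isAlgebraic_trans f (ad f S) (le_closure_union _ _) (fun y hy => ?_) b hb
  have : ad f S ≤ ac f := closure_le_of (le_ac f) fun s hs => mem_ac.2 (hS s hs)
  exact mem_ac.1 (this hy)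

end PSAux

open PSAux Helper13.DV

/-- 9.7 Newton -/
theorem newton {Ω : Type*} [Field Ω] [CharZero Ω] (L : Subfield Ω) (n : ℕ) (z : ℕ → Ω)
    (h : ∀ a, ∑ i ∈ range n, z i ^ a ∈ L) :
    ∀ k, (∏ i ∈ range n, (X - C (z i))).coeff k ∈ L := by
  intro k
  have e : (∏ i ∈ range n, (X - C (z i))) =
      ((univ.val.map (fun i : Fin n => z i)).map fun t => X - C t).prod := by
    rw [Multiset.map_map, Finset.prod_range]
    rfl
  rw [e]
  by_cases hk : k ≤ n
  · rw [Multiset.prod_X_sub_C_coeff _ (by simpa using hk)]
    refine L.mul_mem (L.pow_mem (L.neg_mem L.one_mem) _) ?_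
    have h1 := esymm_mem L n z h ((univ.val.map (fun i : Fin n => z i)).card - k)
    rwa [MvPolynomial.aeval_esymm_eq_multiset_esymm] at h1
  · rw [coeff_eq_zero_of_natDegree_lt]
    · exact L.zero_mem
    · rw [natDegree_multiset_prod_X_sub_C_eq_card]
      simpa using hk

/-- 9.7 corollary -/
theorem newton_alg {Ω : Type*} [Field Ω] [CharZero Ω] (L : Subfield Ω) (n : ℕ) (z : ℕ → Ω)
    (h : ∀ a, ∑ i ∈ range n, z i ^ a ∈ L) (i : ℕ) (hi : i < n) : IsAlgebraic L (z i) := by
  rw [isAlgebraic_iff_coeff (algebraMap L Ω).injective]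
  refine ⟨∏ i ∈ range n, (X - C (z i)), (monic_prod_X_sub_C _ _).ne_zero, ?_, ?_⟩
  · intro k
    rw [range_subfield]
    exact newton L n z h k
  · rw [eval_prod]
    exact prod_eq_zero (mem_range.2 hi) (by simp)

/-- 9.8 -/
theorem ps_choose {Ω : Type*} [Field Ω] (f : Subfield Ω) (b1 b2 : Ω)
    (h : AlgebraicIndependent f ![b1, b2]) (S : Set Ω)
    (h1 : IsAlgebraic (ad f S) b1) (h2 : IsAlgebraic (ad f S) b2) :
    ∃ s1 ∈ S, ∃ s2 ∈ S, AlgebraicIndependent f ![s1, s2] := by
  obtain ⟨hb1, hb2⟩ := pair_iff.1 h
  have hs1 : ∃ s1 ∈ S, Transcendental f s1 := by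
    by_contra hcon
    push Not at hcon
    exact hb1 (alg_of_ad f S (fun s hs => by
      have := hcon s hs
      rwa [Transcendental, not_not] at this) h1)
  obtain ⟨s1, hs1, ht1⟩ := hs1
  by_contra hcon
  push Not at hcon
  have hS : ∀ s ∈ S, IsAlgebraic (ad f {s1}) s := by
    intro s hs
    by_contra hs'
    exact hcon s1 hs1 s hs (pair_iff.2 ⟨ht1, hs'⟩)
  have hle : ad f S ≤ ad (ad f {s1}) S :=
    closure_le_of ((le_closure_union _ _).trans (le_closure_union (ad f {s1}) _))
      fun s hs => mem_closure_union hs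
  have hb1' : IsAlgebraic (ad f {s1}) b1 := alg_of_ad _ S hS (isAlgebraic_mono hle h1)
  have hb2' : IsAlgebraic (ad f {s1}) b2 := alg_of_ad _ S hS (isAlgebraic_mono hle h2)
  -- `s1` is algebraic over `f(b1)`
  have hs1' : IsAlgebraic (ad f {b1}) s1 := by
    by_contra hcon1
    exact transcendental_exchange f b1 s1 hb1 hcon1 hb1'
  apply hb2
  have hle2 : ad f {s1} ≤ ad (ad f {b1}) {s1} :=
    closure_le_of ((le_closure_union _ _).trans (le_closure_union (ad f {b1}) _))
      fun s hs => mem_closure_union hs
  exact alg_of_ad (ad f {b1}) {s1} (by rintro s rfl; exact hs1') (isAlgebraic_mono hle2 hb2')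

/-- two elements: `x` transcendental over `f`, `y` transcendental over a field containing `f` and `x` -/
theorem ind_two {Ω : Type*} [Field Ω] (f k : Subfield Ω) (hfk : f ≤ k) (x y : Ω) (hx : x ∈ k)
    (h1 : ¬ IsAlgebraic f x) (h2 : ¬ IsAlgebraic k y) : AlgebraicIndependent f ![x, y] :=
  pair_iff.2 ⟨h1, transcendental_mono (closure_le_of hfk (Set.singleton_subset_iff.2 hx)) h2⟩

theorem not_ind_self {Ω : Type*} [Field Ω] (f : Subfield Ω) (x : Ω) :
    ¬ AlgebraicIndependent f ![x, x] := fun h =>
  (pair_iff.1 h).2 (isAlgebraic_of_mem (mem_closure_union rfl))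

/-- `(x, y)` independent implies `(x + y, x y)` independent -/
theorem ind_symm {Ω : Type*} [Field Ω] (f : Subfield Ω) (x y : Ω)
    (h : AlgebraicIndependent f ![x, y]) : AlgebraicIndependent f ![x + y, x * y] := by
  have key : ∀ w : Ω, (w - x) * (w - y) = 0 → IsAlgebraic (ad f {x + y, x * y}) w := by
    intro w hw
    rw [isAlgebraic_iff_coeff (RingHom.injective _)]
    refine ⟨X ^ 2 + C (-(x + y)) * X + C (x * y), ?_, ?_, ?_⟩
    · intro h0
      have := congrArg (fun p : Polynomial Ω => p.coeff 2) h0
      simp [coeff_X, coeff_C] at this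
    · intro i
      rw [range_subfield]
      have hs : x + y ∈ ad f {x + y, x * y} := mem_closure_union (by simp)
      have hp : x * y ∈ ad f {x + y, x * y} := mem_closure_union (by simp)
      rw [coeff_add, coeff_add, coeff_C_mul, coeff_X_pow, coeff_X, coeff_C]
      refine Subfield.add_mem _ (Subfield.add_mem _ ?_ (Subfield.mul_mem _
        (Subfield.neg_mem _ hs) ?_)) ?_
      · split_ifs <;> simp [one_mem, zero_mem]
      · split_ifs <;> simp [one_mem, zero_mem]
      · split_ifs
        · exact hp
        · exact zero_mem _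
    · simp only [eval_add, eval_mul, eval_pow, eval_X, eval_C]
      linear_combination hw
  obtain ⟨s1, hs1, s2, hs2, h12⟩ := ps_choose f x y h {x + y, x * y}
    (key x (by ring)) (key y (by ring))
  rcases hs1 with rfl | hs1 <;> rcases hs2 with rfl | hs2
  · exact absurd h12 (not_ind_self _ _)
  · rw [Set.mem_singleton_iff] at hs2; subst hs2; exact h12
  · rw [Set.mem_singleton_iff] at hs1; subst hs1; exact ind_swap h12
  · rw [Set.mem_singleton_iff] at hs1 hs2; subst hs1; subst hs2
    exact absurd h12 (not_ind_self _ _)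

/-- multiplication by a unit: two of `u, u s1, u s2` are independent -/
theorem ind_scale {Ω : Type*} [Field Ω] (f : Subfield Ω) (u s1 s2 : Ω) (hu : u ≠ 0)
    (h : AlgebraicIndependent f ![s1, s2]) :
    AlgebraicIndependent f ![u, u * s1] ∨ AlgebraicIndependent f ![u, u * s2] ∨
      AlgebraicIndependent f ![u * s1, u * s2] := by
  have hmem : ∀ s, u * s ∈ ({u, u * s1, u * s2} : Set Ω) → s ∈ ad f {u, u * s1, u * s2} := by
    intro s hs
    have h1 : u ∈ ad f {u, u * s1, u * s2} := mem_closure_union (by simp)
    have h2 : u * s ∈ ad f {u, u * s1, u * s2} := mem_closure_union hs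
    have : s = u⁻¹ * (u * s) := by rw [← mul_assoc, inv_mul_cancel₀ hu, one_mul]
    rw [this]
    exact Subfield.mul_mem _ (Subfield.inv_mem _ h1) h2
  obtain ⟨t1, ht1, t2, ht2, h12⟩ := ps_choose f s1 s2 h {u, u * s1, u * s2}
    (isAlgebraic_of_mem (hmem s1 (by simp))) (isAlgebraic_of_mem (hmem s2 (by simp)))
  simp only [Set.mem_insert_iff, Set.mem_singleton_iff] at ht1 ht2
  rcases ht1 with rfl | rfl | rfl <;> rcases ht2 with h2 | h2 | h2
  · rw [h2] at h12; exact absurd h12 (not_ind_self _ _)
  · rw [h2] at h12; exact Or.inl h12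
  · rw [h2] at h12; exact Or.inr (Or.inl h12)
  · rw [h2] at h12; exact Or.inl (ind_swap h12)
  · rw [h2] at h12; exact absurd h12 (not_ind_self _ _)
  · rw [h2] at h12; exact Or.inr (Or.inr h12)
  · rw [h2] at h12; exact Or.inr (Or.inl (ind_swap h12))
  · rw [h2] at h12; exact Or.inr (Or.inr (ind_swap h12))
  · rw [h2] at h12; exact absurd h12 (not_ind_self _ _)

/-- primitive element with an integer coefficient -/
theorem prim_int {Ω : Type*} [Field Ω] [CharZero Ω] (B : Subfield Ω) (x y : Ω)
    (hx : IsAlgebraic B x) (hy : IsAlgebraic B y) :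
    ∃ n : ℕ, x ∈ ad B {x + n * y} ∧ y ∈ ad B {x + n * y} := by
  set L : IntermediateField B Ω := IntermediateField.adjoin B {x, y} with hL
  haveI : FiniteDimensional B L := by
    haveI : Finite ({x, y} : Set Ω) := (Set.toFinite _).to_subtype
    refine IntermediateField.finiteDimensional_adjoin ?_
    rintro w (rfl | hw)
    · exact hx.isIntegral
    · rw [Set.mem_singleton_iff] at hw; subst hw; exact hy.isIntegral
  haveI : CharZero B := ⟨fun a b h => by
    have := congrArg (Subtype.val : B → Ω) h
    simpa using this⟩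
  haveI : Finite (IntermediateField B L) :=
    Field.finite_intermediateField_of_exists_primitive_element B L
      (Field.exists_primitive_element B L)
  have hxL : x ∈ L := IntermediateField.subset_adjoin _ _ (by simp)
  have hyL : y ∈ L := IntermediateField.subset_adjoin _ _ (by simp)
  let w : ℕ → L := fun n => ⟨x + n * y, L.add_mem hxL (L.mul_mem (natCast_mem L n) hyL)⟩
  obtain ⟨n, m, hnm, he⟩ := Finite.exists_ne_map_eq_of_infinite
    (fun n : ℕ => IntermediateField.adjoin B {w n})
  have hle : IntermediateField.adjoin B {w m} ≤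
      ((ad B {x + m * y}).comap (algebraMap L Ω)).toIntermediateField
        (fun b => le_closure_union _ _ b.2) := by
    rw [IntermediateField.adjoin_le_iff]
    rintro _ rfl
    exact mem_closure_union rfl
  have hn : x + n * y ∈ ad B {x + m * y} := by
    have h1 : w n ∈ IntermediateField.adjoin B {w m} := by
      have he' : IntermediateField.adjoin B {w n} = IntermediateField.adjoin B {w m} := he
      rw [← he']
      exact IntermediateField.subset_adjoin _ _ rfl
    exact hle h1
  have hm : x + m * y ∈ ad B {x + m * y} := mem_closure_union rfl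
  have hnm' : (n : Ω) - m ≠ 0 := sub_ne_zero.2 (by exact_mod_cast hnm)
  have hyB : y ∈ ad B {x + m * y} := by
    have h1 : ((n : Ω) - m)⁻¹ * (x + n * y - (x + m * y)) = y := by
      field_simp
      ring
    have h2 := Subfield.mul_mem _ (Subfield.inv_mem _ (Subfield.sub_mem _ (natCast_mem _ n)
      (natCast_mem _ m))) (Subfield.sub_mem _ hn hm)
    rwa [h1] at h2
  refine ⟨m, ?_, hyB⟩
  have h1 : x + m * y - m * y = x := by ring
  have h2 := Subfield.sub_mem _ hm (Subfield.mul_mem _ (natCast_mem _ m) hyB)
  rwa [h1] at h2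

end Pool.Agent.DA
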