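import Pool.Agent.DA.DBasic2
import Pool.Agent.DA.PS

/-! Section 14.1 -/

set_option autoImplicit false

namespace Pool.Agent.DA

open Finset Polynomial

namespace AuxC

variable {m : ℕ} (A : Datum m)

theorem c0_zero : A.c0 0 = 0 := by
  have h := A.c0_add 0 0
  rw [add_zero] at h
  exact (add_eq_left.mp h.symm)

theorem c0_one : A.c0 1 = 1 := by
  unfold Datum.c0
  change (1 : LaurentSeries A.P).coeff 0 = 1
  simp [HahnSeries.coeff_one]

theorem v_one : A.v 1 = 0 := AddValuation.map_one _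

theorem v_mul_nonneg (x y : A.K) (hx : 0 ≤ A.v x) (hy : 0 ≤ A.v y) : 0 ≤ A.v (x * y) := by
  rw [AddValuation.map_mul]
  exact add_nonneg hx hy

theorem v_pow_nonneg (x : A.K) (hx : 0 ≤ A.v x) (a : ℕ) : 0 ≤ A.v (x ^ a) := by
  induction a with
  | zero => rw [pow_zero, v_one]
  | succ a ih =>
    rw [pow_succ]
    exact v_mul_nonneg A _ _ ih hx

theorem c0_pow (x : A.K) (hx : 0 ≤ A.v x) (a : ℕ) : A.c0 (x ^ a) = A.c0 x ^ a := by
  induction a with
  | zero => rw [pow_zero, pow_zero, c0_one]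
  | succ a ih => rw [pow_succ, pow_succ, A.c0_mul _ _ (v_pow_nonneg A x hx a) hx, ih]

theorem v_sum_nonneg (n : ℕ) (x : ℕ → A.K) (hx : ∀ i, 0 ≤ A.v (x i)) :
    0 ≤ A.v (∑ i ∈ range n, x i) := by
  induction n with
  | zero => rw [sum_range_zero, AddValuation.map_zero]; exact le_top
  | succ n ih =>
    rw [sum_range_succ]
    exact le_trans (le_min ih (hx n)) (AddValuation.map_add _ _ _)

theorem c0_sum (n : ℕ) (x : ℕ → A.K) :
    A.c0 (∑ i ∈ range n, x i) = ∑ i ∈ range n, A.c0 (x i) := by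
  induction n with
  | zero => rw [sum_range_zero, sum_range_zero, c0_zero]
  | succ n ih => rw [sum_range_succ, sum_range_succ, A.c0_add, ih]

theorem v_iter (x : A.K) (i : ℕ) : A.v ((A.gK)^[i] x) = A.v x := by
  induction i with
  | zero => rfl
  | succ i ih => rw [Function.iterate_succ_apply', A.v_gK, ih]

theorem c0_iter (x : A.K) (i : ℕ) : A.c0 ((A.gK)^[i] x) = (A.g)^[i] (A.c0 x) := by
  induction i with
  | zero => rfl
  | succ i ih => rw [Function.iterate_succ_apply', Function.iterate_succ_apply', A.c0_gK, ih]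

theorem gK_sum (x : A.K) (a : ℕ) :
    A.gK (∑ i ∈ range (2 ^ m), ((A.gK)^[i] x) ^ a) = ∑ i ∈ range (2 ^ m), ((A.gK)^[i] x) ^ a := by
  rw [map_sum]
  have h1 : ∀ i ∈ range (2 ^ m), A.gK (((A.gK)^[i] x) ^ a) = ((A.gK)^[i + 1] x) ^ a := by
    intro i _
    rw [map_pow, Function.iterate_succ_apply']
  rw [sum_congr rfl h1]
  have h2 := sum_range_succ' (fun i => ((A.gK)^[i] x) ^ a) (2 ^ m)
  have h3 := sum_range_succ (fun i => ((A.gK)^[i] x) ^ a) (2 ^ m)
  rw [h3, A.gK_pow] at h2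
  exact (add_right_cancel h2).symm

/-- the residues of the fixed integral elements -/
def S : Set A.P := {s | ∃ x : A.K, A.gK x = x ∧ 0 ≤ A.v x ∧ A.c0 x = s}

theorem alg_S (b : A.K) (hb : 0 ≤ A.v b) : IsAlgebraic (ad A.f (S A)) (A.c0 b) := by
  have h := newton_alg (ad A.f (S A)) (2 ^ m) (fun i => (A.g)^[i] (A.c0 b)) ?_ 0 (by positivity)
  · exact h
  · intro a
    apply Subfield.subset_closure
    right
    refine ⟨∑ i ∈ range (2 ^ m), ((A.gK)^[i] b) ^ a, gK_sum A b a, ?_, ?_⟩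
    · apply v_sum_nonneg
      intro i
      apply v_pow_nonneg
      rw [v_iter]
      exact hb
    · rw [c0_sum]
      refine sum_congr rfl fun i _ => ?_
      rw [c0_pow, c0_iter]
      rw [v_iter]
      exact hb

end AuxC

/-- 14.1 -/
theorem aux_elements {m : ℕ} (A : Datum m) (n : ℕ) (hn : 2 ≤ n) (hT : A.Tight n) :
    ∃ A0 A1 : A.K, A.gK A0 = A0 ∧ A.gK A1 = A1 ∧ 0 ≤ A.v A0 ∧ 0 ≤ A.v A1 ∧
      AlgebraicIndependent A.f ![A.c0 A0, A.c0 A1] := by
  obtain ⟨-, ⟨b, hb, hind⟩, -⟩ := hT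
  have h2 : AlgebraicIndependent A.f ![A.c0 (b ⟨0, by omega⟩), A.c0 (b ⟨1, by omega⟩)] := by
    have h3 := hind.comp (![⟨0, by omega⟩, ⟨1, by omega⟩] : Fin 2 → Fin n) ?_
    · convert h3 using 1
      funext i
      fin_cases i <;> rfl
    · intro i j hij
      fin_cases i <;> fin_cases j <;> simp_all
  obtain ⟨s1, ⟨x1, hx1, hv1, hc1⟩, s2, ⟨x2, hx2, hv2, hc2⟩, h⟩ := ps_choose A.f _ _ h2 (AuxC.S A)
    (AuxC.alg_S A _ (hb _)) (AuxC.alg_S A _ (hb _))
  refine ⟨x1, x2, hx1, hx2, hv1, hv2, ?_⟩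
  rw [hc1, hc2]
  exact h

end Pool.Agent.DA
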