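import Pool.Agent.DA.DBasic2

/-! Section 11 -/

set_option autoImplicit false

namespace Pool.Agent.DA

namespace BaseAux

open Polynomial

/-- `pi -> -pi` -/
noncomputable def tw {P : Type*} [Field P] : LaurentSeries P →+* LaurentSeries P where
  toFun x :=
    { coeff := fun n => (-1) ^ n * x.coeff n
      isPWO_support' := x.isPWO_support.mono (by
        intro n hn
        simp only [Function.mem_support, ne_eq, mul_eq_zero, not_or] at hn
        exact hn.2) }
  map_one' := by
    ext n
    simp only [HahnSeries.coeff_one]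
    split_ifs with h
    · subst h; simp
    · simp
  map_mul' x y := by
    ext n
    simp only [HahnSeries.coeff_mul]
    rw [Finset.mul_sum]
    have h0 : ∀ k : ℤ, ((-1 : P)) ^ k ≠ 0 := fun k => zpow_ne_zero k (by norm_num)
    apply Finset.sum_congr_of_eq_on_inter
    · intro ij h1 h2
      exfalso
      apply h2
      simp only [Finset.mem_antidiagonal, HahnSeries.mem_support, ne_eq] at h1 ⊢
      exact ⟨mul_ne_zero (h0 _) h1.1, mul_ne_zero (h0 _) h1.2.1, h1.2.2⟩
    · intro ij h1 h2
      exfalso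
      apply h2
      simp only [Finset.mem_antidiagonal, HahnSeries.mem_support, ne_eq] at h1 ⊢
      exact ⟨right_ne_zero_of_mul h1.1, right_ne_zero_of_mul h1.2.1, h1.2.2⟩
    · intro ij h1 h2
      have : ij.1 + ij.2 = n := by
        simp only [Finset.mem_antidiagonal] at h1
        exact h1.2.2
      rw [← this, zpow_add₀ (by norm_num)]
      ring
  map_zero' := by ext n; simp
  map_add' x y := by
    ext n
    simp [mul_add]

theorem tw_coeff {P : Type*} [Field P] (x : LaurentSeries P) (n : ℤ) :
    (tw x).coeff n = (-1) ^ n * x.coeff n := rfl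

abbrev R := RatFunc ℚ

noncomputable def tau : R ≃+* R :=
  IsFractionRing.ringEquivOfRingEquiv (algEquivAevalNegX (R := ℚ)).toRingEquiv

theorem tau_alg (p : ℚ[X]) : tau (algebraMap ℚ[X] R p) = algebraMap ℚ[X] R (aeval (-X) p) :=
  IsFractionRing.ringEquivOfRingEquiv_algebraMap _ _

theorem tau_C (q : ℚ) : tau (RatFunc.C q) = RatFunc.C q := by
  rw [← RatFunc.algebraMap_C, tau_alg]
  simp

theorem tau_X : tau RatFunc.X = -RatFunc.X := by
  rw [← RatFunc.algebraMap_X, tau_alg]
  simp

theorem tau_tau (x : R) : tau (tau x) = x := by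
  induction x using RatFunc.induction_on with
  | f p q hq =>
    rw [map_div₀, map_div₀, tau_alg, tau_alg, tau_alg, tau_alg]
    have : ∀ p : ℚ[X], aeval (-X : ℚ[X]) (aeval (-X : ℚ[X]) p) = p := by
      intro p
      rw [← comp_eq_aeval, ← comp_eq_aeval, comp_assoc]
      simp
    rw [this, this]

noncomputable def ff : Subfield R := (RatFunc.C : ℚ →+* R).fieldRange

theorem mem_ff (x : R) : x ∈ ff ↔ ∃ q : ℚ, RatFunc.C q = x := by
  simp [ff]

theorem ff_alg (x : R) (hx : IsAlgebraic ff x) : x ∈ ff := by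
  by_contra h
  have h1 := RatFunc.transcendental_of_ne_C x (by
    rintro ⟨c, hc⟩
    apply h
    rw [mem_ff]
    exact ⟨c, hc.symm⟩)
  apply h1
  obtain ⟨p, hp, hpx⟩ := hx
  let e : ℚ →+* ff := (RatFunc.C : ℚ →+* R).codRestrict ff (fun q => (mem_ff _).2 ⟨q, rfl⟩)
  have he : Function.Surjective e := by
    rintro ⟨y, hy⟩
    obtain ⟨q, hq⟩ := (mem_ff y).1 hy
    exact ⟨q, Subtype.ext hq⟩
  obtain ⟨p', hp'⟩ := Polynomial.map_surjective e he p
  refine ⟨p', ?_, ?_⟩
  · rintro rfl
    simp at hp'
    exact hp hp'.symm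
  · rw [← hp', aeval_def, eval₂_map] at hpx
    exact hpx

noncomputable def KK : Subfield (LaurentSeries R) :=
  Subfield.closure {HahnSeries.single 2 1, HahnSeries.single 1 (RatFunc.X)⁻¹}

theorem KK_le : KK ≤ RingHom.eqLocusField (hat (tau : R →+* R)) tw := by
  rw [KK, Subfield.closure_le]
  rintro x (rfl | rfl)
  · change _ = _
    ext n
    rw [hat_coeff, tw_coeff, HahnSeries.coeff_single]
    split_ifs with h
    · subst h; norm_num
    · simp
  · change _ = _
    ext n
    rw [hat_coeff, tw_coeff, HahnSeries.coeff_single]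
    split_ifs with h
    · subst h
      change tau _ = _
      rw [map_inv₀, tau_X]
      norm_num [inv_neg]
    · simp

theorem hat_refl (x : LaurentSeries R) : hat ((RingEquiv.refl R : R ≃+* R) : R →+* R) x = x := by
  ext n; rfl

noncomputable def D : Datum 0 where
  P := R
  f := ff
  hf := ff_alg
  g := RingEquiv.refl R
  τ := tau
  g_f := fun x _ => rfl
  τ_f := by
    intro x hx
    obtain ⟨q, rfl⟩ := (mem_ff x).1 hx
    exact tau_C q
  g_pow := fun x => rfl
  τ_sq := tau_tau
  gτ := fun x => rfl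
  ρ := RatFunc.X
  ρ_ne := RatFunc.X_ne_zero
  g_ρ := rfl
  τ_ρ := tau_X
  K := KK
  K_cnt := by
    rw [← Cardinal.mk_le_aleph0_iff]
    refine (Subfield.cardinalMk_closure_le_max _).trans ?_
    rw [max_le_iff]
    refine ⟨?_, le_refl _⟩
    rw [Cardinal.mk_le_aleph0_iff]
    exact (Set.countable_insert.2 (Set.countable_singleton _)).to_subtype
  K_τ := by
    intro x hx n
    have := KK_le hx
    change hat (tau : R →+* R) x = tw x at this
    have h2 := congrArg (fun y : LaurentSeries R => y.coeff n) this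
    exact h2
  K_g := fun x hx => by rw [hat_refl]; exact hx
  K_g' := fun x hx => by
    have : hat (((RingEquiv.refl R).symm : R ≃+* R) : R →+* R) x = x := hat_refl x
    rw [this]; exact hx
  K_W := Subfield.subset_closure (by simp)
  K_a := Subfield.subset_closure (by simp)
  K_f := by
    intro α hα
    obtain ⟨q, rfl⟩ := (mem_ff α).1 hα
    refine ⟨HahnSeries.C (RatFunc.C q), ?_, ?_, ?_⟩
    · have : (HahnSeries.C (RatFunc.C q) : LaurentSeries R) = ((q : ℚ) : LaurentSeries R) := by
        exact map_ratCast (HahnSeries.C.comp (RatFunc.C : ℚ →+* R)) q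
      rw [this]
      exact SubfieldClass.ratCast_mem _ q
    · intro n
      rw [HahnSeries.C_apply, HahnSeries.coeff_single]
      split_ifs
      · exact hα
      · exact zero_mem _
    · rw [sub_self, HahnSeries.orderTop_zero]
      exact WithTop.coe_lt_top 0

theorem gen {m : ℕ} (A : Datum m)
    (hK : A.K ≤ Subfield.closure {HahnSeries.single 2 1, HahnSeries.single 1 A.ρ⁻¹}) (x : A.K) :
    x ∈ Subfield.closure ((A.F : Set A.K) ∪ ({A.a} : Set A.K)) := by
  let S := Subfield.closure ((A.F : Set A.K) ∪ ({A.a} : Set A.K))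
  have h1 : Subfield.closure {HahnSeries.single 2 1, HahnSeries.single 1 A.ρ⁻¹} ≤
      S.map A.K.subtype := by
    rw [Subfield.closure_le]
    rintro y (rfl | rfl)
    · exact ⟨A.W, Subfield.subset_closure (Or.inl A.W_mem), rfl⟩
    · exact ⟨A.a, Subfield.subset_closure (Or.inr rfl), rfl⟩
  obtain ⟨y, hy, hyx⟩ := h1 (hK x.2)
  have : y = x := Subtype.ext hyx
  rw [← this]
  exact hy

theorem coe_b {m : ℕ} (A : Datum m) :
    ((A.W / A.a ^ 2 : A.K) : LaurentSeries A.P) = HahnSeries.single 0 (A.ρ ^ 2) := by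
  have h1 : ((A.W / A.a ^ 2 : A.K) : LaurentSeries A.P) =
      HahnSeries.single 2 1 / (HahnSeries.single 1 A.ρ⁻¹) ^ 2 := rfl
  rw [h1]
  have h2 : (HahnSeries.single 1 A.ρ⁻¹ : LaurentSeries A.P) ^ 2 = HahnSeries.single 2 (A.ρ⁻¹ ^ 2) := by
    rw [HahnSeries.single_pow]
    rfl
  rw [h2, div_eq_iff, HahnSeries.single_mul_single]
  · congr 1
    have := A.ρ_ne
    field_simp
  · rw [Ne, HahnSeries.single_eq_zero_iff]
    exact pow_ne_zero 2 (inv_ne_zero A.ρ_ne)

theorem tight {m : ℕ} (A : Datum m)
    (hK : A.K ≤ Subfield.closure {HahnSeries.single 2 1, HahnSeries.single 1 A.ρ⁻¹})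
    (hρ : ¬ IsAlgebraic A.f A.ρ) : A.Tight 1 := by
  refine ⟨?_, ?_, ?_⟩
  · have hal : Algebra.IsAlgebraic (Algebra.adjoin A.F ({A.a} : Set A.K)) A.K := by
      constructor
      intro x
      have hx := gen A hK x
      induction hx using Subfield.closure_induction with
      | mem y hy =>
        rcases hy with hy | hy
        · exact isAlgebraic_algebraMap (A := A.K)
            (⟨y, (Algebra.adjoin A.F ({A.a} : Set A.K)).algebraMap_mem ⟨y, hy⟩⟩ :
              Algebra.adjoin A.F ({A.a} : Set A.K))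
        · exact isAlgebraic_algebraMap (A := A.K)
            (⟨y, Algebra.subset_adjoin hy⟩ : Algebra.adjoin A.F ({A.a} : Set A.K))
      | one => exact isAlgebraic_one
      | add y z hy hz ihy ihz => exact ihy.add ihz
      | neg y hy ihy => exact ihy.neg
      | inv y hy ihy => exact ihy.inv
      | mul y z hy hz ihy ihz => exact ihy.mul ihz
    have := Algebra.IsAlgebraic.trdeg_le_cardinalMk A.F ({A.a} : Set A.K)
    simpa using this
  · refine ⟨fun _ => A.W / A.a ^ 2, ?_, ?_⟩
    · intro _
      rw [A.v_apply, coe_b]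
      exact HahnSeries.orderTop_single_le
    · rw [algebraicIndependent_unique_type_iff]
      have h1 : A.c0 (A.W / A.a ^ 2) = A.ρ ^ 2 := by
        rw [Datum.c0, coe_b, HahnSeries.coeff_single_same]
      rw [h1]
      intro h
      apply hρ
      exact h.of_pow two_pos
  · refine ⟨{A.a}, ?_⟩
    intro x
    rw [Finset.coe_singleton]
    exact gen A hK x

end BaseAux

/-- 11 -/
theorem base : ∃ A : Datum 0, A.Tight 1 := by
  refine ⟨BaseAux.D, BaseAux.tight _ le_rfl ?_⟩
  intro h
  have := BaseAux.ff_alg _ h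
  obtain ⟨q, hq⟩ := (BaseAux.mem_ff _).1 this
  change RatFunc.C q = RatFunc.X at hq
  rw [← RatFunc.algebraMap_C, ← RatFunc.algebraMap_X] at hq
  have h2 := RatFunc.algebraMap_injective ℚ hq
  have h3 := congrArg Polynomial.natDegree h2
  rw [Polynomial.natDegree_C, Polynomial.natDegree_X] at h3
  exact zero_ne_one h3

end Pool.Agent.DA
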