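import Pool.Agent.DA.Defs
import Pool.Agent.Helper13.DV.PT

/-! Section 9.6 : adjoining the cocycle constants `c_i` -/

set_option autoImplicit false

namespace Pool.Agent.DA

open Finset Polynomial

namespace CadjAux

variable (E : Type) [Field E] (M : ℕ)

/-- the polynomial ring -/
abbrev A : Type := MvPolynomial (Fin (2 * M + 1)) E

/-- the rational function field -/
abbrev PP : Type := FractionRing (A E M)

/-- the variables `x_0, …, x_{2M}`; `x_j = 1` for `j > 2M` -/
noncomputable def x (j : ℕ) : PP E M :=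
  if h : j < 2 * M + 1 then algebraMap (A E M) (PP E M) (MvPolynomial.X ⟨j, h⟩) else 1

theorem x_of_lt {j : ℕ} (h : j < 2 * M + 1) :
    x E M j = algebraMap (A E M) (PP E M) (MvPolynomial.X ⟨j, h⟩) := dif_pos h

theorem x_ne (j : ℕ) : x E M j ≠ 0 := by
  unfold x
  split_ifs with h
  · rw [Ne, FaithfulSMul.algebraMap_eq_zero_iff]
    exact MvPolynomial.X_ne_zero _
  · exact one_ne_zero

variable {E}

/-- `c_0` -/
noncomputable def c0 (σ : E) : PP E M :=
  algebraMap E (PP E M) σ * (∏ j ∈ range (M + 1), x E M (2 * j)) /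
    ∏ j ∈ range M, x E M (2 * j + 1)

theorem prod_ne (s : Finset ℕ) (f : ℕ → ℕ) : ∏ j ∈ s, x E M (f j) ≠ 0 :=
  prod_ne_zero_iff.2 fun _ _ => x_ne E M _

theorem c0_ne {σ : E} (hσ : σ ≠ 0) : c0 M σ ≠ 0 := by
  unfold c0
  refine div_ne_zero (mul_ne_zero ?_ (prod_ne M _ _)) (prod_ne M _ _)
  rwa [Ne, FaithfulSMul.algebraMap_eq_zero_iff]

/-- the images of the variables -/
noncomputable def b (σ : E) (j : Fin (2 * M + 1)) : PP E M :=
  if (j : ℕ) < 2 * M then x E M (j + 1) else c0 M σ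

theorem adjoin_b {σ : E} (hσ : σ ≠ 0) :
    IntermediateField.adjoin E (Set.range (b M σ)) = (⊤ : IntermediateField E (PP E M)) := by
  set L := IntermediateField.adjoin E (Set.range (b M σ)) with hL
  have h1 : ∀ j, 1 ≤ j → x E M j ∈ L := by
    intro j hj
    by_cases h : j < 2 * M + 1
    · refine IntermediateField.subset_adjoin _ _ ⟨⟨j - 1, by omega⟩, ?_⟩
      rw [b, if_pos (show j - 1 < 2 * M by omega)]
      show x E M (j - 1 + 1) = _
      rw [Nat.sub_add_cancel hj]
    · rw [x, dif_neg h]; exact L.one_mem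
  have hc0 : c0 M σ ∈ L := by
    refine IntermediateField.subset_adjoin _ _ ⟨⟨2 * M, by omega⟩, ?_⟩
    rw [b, if_neg (by simp)]
  have h0 : x E M 0 ∈ L := by
    have : x E M 0 = c0 M σ * (∏ j ∈ range M, x E M (2 * j + 1)) /
        (algebraMap E (PP E M) σ * ∏ j ∈ range M, x E M (2 * (j + 1))) := by
      have hs : algebraMap E (PP E M) σ ≠ 0 := by rwa [Ne, FaithfulSMul.algebraMap_eq_zero_iff]
      rw [c0, prod_range_succ', div_mul_cancel₀ _ (prod_ne M _ _), mul_zero,
        eq_div_iff (mul_ne_zero hs (prod_ne M _ _))]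
      ring
    rw [this]
    refine L.div_mem (L.mul_mem hc0 ?_) (L.mul_mem (L.algebraMap_mem _) ?_)
    · exact prod_mem fun j _ => h1 _ (by omega)
    · exact prod_mem fun j _ => h1 _ (by omega)
  have hA : ∀ p : A E M, algebraMap (A E M) (PP E M) p ∈ L := by
    intro p
    induction p using MvPolynomial.induction_on with
    | C a =>
      have : algebraMap (A E M) (PP E M) (MvPolynomial.C a) = algebraMap E (PP E M) a := by
        rw [← MvPolynomial.algebraMap_eq, ← IsScalarTower.algebraMap_apply]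
      rw [this]; exact L.algebraMap_mem _
    | add p q hp hq => rw [map_add]; exact L.add_mem hp hq
    | mul_X p i hp =>
      rw [map_mul]
      refine L.mul_mem hp ?_
      have hx := x_of_lt E M i.2
      rw [← hx]
      rcases Nat.eq_zero_or_pos (i : ℕ) with h | h
      · rw [h]; exact h0
      · exact h1 _ h
  rw [eq_top_iff]
  intro y _
  obtain ⟨p, q, _, rfl⟩ := IsFractionRing.div_surjective (A := A E M) y
  exact L.div_mem (hA p) (hA q)

theorem isTranscendenceBasis_X :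
    IsTranscendenceBasis E (fun j : Fin (2 * M + 1) => x E M j) := by
  haveI : Algebra.IsAlgebraic (A E M) (PP E M) :=
    IsFractionRing.comap_isAlgebraic_iff.mpr (inferInstance : Algebra.IsAlgebraic (PP E M) (PP E M))
  have h := (IsTranscendenceBasis.mvPolynomial (Fin (2 * M + 1)) E).algebraMap_comp
    (A := PP E M)
  convert h using 1
  ext j
  exact x_of_lt E M j.2

theorem algebraicIndependent_b {σ : E} (hσ : σ ≠ 0) : AlgebraicIndependent E (b M σ) := by
  haveI : Algebra.IsAlgebraic (Algebra.adjoin E (Set.range (b M σ))) (PP E M) := by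
    rw [← IntermediateField.isAlgebraic_adjoin_iff_top]
    refine ⟨fun y => ?_⟩
    have hy : y ∈ IntermediateField.adjoin E (Set.range (b M σ)) := by
      rw [adjoin_b M hσ]; trivial
    exact isAlgebraic_algebraMap (⟨y, hy⟩ : IntermediateField.adjoin E (Set.range (b M σ)))
  refine (Algebra.IsAlgebraic.isTranscendenceBasis_of_le_trdeg_of_finite E (b M σ) ?_).1
  rw [← (isTranscendenceBasis_X (E := E) M).cardinalMk_eq_trdeg]

/-- the ring homomorphism `θ₁` -/
noncomputable def θ0 (θ : E ≃+* E) (σ : E) : A E M →+* PP E M :=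
  MvPolynomial.eval₂Hom ((algebraMap E (PP E M)).comp (θ : E →+* E)) (b M σ)

theorem θ0_injective (θ : E ≃+* E) {σ : E} (hσ : σ ≠ 0) : Function.Injective (θ0 M θ σ) := by
  have h : θ0 M θ σ = (MvPolynomial.aeval (b M σ) : A E M →ₐ[E] PP E M).toRingHom.comp
      (MvPolynomial.map (θ : E →+* E)) := by
    apply MvPolynomial.ringHom_ext
    · intro e; simp [θ0]
    · intro j; simp [θ0]
  rw [h, RingHom.coe_comp]
  exact (show Function.Injective (MvPolynomial.aeval (b M σ) : A E M →ₐ[E] PP E M) from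
    algebraicIndependent_b M hσ).comp (MvPolynomial.map_injective _ θ.injective)

/-- `θ₁ : P → P` -/
noncomputable def θ1 (θ : E ≃+* E) {σ : E} (hσ : σ ≠ 0) : PP E M →+* PP E M :=
  IsFractionRing.lift (θ0_injective M θ hσ)

theorem algebraMap_C (e : E) :
    algebraMap (A E M) (PP E M) (MvPolynomial.C e) = algebraMap E (PP E M) e := by
  rw [← MvPolynomial.algebraMap_eq, ← IsScalarTower.algebraMap_apply]

theorem θ1_E (θ : E ≃+* E) {σ : E} (hσ : σ ≠ 0) (e : E) :
    θ1 M θ hσ (algebraMap E (PP E M) e) = algebraMap E (PP E M) (θ e) := by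
  rw [← algebraMap_C, θ1, IsFractionRing.lift_algebraMap, θ0]
  simp

theorem θ1_x (θ : E ≃+* E) {σ : E} (hσ : σ ≠ 0) {j : ℕ} (hj : j < 2 * M) :
    θ1 M θ hσ (x E M j) = x E M (j + 1) := by
  rw [x_of_lt E M (by omega : j < 2 * M + 1), θ1, IsFractionRing.lift_algebraMap, θ0,
    MvPolynomial.eval₂Hom_X', b, if_pos hj]

theorem θ1_last (θ : E ≃+* E) {σ : E} (hσ : σ ≠ 0) :
    θ1 M θ hσ (x E M (2 * M)) = c0 M σ := by
  rw [x_of_lt E M (by omega : 2 * M < 2 * M + 1), θ1, IsFractionRing.lift_algebraMap, θ0,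
    MvPolynomial.eval₂Hom_X', b, if_neg (by simp)]

theorem θ1_c0 (θ : E ≃+* E) {σ : E} (hσ : σ ≠ 0) (h1 : θ σ = σ⁻¹) :
    θ1 M θ hσ (c0 M σ) = x E M 0 := by
  have hs : algebraMap E (PP E M) σ ≠ 0 := by rwa [Ne, FaithfulSMul.algebraMap_eq_zero_iff]
  have e1 : θ1 M θ hσ (∏ j ∈ range (M + 1), x E M (2 * j)) =
      (∏ j ∈ range M, x E M (2 * j + 1)) * c0 M σ := by
    rw [prod_range_succ, map_mul, θ1_last, map_prod]
    congr 1
    exact prod_congr rfl fun j hj => θ1_x M θ hσ (by have := mem_range.1 hj; omega)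
  have e2 : θ1 M θ hσ (∏ j ∈ range M, x E M (2 * j + 1)) =
      ∏ j ∈ range M, x E M (2 * (j + 1)) := by
    rw [map_prod]
    exact prod_congr rfl fun j hj => θ1_x M θ hσ (by have := mem_range.1 hj; omega)
  have e3 : c0 M σ * ∏ j ∈ range M, x E M (2 * j + 1) =
      algebraMap E (PP E M) σ * ((∏ j ∈ range M, x E M (2 * (j + 1))) * x E M 0) := by
    rw [c0, div_mul_cancel₀ _ (prod_ne M _ _), prod_range_succ', mul_zero]
  conv_lhs => rw [c0]
  rw [map_div₀, map_mul, θ1_E, h1, map_inv₀, e1, e2, div_eq_iff (prod_ne M _ _),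
    mul_comm _ (c0 M σ), e3, ← mul_assoc, inv_mul_cancel₀ hs, one_mul, mul_comm]

theorem iterate_x (θ : E ≃+* E) {σ : E} (hσ : σ ≠ 0) (k : ℕ) (hk : k ≤ 2 * M) :
    (θ1 M θ hσ)^[k] (x E M 0) = x E M k := by
  induction k with
  | zero => rfl
  | succ k ih =>
    rw [Function.iterate_succ_apply', ih (by omega), θ1_x M θ hσ (by omega)]

theorem iterate_c0 (θ : E ≃+* E) {σ : E} (hσ : σ ≠ 0) (h1 : θ σ = σ⁻¹) (k : ℕ)
    (hk : k ≤ 2 * M) : (θ1 M θ hσ)^[k + 1] (c0 M σ) = x E M k := by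
  rw [Function.iterate_succ_apply, θ1_c0 M θ hσ h1, iterate_x M θ hσ k hk]

theorem iterate_full (θ : E ≃+* E) {σ : E} (hσ : σ ≠ 0) (h1 : θ σ = σ⁻¹) :
    (θ1 M θ hσ)^[2 * (M + 1)] (x E M 0) = x E M 0 := by
  have : 2 * (M + 1) = (2 * M + 1) + 1 := by ring
  rw [this, Function.iterate_succ_apply', Function.iterate_succ_apply',
    iterate_x M θ hσ _ le_rfl, θ1_last, θ1_c0 M θ hσ h1]

/-- two endomorphisms of `P` are equal if they agree on `E` and on the variables -/
theorem hom_ext {B : Type*} [Semiring B] {φ ψ : PP E M →+* B}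
    (h1 : ∀ e, φ (algebraMap E (PP E M) e) = ψ (algebraMap E (PP E M) e))
    (h2 : ∀ j, j ≤ 2 * M → φ (x E M j) = ψ (x E M j)) : φ = ψ := by
  apply IsLocalization.ringHom_ext (nonZeroDivisors (A E M))
  apply MvPolynomial.ringHom_ext
  · intro e
    rw [RingHom.comp_apply, RingHom.comp_apply, algebraMap_C, h1]
  · intro j
    have := h2 j (by omega)
    rw [x_of_lt E M j.2] at this
    exact this

theorem θ1_pow (θ : E ≃+* E) {σ : E} (hσ : σ ≠ 0) (h1 : θ σ = σ⁻¹)
    (hθ : ∀ x, θ^[2 * (M + 1)] x = x) (y : PP E M) : (θ1 M θ hσ)^[2 * (M + 1)] y = y := by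
  have hE : ∀ (k : ℕ) (e : E), (θ1 M θ hσ)^[k] (algebraMap E (PP E M) e) =
      algebraMap E (PP E M) (θ^[k] e) := by
    intro k e
    induction k with
    | zero => rfl
    | succ k ih => rw [Function.iterate_succ_apply', ih, θ1_E, Function.iterate_succ_apply']
  have key : (θ1 M θ hσ) ^ (2 * (M + 1)) = RingHom.id (PP E M) := by
    apply hom_ext
    · intro e
      rw [RingHom.coe_pow, hE, hθ]; rfl
    · intro j hj
      rw [RingHom.coe_pow, RingHom.id_apply, ← iterate_x M θ hσ j hj,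
        ← Function.iterate_add_apply, Nat.add_comm (2 * (M + 1)) j,
        Function.iterate_add_apply,
        iterate_full M θ hσ h1]
  have := congrArg (fun φ : PP E M →+* PP E M => φ y) key
  simpa only [RingHom.coe_pow, RingHom.id_apply] using this

/-- `θ'` -/
noncomputable def θ' (θ : E ≃+* E) {σ : E} (hσ : σ ≠ 0) (h1 : θ σ = σ⁻¹)
    (hθ : ∀ x, θ^[2 * (M + 1)] x = x) : PP E M ≃+* PP E M :=
  RingEquiv.ofBijective (θ1 M θ hσ) ⟨(θ1 M θ hσ).injective, fun y =>
    ⟨(θ1 M θ hσ)^[2 * M + 1] y, by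
      rw [← Function.iterate_succ_apply' (θ1 M θ hσ)]
      exact θ1_pow M θ hσ h1 hθ y⟩⟩

/-- `τ'` -/
noncomputable def τ' (τ : E ≃+* E) : PP E M ≃+* PP E M :=
  IsFractionRing.ringEquivOfRingEquiv (MvPolynomial.mapEquiv (Fin (2 * M + 1)) τ)

theorem τ'_E (τ : E ≃+* E) (e : E) :
    τ' M τ (algebraMap E (PP E M) e) = algebraMap E (PP E M) (τ e) := by
  rw [← algebraMap_C, τ', IsFractionRing.ringEquivOfRingEquiv_algebraMap, ← algebraMap_C]
  simp

theorem τ'_x (τ : E ≃+* E) (j : ℕ) : τ' M τ (x E M j) = x E M j := by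
  by_cases h : j < 2 * M + 1
  · rw [x_of_lt E M h, τ', IsFractionRing.ringEquivOfRingEquiv_algebraMap]
    simp
  · rw [x, dif_neg h, map_one]

theorem τ'_c0 (τ : E ≃+* E) {σ : E} (h2 : τ σ = σ) : τ' M τ (c0 M σ) = c0 M σ := by
  rw [c0, map_div₀, map_mul, τ'_E, h2, map_prod, map_prod]
  simp only [τ'_x]

end CadjAux

open CadjAux in
/-- 9.6 (here `n` is the number of even indices: `θ^{2n} = 1`) -/
theorem cadj (E : Type) [Field E] (θ τ : E ≃+* E) (n : ℕ) (hn : 1 ≤ n)
    (hθ : ∀ x, θ^[2 * n] x = x) (hτ : ∀ x, τ (τ x) = x) (hc : ∀ x, θ (τ x) = τ (θ x))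
    (σ : E) (hσ : σ ≠ 0) (h1 : θ σ = σ⁻¹) (h2 : τ σ = σ) :
    ∃ (P : Type) (_ : Field P) (i : E →+* P) (θ' τ' : P ≃+* P) (c : P), c ≠ 0 ∧
      (∀ x, θ' (i x) = i (θ x)) ∧ (∀ x, τ' (i x) = i (τ x)) ∧
      (∀ x, θ'^[2 * n] x = x) ∧ (∀ x, τ' (τ' x) = x) ∧ (∀ x, θ' (τ' x) = τ' (θ' x)) ∧
      (∀ j, τ' (θ'^[j] c) = θ'^[j] c) ∧
      (∏ j ∈ range n, θ'^[2 * j] c = i σ * ∏ j ∈ range n, θ'^[2 * j + 1] c) ∧
      (∀ Q : MvPolynomial (Fin (2 * n - 1)) E,
        Q.eval₂ i (fun j : Fin (2 * n - 1) => θ'^[(j : ℕ) + 1] c) = 0 → Q = 0) ∧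
      (∀ x : P, ∀ Q : E[X], Q ≠ 0 → Q.eval₂ i x = 0 → ∃ e, x = i e) := by
  obtain ⟨M, rfl⟩ : ∃ M, n = M + 1 := ⟨n - 1, by omega⟩
  have hcoe : ⇑(CadjAux.θ' M θ hσ h1 hθ) = ⇑(θ1 M θ hσ) := rfl
  have hcomm : ∀ y : PP E M, θ' M θ hσ h1 hθ (CadjAux.τ' M τ y) =
      CadjAux.τ' M τ (CadjAux.θ' M θ hσ h1 hθ y) := by
    have key : ((CadjAux.θ' M θ hσ h1 hθ : PP E M →+* PP E M)).comp
        (CadjAux.τ' M τ : PP E M →+* PP E M) =
        (CadjAux.τ' M τ : PP E M →+* PP E M).comp (CadjAux.θ' M θ hσ h1 hθ) := by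
      apply CadjAux.hom_ext
      · intro e
        simp only [RingHom.comp_apply, RingHom.coe_coe, hcoe, τ'_E, θ1_E, hc]
      · intro j hj
        simp only [RingHom.comp_apply, RingHom.coe_coe, hcoe, τ'_x]
        rcases Nat.lt_or_ge j (2 * M) with h | h
        · rw [θ1_x M θ hσ h, τ'_x]
        · have : j = 2 * M := by omega
          rw [this, θ1_last, τ'_c0 M τ h2]
    intro y
    exact congrArg (fun φ : PP E M →+* PP E M => φ y) key
  refine ⟨PP E M, inferInstance, algebraMap E (PP E M), CadjAux.θ' M θ hσ h1 hθ,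
    CadjAux.τ' M τ, c0 M σ, c0_ne M hσ, ?_, ?_, ?_, ?_, hcomm, ?_, ?_, ?_, ?_⟩
  · intro x; exact θ1_E M θ hσ x
  · intro x; exact τ'_E M τ x
  · intro x; exact θ1_pow M θ hσ h1 hθ x
  · have key : (CadjAux.τ' M τ : PP E M →+* PP E M).comp (CadjAux.τ' M τ : PP E M →+* PP E M) =
        RingHom.id _ := by
      apply CadjAux.hom_ext
      · intro e
        simp only [RingHom.comp_apply, RingHom.coe_coe, τ'_E, hτ, RingHom.id_apply]
      · intro j _
        simp only [RingHom.comp_apply, RingHom.coe_coe, τ'_x, RingHom.id_apply]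
    intro y
    exact congrArg (fun φ : PP E M →+* PP E M => φ y) key
  · intro j
    have : Function.Commute (CadjAux.τ' M τ) (CadjAux.θ' M θ hσ h1 hθ) := fun y => (hcomm y).symm
    rw [(this.iterate_right j).eq, τ'_c0 M τ h2]
  · rw [hcoe, prod_range_succ']
    have e1 : ∀ j ∈ range M, (θ1 M θ hσ)^[2 * (j + 1)] (c0 M σ) = x E M (2 * j + 1) := by
      intro j hj
      have := mem_range.1 hj
      exact iterate_c0 M θ hσ h1 (2 * j + 1) (by omega)
    have e2 : ∀ j ∈ range (M + 1), (θ1 M θ hσ)^[2 * j + 1] (c0 M σ) = x E M (2 * j) := by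
      intro j hj
      have := mem_range.1 hj
      exact iterate_c0 M θ hσ h1 (2 * j) (by omega)
    rw [prod_congr rfl e1, prod_congr rfl e2, mul_zero, Function.iterate_zero_apply, c0,
      mul_div_cancel₀ _ (prod_ne M _ _)]
  · intro Q hQ
    have e1 : (fun j : Fin (2 * (M + 1) - 1) => (θ1 M θ hσ)^[(j : ℕ) + 1] (c0 M σ)) =
        fun j : Fin (2 * (M + 1) - 1) => x E M j := by
      funext j
      exact iterate_c0 M θ hσ h1 j (by omega)
    rw [hcoe, e1] at hQ
    have hind : AlgebraicIndependent E (fun j : Fin (2 * (M + 1) - 1) => x E M j) :=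
      (isTranscendenceBasis_X (E := E) M).1
    apply hind
    rw [map_zero]
    exact hQ
  · intro y Q hQ h0
    set k : Subfield (PP E M) := (algebraMap E (PP E M)).fieldRange with hk
    letI : Algebra E k := ((algebraMap E (PP E M)).rangeRestrictField).toAlgebra
    haveI : IsScalarTower E k (PP E M) := IsScalarTower.of_algebraMap_eq fun _ => rfl
    haveI : Algebra.IsAlgebraic E k := ⟨by
      rintro ⟨_, e, rfl⟩
      exact isAlgebraic_algebraMap (R := E) (A := k) e⟩
    have hind : AlgebraicIndependent k (fun j : Fin (2 * M + 1) => x E M j) :=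
      (isTranscendenceBasis_X (E := E) M).1.extendScalars k
    have hy : IsAlgebraic k y := by
      have : IsAlgebraic E y := ⟨Q, hQ, h0⟩
      exact this.extendScalars (R := E) (S := k) (algebraMap E k).injective
    have hmem : y ∈ Subfield.closure ((k : Set (PP E M)) ∪
        Set.range (fun j : Fin (2 * M + 1) => x E M j)) := by
      set L := Subfield.closure ((k : Set (PP E M)) ∪
        Set.range (fun j : Fin (2 * M + 1) => x E M j)) with hL
      have hA : ∀ p : A E M, algebraMap (A E M) (PP E M) p ∈ L := by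
        intro p
        induction p using MvPolynomial.induction_on with
        | C a =>
          rw [algebraMap_C]
          exact Subfield.subset_closure (Or.inl ⟨a, rfl⟩)
        | add p q hp hq => rw [map_add]; exact L.add_mem hp hq
        | mul_X p i hp =>
          rw [map_mul, ← x_of_lt E M i.2]
          exact L.mul_mem hp (Subfield.subset_closure (Or.inr ⟨i, rfl⟩))
      obtain ⟨p, q, _, rfl⟩ := IsFractionRing.div_surjective (A := A E M) y
      exact L.div_mem (hA p) (hA q)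
    obtain ⟨e, he⟩ := Helper13.DV.mem_of_isAlgebraic_pt k _ hind y hmem hy
    exact ⟨e, he.symm⟩

end Pool.Agent.DA
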