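import Pool.Agent.DA.Step
import Pool.Agent.DA.Base

/-! Section 15.1 (bookkeeping) -/

set_option autoImplicit false

namespace Pool.Agent.DA

namespace ChainAux

/-- a state at level `m` : a tight datum with a list of tasks -/
structure St (m : ℕ) where
  A : Datum m
  hT : A.Tight 1
  T : ℕ → Bool × A.K

/-- the tasks of number `pair m k` run through all tasks of level `m` infinitely often -/
def Full {m : ℕ} (s : St m) : Prop :=
  ∀ (b : Bool) (z : s.A.K) (N : ℕ), ∃ k, N ≤ k ∧ s.T (Nat.pair m k) = (b, z)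

/-- an enumeration in which every element occurs infinitely often -/
theorem exists_enum (X : Type*) [Countable X] [Nonempty X] :
    ∃ e : ℕ → X, ∀ (x : X) (N : ℕ), ∃ k, N ≤ k ∧ e k = x := by
  obtain ⟨e, he⟩ := exists_surjective_nat X
  refine ⟨fun k => e (Nat.unpair k).1, fun x N => ?_⟩
  obtain ⟨a, ha⟩ := he x
  exact ⟨Nat.pair a N, Nat.right_le_pair a N, by simp [ha]⟩

theorem exists_start : ∃ s : St 0, Full s := by
  obtain ⟨A, hT⟩ := base
  obtain ⟨e, he⟩ := exists_enum (Bool × A.K)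
  refine ⟨⟨A, hT, fun j => e (Nat.unpair j).2⟩, fun b z N => ?_⟩
  obtain ⟨k, hk, hk'⟩ := he (b, z) N
  exact ⟨k, hk, by simpa using hk'⟩

theorem exists_next (m : ℕ) (s : St m) : ∃ s' : St (m + 1), ∃ h : StepHom s.A s'.A,
    ((s.T m).2 ∉ s.A.F → if (s.T m).1 then h.TaskP (s.T m).2 else h.TaskN (s.T m).2) ∧
    (∀ j, (Nat.unpair j).1 ≤ m → s'.T j = ((s.T j).1, h.ι (s.T j).2)) ∧ Full s' := by
  classical
  obtain ⟨B, h, hB, hh⟩ := step s.A s.hT (s.T m).2 (s.T m).1
  obtain ⟨e, he⟩ := exists_enum (Bool × B.K)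
  refine ⟨⟨B, hB, fun j => if (Nat.unpair j).1 ≤ m then ((s.T j).1, h.ι (s.T j).2)
    else e (Nat.unpair j).2⟩, h, hh, ?_, ?_⟩
  · intro j hj
    simp [hj]
  · intro b z N
    obtain ⟨k, hk, hk'⟩ := he (b, z) N
    refine ⟨k, hk, ?_⟩
    simp [hk']

end ChainAux

open ChainAux in
/-- 15.1, bookkeeping -/
theorem exists_chain : ∃ C : Chain,
    (∀ (i : ℕ) (z : (C.A i).K) (n : ℕ), ∃ k, n ≤ k ∧
      (C.tr i k z ∉ (C.A (i + k)).F → (C.h (i + k)).TaskP (C.tr i k z))) ∧
    (∀ (i : ℕ) (z : (C.A i).K), ∃ k,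
      (C.tr i k z ∉ (C.A (i + k)).F → (C.h (i + k)).TaskN (C.tr i k z))) := by
  obtain ⟨s0, hs0⟩ := exists_start
  choose nx h h1 h2 h3 using exists_next
  let S : ∀ m, St m := fun m => Nat.rec s0 (fun m s => nx m s) m
  have hS : ∀ m, S (m + 1) = nx m (S m) := fun m => rfl
  have hfull : ∀ m, Full (S m) := by
    intro m
    cases m with
    | zero => exact hs0
    | succ m => exact h3 m (S m)
  let C : Chain := ⟨fun m => (S m).A, fun m => h m (S m), fun m => (S m).hT⟩
  have key : ∀ (i k0 : ℕ) (b : Bool) (z : (C.A i).K), (S i).T (Nat.pair i k0) = (b, z) →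
      ∀ k, (S (i + k)).T (Nat.pair i k0) = (b, C.tr i k z) := by
    intro i k0 b z hz k
    induction k with
    | zero => exact hz
    | succ k ih =>
      have := h2 (i + k) (S (i + k)) (Nat.pair i k0) (by simp)
      rw [ih] at this
      exact this
  have main : ∀ (i : ℕ) (b : Bool) (z : (C.A i).K) (n : ℕ), ∃ k, n ≤ k ∧
      (C.tr i k z ∉ (C.A (i + k)).F → if b then (C.h (i + k)).TaskP (C.tr i k z)
        else (C.h (i + k)).TaskN (C.tr i k z)) := by
    intro i b z n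
    obtain ⟨k0, hk0, hk⟩ := hfull i b z (i + n)
    obtain ⟨k, hkk⟩ : ∃ k, Nat.pair i k0 = i + k :=
      ⟨Nat.pair i k0 - i, by have := Nat.left_le_pair i k0; omega⟩
    have hge := Nat.right_le_pair i k0
    refine ⟨k, by omega, ?_⟩
    have e1 := key i k0 b z hk k
    rw [hkk] at e1
    have e2 := h1 (i + k) (S (i + k))
    rw [e1] at e2
    exact e2
  refine ⟨C, fun i z n => ?_, fun i z => ?_⟩
  · obtain ⟨k, hk, hk'⟩ := main i true z n
    exact ⟨k, hk, fun hz => by simpa using hk' hz⟩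
  · obtain ⟨k, hk, hk'⟩ := main i false z 0
    exact ⟨k, fun hz => by simpa using hk' hz⟩

end Pool.Agent.DA
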