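import Pool.Agent.DA.CutBuild
import Pool.Agent.DA.PS

/-! Section 13, cu3 and conclusion -/

set_option autoImplicit false

namespace Pool.Agent.DA

namespace CutTight

open Cardinal AlgebraicIndependent

/-- the algebraic closure of a subfield as a subfield -/
noncomputable def acl {Ω : Type} [Field Ω] (E : Subfield Ω) : Subfield Ω :=
  (algebraicClosure E Ω).toSubfield

theorem mem_acl {Ω : Type} [Field Ω] (E : Subfield Ω) (x : Ω) : x ∈ acl E ↔ IsAlgebraic E x :=
  mem_algebraicClosure_iff

theorem alg_mono {Ω : Type} [Field Ω] {E F : Subfield Ω} (h : E ≤ F) {x : Ω}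
    (hx : IsAlgebraic E x) : IsAlgebraic F x :=
  hx.ringHom_of_comp_eq (Subfield.inclusion h) (RingHom.id Ω) (Subfield.inclusion h).injective rfl

theorem le_acl {Ω : Type} [Field Ω] (E : Subfield Ω) : E ≤ acl E := fun x hx =>
  (mem_acl E x).2 (isAlgebraic_algebraMap (⟨x, hx⟩ : E))

theorem acl_acl {Ω : Type} [Field Ω] (E : Subfield Ω) (x : Ω) (hx : IsAlgebraic (acl E) x) :
    IsAlgebraic E x := by
  have h1 : IsIntegral (algebraicClosure E Ω) x := by
    have : IsAlgebraic (algebraicClosure E Ω) x := hx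
    exact this.isIntegral
  exact (isIntegral_trans x h1 : IsIntegral E x).isAlgebraic

theorem acl_mono {Ω : Type} [Field Ω] {E F : Subfield Ω} (h : E ≤ F) : acl E ≤ acl F :=
  fun x hx => (mem_acl F x).2 (alg_mono h ((mem_acl E x).1 hx))

theorem acl_le {Ω : Type} [Field Ω] {E F : Subfield Ω} (h : E ≤ acl F) : acl E ≤ acl F :=
  fun x hx => (mem_acl F x).2 (acl_acl F x (alg_mono h ((mem_acl E x).1 hx)))

theorem le_ad {Ω : Type} [Field Ω] (E : Subfield Ω) (s : Set Ω) : E ≤ ad E s :=
  fun _ hx => Subfield.subset_closure (Or.inl hx)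

theorem sub_ad {Ω : Type} [Field Ω] (E : Subfield Ω) (s : Set Ω) : s ⊆ ad E s :=
  fun _ hx => Subfield.subset_closure (Or.inr hx)

theorem ad_le {Ω : Type} [Field Ω] {E F : Subfield Ω} {s : Set Ω} (h : E ≤ F) (hs : s ⊆ F) :
    ad E s ≤ F := Subfield.closure_le.2 (Set.union_subset h hs)

theorem ad_eq {Ω : Type} [Field Ω] (E : Subfield Ω) (s : Set Ω) :
    ad E s = (IntermediateField.adjoin E s).toSubfield := by
  unfold ad
  rw [IntermediateField.adjoin_toSubfield]
  congr 1
  congr 1
  ext x
  constructor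
  · exact fun h => ⟨⟨x, h⟩, rfl⟩
  · rintro ⟨y, rfl⟩
    exact y.2

open IntermediateField.algebraAdjoinAdjoin in
theorem isAlg_adjoin {Ω : Type} [Field Ω] (E : Subfield Ω) (s : Set Ω) (x : Ω) :
    IsAlgebraic (Algebra.adjoin E s) x ↔ x ∈ acl (ad E s) := by
  rw [mem_acl, ad_eq]
  exact IsFractionRing.isAlgebraic_iff (Algebra.adjoin E s) (IntermediateField.adjoin E s) Ω

theorem closure_eq {Ω : Type} [Field Ω] (E : Subfield Ω) (s : Set Ω) :
    (matroid E Ω).closure s = (acl (ad E s) : Set Ω) := by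
  rw [matroid_closure_eq]
  ext x
  rw [SetLike.mem_coe, Subalgebra.mem_algebraicClosure, SetLike.mem_coe]
  exact isAlg_adjoin E s x

theorem pair_le {Ω : Type} (c d : Ω) : ({c, d} : Set Ω).encard ≤ 2 := by
  refine (Set.encard_insert_le _ _).trans ?_
  rw [Set.encard_singleton]
  norm_num

/-- rank of a span -/
theorem encard_le {Ω : Type} [Field Ω] (E : Subfield Ω) (s t : Set Ω)
    (hs : AlgebraicIndepOn E id s) (hst : s ⊆ acl (ad E t)) : s.encard ≤ t.encard := by
  have h1 : (matroid E Ω).Indep s := matroid_indep_iff.2 hs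
  have h2 : s ⊆ (matroid E Ω).closure t := by rw [closure_eq]; exact hst
  have h3 := h1.encard_le_eRk_of_subset h2
  rw [Matroid.eRk_closure_eq] at h3
  exact h3.trans ((matroid E Ω).eRk_le_encard t)

/-- `n + 1` independent elements `c, b i` over `k`, `f = k(c, d)`: `n - 1` of the `b i` are
independent over `f` -/
theorem choose_ind {Ω : Type} [Field Ω] (k : Subfield Ω) (c d : Ω) (n : ℕ) (b : Fin n → Ω)
    (h : AlgebraicIndependent k (Fin.cons c b : Fin (n + 1) → Ω)) :
    ∃ σ : Fin (n - 1) → Fin n, AlgebraicIndependent (ad k {c, d}) (fun i => b (σ i)) := by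
  classical
  obtain ⟨s, hs⟩ := (matroid (ad k {c, d}) Ω).exists_isBasis (Set.range b)
    (by rw [matroid_e]; exact Set.subset_univ _)
  have hsind : AlgebraicIndepOn (ad k {c, d}) id s := matroid_indep_iff.1 hs.indep
  have hsub : s ⊆ Set.range b := hs.subset
  have hcl : Set.range b ⊆ (acl (ad (ad k {c, d}) s) : Set Ω) := by
    rw [← closure_eq]; exact hs.subset_closure
  -- the big set
  have hle : ad (ad k {c, d}) s ≤ ad k ({c, d} ∪ s) := by
    refine ad_le (ad_le (le_ad _ _) ?_) ?_
    · exact (Set.subset_union_left).trans (sub_ad _ _)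
    · exact (Set.subset_union_right).trans (sub_ad _ _)
  have hbig : Set.range (Fin.cons c b : Fin (n + 1) → Ω) ⊆ acl (ad k ({c, d} ∪ s)) := by
    rw [Fin.range_cons]
    refine Set.insert_subset ?_ (hcl.trans (acl_mono hle))
    exact le_acl _ (sub_ad _ _ (Or.inl (Or.inl rfl)))
  have hcard := encard_le k _ _ (h.to_subtype_range) hbig
  have hinj : Function.Injective (Fin.cons c b : Fin (n + 1) → Ω) := h.injective
  have hr : (Set.range (Fin.cons c b : Fin (n + 1) → Ω)).encard = (n + 1 : ℕ) := by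
    rw [← Set.image_univ, hinj.encard_image, Set.encard_univ]
    simp
  rw [hr] at hcard
  have hsfin : s.Finite := (Set.finite_range b).subset hsub
  have h2 : (({c, d} : Set Ω) ∪ s).encard ≤ 2 + s.encard :=
    (Set.encard_union_le _ _).trans (add_le_add_left (pair_le c d) _)
  have h3 : n + 1 ≤ 2 + s.ncard := by
    have := hcard.trans h2
    rw [← hsfin.cast_ncard_eq] at this
    exact_mod_cast this
  have hns : n - 1 ≤ s.ncard := by omega
  -- an injection
  have hbinj : Function.Injective b := by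
    have := hinj.comp (Fin.succ_injective n)
    simpa [Function.comp_def] using this
  have := hsfin.fintype
  obtain ⟨e⟩ : Nonempty (Fin (n - 1) ↪ s) := by
    rw [Function.Embedding.nonempty_iff_card_le]
    rw [Fintype.card_fin, ← Nat.card_eq_fintype_card, Nat.card_coe_set_eq]
    exact hns
  choose f hf using fun x : s => hsub x.2
  refine ⟨fun i => f (e i), ?_⟩
  have h4 : AlgebraicIndependent (ad k {c, d}) (fun x : s => (x : Ω)) := hsind
  have h5 := h4.comp e e.injective
  have : (fun i => b (f (e i))) = (fun x : s => (x : Ω)) ∘ e := by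
    funext i
    exact hf (e i)
  rw [this]
  exact h5

/-- the upper bound -/
theorem trdeg_up {Ω : Type} [Field Ω] (E F : Subfield Ω) (hEF : E ≤ F) (y t : Ω) (hy : y ∈ F)
    (ht : t ∈ F) (hind : AlgebraicIndependent E ![y, t]) (n : ℕ) (s : Set Ω)
    (hs : #s ≤ (n + 1 : ℕ)) (halg : ∀ x : Ω, x ∈ acl (ad E s)) :
    Algebra.trdeg F Ω ≤ (n - 1 : ℕ) := by
  let _ : Algebra E F := (Subfield.inclusion hEF).toAlgebra
  have : IsScalarTower E F Ω := IsScalarTower.of_algebraMap_eq (fun _ => rfl)
  have : Algebra.IsAlgebraic (Algebra.adjoin E s) Ω := ⟨fun x => (isAlg_adjoin E s x).2 (halg x)⟩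
  have h1 : Algebra.trdeg E Ω ≤ #s := Algebra.IsAlgebraic.trdeg_le_cardinalMk E s
  have h2 : Algebra.trdeg E F + Algebra.trdeg F Ω = Algebra.trdeg E Ω := _root_.trdeg_add_eq E F
  have h3 : (2 : Cardinal) ≤ Algebra.trdeg E F := by
    have : AlgebraicIndependent E (![⟨y, hy⟩, ⟨t, ht⟩] : Fin 2 → F) := by
      refine AlgebraicIndependent.of_comp (IsScalarTower.toAlgHom E F Ω) ?_
      convert hind using 1
      funext i
      fin_cases i <;> rfl
    have := this.cardinalMk_le_trdeg
    simpa using this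
  have h4 : Algebra.trdeg E Ω ≤ (n + 1 : ℕ) := h1.trans hs
  have h5 : Algebra.trdeg F Ω < ℵ₀ :=
    (le_add_self.trans h2.le).trans_lt (h4.trans_lt (natCast_lt_aleph0))
  obtain ⟨k, hk⟩ := lt_aleph0.1 h5
  rw [hk] at h2 ⊢
  have h6 : (2 : Cardinal) + k ≤ (n + 1 : ℕ) := (add_le_add_left h3 _).trans (h2.le.trans h4)
  have h7 : 2 + k ≤ n + 1 := by exact_mod_cast h6
  have h8 : k ≤ n - 1 := by omega
  exact_mod_cast h8

/-- change of variables: `(y, a0 + y a1)` is independent if `(y, a0, a1)` is -/
theorem ind_change {Ω : Type} [Field Ω] (k : Subfield Ω) (c a0 a1 : Ω)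
    (h : AlgebraicIndependent k (Fin.cons c ![a0, a1] : Fin 3 → Ω)) :
    AlgebraicIndependent k ![c, a0 + c * a1] := by
  classical
  set d := a0 + c * a1 with hd
  -- {c, d, a1} spans, so `encard ≥ 3`, and is independent
  have h1 : Set.range (Fin.cons c ![a0, a1] : Fin 3 → Ω) ⊆ acl (ad k {c, d, a1}) := by
    rw [Fin.range_cons, Matrix.range_cons, Matrix.range_cons, Matrix.range_empty, Set.union_empty]
    have hc : c ∈ ad k {c, d, a1} := sub_ad _ _ (by simp)
    have hd' : d ∈ ad k {c, d, a1} := sub_ad _ _ (by simp)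
    have ha : a1 ∈ ad k {c, d, a1} := sub_ad _ _ (by simp)
    have h0 : a0 = d - c * a1 := by rw [hd]; ring
    refine Set.insert_subset (le_acl _ hc) (Set.union_subset ?_ ?_)
    · rintro _ rfl
      rw [h0]
      exact le_acl _ (sub_mem hd' (mul_mem hc ha))
    · rintro _ rfl
      exact le_acl _ ha
  -- use the matroid: a basis inside {c, d, a1} has three elements
  obtain ⟨s, hs⟩ := (matroid k Ω).exists_isBasis ({c, d, a1} : Set Ω)
    (by rw [matroid_e]; exact Set.subset_univ _)
  have hcl : ({c, d, a1} : Set Ω) ⊆ acl (ad k s) := by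
    rw [← closure_eq]; exact hs.subset_closure
  have h2 : Set.range (Fin.cons c ![a0, a1] : Fin 3 → Ω) ⊆ acl (ad k s) := by
    refine h1.trans (acl_le (ad_le ((le_ad _ _).trans (le_acl _)) hcl))
  have h3 := encard_le k _ _ (h.to_subtype_range) h2
  have hr : (Set.range (Fin.cons c ![a0, a1] : Fin 3 → Ω)).encard = (3 : ℕ) := by
    rw [← Set.image_univ, h.injective.encard_image, Set.encard_univ]
    simp
  rw [hr] at h3
  have hfin : ({c, d, a1} : Set Ω).Finite := by simp
  have h4 : ({c, d, a1} : Set Ω).encard ≤ 3 := by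
    refine (Set.encard_insert_le _ _).trans ?_
    refine (add_le_add_left (pair_le d a1) _).trans ?_
    norm_num
  have h5 : s = {c, d, a1} := by
    refine (hfin.subset hs.subset).eq_of_subset_of_encard_le hs.subset ?_
    exact h4.trans h3
  have h6 : ({c, d, a1} : Set Ω).encard = 3 := le_antisymm h4 (by rw [← h5]; exact h3)
  have hcd : c ≠ d := by
    intro hcd
    rw [← hcd] at h6
    have : ({c, c, a1} : Set Ω).encard ≤ 2 := by
      rw [Set.insert_eq_of_mem (Set.mem_insert _ _)]
      exact pair_le _ _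
    rw [h6] at this
    exact absurd this (by decide)
  have h7 : AlgebraicIndepOn k id ({c, d} : Set Ω) := by
    have : AlgebraicIndepOn k id s := matroid_indep_iff.1 hs.indep
    rw [h5] at this
    exact this.mono (by
      intro x hx
      rcases hx with rfl | rfl
      · simp
      · simp)
  have h8 : AlgebraicIndependent k (fun x : ({c, d} : Set Ω) => (x : Ω)) := h7
  have h9 := h8.comp (fun i : Fin 2 => (⟨![c, d] i, by fin_cases i <;> simp⟩ : ({c, d} : Set Ω))) (by
    intro i j hij
    have : ![c, d] i = ![c, d] j := congrArg Subtype.val hij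
    fin_cases i <;> fin_cases j <;> simp_all)
  exact h9

end CutTight

open CutTight Cardinal AlgebraicIndependent in
/-- 13, cu3 -/
theorem cut_tight {m : ℕ} {A B : Datum m} (h : CutHom A B) (A0 A1 : A.K)
    (v0 : 0 ≤ A.v A0) (v1 : 0 ≤ A.v A1)
    (hind : AlgebraicIndependent A.f ![A.c0 A0, A.c0 A1])
    (y t : B.K) (hy : y ∈ B.F) (ht : t ∈ B.F) (hty : t = h.j A0 + y * h.j A1)
    (vy : B.v y = 0) (vt : B.v t = 0)
    (gen : ∀ x : B.K, x ∈ Subfield.closure (Set.range h.j ∪ {y}))
    (hf : B.f = ad (fimg h) {B.c0 y, B.c0 t})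
    (res : ∀ (n : ℕ) (b : Fin n → A.K), (∀ i, 0 ≤ A.v (b i)) →
        AlgebraicIndependent A.f (fun i => A.c0 (b i)) →
        AlgebraicIndependent (fimg h)
          (Fin.cons (B.c0 y) (fun i => B.c0 (h.j (b i))) : Fin (n + 1) → B.P))
    (n : ℕ) (hn : 2 ≤ n) (hT : A.Tight n) : B.Tight (n - 1) := by
  classical
  obtain ⟨hT1, ⟨b, hb, hbi⟩, s, hs⟩ := hT
  have vj0 : ∀ x : A.K, 0 ≤ A.v x → 0 ≤ B.v (h.j x) := fun x hx => by rw [h.v_j]; exact hx
  -- residue of t
  have ct : B.c0 t = B.c0 (h.j A0) + B.c0 y * B.c0 (h.j A1) := by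
    rw [hty, B.c0_add, B.c0_mul _ _ vy.ge (vj0 _ v1)]
  refine ⟨?_, ?_, ?_⟩
  · -- upper bound
    set E0 : Subfield B.K := A.F.map h.j with hE0
    have hEF : E0 ≤ B.F := by
      rintro _ ⟨x, hx, rfl⟩
      exact h.F_j x hx
    -- y, t independent over E0
    have hyt : AlgebraicIndependent E0 ![y, t] := by
      refine B.ind_of_residue' E0 (fimg h) ?_ ![y, t] ?_ ?_
      · rintro _ ⟨x, hx, rfl⟩ hv
        rw [h.v_j] at hv
        exact Subfield.subset_closure ⟨x, hx, hv, rfl⟩
      · intro i
        fin_cases i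
        · exact vy.ge
        · exact vt.ge
      · have h1 := res 2 ![A0, A1] (by intro i; fin_cases i <;> assumption) (by
          convert hind using 1
          funext i
          fin_cases i <;> rfl)
        have h2 : AlgebraicIndependent (fimg h)
            (Fin.cons (B.c0 y) ![B.c0 (h.j A0), B.c0 (h.j A1)] : Fin 3 → B.P) := by
          convert h1 using 1
          funext i
          fin_cases i <;> rfl
        have h3 := ind_change (fimg h) _ _ _ h2
        rw [← ct] at h3
        convert h3 using 1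
        funext i
        fin_cases i <;> rfl
    -- transcendence basis of A.K over A.F
    obtain ⟨s0, hs0⟩ := exists_isTranscendenceBasis A.F A.K
    have hs0c : #s0 ≤ (n : ℕ) := by
      rw [hs0.cardinalMk_eq_trdeg]
      exact hT1
    have hs0a : ∀ x : A.K, x ∈ acl (ad A.F s0) := by
      intro x
      rw [← isAlg_adjoin]
      have h1 : (matroid A.F A.K).IsBase s0 := matroid_isBase_iff.2 hs0
      have h2 := matroid_spanning_iff.1 h1.spanning
      exact h2.isAlgebraic x
    refine trdeg_up E0 B.F hEF y t hy ht hyt n (h.j '' s0 ∪ {y}) ?_ ?_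
    · refine (Cardinal.mk_union_le _ _).trans ?_
      rw [Cardinal.mk_singleton]
      have : #(h.j '' s0) ≤ (n : ℕ) := Cardinal.mk_image_le.trans hs0c
      push_cast
      exact add_le_add_left this 1
    · intro x
      have h1 : Subfield.closure (Set.range h.j ∪ {y}) ≤ acl (ad E0 (h.j '' s0 ∪ {y})) := by
        rw [Subfield.closure_le]
        refine Set.union_subset ?_ ?_
        · rintro _ ⟨z, rfl⟩
          have hz := (mem_acl _ _).1 (hs0a z)
          have hle : (ad A.F s0).map h.j ≤ ad E0 (h.j '' s0 ∪ {y}) := by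
            unfold ad
            rw [RingHom.map_field_closure, Subfield.closure_le, Set.image_union]
            refine Set.union_subset ?_ ?_
            · rintro _ ⟨w, hw, rfl⟩
              exact Subfield.subset_closure (Or.inl ⟨w, hw, rfl⟩)
            · exact (Set.subset_union_left.trans (Set.subset_union_right)).trans
                Subfield.subset_closure
          refine (mem_acl _ _).2 (alg_mono hle ?_)
          refine hz.ringHom_of_comp_eq ((h.j.comp (ad A.F s0).subtype).codRestrict
            ((ad A.F s0).map h.j) (fun w => ⟨w, w.2, rfl⟩)) h.j ?_ rfl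
          exact RingHom.injective _
        · exact fun w hw => le_acl _ (sub_ad _ _ (Or.inr hw))
      exact h1 (gen x)
  · -- lower bound
    have h1 := res n b hb hbi
    obtain ⟨σ, hσ⟩ := choose_ind (fimg h) (B.c0 y) (B.c0 t) n _ h1
    refine ⟨fun i => h.j (b (σ i)), fun i => vj0 _ (hb _), ?_⟩
    rw [hf]
    exact hσ
  · -- finitely generated
    refine ⟨(s.image h.j) ∪ {y}, fun x => ?_⟩
    have h1 : Subfield.closure (Set.range h.j ∪ {y}) ≤
        Subfield.closure ((B.F : Set B.K) ∪ ((s.image h.j ∪ {y} : Finset B.K) : Set B.K)) := by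
      rw [Subfield.closure_le]
      refine Set.union_subset ?_ ?_
      · rintro _ ⟨z, rfl⟩
        have hz : h.j z ∈ (Subfield.closure ((A.F : Set A.K) ∪ s)).map h.j := ⟨z, hs z, rfl⟩
        rw [RingHom.map_field_closure, Set.image_union] at hz
        refine Subfield.closure_mono ?_ hz
        refine Set.union_subset_union ?_ ?_
        · rintro _ ⟨w, hw, rfl⟩
          exact h.F_j w hw
        · rintro _ ⟨w, hw, rfl⟩
          simp only [Finset.coe_union, Finset.coe_image, Finset.coe_singleton]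
          exact Or.inl ⟨w, hw, rfl⟩
      · rintro _ rfl
        refine Subfield.subset_closure (Or.inr ?_)
        simp
    exact h1 (gen x)

/-- 13 -/
theorem cut {m : ℕ} (A : Datum m) (A0 A1 : A.K) (h0 : A.gK A0 = A0) (h1 : A.gK A1 = A1)
    (v0 : 0 ≤ A.v A0) (v1 : 0 ≤ A.v A1)
    (hind : AlgebraicIndependent A.f ![A.c0 A0, A.c0 A1]) :
    ∃ (B : Datum m) (h : CutHom A B), h.Good A0 A1 ∧ ∀ n, 2 ≤ n → A.Tight n → B.Tight (n - 1) := by
  obtain ⟨R⟩ := cutRes A A0 A1 h0 h1 v0 v1 hind
  obtain ⟨B, h, y, t, hy, ht, hy0, ht0, hty, vy, vt, gen, hf, res⟩ := cutBuild R h0 h1 v0 v1 hind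
  exact ⟨B, h, ⟨y, hy, t, ht, hy0, ht0, hty⟩,
    cut_tight h A0 A1 v0 v1 hind y t hy ht hty vy vt gen hf res⟩

end Pool.Agent.DA
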