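import Pool.Agent.DA.Defs
import Pool.Agent.Helper49.Div.Taylor

/-! Section 9.10 : the automorphism `Psi` of `l((π))` -/

set_option autoImplicit false

namespace Pool.Agent.DA

namespace PsiAux

open Pool.Agent.Helper49.Div

variable {l : Type} [Field l]

theorem coeff_shift (x : LaurentSeries l) (a n : ℤ) :
    (HahnSeries.single a (1 : l) * x).coeff (n + a) = x.coeff n := by
  rw [HahnSeries.coeff_single_mul_add, one_mul]

theorem coeff_ofPS (p : PowerSeries l) (n : ℕ) :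
    (HahnSeries.ofPowerSeries ℤ l p).coeff (n : ℤ) = PowerSeries.coeff n p := by
  exact HahnSeries.ofPowerSeries_apply_coeff p n

theorem exists_rep (x : LaurentSeries l) : ∃ k0 : ℕ, ∀ k, k0 ≤ k → ∃ p : PowerSeries l,
    HahnSeries.single ((2 * k : ℕ) : ℤ) (1 : l) * x = HahnSeries.ofPowerSeries ℤ l p := by
  refine ⟨(-x.order).toNat, fun k hk => ?_⟩
  refine ⟨PowerSeries.mk fun n => x.coeff (n - (2 * k : ℕ)), ?_⟩
  ext n
  have h1 : (HahnSeries.single ((2 * k : ℕ) : ℤ) (1 : l) * x).coeff n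
      = x.coeff (n - (2 * k : ℕ)) := by
    have := coeff_shift x ((2 * k : ℕ) : ℤ) (n - (2 * k : ℕ))
    rwa [sub_add_cancel] at this
  rw [h1]
  rcases lt_or_ge n 0 with hn | hn
  · rw [PowerSeries.coeff_coe, if_pos hn]
    apply HahnSeries.coeff_eq_zero_of_lt_order
    omega
  · obtain ⟨m, rfl⟩ := Int.eq_ofNat_of_zero_le hn
    rw [coeff_ofPS, PowerSeries.coeff_mk]

theorem le_orderTop_iff (x : LaurentSeries l) (m : ℤ) :
    (m : WithTop ℤ) ≤ x.orderTop ↔ ∀ n < m, x.coeff n = 0 := by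
  constructor
  · intro h n hn
    exact HahnSeries.coeff_eq_zero_of_lt_orderTop (lt_of_lt_of_le (WithTop.coe_lt_coe.2 hn) h)
  · intro h
    by_contra hlt
    rw [not_le] at hlt
    obtain ⟨g, hg⟩ := WithTop.ne_top_iff_exists.1 (ne_top_of_lt hlt)
    have h1 := HahnSeries.coeff_orderTop_ne hg.symm
    rw [← hg, WithTop.coe_lt_coe] at hlt
    exact h1 (h g hlt)

end PsiAux

open PsiAux Pool.Agent.Helper49.Div in
/-- 9.10 -/
theorem psi_exists (l : Type) [Field l] (ψ : l →+* PowerSeries l)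
    (hψ : ∀ x, PowerSeries.constantCoeff (ψ x) = x) :
    ∃ Ψ : LaurentSeries l ≃+* LaurentSeries l,
      (∀ a, Ψ (HahnSeries.C a) = HahnSeries.ofPowerSeries ℤ l (ψ a)) ∧
      (Ψ (HahnSeries.single 1 1) = HahnSeries.single 1 1) ∧
      (∀ x, (Ψ x).orderTop = x.orderTop) ∧
      (∀ x : LaurentSeries l, 0 ≤ x.orderTop → (Ψ x).coeff 0 = x.coeff 0) ∧
      (∀ s : Set l, (∀ a ∈ s, ψ a = PowerSeries.C a) →
        ∀ x : LaurentSeries l, (∀ n, x.coeff n ∈ s) → Ψ x = x) ∧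
      (∀ (γ : l ≃+* l) (ε : l), (ε = 1 ∨ ε = -1) →
        (∀ (a : l) (n : ℕ), PowerSeries.coeff n (ψ (γ a)) = ε ^ n * γ (PowerSeries.coeff n (ψ a))) →
        ∀ x y : LaurentSeries l, (∀ n : ℤ, y.coeff n = ε ^ n * γ (x.coeff n)) →
          ∀ n : ℤ, (Ψ y).coeff n = ε ^ n * γ ((Ψ x).coeff n)) := by
  let Ψ : LaurentSeries l ≃+* LaurentSeries l :=
    IsFractionRing.ringEquivOfRingEquiv (K := LaurentSeries l) (L := LaurentSeries l) (PsiEquiv hψ)
  have hΨ : ∀ p, Ψ (HahnSeries.ofPowerSeries ℤ l p) = HahnSeries.ofPowerSeries ℤ l (Psi0 ψ p) :=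
    fun p => IsFractionRing.ringEquivOfRingEquiv_algebraMap (PsiEquiv hψ) p
  have hsingle : ∀ m : ℕ, Ψ (HahnSeries.single (m : ℤ) 1) = HahnSeries.single (m : ℤ) 1 := by
    intro m
    rw [← HahnSeries.ofPowerSeries_X_pow, hΨ, map_pow, Psi0_X]
  have hrep : ∀ (x : LaurentSeries l) (k : ℕ) (p : PowerSeries l),
      HahnSeries.single ((2 * k : ℕ) : ℤ) (1 : l) * x = HahnSeries.ofPowerSeries ℤ l p →
      HahnSeries.single ((2 * k : ℕ) : ℤ) (1 : l) * Ψ x = HahnSeries.ofPowerSeries ℤ l (Psi0 ψ p) := by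
    intro x k p h
    rw [← hΨ, ← h, map_mul, hsingle]
  have hc : ∀ (x : LaurentSeries l) (k : ℕ) (p : PowerSeries l),
      HahnSeries.single ((2 * k : ℕ) : ℤ) (1 : l) * x = HahnSeries.ofPowerSeries ℤ l p →
      (∀ m : ℕ, x.coeff ((m : ℤ) - (2 * k : ℕ)) = PowerSeries.coeff m p) ∧
      (∀ n : ℤ, n < -(2 * k : ℕ) → x.coeff n = 0) := by
    intro x k p h
    constructor
    · intro m
      have := coeff_shift x ((2 * k : ℕ) : ℤ) (m - (2 * k : ℕ))
      rw [← this, sub_add_cancel, h, coeff_ofPS]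
    · intro n hn
      have := coeff_shift x ((2 * k : ℕ) : ℤ) n
      rw [← this, h, PowerSeries.coeff_coe, if_pos (by omega)]
  have hord : ∀ (x : LaurentSeries l) (m : ℤ), (∀ n < m, x.coeff n = 0) ↔
      ∀ n < m, (Ψ x).coeff n = 0 := by
    intro x m
    obtain ⟨k0, hk0⟩ := exists_rep x
    obtain ⟨p, hp⟩ := hk0 (k0 + m.natAbs) (by omega)
    have hp' := hrep x _ p hp
    obtain ⟨c1, c2⟩ := hc x _ p hp
    obtain ⟨c3, c4⟩ := hc (Ψ x) _ _ hp'
    set k := k0 + m.natAbs with hk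
    have key : ∀ (y : LaurentSeries l) (q : PowerSeries l),
        (∀ j : ℕ, y.coeff ((j : ℤ) - (2 * k : ℕ)) = PowerSeries.coeff j q) →
        (∀ n : ℤ, n < -(2 * k : ℕ) → y.coeff n = 0) →
        ((∀ n < m, y.coeff n = 0) ↔ (PowerSeries.X : PowerSeries l) ^ (m + (2 * k : ℕ)).toNat ∣ q) := by
      intro y q d1 d2
      rw [PowerSeries.X_pow_dvd_iff]
      constructor
      · intro h j hj
        rw [← d1]
        apply h
        omega
      · intro h n hn
        rcases lt_or_ge n (-(2 * k : ℕ)) with h1 | h1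
        · exact d2 n h1
        · obtain ⟨j, hj⟩ := Int.eq_ofNat_of_zero_le (show 0 ≤ n + (2 * k : ℕ) by omega)
          have h2 : n = (j : ℤ) - (2 * k : ℕ) := by omega
          rw [h2, d1]
          apply h
          omega
    rw [key x p c1 c2, key (Ψ x) _ c3 c4, unip_dvd_iff (Psi0_sub hψ)]
  refine ⟨Ψ, ?_, ?_, ?_, ?_, ?_, ?_⟩
  · intro a
    have : (HahnSeries.C a : LaurentSeries l) = HahnSeries.ofPowerSeries ℤ l (PowerSeries.C a) :=
      (HahnSeries.ofPowerSeries_C a).symm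
    rw [this, hΨ, Psi0_C]
  · have := hsingle 1
    simpa using this
  · intro x
    apply eq_of_forall_le_iff
    intro c
    induction c using WithTop.recTopCoe with
    | top => rw [top_le_iff, top_le_iff, HahnSeries.orderTop_eq_top, HahnSeries.orderTop_eq_top,
        map_eq_zero_iff Ψ Ψ.injective]
    | coe m => rw [le_orderTop_iff, le_orderTop_iff, hord x m]
  · intro x hx
    obtain ⟨k0, hk0⟩ := exists_rep x
    obtain ⟨p, hp⟩ := hk0 k0 le_rfl
    have hp' := hrep x _ p hp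
    obtain ⟨c1, c2⟩ := hc x _ p hp
    obtain ⟨c3, c4⟩ := hc (Ψ x) _ _ hp'
    have h0 := (le_orderTop_iff x 0).1 (by exact_mod_cast hx)
    have hdvd : (PowerSeries.X : PowerSeries l) ^ (2 * k0) ∣ p := by
      rw [PowerSeries.X_pow_dvd_iff]
      intro j hj
      rw [← c1]
      apply h0
      omega
    have h1 := Psi0_sub hψ _ _ hdvd
    rw [PowerSeries.X_pow_dvd_iff] at h1
    have h2 := h1 (2 * k0) (Nat.lt_succ_self _)
    rw [map_sub, sub_eq_zero] at h2
    have h3 := c1 (2 * k0)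
    have h4 := c3 (2 * k0)
    rw [sub_self] at h3 h4
    rw [h3, h4, h2]
  · intro s hs x hx
    obtain ⟨k0, hk0⟩ := exists_rep x
    obtain ⟨p, hp⟩ := hk0 k0 le_rfl
    have hp' := hrep x _ p hp
    obtain ⟨c1, c2⟩ := hc x _ p hp
    have h1 : Psi0 ψ p = p := by
      apply Psi0_of_const
      intro n
      apply hs
      rw [← c1]
      exact hx _
    rw [h1, ← hp] at hp'
    have hne : (HahnSeries.single ((2 * k0 : ℕ) : ℤ) (1 : l) : LaurentSeries l) ≠ 0 :=
      HahnSeries.single_ne_zero one_ne_zero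
    exact mul_left_cancel₀ hne hp'
  · intro γ ε hε hγ x y hxy n
    obtain ⟨k1, hk1⟩ := exists_rep x
    obtain ⟨k2, hk2⟩ := exists_rep y
    obtain ⟨p, hp⟩ := hk1 (k1 + k2) (by omega)
    obtain ⟨q, hq⟩ := hk2 (k1 + k2) (by omega)
    set k := k1 + k2 with hk
    obtain ⟨c1, c2⟩ := hc x _ p hp
    obtain ⟨c3, c4⟩ := hc y _ q hq
    obtain ⟨d1, d2⟩ := hc (Ψ x) _ _ (hrep x _ p hp)
    obtain ⟨d3, d4⟩ := hc (Ψ y) _ _ (hrep y _ q hq)
    have hε0 : ε ≠ 0 := by
      rcases hε with rfl | rfl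
      · exact one_ne_zero
      · exact neg_ne_zero.2 one_ne_zero
    have hpow : ∀ j : ℕ, ε ^ ((j : ℤ) - (2 * k : ℕ)) = ε ^ j := by
      intro j
      rw [zpow_sub₀ hε0, zpow_natCast, zpow_natCast]
      have : ε ^ (2 * k) = 1 := by
        rcases hε with rfl | rfl
        · exact one_pow _
        · rw [pow_mul, neg_one_sq, one_pow]
      rw [this, div_one]
    have hqp : ∀ j, PowerSeries.coeff j q = ε ^ j * γ (PowerSeries.coeff j p) := by
      intro j
      rw [← c3, ← c1, hxy, hpow]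
    have hfin := Psi0_comm (ψ := ψ) (γ : l →+* l) hε hγ p q hqp
    rcases lt_or_ge n (-(2 * k : ℕ)) with h1 | h1
    · rw [d2 n h1, d4 n h1, map_zero, mul_zero]
    · obtain ⟨j, hj⟩ := Int.eq_ofNat_of_zero_le (show 0 ≤ n + (2 * k : ℕ) by omega)
      have h2 : n = (j : ℤ) - (2 * k : ℕ) := by omega
      rw [h2, d1, d3, hpow, hfin]
      rfl

end Pool.Agent.DA
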