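import Pool.Agent.DA.CutRes
import Pool.Agent.DA.Psi

/-! Section 13, second half : the new datum -/

set_option autoImplicit false

namespace Pool.Agent.DA

open Finset

/-- the subfield of the residues of the image of `F` -/
def fimg {m : ℕ} {A B : Datum m} (h : CutHom A B) : Subfield B.P :=
  Subfield.closure {β | ∃ x ∈ A.F, 0 ≤ A.v x ∧ β = B.c0 (h.j x)}

namespace CB

noncomputable section

/-! ### Laurent series -/

section laurent

variable {P Q : Type*} [Field P] [Field Q]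

theorem orderTop_congr (x : LaurentSeries P) (y : LaurentSeries Q)
    (h : ∀ n, x.coeff n = 0 ↔ y.coeff n = 0) : x.orderTop = y.orderTop := by
  by_cases hx : x = 0
  · have hy : y = 0 := by
      ext n
      rw [HahnSeries.coeff_zero, ← h n, hx, HahnSeries.coeff_zero]
    rw [hx, hy, HahnSeries.orderTop_zero, HahnSeries.orderTop_zero]
  · obtain ⟨k, hk⟩ : ∃ k : ℤ, x.orderTop = k :=
      ⟨x.orderTop.untop (HahnSeries.orderTop_ne_top.2 hx), (WithTop.coe_untop _ _).symm⟩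
    rw [hk]
    refine (HahnSeries.orderTop_eq_of_le ?_ ?_).symm
    · rw [HahnSeries.mem_support, Ne, ← h k]
      exact HahnSeries.coeff_orderTop_ne hk
    · intro g hg
      rw [HahnSeries.mem_support, Ne, ← h g] at hg
      have h1 := HahnSeries.orderTop_le_of_coeff_ne_zero hg
      rw [hk] at h1
      exact WithTop.coe_le_coe.1 h1

theorem coeff_neg_of_nonneg (x : LaurentSeries P) (h : 0 ≤ x.orderTop) (n : ℤ) (hn : n < 0) :
    x.coeff n = 0 := by
  refine HahnSeries.coeff_eq_zero_of_lt_orderTop (lt_of_lt_of_le ?_ h)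
  exact_mod_cast hn

theorem nonneg_of_coeff (x : LaurentSeries P) (h : ∀ n : ℤ, n < 0 → x.coeff n = 0) :
    0 ≤ x.orderTop := by
  by_contra hx
  push Not at hx
  obtain ⟨k, hk⟩ := WithTop.ne_top_iff_exists.1 (ne_top_of_lt hx)
  have h1 : x.coeff k ≠ 0 := HahnSeries.coeff_orderTop_ne hk.symm
  rw [← hk] at hx
  exact h1 (h k (by exact_mod_cast hx))

theorem coeff_zero_mul (x y : LaurentSeries P) (hx : 0 ≤ x.orderTop) (hy : 0 ≤ y.orderTop) :
    (x * y).coeff 0 = x.coeff 0 * y.coeff 0 := by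
  rw [HahnSeries.coeff_mul]
  have key : ∀ ij ∈ antidiagonal x.isPWO_support y.isPWO_support (0 : ℤ), ij = (0, 0) := by
    intro ij hij
    rw [Finset.mem_antidiagonal] at hij
    obtain ⟨h1, h2, h3⟩ := hij
    rw [HahnSeries.mem_support] at h1 h2
    have h4 : 0 ≤ ij.1 := by
      by_contra h
      push Not at h
      exact h1 (coeff_neg_of_nonneg x hx _ h)
    have h5 : 0 ≤ ij.2 := by
      by_contra h
      push Not at h
      exact h2 (coeff_neg_of_nonneg y hy _ h)
    ext <;> simp <;> omega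
  by_cases h0 : x.coeff 0 * y.coeff 0 = 0
  · rw [h0]
    refine Finset.sum_eq_zero fun ij hij => ?_
    rw [key ij hij]
    exact h0
  · rw [Finset.sum_eq_single (0, 0)]
    · intro ij hij hne
      exact absurd (key ij hij) hne
    · intro h
      exfalso
      apply h
      rw [Finset.mem_antidiagonal]
      exact ⟨left_ne_zero_of_mul h0, right_ne_zero_of_mul h0, by simp⟩

theorem ofPS_neg (X : PowerSeries P) (n : ℤ) (hn : n < 0) :
    (HahnSeries.ofPowerSeries ℤ P X).coeff n = 0 := by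
  rw [HahnSeries.ofPowerSeries_apply]
  refine HahnSeries.embDomain_of_notMem_range ?_
  rintro ⟨k, hk⟩
  change ((k : ℕ) : ℤ) = n at hk
  omega

/-- the twisted coefficientwise action on series -/
def twf (ε : P) (γ : P →+* P) (x : LaurentSeries P) : LaurentSeries P :=
  ⟨fun n => ε ^ n * γ (x.coeff n), by
    refine x.isPWO_support.mono ?_
    intro n hn
    rw [Function.mem_support] at hn
    rw [HahnSeries.mem_support]
    intro h
    apply hn
    rw [h, map_zero, mul_zero]⟩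

theorem twf_coeff (ε : P) (γ : P →+* P) (x : LaurentSeries P) (n : ℤ) :
    (twf ε γ x).coeff n = ε ^ n * γ (x.coeff n) := rfl

theorem twf_support (ε : P) (hε : ε ≠ 0) (γ : P →+* P) (x : LaurentSeries P) :
    (twf ε γ x).support = x.support := by
  ext n
  rw [HahnSeries.mem_support, HahnSeries.mem_support, twf_coeff, Ne, Ne, mul_eq_zero, not_or,
    map_eq_zero]
  constructor
  · exact fun h => h.2
  · exact fun h => ⟨zpow_ne_zero n hε, h⟩

theorem twf_mul (ε : P) (hε : ε ≠ 0) (γ : P →+* P) (x y : LaurentSeries P) :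
    twf ε γ (x * y) = twf ε γ x * twf ε γ y := by
  ext n
  rw [twf_coeff, HahnSeries.coeff_mul, HahnSeries.coeff_mul, map_sum, mul_sum]
  refine Finset.sum_congr ?_ ?_
  · ext ij
    rw [Finset.mem_antidiagonal, Finset.mem_antidiagonal, twf_support ε hε, twf_support ε hε]
  · intro ij hij
    rw [Finset.mem_antidiagonal] at hij
    rw [twf_coeff, twf_coeff, map_mul, ← hij.2.2, zpow_add₀ hε]
    ring

/-- the twisted coefficientwise action -/
def tw (ε : P) (hε : ε ≠ 0) (γ : P →+* P) : LaurentSeries P →+* LaurentSeries P where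
  toFun := twf ε γ
  map_one' := by
    ext n
    rw [twf_coeff]
    simp only [HahnSeries.coeff_one]
    split_ifs with h
    · rw [h, zpow_zero, map_one, one_mul]
    · rw [map_zero, mul_zero]
  map_zero' := by
    ext n
    simp [twf_coeff]
  map_add' x y := by
    ext n
    simp [twf_coeff, mul_add]
  map_mul' := twf_mul ε hε γ

theorem tw_coeff (ε : P) (hε : ε ≠ 0) (γ : P →+* P) (x : LaurentSeries P) (n : ℤ) :
    (tw ε hε γ x).coeff n = ε ^ n * γ (x.coeff n) := rfl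

/-- the residues of a subfield -/
def resF (M : Subfield (LaurentSeries P)) : Subfield P where
  carrier := {α | ∃ x ∈ M, 0 ≤ x.orderTop ∧ x.coeff 0 = α}
  one_mem' := ⟨1, M.one_mem, by simp, by simp⟩
  zero_mem' := ⟨0, M.zero_mem, by simp, by simp⟩
  add_mem' := by
    rintro a b ⟨x, hx, h1, rfl⟩ ⟨y, hy, h2, rfl⟩
    exact ⟨x + y, M.add_mem hx hy, le_trans (le_min h1 h2) HahnSeries.min_orderTop_le_orderTop_add,
      by simp⟩
  mul_mem' := by
    rintro a b ⟨x, hx, h1, rfl⟩ ⟨y, hy, h2, rfl⟩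
    refine ⟨x * y, M.mul_mem hx hy, ?_, coeff_zero_mul x y h1 h2⟩
    rw [HahnSeries.orderTop_mul]
    exact add_nonneg h1 h2
  neg_mem' := by
    rintro a ⟨x, hx, h1, rfl⟩
    exact ⟨-x, M.neg_mem hx, by simpa using h1, by simp⟩
  inv_mem' := by
    rintro a ⟨x, hx, h1, rfl⟩
    by_cases h0 : x.coeff 0 = 0
    · rw [h0, inv_zero]
      exact ⟨0, M.zero_mem, by simp, by simp⟩
    · have hx0 : x.orderTop = 0 := by
        refine le_antisymm ?_ h1
        exact_mod_cast HahnSeries.orderTop_le_of_coeff_ne_zero h0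
      have hxne : x ≠ 0 := by
        rintro rfl
        simp at hx0
      have h2 : x⁻¹.orderTop = 0 := by
        have h3 := HahnSeries.orderTop_mul x x⁻¹
        rw [mul_inv_cancel₀ hxne, hx0, zero_add, HahnSeries.orderTop_one] at h3
        exact h3.symm
      refine ⟨x⁻¹, M.inv_mem hx, h2.ge, ?_⟩
      have h3 := coeff_zero_mul x x⁻¹ h1 h2.ge
      rw [mul_inv_cancel₀ hxne] at h3
      refine eq_inv_of_mul_eq_one_right ?_
      rw [← h3]
      simp

theorem mem_resF {M : Subfield (LaurentSeries P)} {α : P} :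
    α ∈ resF M ↔ ∃ x ∈ M, 0 ≤ x.orderTop ∧ x.coeff 0 = α := Iff.rfl

theorem mem_range_hat (f : Subfield P) (x : LaurentSeries P) :
    x ∈ (hat f.subtype).fieldRange ↔ ∀ n, x.coeff n ∈ f := by
  constructor
  · rintro ⟨y, rfl⟩ n
    rw [hat_coeff]
    exact (y.coeff n).2
  · intro h
    refine ⟨⟨fun n => ⟨x.coeff n, h n⟩, ?_⟩, ?_⟩
    · refine x.isPWO_support.mono ?_
      intro n hn
      rw [Function.mem_support] at hn
      rw [HahnSeries.mem_support]
      intro h1
      apply hn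
      exact Subtype.ext h1
    · ext n
      rfl

end laurent

/-! ### the construction -/

section build

variable {m : ℕ} {A : Datum m} {A0 A1 : A.K} (R : CutRes A A0 A1)

/-- the residue of `t` -/
def tb : R.l := R.i (A.c0 A0) + R.Y * R.i (A.c0 A1)

/-- the field `K(y)` -/
def KY : Subfield (LaurentSeries R.l) :=
  Subfield.closure ((Set.range fun k : A.K => hat R.i (k : LaurentSeries A.P)) ∪
    {HahnSeries.C R.Y})

theorem H_mem (k : A.K) : hat R.i (k : LaurentSeries A.P) ∈ KY R :=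
  Subfield.subset_closure (Or.inl ⟨k, rfl⟩)

theorem Y_mem : HahnSeries.C R.Y ∈ KY R := Subfield.subset_closure (Or.inr rfl)

/-- the automorphism `Ψ` -/
structure PD where
  Ψ : LaurentSeries R.l ≃+* LaurentSeries R.l
  hC : ∀ a, Ψ (HahnSeries.C a) = HahnSeries.ofPowerSeries ℤ R.l (R.ψ a)
  hpi : Ψ (HahnSeries.single 1 1) = HahnSeries.single 1 1
  hord : ∀ x, (Ψ x).orderTop = x.orderTop
  hz : ∀ x : LaurentSeries R.l, 0 ≤ x.orderTop → (Ψ x).coeff 0 = x.coeff 0
  hs : ∀ s : Set R.l, (∀ a ∈ s, R.ψ a = PowerSeries.C a) →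
        ∀ x : LaurentSeries R.l, (∀ n, x.coeff n ∈ s) → Ψ x = x
  hγ : ∀ (γ : R.l ≃+* R.l) (ε : R.l), (ε = 1 ∨ ε = -1) →
        (∀ (a : R.l) (n : ℕ), PowerSeries.coeff n (R.ψ (γ a)) =
          ε ^ n * γ (PowerSeries.coeff n (R.ψ a))) →
        ∀ x y : LaurentSeries R.l, (∀ n : ℤ, y.coeff n = ε ^ n * γ (x.coeff n)) →
          ∀ n : ℤ, (Ψ y).coeff n = ε ^ n * γ ((Ψ x).coeff n)

theorem exists_PD : Nonempty (PD R) := by
  obtain ⟨Ψ, h1, h2, h3, h4, h5, h6⟩ := psi_exists R.l R.ψ R.ψ_c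
  exact ⟨⟨Ψ, h1, h2, h3, h4, h5, h6⟩⟩

variable {R} (D : PD R)

theorem C_of (a : R.l) (h : R.ψ a = PowerSeries.C a) : D.Ψ (HahnSeries.C a) = HahnSeries.C a := by
  rw [D.hC, h, HahnSeries.ofPowerSeries_C]

/-- the new field -/
def Kn : Subfield (LaurentSeries R.l) := (KY R).comap (D.Ψ : LaurentSeries R.l →+* LaurentSeries R.l)

theorem mem_Kn {x : LaurentSeries R.l} : x ∈ Kn D ↔ D.Ψ x ∈ KY R := Iff.rfl

theorem psi_g (x : LaurentSeries R.l) :
    D.Ψ (hat (R.g' : R.l →+* R.l) x) = hat (R.g' : R.l →+* R.l) (D.Ψ x) := by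
  ext n
  have h := D.hγ R.g' 1 (Or.inl rfl) (fun a n => by rw [one_pow, one_mul]; exact R.ψ_g a n) x
    (hat (R.g' : R.l →+* R.l) x) (fun n => by rw [one_zpow, one_mul]; rfl) n
  rw [one_zpow, one_mul] at h
  exact h

theorem psi_g' (x : LaurentSeries R.l) :
    D.Ψ (hat (R.g'.symm : R.l →+* R.l) x) = hat (R.g'.symm : R.l →+* R.l) (D.Ψ x) := by
  ext n
  have h := D.hγ R.g'.symm 1 (Or.inl rfl) (fun a n => by
      rw [one_pow, one_mul]
      have h1 := R.ψ_g (R.g'.symm a) n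
      rw [RingEquiv.apply_symm_apply] at h1
      rw [h1, RingEquiv.symm_apply_apply]) x
    (hat (R.g'.symm : R.l →+* R.l) x) (fun n => by rw [one_zpow, one_mul]; rfl) n
  rw [one_zpow, one_mul] at h
  exact h

theorem neg_one_ne : (-1 : R.l) ≠ 0 := neg_ne_zero.2 one_ne_zero

theorem psi_t (x : LaurentSeries R.l) :
    D.Ψ (tw (-1) neg_one_ne (R.τ' : R.l →+* R.l) x) =
      tw (-1) neg_one_ne (R.τ' : R.l →+* R.l) (D.Ψ x) := by
  ext n
  exact D.hγ R.τ' (-1) (Or.inr rfl) R.ψ_τ x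
    (tw (-1) neg_one_ne (R.τ' : R.l →+* R.l) x) (fun n => rfl) n

theorem KY_g : KY R ≤ (KY R).comap (hat (R.g' : R.l →+* R.l)) := by
  rw [KY, Subfield.closure_le]
  rintro x (⟨k, rfl⟩ | hx)
  · have h : hat (R.g' : R.l →+* R.l) (hat R.i (k : LaurentSeries A.P)) =
        hat R.i (A.gK k : LaurentSeries A.P) := by
      ext n
      rw [hat_coeff, hat_coeff, hat_coeff, A.gK_coeff]
      exact R.g_i _
    change hat (R.g' : R.l →+* R.l) (hat R.i (k : LaurentSeries A.P)) ∈ KY R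
    rw [h]
    exact H_mem R _
  · rw [Set.mem_singleton_iff] at hx
    have h : hat (R.g' : R.l →+* R.l) x = x := by
      rw [hx]
      ext n
      rw [hat_coeff, HahnSeries.C_apply, HahnSeries.coeff_single]
      split_ifs
      · exact R.g_Y
      · simp
    change hat (R.g' : R.l →+* R.l) x ∈ KY R
    rw [h, hx]
    exact Y_mem R

theorem KY_g' : KY R ≤ (KY R).comap (hat (R.g'.symm : R.l →+* R.l)) := by
  rw [KY, Subfield.closure_le]
  rintro x (⟨k, rfl⟩ | hx)
  · have h : hat (R.g'.symm : R.l →+* R.l) (hat R.i (k : LaurentSeries A.P)) =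
        hat R.i (A.gK.symm k : LaurentSeries A.P) := by
      ext n
      rw [hat_coeff, hat_coeff, hat_coeff]
      change R.g'.symm (R.i ((k : LaurentSeries A.P).coeff n)) =
        R.i (A.g.symm ((k : LaurentSeries A.P).coeff n))
      rw [RingEquiv.symm_apply_eq, R.g_i, RingEquiv.apply_symm_apply]
    change hat (R.g'.symm : R.l →+* R.l) (hat R.i (k : LaurentSeries A.P)) ∈ KY R
    rw [h]
    exact H_mem R _
  · rw [Set.mem_singleton_iff] at hx
    have h : hat (R.g'.symm : R.l →+* R.l) x = x := by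
      rw [hx]
      ext n
      rw [hat_coeff, HahnSeries.C_apply, HahnSeries.coeff_single]
      split_ifs
      · change R.g'.symm R.Y = R.Y
        rw [RingEquiv.symm_apply_eq, R.g_Y]
      · simp
    change hat (R.g'.symm : R.l →+* R.l) x ∈ KY R
    rw [h, hx]
    exact Y_mem R

theorem KY_t : KY R ≤ RingHom.eqLocusField (tw (-1) neg_one_ne (R.τ' : R.l →+* R.l))
    (RingHom.id _) := by
  rw [KY, Subfield.closure_le]
  rintro x (⟨k, rfl⟩ | hx)
  · change tw (-1) neg_one_ne (R.τ' : R.l →+* R.l) (hat R.i (k : LaurentSeries A.P)) =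
      hat R.i (k : LaurentSeries A.P)
    ext n
    rw [tw_coeff, hat_coeff]
    change (-1) ^ n * R.τ' (R.i ((k : LaurentSeries A.P).coeff n)) = _
    rw [R.τ_i, A.K_τ k k.2 n, map_mul, map_zpow₀, map_neg, map_one, ← mul_assoc,
      ← mul_zpow, neg_one_mul, neg_neg, one_zpow, one_mul]
  · rw [Set.mem_singleton_iff] at hx
    change tw (-1) neg_one_ne (R.τ' : R.l →+* R.l) x = x
    rw [hx]
    ext n
    rw [tw_coeff, HahnSeries.C_apply, HahnSeries.coeff_single]
    split_ifs with h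
    · rw [h, zpow_zero, one_mul]
      exact R.τ_Y
    · simp

theorem tb_mem (v0 : 0 ≤ A.v A0) (v1 : 0 ≤ A.v A1) :
    D.Ψ (HahnSeries.C (tb R)) = hat R.i (A0 : LaurentSeries A.P) +
      HahnSeries.C R.Y * hat R.i (A1 : LaurentSeries A.P) := by
  rw [D.hC]
  rw [A.v_apply] at v0 v1
  ext n
  rw [HahnSeries.coeff_add, HahnSeries.C_mul_eq_smul, HahnSeries.coeff_smul, hat_coeff, hat_coeff]
  rcases lt_or_ge n 0 with hn | hn
  · rw [coeff_neg_of_nonneg _ v0 n hn, coeff_neg_of_nonneg _ v1 n hn, map_zero, smul_zero, add_zero]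
    exact ofPS_neg _ n hn
  · obtain ⟨k, rfl⟩ := Int.eq_ofNat_of_zero_le hn
    have h := R.ψ_t k
    rw [HahnSeries.ofPowerSeries_apply_coeff]
    rw [smul_eq_mul]
    exact h

theorem W_of : D.Ψ (HahnSeries.single 2 1) = HahnSeries.single 2 1 := by
  have h : (HahnSeries.single 2 1 : LaurentSeries R.l) =
      HahnSeries.single 1 1 * HahnSeries.single 1 1 := by
    rw [HahnSeries.single_mul_single]
    norm_num
  rw [h, map_mul, D.hpi]

theorem a_of : D.Ψ (HahnSeries.single 1 (R.i A.ρ)⁻¹) = HahnSeries.single 1 (R.i A.ρ)⁻¹ := by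
  have hc : (HahnSeries.C (R.i A.ρ)⁻¹ : LaurentSeries R.l) = (HahnSeries.C (R.i A.ρ))⁻¹ :=
    map_inv₀ _ _
  have h : (HahnSeries.single 1 (R.i A.ρ)⁻¹ : LaurentSeries R.l) =
      HahnSeries.single 1 1 * HahnSeries.C (R.i A.ρ)⁻¹ := by
    rw [HahnSeries.C_apply, HahnSeries.single_mul_single, add_zero, one_mul]
  rw [h, hc, map_mul, map_inv₀ D.Ψ, D.hpi, C_of D _ R.ψ_ρ]

theorem hat_W : hat R.i (A.W : LaurentSeries A.P) = HahnSeries.single 2 1 := by
  ext n
  change R.i ((HahnSeries.single 2 1 : LaurentSeries A.P).coeff n) = _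
  rw [HahnSeries.coeff_single, HahnSeries.coeff_single]
  split_ifs <;> simp

theorem hat_a : hat R.i (A.a : LaurentSeries A.P) = HahnSeries.single 1 (R.i A.ρ)⁻¹ := by
  ext n
  change R.i ((HahnSeries.single 1 A.ρ⁻¹ : LaurentSeries A.P).coeff n) = _
  rw [HahnSeries.coeff_single, HahnSeries.coeff_single]
  split_ifs <;> simp

/-- elements with coefficients in `f` are fixed by `Ψ` -/
theorem psi_F (x : LaurentSeries A.P) (h : ∀ n, x.coeff n ∈ A.f) :
    D.Ψ (hat R.i x) = hat R.i x := by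
  refine D.hs (R.i '' A.f) ?_ _ ?_
  · rintro _ ⟨α, hα, rfl⟩
    exact R.ψ_f α hα
  · intro n
    exact ⟨x.coeff n, h n, rfl⟩

theorem i_mem_f' (α : A.P) (h : α ∈ A.f) : R.i α ∈ R.f' := by
  rw [R.f'_eq]
  exact Subfield.subset_closure (Or.inl ⟨α, h, rfl⟩)

theorem Y_mem_f' : R.Y ∈ R.f' := by
  rw [R.f'_eq]
  exact Subfield.subset_closure (Or.inr (Or.inl rfl))

theorem tb_mem_f' : tb R ∈ R.f' := by
  rw [R.f'_eq]
  exact Subfield.subset_closure (Or.inr (Or.inr rfl))

theorem f'_le (M : Subfield R.l) (h1 : ∀ α ∈ A.f, R.i α ∈ M) (h2 : R.Y ∈ M) (h3 : tb R ∈ M) :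
    R.f' ≤ M := by
  rw [R.f'_eq, ad, Subfield.closure_le]
  rintro x (⟨α, hα, rfl⟩ | hx | hx)
  · exact h1 α hα
  · rw [hx]
    exact h2
  · rw [Set.mem_singleton_iff] at hx
    rw [hx]
    exact h3

theorem C_mem_Kn (a : R.l) (h : R.ψ a = PowerSeries.C a) (h2 : HahnSeries.C a ∈ KY R) :
    HahnSeries.C a ∈ Kn D := by
  rw [mem_Kn, C_of D a h]
  exact h2

theorem tb_mem_Kn (v0 : 0 ≤ A.v A0) (v1 : 0 ≤ A.v A1) : HahnSeries.C (tb R) ∈ Kn D := by
  rw [mem_Kn, tb_mem D v0 v1]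
  exact (KY R).add_mem (H_mem R _) ((KY R).mul_mem (Y_mem R) (H_mem R _))

theorem res_le (v0 : 0 ≤ A.v A0) (v1 : 0 ≤ A.v A1) :
    R.f' ≤ resF (Kn D ⊓ (hat R.f'.subtype).fieldRange) := by
  refine f'_le _ ?_ ?_ ?_
  · intro α hα
    obtain ⟨x, hx, h1, h2⟩ := A.K_f α hα
    refine ⟨hat R.i x, ⟨?_, ?_⟩, ?_, ?_⟩
    · change D.Ψ (hat R.i x) ∈ KY R
      rw [psi_F D x h1]
      exact H_mem R ⟨x, hx⟩
    · refine (mem_range_hat _ _).2 ?_
      intro n
      exact i_mem_f' _ (h1 n)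
    · refine nonneg_of_coeff _ fun n hn => ?_
      rw [hat_coeff]
      have h3 := coeff_neg_of_nonneg _ h2.le n hn
      rw [HahnSeries.coeff_sub, HahnSeries.C_apply, HahnSeries.coeff_single, if_neg (by omega),
        sub_zero] at h3
      rw [h3, map_zero]
    · rw [hat_coeff]
      have h3 := HahnSeries.coeff_eq_zero_of_lt_orderTop h2
      rw [HahnSeries.coeff_sub, HahnSeries.C_apply, HahnSeries.coeff_single, if_pos rfl] at h3
      rw [sub_eq_zero.1 h3]
  · refine ⟨HahnSeries.C R.Y, ⟨C_mem_Kn D _ R.ψ_Y (Y_mem R), ?_⟩, ?_, ?_⟩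
    · refine (mem_range_hat _ _).2 ?_
      intro n
      rw [HahnSeries.C_apply, HahnSeries.coeff_single]
      split_ifs
      · exact Y_mem_f'
      · exact R.f'.zero_mem
    · exact HahnSeries.orderTop_single_le
    · rw [HahnSeries.C_apply, HahnSeries.coeff_single, if_pos rfl]
  · refine ⟨HahnSeries.C (tb R), ⟨tb_mem_Kn D v0 v1, ?_⟩, ?_, ?_⟩
    · refine (mem_range_hat _ _).2 ?_
      intro n
      rw [HahnSeries.C_apply, HahnSeries.coeff_single]
      split_ifs
      · exact tb_mem_f'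
      · exact R.f'.zero_mem
    · exact HahnSeries.orderTop_single_le
    · rw [HahnSeries.C_apply, HahnSeries.coeff_single, if_pos rfl]

theorem Kn_cnt : Countable (Kn D) := by
  have h1 : Countable (KY R) := by
    rw [← Cardinal.mk_le_aleph0_iff]
    refine (Subfield.cardinalMk_closure_le_max _).trans (max_le ?_ le_rfl)
    rw [Cardinal.mk_le_aleph0_iff]
    exact (Set.countable_range _).union (Set.countable_singleton _)
  refine Function.Injective.countable
    (f := fun x : Kn D => (⟨D.Ψ x, x.2⟩ : KY R)) ?_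
  intro x y h
  have h2 := congrArg Subtype.val h
  exact Subtype.ext (D.Ψ.injective h2)

/-- the new datum -/
def newD (h0 : A.gK A0 = A0) (h1 : A.gK A1 = A1) (v0 : 0 ≤ A.v A0) (v1 : 0 ≤ A.v A1) : Datum m where
  P := R.l
  f := R.f'
  hf := R.hf'
  g := R.g'
  τ := R.τ'
  g_f := by
    have h : R.f' ≤ RingHom.eqLocusField (R.g' : R.l →+* R.l) (RingHom.id _) := by
      refine f'_le _ ?_ R.g_Y ?_
      · intro α hα
        change R.g' (R.i α) = R.i α
        rw [R.g_i, A.g_f α hα]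
      · change R.g' (tb R) = tb R
        rw [tb, map_add, map_mul, R.g_Y, R.g_i, R.g_i]
        have h2 : A.g (A.c0 A0) = A.c0 A0 := by
          conv_rhs => rw [← h0]
          rfl
        have h3 : A.g (A.c0 A1) = A.c0 A1 := by
          conv_rhs => rw [← h1]
          rfl
        rw [h2, h3]
    exact fun x hx => h hx
  τ_f := by
    have h : R.f' ≤ RingHom.eqLocusField (R.τ' : R.l →+* R.l) (RingHom.id _) := by
      refine f'_le _ ?_ R.τ_Y ?_
      · intro α hα
        change R.τ' (R.i α) = R.i α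
        rw [R.τ_i, A.τ_f α hα]
      · change R.τ' (tb R) = tb R
        rw [tb, map_add, map_mul, R.τ_Y, R.τ_i, R.τ_i]
        have h2 : ∀ x : A.K, A.τ (A.c0 x) = A.c0 x := by
          intro x
          have := A.K_τ x x.2 0
          rw [zpow_zero, one_mul] at this
          exact this
        rw [h2, h2]
    exact fun x hx => h hx
  g_pow := R.g_pow
  τ_sq := R.τ_sq
  gτ := R.gτ
  ρ := R.i A.ρ
  ρ_ne := (map_ne_zero R.i).2 A.ρ_ne
  g_ρ := by rw [R.g_i, A.g_ρ]
  τ_ρ := by rw [R.τ_i, A.τ_ρ, map_neg]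
  K := Kn D
  K_cnt := Kn_cnt D
  K_τ := by
    intro x hx n
    have h1 : tw (-1) neg_one_ne (R.τ' : R.l →+* R.l) (D.Ψ x) = D.Ψ x := KY_t hx
    rw [← psi_t] at h1
    have h2 := D.Ψ.injective h1
    have h3 := congrArg (fun z => HahnSeries.coeff z n) h2
    change (-1 : R.l) ^ n * R.τ' (x.coeff n) = x.coeff n at h3
    calc R.τ' (x.coeff n) = (-1) ^ n * ((-1 : R.l) ^ n * R.τ' (x.coeff n)) := by
          rw [← mul_assoc, ← mul_zpow, neg_one_mul, neg_neg, one_zpow, one_mul]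
      _ = _ := by rw [h3]
  K_g := by
    intro x hx
    change D.Ψ _ ∈ KY R
    rw [psi_g]
    exact KY_g hx
  K_g' := by
    intro x hx
    change D.Ψ _ ∈ KY R
    rw [psi_g']
    exact KY_g' hx
  K_W := by
    change D.Ψ _ ∈ KY R
    rw [W_of, ← hat_W]
    exact H_mem R _
  K_a := by
    change D.Ψ _ ∈ KY R
    rw [a_of, ← hat_a]
    exact H_mem R _
  K_f := by
    intro α hα
    obtain ⟨x, ⟨hx1, hx2⟩, hx3, hx4⟩ := res_le D v0 v1 hα
    refine ⟨x, hx1, (mem_range_hat _ _).1 hx2, ?_⟩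
    by_contra h
    push Not at h
    have h5 : 0 ≤ (x - HahnSeries.C α).orderTop := by
      refine nonneg_of_coeff _ fun n hn => ?_
      rw [HahnSeries.coeff_sub, coeff_neg_of_nonneg _ hx3 n hn, HahnSeries.C_apply,
        HahnSeries.coeff_single, if_neg (by omega), sub_zero]
    have h6 : (x - HahnSeries.C α).orderTop = ((0 : ℤ) : WithTop ℤ) := le_antisymm h h5
    have h7 := HahnSeries.coeff_orderTop_ne h6
    apply h7
    rw [HahnSeries.coeff_sub, HahnSeries.C_apply, HahnSeries.coeff_single, if_pos rfl, hx4, sub_self]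

/-- the homomorphism `j` -/
def jj : A.K →+* Kn D :=
  ((D.Ψ.symm : LaurentSeries R.l →+* LaurentSeries R.l).comp
    ((hat R.i).comp A.K.subtype)).codRestrict (Kn D) (by
      intro x
      change D.Ψ (D.Ψ.symm (hat R.i (x : LaurentSeries A.P))) ∈ KY R
      rw [RingEquiv.apply_symm_apply]
      exact H_mem R x)

theorem jj_val (x : A.K) :
    ((jj D x : Kn D) : LaurentSeries R.l) = D.Ψ.symm (hat R.i (x : LaurentSeries A.P)) := rfl

theorem psi_jj (x : A.K) :
    D.Ψ ((jj D x : Kn D) : LaurentSeries R.l) = hat R.i (x : LaurentSeries A.P) := by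
  rw [jj_val, RingEquiv.apply_symm_apply]

theorem jj_ord (x : A.K) :
    ((jj D x : Kn D) : LaurentSeries R.l).orderTop = (x : LaurentSeries A.P).orderTop := by
  rw [← D.hord, psi_jj]
  refine orderTop_congr _ _ fun n => ?_
  rw [hat_coeff, map_eq_zero]

theorem jj_c0 (x : A.K) (hx : 0 ≤ A.v x) :
    ((jj D x : Kn D) : LaurentSeries R.l).coeff 0 = R.i (A.c0 x) := by
  rw [← D.hz, psi_jj]
  · rfl
  · rw [jj_ord, ← A.v_apply]
    exact hx

theorem jj_F (x : A.K) (hx : x ∈ A.F) :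
    ((jj D x : Kn D) : LaurentSeries R.l) = hat R.i (x : LaurentSeries A.P) := by
  apply D.Ψ.injective
  rw [psi_jj, psi_F]
  exact (mem_range_hat A.f _).1 hx

theorem Y_ne : R.Y ≠ 0 := by
  have h := R.Y_tr Polynomial.X Polynomial.X_ne_zero
  rw [Polynomial.eval₂_X] at h
  exact h

theorem tb_ne (hind : AlgebraicIndependent A.f ![A.c0 A0, A.c0 A1]) : tb R ≠ 0 := by
  have h1 : A.c0 A1 ≠ 0 := hind.ne_zero 1
  have h := R.Y_tr (Polynomial.C (A.c0 A0) + Polynomial.C (A.c0 A1) * Polynomial.X) (by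
    intro h
    have h2 := congrArg (fun q => Polynomial.coeff q 1) h
    simp only [Polynomial.coeff_add, Polynomial.coeff_C_mul, Polynomial.coeff_X_one,
      Polynomial.coeff_C, Polynomial.coeff_zero, mul_one] at h2
    exact h1 (by simpa using h2))
  rw [Polynomial.eval₂_add, Polynomial.eval₂_mul, Polynomial.eval₂_C, Polynomial.eval₂_C,
    Polynomial.eval₂_X, mul_comm] at h
  exact h

variable (h0 : A.gK A0 = A0) (h1 : A.gK A1 = A1) (v0 : 0 ≤ A.v A0) (v1 : 0 ≤ A.v A1)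

/-- the cut homomorphism -/
def newH : CutHom A (newD D h0 h1 v0 v1) where
  j := jj D
  v_j := by
    intro x
    rw [Datum.v_apply, Datum.v_apply]
    exact jj_ord D x
  g_j := by
    intro x
    apply Subtype.ext
    apply D.Ψ.injective
    change D.Ψ (hat (R.g' : R.l →+* R.l) ((jj D x : Kn D) : LaurentSeries R.l)) =
      D.Ψ ((jj D (A.gK x) : Kn D) : LaurentSeries R.l)
    rw [psi_g, psi_jj, psi_jj]
    ext n
    rw [hat_coeff, hat_coeff, hat_coeff, A.gK_coeff]
    exact R.g_i _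
  F_j := by
    intro x hx
    change ((jj D x : Kn D) : LaurentSeries R.l) ∈ (hat R.f'.subtype).fieldRange
    rw [jj_F D x hx]
    refine (mem_range_hat _ _).2 fun n => ?_
    exact i_mem_f' _ ((mem_range_hat A.f _).1 hx n)
  a_j := by
    apply Subtype.ext
    apply D.Ψ.injective
    change D.Ψ ((jj D A.a : Kn D) : LaurentSeries R.l) = D.Ψ (HahnSeries.single 1 (R.i A.ρ)⁻¹)
    rw [psi_jj, hat_a]
    exact (a_of D).symm
  W_j := by
    apply Subtype.ext
    apply D.Ψ.injective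
    change D.Ψ ((jj D A.W : Kn D) : LaurentSeries R.l) = D.Ψ (HahnSeries.single 2 1)
    rw [psi_jj, hat_W]
    exact (W_of D).symm
  ns_j := by
    intro x hx hns hsq
    apply hns
    change IsSquare (((jj D x : Kn D) : LaurentSeries R.l).coeff 0) at hsq
    rw [jj_c0 D x hx.ge] at hsq
    obtain ⟨s, hs⟩ := hsq
    obtain ⟨p, rfl⟩ := R.acl s (Polynomial.X ^ 2 - Polynomial.C (A.c0 x))
      (Polynomial.X_pow_sub_C_ne_zero (by norm_num) _) (by
        rw [Polynomial.eval₂_sub, Polynomial.eval₂_pow, Polynomial.eval₂_X, Polynomial.eval₂_C, hs]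
        ring)
    exact ⟨p, R.i.injective (by rw [hs, map_mul])⟩

/-- the element `y` -/
def ny : Kn D := ⟨HahnSeries.C R.Y, C_mem_Kn D _ R.ψ_Y (Y_mem R)⟩

/-- the element `t` -/
def nt : Kn D := ⟨HahnSeries.C (tb R), tb_mem_Kn D v0 v1⟩

theorem fimg_eq : fimg (newH D h0 h1 v0 v1) = A.f.map R.i := by
  refine le_antisymm ?_ ?_
  · refine Subfield.closure_le.2 ?_
    rintro _ ⟨x, hx, hv, rfl⟩
    refine ⟨A.c0 x, (mem_range_hat A.f _).1 hx 0, ?_⟩
    exact (jj_c0 D x hv).symm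
  · rintro _ ⟨α, hα, rfl⟩
    obtain ⟨x, hx, h2, h3⟩ := A.K_f α hα
    refine Subfield.subset_closure ⟨⟨x, hx⟩, (mem_range_hat A.f _).2 h2, ?_, ?_⟩
    · rw [A.v_apply]
      refine nonneg_of_coeff _ fun n hn => ?_
      have h4 := coeff_neg_of_nonneg _ h3.le n hn
      rw [HahnSeries.coeff_sub, HahnSeries.C_apply, HahnSeries.coeff_single, if_neg (by omega),
        sub_zero] at h4
      exact h4
    · have h5 : 0 ≤ A.v ⟨x, hx⟩ := by
        rw [A.v_apply]
        refine nonneg_of_coeff _ fun n hn => ?_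
        have h4 := coeff_neg_of_nonneg _ h3.le n hn
        rw [HahnSeries.coeff_sub, HahnSeries.C_apply, HahnSeries.coeff_single, if_neg (by omega),
          sub_zero] at h4
        exact h4
      have h6 := jj_c0 D ⟨x, hx⟩ h5
      have h7 : A.c0 ⟨x, hx⟩ = α := by
        have h4 := HahnSeries.coeff_eq_zero_of_lt_orderTop h3
        rw [HahnSeries.coeff_sub, HahnSeries.C_apply, HahnSeries.coeff_single, if_pos rfl] at h4
        exact sub_eq_zero.1 h4
      rw [h7] at h6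
      exact h6.symm

theorem Y_trans (S : Subring R.l) (hS : ∀ x ∈ S, ∃ p, x = R.i p) : Transcendental S R.Y := by
  rintro ⟨q, hq, hq0⟩
  have h1 : q.map (algebraMap S R.l) ∈ Polynomial.lifts R.i := by
    rw [Polynomial.lifts_iff_coeff_lifts]
    intro n
    rw [Polynomial.coeff_map]
    obtain ⟨p, hp⟩ := hS _ (q.coeff n).2
    exact ⟨p, hp.symm⟩
  obtain ⟨Q, hQ⟩ := h1
  change Q.map R.i = _ at hQ
  refine R.Y_tr Q ?_ ?_
  · rintro rfl
    rw [Polynomial.map_zero] at hQ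
    exact hq ((Polynomial.map_eq_zero_iff Subtype.val_injective).1 hQ.symm)
  · rw [← Polynomial.eval_map, hQ, Polynomial.eval_map_algebraMap]
    exact hq0

theorem C_coeff_mem (M : Subfield R.l) (a : R.l) (ha : a ∈ M) (n : ℤ) :
    (HahnSeries.C a : LaurentSeries R.l).coeff n ∈ M := by
  rw [HahnSeries.C_apply, HahnSeries.coeff_single]
  split_ifs
  · exact ha
  · exact M.zero_mem

theorem ny_F : ny D ∈ (newD D h0 h1 v0 v1).F :=
  (mem_range_hat R.f' _).2 (C_coeff_mem _ _ Y_mem_f')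

theorem nt_F : nt D v0 v1 ∈ (newD D h0 h1 v0 v1).F :=
  (mem_range_hat R.f' _).2 (C_coeff_mem _ _ tb_mem_f')

theorem C_ne (a : R.l) (ha : a ≠ 0) : (HahnSeries.C a : LaurentSeries R.l) ≠ 0 :=
  (map_ne_zero _).2 ha

theorem C_ord (a : R.l) (ha : a ≠ 0) : (HahnSeries.C a : LaurentSeries R.l).orderTop = 0 := by
  rw [HahnSeries.C_apply, HahnSeries.orderTop_single ha]
  rfl

theorem nt_eq : nt D v0 v1 = jj D A0 + ny D * jj D A1 := by
  apply Subtype.ext
  apply D.Ψ.injective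
  change D.Ψ (HahnSeries.C (tb R)) = D.Ψ (((jj D A0 : Kn D) : LaurentSeries R.l) +
    HahnSeries.C R.Y * ((jj D A1 : Kn D) : LaurentSeries R.l))
  rw [tb_mem D v0 v1, map_add, map_mul, psi_jj, psi_jj, C_of D _ R.ψ_Y]

theorem gen (x : Kn D) : x ∈ Subfield.closure (Set.range (jj D) ∪ {ny D}) := by
  have h : KY R ≤ ((Subfield.closure (Set.range (jj D) ∪ {ny D})).map (Kn D).subtype).map
      (D.Ψ : LaurentSeries R.l →+* LaurentSeries R.l) := by
    rw [KY, Subfield.closure_le]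
    rintro z (⟨k, rfl⟩ | hz)
    · exact ⟨(jj D k : Kn D), ⟨jj D k, Subfield.subset_closure (Or.inl ⟨k, rfl⟩), rfl⟩,
        psi_jj D k⟩
    · rw [Set.mem_singleton_iff] at hz
      rw [hz]
      exact ⟨(ny D : Kn D), ⟨ny D, Subfield.subset_closure (Or.inr rfl), rfl⟩,
        C_of D _ R.ψ_Y⟩
  obtain ⟨z, ⟨w, hw, rfl⟩, hz⟩ := h x.2
  have h2 : ((Kn D).subtype w) = (x : LaurentSeries R.l) := D.Ψ.injective hz
  have h3 : w = x := Subtype.ext h2
  rw [← h3]
  exact hw

theorem f'_ad : R.f' = ad (A.f.map R.i) {R.Y, tb R} := R.f'_eq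

theorem ind {n : ℕ} (b : Fin n → A.K) (hb : ∀ i, 0 ≤ A.v (b i))
    (hi : AlgebraicIndependent A.f (fun i => A.c0 (b i))) :
    AlgebraicIndependent (A.f.map R.i)
      (Fin.cons R.Y (fun i => ((jj D (b i) : Kn D) : LaurentSeries R.l).coeff 0) :
        Fin (n + 1) → R.l) := by
  have e1 : (fun i => ((jj D (b i) : Kn D) : LaurentSeries R.l).coeff 0) =
      R.i ∘ (fun i => A.c0 (b i)) := by
    funext i
    exact jj_c0 D (b i) (hb i)
  rw [e1]
  -- the homomorphism of the base fields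
  let φ : A.f →+* A.f.map R.i :=
    (R.i.comp A.f.subtype).codRestrict (A.f.map R.i) (fun x => ⟨x, x.2, rfl⟩)
  have h1 : AlgebraicIndependent (A.f.map R.i) (R.i ∘ (fun i => A.c0 (b i))) := by
    refine AlgebraicIndependent.ringHom_of_comp_eq φ R.i hi ?_ R.i.injective ?_
    · rintro ⟨_, α, hα, rfl⟩
      exact ⟨⟨α, hα⟩, rfl⟩
    · ext x
      rfl
  have h2 := (h1.option_iff_transcendental R.Y).2 (by
    refine Y_trans (Algebra.adjoin (A.f.map R.i) (Set.range (R.i ∘ fun i => A.c0 (b i)))).toSubring ?_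
    intro x hx
    change x ∈ Algebra.adjoin (A.f.map R.i) (Set.range (R.i ∘ fun i => A.c0 (b i))) at hx
    induction hx using Algebra.adjoin_induction with
    | mem x hx =>
      obtain ⟨i, rfl⟩ := hx
      exact ⟨_, rfl⟩
    | algebraMap r =>
      obtain ⟨_, α, hα, rfl⟩ := r
      exact ⟨α, rfl⟩
    | add x y _ _ hx hy =>
      obtain ⟨p, rfl⟩ := hx
      obtain ⟨q, rfl⟩ := hy
      exact ⟨p + q, (map_add _ _ _).symm⟩
    | mul x y _ _ hx hy =>
      obtain ⟨p, rfl⟩ := hx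
      obtain ⟨q, rfl⟩ := hy
      exact ⟨p * q, (map_mul _ _ _).symm⟩)
  refine (algebraicIndependent_equiv' (finSuccEquiv n) ?_).2 h2
  funext i
  refine Fin.cases ?_ (fun i => ?_) i
  · simp
  · simp

end build

end

end CB

/-- 13, cu0 - cu2 and the facts needed for cu3 -/
theorem cutBuild {m : ℕ} {A : Datum m} {A0 A1 : A.K} (R : CutRes A A0 A1)
    (h0 : A.gK A0 = A0) (h1 : A.gK A1 = A1)
    (v0 : 0 ≤ A.v A0) (v1 : 0 ≤ A.v A1)
    (hind : AlgebraicIndependent A.f ![A.c0 A0, A.c0 A1]) :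
    ∃ (B : Datum m) (h : CutHom A B) (y t : B.K), y ∈ B.F ∧ t ∈ B.F ∧ y ≠ 0 ∧ t ≠ 0 ∧
      t = h.j A0 + y * h.j A1 ∧ B.v y = 0 ∧ B.v t = 0 ∧
      (∀ x : B.K, x ∈ Subfield.closure (Set.range h.j ∪ {y})) ∧
      B.f = ad (fimg h) {B.c0 y, B.c0 t} ∧
      (∀ (n : ℕ) (b : Fin n → A.K), (∀ i, 0 ≤ A.v (b i)) →
        AlgebraicIndependent A.f (fun i => A.c0 (b i)) →
        AlgebraicIndependent (fimg h)
          (Fin.cons (B.c0 y) (fun i => B.c0 (h.j (b i))) : Fin (n + 1) → B.P)) := by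
  obtain ⟨D⟩ := CB.exists_PD R
  have e1 : (HahnSeries.C R.Y : LaurentSeries R.l).coeff 0 = R.Y := by
    rw [HahnSeries.C_apply, HahnSeries.coeff_single, if_pos rfl]
  have e2 : (HahnSeries.C (CB.tb R) : LaurentSeries R.l).coeff 0 = CB.tb R := by
    rw [HahnSeries.C_apply, HahnSeries.coeff_single, if_pos rfl]
  refine ⟨CB.newD D h0 h1 v0 v1, CB.newH D h0 h1 v0 v1, CB.ny D, CB.nt D v0 v1,
    CB.ny_F D h0 h1 v0 v1, CB.nt_F D h0 h1 v0 v1, ?_, ?_, CB.nt_eq D v0 v1, ?_, ?_, ?_, ?_, ?_⟩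
  · intro h
    exact CB.C_ne R.Y CB.Y_ne (congrArg Subtype.val h)
  · intro h
    exact CB.C_ne _ (CB.tb_ne hind) (congrArg Subtype.val h)
  · exact (Datum.v_apply (CB.newD D h0 h1 v0 v1) (CB.ny D)).trans (CB.C_ord _ CB.Y_ne)
  · exact (Datum.v_apply (CB.newD D h0 h1 v0 v1) (CB.nt D v0 v1)).trans
      (CB.C_ord _ (CB.tb_ne hind))
  · exact CB.gen D
  · rw [CB.fimg_eq]
    change R.f' = ad (A.f.map R.i) {(HahnSeries.C R.Y : LaurentSeries R.l).coeff 0,
      (HahnSeries.C (CB.tb R) : LaurentSeries R.l).coeff 0}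
    rw [e1, e2]
    exact CB.f'_ad
  · intro n b hb hi
    rw [CB.fimg_eq]
    change AlgebraicIndependent (A.f.map R.i)
      (Fin.cons ((HahnSeries.C R.Y : LaurentSeries R.l).coeff 0)
        (fun i => ((CB.jj D (b i) : CB.Kn D) : LaurentSeries R.l).coeff 0) : Fin (n + 1) → R.l)
    rw [e1]
    exact CB.ind D b hb hi

end Pool.Agent.DA
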