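import Pool.Agent.DA.Fields

/-! Section 9.4 : the generic pencil lemma -/

set_option autoImplicit false

namespace Pool.Agent.DA

/-- 9.4 -/
theorem gp {Ω : Type*} [Field Ω] [CharZero Ω] (f P : Subfield Ω) (hf : f ≤ P) (hac : AC f P)
    (A B : Ω) (hA : A ∈ P) (hB : B ∈ P) (hind : AlgebraicIndependent f ![A, B])
    (Y : Ω) (hY : ¬ IsAlgebraic P Y) : AC (ad f {Y, A + Y * B}) (ad P {Y}) := by
  intro x hx hxa
  have hB' : Transcendental f B := hind.transcendental 1
  have hA' : Transcendental (Subfield.closure ((f : Set Ω) ∪ {B})) A := by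
    rw [Helper13.DV.transcendental_closure_iff]
    have h := hind.transcendental_adjoin (s := {1}) (i := 0) (by simp)
    rw [Set.image_singleton] at h
    exact h
  exact Helper13.DV.generic_pencil f P hf hac A B hA hB hB' hA' Y hY x hx hxa

end Pool.Agent.DA
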