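import Pool.Agent.DA.DBasic2
import Pool.Agent.DA.GP
import Pool.Agent.Helper49.Div.Pencil
import Pool.Agent.Helper49.Div.Taylor

/-! Section 13, first half : the residue field `l = P(y)` and the lift `ψ` -/

set_option autoImplicit false

namespace Pool.Agent.DA

namespace CutResAux

open Polynomial

section Conj

variable {l : Type*} [Field l]

/-- conjugate of a derivation -/
noncomputable def conj (σ : RingAut l) (D : Derivation ℤ l l) : Derivation ℤ l l :=
  Derivation.mk' (((σ : l →+* l) : l →+ l).comp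
    ((D.toLinearMap.toAddMonoidHom).comp ((σ⁻¹ : RingAut l) : l →+* l).toAddMonoidHom)).toIntLinearMap (by
    intro a b
    change σ (D ((σ⁻¹ : RingAut l) (a * b))) = a • σ (D ((σ⁻¹ : RingAut l) b))
      + b • σ (D ((σ⁻¹ : RingAut l) a))
    rw [map_mul, D.leibniz, map_add, smul_eq_mul, smul_eq_mul, map_mul, map_mul, smul_eq_mul,
      smul_eq_mul]
    have h : ∀ x, σ ((σ⁻¹ : RingAut l) x) = x := fun x => σ.apply_symm_apply x
    rw [h, h])

theorem conj_apply (σ : RingAut l) (D : Derivation ℤ l l) (x : l) :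
    conj σ D x = σ (D ((σ⁻¹ : RingAut l) x)) := rfl

theorem conj_mul (σ ρ : RingAut l) (D : Derivation ℤ l l) :
    conj (σ * ρ) D = conj σ (conj ρ D) := by
  ext x
  rw [conj_apply, conj_apply, conj_apply, mul_inv_rev]
  rfl

theorem conj_one (D : Derivation ℤ l l) : conj 1 D = D := by
  ext x
  rw [conj_apply, inv_one]
  rfl

theorem conj_add (σ : RingAut l) (D E : Derivation ℤ l l) :
    conj σ (D + E) = conj σ D + conj σ E := by
  ext x
  simp only [conj_apply, Derivation.add_apply, map_add]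

theorem conj_sum (σ : RingAut l) {ι : Type*} (s : Finset ι) (D : ι → Derivation ℤ l l) :
    conj σ (∑ i ∈ s, D i) = ∑ i ∈ s, conj σ (D i) := by
  classical
  induction s using Finset.induction_on with
  | empty => ext x; simp [conj_apply]
  | insert a s ha ih => rw [Finset.sum_insert ha, Finset.sum_insert ha, conj_add, ih]

theorem sum_der_apply {ι : Type*} (s : Finset ι) (D : ι → Derivation ℤ l l) (x : l) :
    (∑ i ∈ s, D i) x = ∑ i ∈ s, D i x := by
  classical
  induction s using Finset.induction_on with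
  | empty => simp
  | insert a s ha ih => rw [Finset.sum_insert ha, Finset.sum_insert ha, Derivation.add_apply, ih]

theorem conj_smul (σ : RingAut l) (c : l) (D : Derivation ℤ l l) :
    conj σ (c • D) = (σ c) • conj σ D := by
  ext x
  simp only [conj_apply, Derivation.smul_apply, smul_eq_mul, map_mul]

theorem comm_of_conj {σ : RingAut l} {D : Derivation ℤ l l} (h : conj σ D = D) (x : l) :
    σ (D x) = D (σ x) := by
  have h1 := congrArg (fun E : Derivation ℤ l l => E (σ x)) h
  simp only [conj_apply] at h1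
  rw [← h1]
  have h2 : (σ⁻¹ : RingAut l) (σ x) = x := σ.symm_apply_apply x
  rw [h2]

/-- averaging -/
theorem exists_avg [CharZero l] (g τ : RingAut l) {N : ℕ} (hN : N ≠ 0) (hg : g ^ N = 1)
    (hτ : τ * τ = 1) (hgτ : g * τ = τ * g) (D0 : Derivation ℤ l l) :
    ∃ D : Derivation ℤ l l, (∀ x, g (D x) = D (g x)) ∧ (∀ x, τ (D x) = D (τ x)) ∧
      (∀ x y, (∀ i j, D0 (((g ^ i * τ ^ j : RingAut l)⁻¹ : RingAut l) x) = y) →
        (g y = y) → (τ y = y) → D x = y) := by
  set D1 := D0 + conj τ D0 with hD1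
  have hτD1 : conj τ D1 = D1 := by
    rw [hD1, conj_add, ← conj_mul, hτ, conj_one, add_comm]
  set D2 := ∑ i ∈ Finset.range N, conj (g ^ i) D1 with hD2
  have hgD2 : conj g D2 = D2 := by
    rw [hD2, conj_sum]
    have h1 : ∀ i ∈ Finset.range N, conj g (conj (g ^ i) D1) = conj (g ^ (i + 1)) D1 := by
      intro i _
      rw [← conj_mul, pow_succ']
    rw [Finset.sum_congr rfl h1]
    have h2 := Finset.sum_range_succ (fun i => conj (g ^ i) D1) N
    have h3 := Finset.sum_range_succ' (fun i => conj (g ^ i) D1) N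
    rw [h2] at h3
    simp only [hg, pow_zero] at h3
    exact (add_right_cancel h3).symm
  have hτD2 : conj τ D2 = D2 := by
    rw [hD2, conj_sum]
    refine Finset.sum_congr rfl fun i _ => ?_
    have hc : τ * g ^ i = g ^ i * τ := by
      have : Commute g τ := hgτ
      exact (this.pow_left i).eq.symm
    rw [← conj_mul, hc, conj_mul, hτD1]
  have h2N : ((2 * N : ℕ) : l) ≠ 0 := by
    exact_mod_cast (by omega : 2 * N ≠ 0)
  set c : l := ((2 * N : ℕ) : l)⁻¹ with hc
  have hσc : ∀ σ : RingAut l, σ c = c := by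
    intro σ
    rw [hc, map_inv₀, map_natCast]
  refine ⟨c • D2, ?_, ?_, ?_⟩
  · intro x
    apply comm_of_conj
    rw [conj_smul, hσc, hgD2]
  · intro x
    apply comm_of_conj
    rw [conj_smul, hσc, hτD2]
  · intro x y h hgy hτy
    have hgi : ∀ i : ℕ, (g ^ i) y = y := by
      intro i
      induction i with
      | zero => rfl
      | succ i ih =>
        rw [pow_succ']
        change g ((g ^ i) y) = y
        rw [ih, hgy]
    have h1 : ∀ i, conj (g ^ i) D1 x = 2 * y := by
      intro i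
      rw [hD1, conj_add, ← conj_mul, Derivation.add_apply, conj_apply, conj_apply]
      have e1 := h i 0
      have e2 := h i 1
      rw [pow_zero, mul_one] at e1
      rw [pow_one] at e2
      rw [e1, e2]
      change (g ^ i) y + (g ^ i) (τ y) = 2 * y
      rw [hτy, hgi, two_mul]
    have h2 : D2 x = N * (2 * y) := by
      have : D2 x = ∑ i ∈ Finset.range N, conj (g ^ i) D1 x := by
        rw [hD2, sum_der_apply]
      rw [this, Finset.sum_congr rfl (fun i _ => h1 i), Finset.sum_const, Finset.card_range,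
        nsmul_eq_mul]
    rw [Derivation.smul_apply, h2, smul_eq_mul, hc]
    push_cast at h2N ⊢
    field_simp

end Conj

section RF

variable {P : Type} [Field P]

/-- two ring homomorphisms on `P(X)` -/
theorem rf_ext {M : Type*} [Field M] {a b : RatFunc P →+* M} (hC : ∀ p, a (RatFunc.C p) = b (RatFunc.C p))
    (hX : a RatFunc.X = b RatFunc.X) : a = b := by
  apply IsLocalization.ringHom_ext (nonZeroDivisors P[X])
  apply Polynomial.ringHom_ext
  · intro p
    have := hC p
    rw [← RatFunc.algebraMap_C] at this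
    exact this
  · have := hX
    rw [← RatFunc.algebraMap_X] at this
    exact this

/-- extension of an automorphism to `P(X)` -/
noncomputable def mapX (g : P ≃+* P) : RatFunc P ≃+* RatFunc P :=
  IsFractionRing.ringEquivOfRingEquiv (K := RatFunc P) (L := RatFunc P) (Polynomial.mapEquiv g)

theorem mapX_C (g : P ≃+* P) (p : P) : mapX g (RatFunc.C p) = RatFunc.C (g p) := by
  rw [← RatFunc.algebraMap_C, mapX, IsFractionRing.ringEquivOfRingEquiv_algebraMap]
  simp

theorem mapX_X (g : P ≃+* P) : mapX g (RatFunc.X : RatFunc P) = RatFunc.X := by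
  rw [← RatFunc.algebraMap_X, mapX, IsFractionRing.ringEquivOfRingEquiv_algebraMap]
  simp

theorem mapX_iterate (g : P ≃+* P) (n : ℕ) (hg : ∀ x, g^[n] x = x) (x : RatFunc P) :
    (mapX g)^[n] x = x := by
  have h1 : ((mapX g : RatFunc P →+* RatFunc P) ^ n) = RingHom.id _ := by
    apply rf_ext
    · intro p
      rw [RingHom.coe_pow]
      have : ∀ k : ℕ, (mapX g : RatFunc P →+* RatFunc P)^[k] (RatFunc.C p) = RatFunc.C (g^[k] p) := by
        intro k
        induction k with
        | zero => rfl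
        | succ k ih =>
          rw [Function.iterate_succ_apply', Function.iterate_succ_apply', ih]
          exact mapX_C g _
      rw [this, hg]
      rfl
    · rw [RingHom.coe_pow]
      have : ∀ k : ℕ, (mapX g : RatFunc P →+* RatFunc P)^[k] RatFunc.X = RatFunc.X := by
        intro k
        induction k with
        | zero => rfl
        | succ k ih =>
          rw [Function.iterate_succ_apply', ih]
          exact mapX_X g
      rw [this]
      rfl
  have h2 := congrArg (fun h : RatFunc P →+* RatFunc P => h x) h1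
  simp only [RingHom.coe_pow] at h2
  exact h2

theorem mapX_comm (g τ : P ≃+* P) (h : ∀ x, g (τ x) = τ (g x)) (x : RatFunc P) :
    mapX g (mapX τ x) = mapX τ (mapX g x) := by
  have h1 : ((mapX g : RatFunc P →+* RatFunc P).comp (mapX τ : RatFunc P →+* RatFunc P))
      = ((mapX τ : RatFunc P →+* RatFunc P).comp (mapX g : RatFunc P →+* RatFunc P)) := by
    apply rf_ext
    · intro p
      change mapX g (mapX τ (RatFunc.C p)) = mapX τ (mapX g (RatFunc.C p))
      rw [mapX_C, mapX_C, mapX_C, mapX_C, h]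
    · change mapX g (mapX τ RatFunc.X) = mapX τ (mapX g RatFunc.X)
      rw [mapX_X, mapX_X, mapX_X]
  exact congrArg (fun h : RatFunc P →+* RatFunc P => h x) h1

theorem eval2_X_ne (Q : P[X]) (hQ : Q ≠ 0) : Q.eval₂ (RatFunc.C (K := P)) RatFunc.X ≠ 0 := by
  intro h
  have h1 : Q.eval₂ (RatFunc.C (K := P)) RatFunc.X = algebraMap P[X] (RatFunc P) Q := by
    rw [← RatFunc.algebraMap_X]
    have : (RatFunc.C (K := P)) = (algebraMap P[X] (RatFunc P)).comp Polynomial.C := by
      ext p
      exact (RatFunc.algebraMap_C p).symm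
    rw [this, ← Polynomial.hom_eval₂, Polynomial.eval₂_C_X]
  rw [h1] at h
  exact hQ ((RatFunc.algebraMap_injective P) (by rw [h, map_zero]))

theorem acl_C (x : RatFunc P) (Q : P[X]) (hQ : Q ≠ 0) (h : Q.eval₂ (RatFunc.C (K := P)) x = 0) :
    ∃ p, x = RatFunc.C p := by
  by_contra hne
  have h1 := RatFunc.transcendental_of_ne_C x (fun ⟨c, hc⟩ => hne ⟨c, hc⟩)
  apply h1
  refine ⟨Q, hQ, ?_⟩
  rw [aeval_def]
  exact h

theorem ad_top (f : Subfield (RatFunc P)) (hf : ∀ p, RatFunc.C p ∈ f) (hX : RatFunc.X ∈ f)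
    (x : RatFunc P) : x ∈ f := by
  have h1 : ∀ q : P[X], algebraMap P[X] (RatFunc P) q ∈ f := by
    intro q
    induction q using Polynomial.induction_on' with
    | add p q hp hq => rw [map_add]; exact add_mem hp hq
    | monomial n a =>
      rw [← Polynomial.C_mul_X_pow_eq_monomial, map_mul, map_pow, RatFunc.algebraMap_C,
        RatFunc.algebraMap_X]
      exact mul_mem (hf a) (pow_mem hX n)
  obtain ⟨a, b, _, rfl⟩ := IsFractionRing.div_surjective (A := P[X]) x
  exact div_mem (h1 a) (h1 b)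

end RF

section Der

/-- derivations over the integers -/
abbrev Der (l : Type*) [Field l] := Derivation ℤ l l

/-- restriction of scalars -/
noncomputable def toDer {F l : Type*} [Field F] [Field l] [Algebra F l] (D : Derivation F l l) :
    Der l := D.restrictScalars ℤ

theorem der_add {l : Type*} [Field l] (D : Der l) (x y : l) : D (x + y) = D x + D y := map_add _ _ _

theorem der_mul {l : Type*} [Field l] (D : Der l) (x y : l) : D (x * y) = x * D y + y * D x :=
  D.leibniz x y

/-- linear combination -/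
theorem exists_comb {l : Type*} [Field l] (D E : Der l) (c e : l) :
    ∃ H : Der l, ∀ x, H x = c * D x + e * E x :=
  ⟨c • D + e • E, fun _ => rfl⟩

variable {P : Type} [Field P]

/-- extension of a derivation of `P / f` to `P(X)`, killing `X` -/
theorem exists_der {F : Type} [Field F] [Algebra F P] (d : Derivation F P P) :
    ∃ D : Der (RatFunc P), (∀ p, D (RatFunc.C p) = RatFunc.C (d p)) ∧
      D RatFunc.X = 0 := by
  have h1 : Algebra.FormallyEtale P[X] (RatFunc P) := .of_isLocalization (nonZeroDivisors _)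
  let d' : Derivation F P[X] (RatFunc P) :=
    (Algebra.linearMap P[X] (RatFunc P)).compDer (Helper49.Div.cd d)
  obtain ⟨D, hD⟩ := Helper49.Div.exists_derivation_extension d'
  refine ⟨toDer D, ?_, ?_⟩
  · intro p
    have := hD (Polynomial.C p)
    rw [RatFunc.algebraMap_C] at this
    change D (RatFunc.C p) = _
    rw [this]
    change algebraMap P[X] (RatFunc P) (Helper49.Div.cd d (Polynomial.C p)) = _
    rw [Helper49.Div.cd_C, RatFunc.algebraMap_C]
  · have := hD Polynomial.X
    rw [RatFunc.algebraMap_X] at this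
    change D RatFunc.X = _
    rw [this]
    change algebraMap P[X] (RatFunc P) (Helper49.Div.cd d Polynomial.X) = _
    rw [Helper49.Div.cd_X, map_zero]

/-- the derivation `d0` -/
theorem exists_d0 [CharZero P] (f : Subfield P) (a b ρ : P) (hab : AlgebraicIndependent f ![a, b]) :
    ∃ D : Der (RatFunc P), (∀ α ∈ f, D (RatFunc.C α) = 0) ∧
      D RatFunc.X = 0 ∧ D (RatFunc.C ρ) = 0 ∧
      D (RatFunc.C a + RatFunc.X * RatFunc.C b) = 1 := by
  obtain ⟨da, hda⟩ := Helper49.Div.exists_derivation_of_algebraicIndependent hab ![1, 0]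
  obtain ⟨db, hdb⟩ := Helper49.Div.exists_derivation_of_algebraicIndependent hab ![0, 1]
  have haa : da a = 1 := hda 0
  have hab' : da b = 0 := hda 1
  have hba : db a = 0 := hdb 0
  have hbb : db b = 1 := hdb 1
  obtain ⟨Da, hDa, hDaX⟩ := exists_der da
  obtain ⟨Db, hDb, hDbX⟩ := exists_der db
  have hf1 : ∀ α ∈ f, Da (RatFunc.C α) = 0 := by
    intro α hα
    have : da α = 0 := da.map_algebraMap (⟨α, hα⟩ : f)
    rw [hDa, this, map_zero]
  have hf2 : ∀ α ∈ f, Db (RatFunc.C α) = 0 := by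
    intro α hα
    have : db α = 0 := db.map_algebraMap (⟨α, hα⟩ : f)
    rw [hDb, this, map_zero]
  have ht1 : Da (RatFunc.C a + RatFunc.X * RatFunc.C b) = 1 := by
    rw [der_add, der_mul, hDa, hDa, hDaX, haa, hab']
    simp
  have ht2 : Db (RatFunc.C a + RatFunc.X * RatFunc.C b) = RatFunc.X := by
    rw [der_add, der_mul, hDb, hDb, hDbX, hba, hbb]
    simp
  by_cases h0 : da ρ = 0 ∧ db ρ = 0
  · exact ⟨Da, hf1, hDaX, by rw [hDa, h0.1, map_zero], ht1⟩
  · have hdet : RatFunc.C (db ρ) - RatFunc.X * RatFunc.C (da ρ) ≠ 0 := by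
      intro h
      apply h0
      have h1 := eval2_X_ne (Polynomial.C (db ρ) - Polynomial.X * Polynomial.C (da ρ))
      by_contra hcon
      apply h1
      · intro h2
        apply hcon
        have e0 := congrArg (fun q : P[X] => q.coeff 0) h2
        have e1 := congrArg (fun q : P[X] => q.coeff 1) h2
        simp [Polynomial.coeff_C] at e0 e1
        exact ⟨e1, e0⟩
      · rw [Polynomial.eval₂_sub, Polynomial.eval₂_mul, Polynomial.eval₂_C, Polynomial.eval₂_C,
          Polynomial.eval₂_X]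
        exact h
    set δ := RatFunc.C (db ρ) - RatFunc.X * RatFunc.C (da ρ) with hδ
    obtain ⟨H, hH⟩ := exists_comb Da Db (RatFunc.C (db ρ) / δ) (-RatFunc.C (da ρ) / δ)
    refine ⟨H, ?_, ?_, ?_, ?_⟩
    · intro α hα
      rw [hH, hf1 α hα, hf2 α hα]
      simp
    · rw [hH, hDaX, hDbX]
      simp
    · rw [hH, hDa, hDb]
      ring
    · rw [hH, ht1, ht2]
      field_simp
      rw [hδ]
      ring

end Der

section Fix

variable {l : Type*} [Field l]

theorem pow_fix {σ : RingAut l} {x : l} (h : σ x = x) (i : ℕ) : (σ ^ i) x = x := by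
  induction i with
  | zero => rfl
  | succ i ih =>
    rw [pow_succ']
    change σ ((σ ^ i) x) = x
    rw [ih, h]

theorem inv_fix {σ : RingAut l} {x : l} (h : σ x = x) : (σ⁻¹ : RingAut l) x = x := by
  have h1 : (σ⁻¹ : RingAut l) (σ x) = x := σ.symm_apply_apply x
  rwa [h] at h1

theorem mul_fix {g τ : RingAut l} {x : l} (hg : g x = x) (hτ : τ x = x) (i j : ℕ) :
    ((g ^ i * τ ^ j : RingAut l)⁻¹ : RingAut l) x = x := by
  apply inv_fix
  change (g ^ i) ((τ ^ j) x) = x
  rw [pow_fix hτ, pow_fix hg]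

theorem mul_neg_fix {g τ : RingAut l} {x : l} (hg : g x = x) (hτ : τ x = -x) (i j : ℕ) :
    ((g ^ i * τ ^ j : RingAut l)⁻¹ : RingAut l) x = x ∨
    ((g ^ i * τ ^ j : RingAut l)⁻¹ : RingAut l) x = -x := by
  have h1 : (τ ^ j) x = x ∨ (τ ^ j) x = -x := by
    induction j with
    | zero => left; rfl
    | succ j ih =>
      rw [pow_succ']
      change τ ((τ ^ j) x) = x ∨ τ ((τ ^ j) x) = -x
      rcases ih with h | h
      · right; rw [h, hτ]
      · left; rw [h, map_neg, hτ, neg_neg]
  rcases h1 with h | h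
  · left
    apply inv_fix
    change (g ^ i) ((τ ^ j) x) = x
    rw [h, pow_fix hg]
  · right
    have h2 : (g ^ i * τ ^ j : RingAut l) (-x) = x := by
      change (g ^ i) ((τ ^ j) (-x)) = x
      rw [map_neg, h, neg_neg, pow_fix hg]
    have h3 : ((g ^ i * τ ^ j : RingAut l)⁻¹ : RingAut l) ((g ^ i * τ ^ j : RingAut l) (-x)) = -x :=
      (g ^ i * τ ^ j : RingAut l).symm_apply_apply (-x)
    rwa [h2] at h3

end Fix

end CutResAux

open Polynomial

/-- the residue-level data of a cut -/
structure CutRes {m : ℕ} (A : Datum m) (A0 A1 : A.K) where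
  l : Type
  [fieldl : Field l]
  [charl : CharZero l]
  i : A.P →+* l
  Y : l
  Y_tr : ∀ Q : A.P[X], Q ≠ 0 → Q.eval₂ i Y ≠ 0
  /-- `P` is algebraically closed in `l` -/
  acl : ∀ x : l, ∀ Q : A.P[X], Q ≠ 0 → Q.eval₂ i x = 0 → ∃ p, x = i p
  g' : l ≃+* l
  τ' : l ≃+* l
  g_i : ∀ p, g' (i p) = i (A.g p)
  τ_i : ∀ p, τ' (i p) = i (A.τ p)
  g_Y : g' Y = Y
  τ_Y : τ' Y = Y
  g_pow : ∀ x, g'^[2 ^ m] x = x
  τ_sq : ∀ x, τ' (τ' x) = x
  gτ : ∀ x, g' (τ' x) = τ' (g' x)
  f' : Subfield l
  f'_eq : f' = ad (A.f.map i) {Y, i (A.c0 A0) + Y * i (A.c0 A1)}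
  hf' : ∀ x : l, IsAlgebraic f' x → x ∈ f'
  ψ : l →+* PowerSeries l
  ψ_c : ∀ x, PowerSeries.constantCoeff (ψ x) = x
  ψ_f : ∀ α ∈ A.f, ψ (i α) = PowerSeries.C (i α)
  ψ_Y : ψ Y = PowerSeries.C Y
  ψ_ρ : ψ (i A.ρ) = PowerSeries.C (i A.ρ)
  ψ_t : ∀ n : ℕ, PowerSeries.coeff n (ψ (i (A.c0 A0) + Y * i (A.c0 A1))) =
    i ((A0 : LaurentSeries A.P).coeff n) + Y * i ((A1 : LaurentSeries A.P).coeff n)
  ψ_g : ∀ (x : l) (n : ℕ), PowerSeries.coeff n (ψ (g' x)) = g' (PowerSeries.coeff n (ψ x))
  ψ_τ : ∀ (x : l) (n : ℕ), PowerSeries.coeff n (ψ (τ' x)) =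
    (-1) ^ n * τ' (PowerSeries.coeff n (ψ x))

attribute [instance] CutRes.fieldl CutRes.charl

open CutResAux in
/-- 13, residue level -/
theorem cutRes {m : ℕ} (A : Datum m) (A0 A1 : A.K) (h0 : A.gK A0 = A0) (h1 : A.gK A1 = A1)
    (v0 : 0 ≤ A.v A0) (v1 : 0 ≤ A.v A1)
    (hind : AlgebraicIndependent A.f ![A.c0 A0, A.c0 A1]) : Nonempty (CutRes A A0 A1) := by
  have _ := v0
  have _ := v1
  have hchar : CharZero (RatFunc A.P) :=
    charZero_of_injective_algebraMap (algebraMap A.P (RatFunc A.P)).injective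
  -- fixed coefficients
  have g0 : ∀ n : ℤ, A.g ((A0 : LaurentSeries A.P).coeff n) = (A0 : LaurentSeries A.P).coeff n := by
    intro n
    rw [← A.gK_coeff, h0]
  have g1 : ∀ n : ℤ, A.g ((A1 : LaurentSeries A.P).coeff n) = (A1 : LaurentSeries A.P).coeff n := by
    intro n
    rw [← A.gK_coeff, h1]
  have t0 := A.K_τ _ A0.2
  have t1 := A.K_τ _ A1.2
  have ga : A.g (A.c0 A0) = A.c0 A0 := g0 0
  have gb : A.g (A.c0 A1) = A.c0 A1 := g1 0
  have ta : A.τ (A.c0 A0) = A.c0 A0 := by
    have := t0 0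
    rwa [zpow_zero, one_mul] at this
  have tb : A.τ (A.c0 A1) = A.c0 A1 := by
    have := t1 0
    rwa [zpow_zero, one_mul] at this
  -- the derivation
  obtain ⟨D0, hD0f, hD0X, hD0ρ, hD0t⟩ := exists_d0 A.f (A.c0 A0) (A.c0 A1) A.ρ hind
  let G : RingAut (RatFunc A.P) := mapX A.g
  let T : RingAut (RatFunc A.P) := mapX A.τ
  have hGC : ∀ p, G (RatFunc.C p) = RatFunc.C (A.g p) := mapX_C A.g
  have hTC : ∀ p, T (RatFunc.C p) = RatFunc.C (A.τ p) := mapX_C A.τ
  have hGX : G RatFunc.X = RatFunc.X := mapX_X A.g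
  have hTX : T RatFunc.X = RatFunc.X := mapX_X A.τ
  have hG : G ^ (2 ^ m) = 1 := by
    have hpow : ∀ (n : ℕ) (x : RatFunc A.P), (G ^ n) x = (mapX A.g)^[n] x := by
      intro n
      induction n with
      | zero => intro x; rfl
      | succ n ih =>
        intro x
        rw [pow_succ', Function.iterate_succ_apply', ← ih]
        rfl
    ext x
    rw [hpow, mapX_iterate A.g _ A.g_pow]
    rfl
  have hT : T * T = 1 := by
    ext x
    change mapX A.τ (mapX A.τ x) = x
    exact mapX_iterate A.τ 2 (fun y => A.τ_sq y) x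
  have hGT : G * T = T * G := by
    ext x
    exact mapX_comm A.g A.τ A.gτ x
  obtain ⟨d, hdg, hdτ, hdy⟩ := exists_avg G T (N := 2 ^ m) (by positivity) hG hT hGT D0
  have hdf : ∀ α ∈ A.f, d (RatFunc.C α) = 0 := by
    intro α hα
    apply hdy _ _ _ (map_zero _) (map_zero _)
    intro i j
    rw [mul_fix (by rw [hGC, A.g_f α hα]) (by rw [hTC, A.τ_f α hα]), hD0f α hα]
  have hdX : d RatFunc.X = 0 := by
    apply hdy _ _ _ (map_zero _) (map_zero _)
    intro i j
    rw [mul_fix hGX hTX, hD0X]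
  have hdρ : d (RatFunc.C A.ρ) = 0 := by
    apply hdy _ _ _ (map_zero _) (map_zero _)
    intro i j
    rcases mul_neg_fix (g := G) (τ := T) (x := RatFunc.C A.ρ) (by rw [hGC, A.g_ρ])
      (by rw [hTC, A.τ_ρ, map_neg]) i j with h | h
    · rw [h, hD0ρ]
    · rw [h, map_neg, hD0ρ, neg_zero]
  have hdt : d (RatFunc.C (A.c0 A0) + RatFunc.X * RatFunc.C (A.c0 A1)) = 1 := by
    apply hdy _ _ _ (map_one _) (map_one _)
    intro i j
    rw [mul_fix (by rw [map_add, map_mul, hGC, hGC, hGX, ga, gb])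
      (by rw [map_add, map_mul, hTC, hTC, hTX, ta, tb]), hD0t]
  -- the series `u`
  let u : PowerSeries (RatFunc A.P) := PowerSeries.mk fun n => if n = 0 then 0 else
    RatFunc.C ((A0 : LaurentSeries A.P).coeff n) +
      RatFunc.X * RatFunc.C ((A1 : LaurentSeries A.P).coeff n)
  have hu : PowerSeries.X ∣ u := by
    rw [PowerSeries.X_dvd_iff, ← PowerSeries.coeff_zero_eq_constantCoeff_apply,
      PowerSeries.coeff_mk, if_pos rfl]
  -- the fields
  have hf' : ∀ x : RatFunc A.P,
      IsAlgebraic (ad (A.f.map RatFunc.C) {RatFunc.X, RatFunc.C (A.c0 A0) +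
        RatFunc.X * RatFunc.C (A.c0 A1)}) x →
      x ∈ ad (A.f.map RatFunc.C) {RatFunc.X, RatFunc.C (A.c0 A0) +
        RatFunc.X * RatFunc.C (A.c0 A1)} := by
    intro x hx
    let φ : A.f →+* (A.f.map (RatFunc.C (K := A.P))) :=
      { toFun := fun y => ⟨RatFunc.C y, ⟨y, y.2, rfl⟩⟩
        map_one' := by apply Subtype.ext; simp
        map_mul' := by intro y z; apply Subtype.ext; simp
        map_zero' := by apply Subtype.ext; simp
        map_add' := by intro y z; apply Subtype.ext; simp }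
    have hφ : Function.Surjective φ := by
      rintro ⟨_, ⟨y, hy, rfl⟩⟩
      exact ⟨⟨y, hy⟩, rfl⟩
    have hcomp : RingHom.comp (algebraMap (A.f.map (RatFunc.C (K := A.P))) (RatFunc A.P)) φ
        = RingHom.comp (RatFunc.C (K := A.P)) (algebraMap A.f A.P) := by
      ext y
      rfl
    have hAC : AC (A.f.map (RatFunc.C (K := A.P))) (RatFunc.C (K := A.P)).fieldRange := by
      rintro _ ⟨p, rfl⟩ hp
      have h2 : IsAlgebraic A.f p :=
        hp.of_ringHom_of_comp_eq φ (RatFunc.C (K := A.P)) hφ (RatFunc.C (K := A.P)).injective hcomp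
      exact ⟨p, A.hf p h2, rfl⟩
    have hle : A.f.map (RatFunc.C (K := A.P)) ≤ (RatFunc.C (K := A.P)).fieldRange := by
      rintro _ ⟨p, _, rfl⟩
      exact ⟨p, rfl⟩
    have hind' : AlgebraicIndependent (A.f.map (RatFunc.C (K := A.P)))
        ![RatFunc.C (A.c0 A0), RatFunc.C (A.c0 A1)] := by
      have h3 := hind.ringHom_of_comp_eq φ (RatFunc.C (K := A.P)) hφ
        (RatFunc.C (K := A.P)).injective hcomp
      have h4 : (RatFunc.C (K := A.P)) ∘ ![A.c0 A0, A.c0 A1]
          = ![RatFunc.C (A.c0 A0), RatFunc.C (A.c0 A1)] := by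
        funext i
        fin_cases i <;> rfl
      rwa [h4] at h3
    have hY : ¬ IsAlgebraic (RatFunc.C (K := A.P)).fieldRange (RatFunc.X : RatFunc A.P) := by
      intro h
      apply RatFunc.transcendental_X (K := A.P)
      refine Helper13.DV.isAlgebraic_of_range (RingHom.injective _) (RingHom.injective _) ?_ h
      rintro _ ⟨⟨_, ⟨p, rfl⟩⟩, rfl⟩
      exact ⟨p, rfl⟩
    have h5 := gp (A.f.map (RatFunc.C (K := A.P))) (RatFunc.C (K := A.P)).fieldRange hle hAC
      (RatFunc.C (A.c0 A0)) (RatFunc.C (A.c0 A1)) ⟨_, rfl⟩ ⟨_, rfl⟩ hind' RatFunc.X hY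
    apply h5 x _ hx
    apply ad_top
    · intro p
      exact Subfield.subset_closure (Or.inl ⟨p, rfl⟩)
    · exact Subfield.subset_closure (Or.inr rfl)
  refine ⟨{
    l := RatFunc A.P
    i := RatFunc.C
    Y := RatFunc.X
    Y_tr := eval2_X_ne
    acl := acl_C
    g' := mapX A.g
    τ' := mapX A.τ
    g_i := mapX_C A.g
    τ_i := mapX_C A.τ
    g_Y := mapX_X A.g
    τ_Y := mapX_X A.τ
    g_pow := mapX_iterate A.g _ A.g_pow
    τ_sq := fun x => mapX_iterate A.τ 2 (fun y => A.τ_sq y) x
    gτ := mapX_comm A.g A.τ A.gτ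
    f' := _
    f'_eq := rfl
    hf' := hf'
    ψ := Helper49.Div.taylor d u hu
    ψ_c := Helper49.Div.constantCoeff_taylor hu
    ψ_f := fun α hα => Helper49.Div.taylor_of_const hu (hdf α hα)
    ψ_Y := Helper49.Div.taylor_of_const hu hdX
    ψ_ρ := Helper49.Div.taylor_of_const hu hdρ
    ψ_t := ?_
    ψ_g := ?_
    ψ_τ := ?_ }⟩
  · intro n
    rw [Helper49.Div.taylor_of_one hu hdt, map_add, PowerSeries.coeff_C, PowerSeries.coeff_mk]
    rcases Nat.eq_zero_or_pos n with rfl | hn
    · rw [if_pos rfl, if_pos rfl, add_zero]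
      rfl
    · rw [if_neg hn.ne', if_neg hn.ne', zero_add]
  · intro x n
    have h2 := Helper49.Div.taylor_comm (d := d) hu (G : RatFunc A.P →+* RatFunc A.P) 1 hdg (by
      intro k
      rw [one_pow, one_mul, PowerSeries.coeff_mk]
      split_ifs
      · exact map_zero _
      · change G _ = _
        rw [map_add, map_mul, hGC, hGC, hGX, g0, g1]) x n
    rw [one_pow, one_mul] at h2
    exact h2
  · intro x n
    have h2 := Helper49.Div.taylor_comm (d := d) hu (T : RatFunc A.P →+* RatFunc A.P) (-1) hdτ (by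
      intro k
      rw [PowerSeries.coeff_mk]
      split_ifs
      · rw [map_zero, mul_zero]
      · change _ * T _ = _
        rw [map_add, map_mul, hTC, hTC, hTX, t0, t1, map_mul, map_mul]
        have h3 : (RatFunc.C ((-1 : A.P) ^ (k : ℤ)) : RatFunc A.P) = (-1) ^ k := by
          rw [zpow_natCast, map_pow, map_neg, map_one]
        rw [h3]
        have h4 : ((-1 : RatFunc A.P) ^ k) * (-1) ^ k = 1 := by
          rw [← mul_pow]; simp
        linear_combination (RatFunc.C ((A0 : LaurentSeries A.P).coeff k) +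
          RatFunc.X * RatFunc.C ((A1 : LaurentSeries A.P).coeff k)) * h4) x n
    exact h2

end Pool.Agent.DA
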