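import Pool.Agent.DA.Defs

/-! Section 10 : basic facts on data -/

set_option autoImplicit false

namespace Pool.Agent.DA

open Polynomial

namespace Datum

variable {m : ℕ} (A : Datum m)

/-- leading coefficients multiply -/
theorem coeff_mul_le {P : Type*} [Field P] (x y : LaurentSeries P) (i j : ℤ)
    (hx : ∀ k < i, x.coeff k = 0) (hy : ∀ k < j, y.coeff k = 0) :
    (x * y).coeff (i + j) = x.coeff i * y.coeff j := by
  rw [HahnSeries.coeff_mul]
  refine Finset.sum_eq_single (i, j) ?_ ?_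
  · rintro ⟨k, l⟩ hkl hne
    rw [Finset.mem_antidiagonal] at hkl
    by_cases hk : k < i
    · rw [hx k hk, zero_mul]
    · by_cases hl : l < j
      · rw [hy l hl, mul_zero]
      · exfalso
        apply hne
        obtain ⟨_, _, h3⟩ := hkl
        simp only at h3
        ext <;> simp only <;> omega
  · intro h
    rw [Finset.mem_antidiagonal] at h
    simp only [HahnSeries.mem_support, and_true, not_and_or, not_not] at h
    rcases h with h | h
    · simp only [h, zero_mul]
    · simp only [h, mul_zero]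

theorem mem_F (x : A.K) : x ∈ A.F ↔ ∀ n, (x : LaurentSeries A.P).coeff n ∈ A.f := by
  constructor
  · rintro ⟨y, hy⟩ n
    have h : hat A.f.subtype y = (x : LaurentSeries A.P) := hy
    rw [← h, hat_coeff]
    exact (y.coeff n).2
  · intro h
    let y : LaurentSeries A.f :=
      { coeff := fun n => ⟨(x : LaurentSeries A.P).coeff n, h n⟩
        isPWO_support' := by
          refine (x : LaurentSeries A.P).isPWO_support'.mono ?_
          intro n hn
          rw [Function.mem_support] at hn ⊢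
          intro h0
          apply hn
          exact Subtype.ext h0 }
    refine ⟨y, ?_⟩
    change hat A.f.subtype y = (x : LaurentSeries A.P)
    ext n
    rw [hat_coeff]
    rfl

theorem W_coe : (A.W : LaurentSeries A.P) = HahnSeries.single 2 1 := rfl

theorem a_coe : (A.a : LaurentSeries A.P) = HahnSeries.single 1 A.ρ⁻¹ := rfl

theorem v_W : A.v A.W = 2 := by
  rw [v_apply, W_coe, HahnSeries.orderTop_single one_ne_zero]
  rfl

theorem v_a : A.v A.a = 1 := by
  rw [v_apply, a_coe, HahnSeries.orderTop_single (inv_ne_zero A.ρ_ne)]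
  rfl

theorem W_mem : A.W ∈ A.F := by
  rw [mem_F]
  intro n
  rw [W_coe, HahnSeries.coeff_single]
  split_ifs
  · exact A.f.one_mem
  · exact A.f.zero_mem

theorem W_ne : A.W ≠ 0 := by
  intro h
  have h1 := A.v_W
  rw [h, AddValuation.map_zero] at h1
  exact absurd h1 (by decide)

theorem g_a : A.gK A.a = A.a := by
  apply Subtype.ext
  ext n
  rw [gK_coeff, a_coe, HahnSeries.coeff_single]
  split_ifs
  · rw [map_inv₀, A.g_ρ]
  · rw [map_zero]

theorem g_F (x : A.K) (hx : x ∈ A.F) : A.gK x = x := by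
  apply Subtype.ext
  ext n
  rw [gK_coeff]
  exact A.g_f _ ((A.mem_F x).1 hx n)

theorem g_W : A.gK A.W = A.W := A.g_F _ A.W_mem

theorem v_gK (x : A.K) : A.v (A.gK x) = A.v x := by
  rw [v_apply, v_apply]
  have h : ∀ i : WithTop ℤ, i ≤ ((A.gK x : A.K) : LaurentSeries A.P).orderTop ↔
      i ≤ (x : LaurentSeries A.P).orderTop := by
    intro i
    rw [HahnSeries.le_orderTop_iff_forall, HahnSeries.le_orderTop_iff_forall]
    refine forall_congr' fun j => imp_congr_right fun _ => ?_
    rw [gK_coeff]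
    exact EmbeddingLike.map_eq_zero_iff
  exact le_antisymm ((h _).1 le_rfl) ((h _).2 le_rfl)

theorem gK_pow (x : A.K) : (A.gK)^[2 ^ m] x = x := by
  have h : ∀ (k : ℕ) (n : ℤ), (((A.gK)^[k] x : A.K) : LaurentSeries A.P).coeff n =
      (A.g)^[k] ((x : LaurentSeries A.P).coeff n) := by
    intro k
    induction k with
    | zero => intro n; rfl
    | succ k ih =>
      intro n
      rw [Function.iterate_succ_apply', Function.iterate_succ_apply', gK_coeff, ih]
  apply Subtype.ext
  ext n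
  rw [h, A.g_pow]

theorem v_nat (n : ℕ) (hn : n ≠ 0) : A.v (n : A.K) = 0 := by
  rw [v_apply]
  have : ((n : A.K) : LaurentSeries A.P) = HahnSeries.C (n : A.P) := by
    push_cast
    simp
  rw [this, HahnSeries.C_apply, HahnSeries.orderTop_single (Nat.cast_ne_zero.2 hn)]
  rfl

theorem v_lt_coeff (x : A.K) (n : ℤ) (h : (n : WithTop ℤ) < A.v x) :
    (x : LaurentSeries A.P).coeff n = 0 := by
  rw [v_apply] at h
  exact HahnSeries.coeff_eq_zero_of_lt_orderTop h

theorem v_pos_iff (x : A.K) (h : 0 ≤ A.v x) : 0 < A.v x ↔ A.c0 x = 0 := by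
  constructor
  · intro h1
    exact A.v_lt_coeff x 0 h1
  · intro h1
    rcases h.lt_or_eq with h2 | h2
    · exact h2
    · exfalso
      rw [v_apply] at h2
      exact HahnSeries.orderTop_ne_of_coeff_eq_zero h1 h2.symm

theorem v_zero_iff (x : A.K) (h : 0 ≤ A.v x) : A.v x = 0 ↔ A.c0 x ≠ 0 := by
  rw [← not_iff_not, not_not, ← A.v_pos_iff x h]
  constructor
  · intro h1
    exact lt_of_le_of_ne h (Ne.symm h1)
  · intro h1
    exact h1.ne'

theorem c0_add (x y : A.K) : A.c0 (x + y) = A.c0 x + A.c0 y := rfl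

theorem c0_sub (x y : A.K) : A.c0 (x - y) = A.c0 x - A.c0 y := rfl

theorem c0_mul (x y : A.K) (hx : 0 ≤ A.v x) (hy : 0 ≤ A.v y) : A.c0 (x * y) = A.c0 x * A.c0 y := by
  have h := coeff_mul_le (x : LaurentSeries A.P) (y : LaurentSeries A.P) 0 0
    (fun k hk => A.v_lt_coeff x k (lt_of_lt_of_le (by exact_mod_cast hk) hx))
    (fun k hk => A.v_lt_coeff y k (lt_of_lt_of_le (by exact_mod_cast hk) hy))
  rw [add_zero] at h
  exact h

theorem c0_div (x y : A.K) (hx : 0 ≤ A.v x) (hy : A.v y = 0) : A.c0 (x / y) = A.c0 x / A.c0 y := by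
  have hy0 : y ≠ 0 := by
    rintro rfl
    rw [AddValuation.map_zero] at hy
    exact absurd hy (by decide)
  have h1 : A.v (x / y) = A.v x := by
    have h3 : A.v (x / y * y) = A.v (x / y) + A.v y := AddValuation.map_mul _ _ _
    rw [div_mul_cancel₀ _ hy0, hy, add_zero] at h3
    exact h3.symm
  have h2 := A.c0_mul (x / y) y (by rw [h1]; exact hx) hy.ge
  rw [div_mul_cancel₀ _ hy0] at h2
  rw [h2, mul_div_cancel_right₀]
  exact (A.v_zero_iff y hy.ge).1 hy

theorem c0_gK (x : A.K) : A.c0 (A.gK x) = A.g (A.c0 x) := rfl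

theorem c0_tau (x : A.K) : A.τ (A.c0 x) = A.c0 x := by
  have := A.K_τ x x.2 0
  rw [zpow_zero, one_mul] at this
  exact this

theorem c0_F (x : A.K) (hx : x ∈ A.F) : A.c0 x ∈ A.f := (A.mem_F x).1 hx 0

theorem exists_c0_F (α : A.P) (hα : α ∈ A.f) : ∃ x ∈ A.F, 0 ≤ A.v x ∧ A.c0 x = α := by
  obtain ⟨x, hx, h1, h2⟩ := A.K_f α hα
  refine ⟨⟨x, hx⟩, (A.mem_F _).2 h1, ?_, ?_⟩
  · rw [v_apply, HahnSeries.le_orderTop_iff_forall]
    intro j hj
    have h3 := HahnSeries.coeff_eq_zero_of_lt_orderTop (hj.trans h2)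
    rw [HahnSeries.coeff_sub, HahnSeries.C_apply, HahnSeries.coeff_single_of_ne, sub_zero] at h3
    · exact h3
    · rintro rfl
      exact lt_irrefl _ hj
  · have h3 := HahnSeries.coeff_eq_zero_of_lt_orderTop h2
    rw [HahnSeries.coeff_sub, HahnSeries.C_apply, HahnSeries.coeff_single_same] at h3
    exact sub_eq_zero.1 h3

/-- the values of nonzero elements of `F` are even -/
theorem v_F_even (x : A.K) (hx : x ∈ A.F) (h0 : x ≠ 0) : ∃ n : ℤ, A.v x = ((2 * n : ℤ) : WithTop ℤ) := by
  have h1 : (x : LaurentSeries A.P) ≠ 0 := fun h => h0 (Subtype.ext h)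
  obtain ⟨k, hk⟩ := WithTop.ne_top_iff_exists.1 (HahnSeries.orderTop_ne_top.2 h1)
  have h2 : (x : LaurentSeries A.P).coeff k ≠ 0 := HahnSeries.coeff_orderTop_ne hk.symm
  have h3 := A.K_τ x x.2 k
  rw [A.τ_f _ ((A.mem_F x).1 hx k)] at h3
  rcases Int.even_or_odd k with h4 | h4
  · obtain ⟨n, hn⟩ := h4
    refine ⟨n, ?_⟩
    rw [v_apply, ← hk, hn, two_mul]
  · exfalso
    rw [h4.neg_one_zpow] at h3
    apply h2
    have h5 : (2 : A.P) * (x : LaurentSeries A.P).coeff k = 0 := by linear_combination h3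
    exact (mul_eq_zero.1 h5).resolve_left two_ne_zero

end Datum

end Pool.Agent.DA
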