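import Pool.Agent.DA.DBasic

/-! Section 10 : 10.1 - 10.5 -/

set_option autoImplicit false

namespace Pool.Agent.DA

open Polynomial

namespace Datum

variable {m : ℕ} (A : Datum m)

theorem single_zpow_two {P : Type*} [Field P] (k : ℤ) :
    (HahnSeries.single 2 1 : LaurentSeries P) ^ k = HahnSeries.single (2 * k) 1 := by
  have h : ∀ n : ℕ, (HahnSeries.single 2 1 : LaurentSeries P) ^ n =
      HahnSeries.single (2 * (n : ℤ)) 1 := by
    intro n
    rw [HahnSeries.single_pow, one_pow]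
    congr 1
    simp [mul_comm]
  cases k with
  | ofNat n =>
    rw [Int.ofNat_eq_natCast, zpow_natCast]
    exact h n
  | negSucc n =>
    rw [zpow_negSucc, h]
    apply inv_eq_of_mul_eq_one_right
    rw [HahnSeries.single_mul_single, one_mul]
    have : 2 * ((n + 1 : ℕ) : ℤ) + 2 * Int.negSucc n = 0 := by
      rw [Int.negSucc_eq]; push_cast; ring
    rw [this]
    rfl

theorem W_zpow_coe (k : ℤ) :
    ((A.W ^ k : A.K) : LaurentSeries A.P) = HahnSeries.single (2 * k) 1 := by
  rw [← single_zpow_two, ← W_coe]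
  rfl

theorem coeff_mul_W (x : A.K) (k n : ℤ) : ((x * A.W ^ k : A.K) : LaurentSeries A.P).coeff n =
    (x : LaurentSeries A.P).coeff (n - 2 * k) := by
  have h : ((x * A.W ^ k : A.K) : LaurentSeries A.P) =
      (x : LaurentSeries A.P) * ((A.W ^ k : A.K) : LaurentSeries A.P) := rfl
  rw [h, W_zpow_coe, HahnSeries.coeff_mul_single, mul_one]

theorem le_v_iff (x : A.K) (n : ℤ) : (n : WithTop ℤ) ≤ A.v x ↔
    ∀ k : ℤ, k < n → (x : LaurentSeries A.P).coeff k = 0 := by
  rw [v_apply, HahnSeries.le_orderTop_iff_forall]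
  exact forall_congr' fun j => by rw [WithTop.coe_lt_coe]

theorem c0_zero : A.c0 0 = 0 := rfl

theorem c0_one : A.c0 1 = 1 := by
  unfold c0
  rw [OneMemClass.coe_one, HahnSeries.coeff_one, if_pos rfl]

theorem v_one : A.v 1 = 0 := AddValuation.map_one _

theorem c0_sum {ι : Type*} (s : Finset ι) (f : ι → A.K) :
    A.c0 (∑ i ∈ s, f i) = ∑ i ∈ s, A.c0 (f i) := by
  classical
  induction s using Finset.induction_on with
  | empty => simp [c0_zero]
  | insert a s ha ih => rw [Finset.sum_insert ha, Finset.sum_insert ha, c0_add, ih]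

theorem v_mul_nonneg {x y : A.K} (hx : 0 ≤ A.v x) (hy : 0 ≤ A.v y) : 0 ≤ A.v (x * y) := by
  rw [AddValuation.map_mul]
  exact add_nonneg hx hy

theorem v_pow_nonneg {x : A.K} (hx : 0 ≤ A.v x) (n : ℕ) : 0 ≤ A.v (x ^ n) := by
  rw [AddValuation.map_pow]
  exact nsmul_nonneg hx n

theorem v_sum_nonneg {ι : Type*} (s : Finset ι) (f : ι → A.K) (h : ∀ i ∈ s, 0 ≤ A.v (f i)) :
    0 ≤ A.v (∑ i ∈ s, f i) := by
  classical
  induction s using Finset.induction_on with
  | empty => simp [AddValuation.map_zero]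
  | insert a s ha ih =>
    rw [Finset.sum_insert ha]
    exact AddValuation.map_le_add _ (h a (Finset.mem_insert_self a s))
      (ih fun i hi => h i (Finset.mem_insert_of_mem hi))

theorem c0_pow {x : A.K} (hx : 0 ≤ A.v x) (n : ℕ) : A.c0 (x ^ n) = A.c0 x ^ n := by
  induction n with
  | zero => rw [pow_zero, pow_zero, c0_one]
  | succ n ih => rw [pow_succ, pow_succ, c0_mul _ _ _ (A.v_pow_nonneg hx n) hx, ih]

theorem c0_prod {ι : Type*} (s : Finset ι) (f : ι → A.K) (h : ∀ i ∈ s, 0 ≤ A.v (f i)) :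
    0 ≤ A.v (∏ i ∈ s, f i) ∧ A.c0 (∏ i ∈ s, f i) = ∏ i ∈ s, A.c0 (f i) := by
  classical
  induction s using Finset.induction_on with
  | empty => simp [c0_one]
  | insert a s ha ih =>
    rw [Finset.prod_insert ha, Finset.prod_insert ha]
    obtain ⟨h1, h2⟩ := ih fun i hi => h i (Finset.mem_insert_of_mem hi)
    have h3 := h a (Finset.mem_insert_self a s)
    exact ⟨A.v_mul_nonneg h3 h1, by rw [c0_mul _ _ _ h3 h1, h2]⟩

theorem v_eval_nonneg (p : A.K[X]) (hp : ∀ i, 0 ≤ A.v (p.coeff i)) (x : A.K) (hx : 0 ≤ A.v x) :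
    0 ≤ A.v (p.eval x) := by
  rw [eval_eq_sum_range]
  exact A.v_sum_nonneg _ _ fun i _ => A.v_mul_nonneg (hp i) (A.v_pow_nonneg hx i)

theorem c0_eval (p : A.K[X]) (hp : ∀ i, 0 ≤ A.v (p.coeff i)) (x : A.K) (hx : 0 ≤ A.v x) :
    A.c0 (p.eval x) = ∑ i ∈ Finset.range (p.natDegree + 1), A.c0 (p.coeff i) * A.c0 x ^ i := by
  rw [eval_eq_sum_range, c0_sum]
  refine Finset.sum_congr rfl fun i _ => ?_
  rw [c0_mul _ _ _ (hp i) (A.v_pow_nonneg hx i), c0_pow _ hx]

/-- approximation of `z` by elements of `F` below the first coefficient outside `f` -/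
theorem approx (z : A.K) (n : ℤ) (hn : ∀ k < n, (z : LaurentSeries A.P).coeff k ∈ A.f) :
    ∃ α ∈ A.F, ∀ k < n, ((z - α : A.K) : LaurentSeries A.P).coeff k = 0 := by
  by_cases hz : z = 0
  · refine ⟨0, A.F.zero_mem, fun k _ => ?_⟩
    rw [hz, sub_zero]
    rfl
  have h1 : (z : LaurentSeries A.P) ≠ 0 := fun h => hz (Subtype.ext h)
  obtain ⟨k0, hk0⟩ := WithTop.ne_top_iff_exists.1 (HahnSeries.orderTop_ne_top.2 h1)
  have hlow : ∀ k < k0, (z : LaurentSeries A.P).coeff k = 0 := by
    intro k hk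
    apply HahnSeries.coeff_eq_zero_of_lt_orderTop
    rw [← hk0]
    exact_mod_cast hk
  have key : ∀ d : ℕ, k0 + d ≤ n →
      ∃ α ∈ A.F, ∀ k < k0 + d, ((z - α : A.K) : LaurentSeries A.P).coeff k = 0 := by
    intro d
    induction d with
    | zero =>
      intro _
      refine ⟨0, A.F.zero_mem, fun k hk => ?_⟩
      rw [sub_zero]
      exact hlow k (by simpa using hk)
    | succ d ih =>
      intro hd
      push_cast at hd
      obtain ⟨α, hα, h2⟩ := ih (by omega)
      set j : ℤ := k0 + d with hj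
      have hjf : ((z - α : A.K) : LaurentSeries A.P).coeff j ∈ A.f := by
        have : ((z - α : A.K) : LaurentSeries A.P).coeff j =
          (z : LaurentSeries A.P).coeff j - (α : LaurentSeries A.P).coeff j := rfl
        rw [this]
        exact A.f.sub_mem (hn j (by omega)) ((A.mem_F α).1 hα j)
      rcases Int.even_or_odd j with he | ho
      · obtain ⟨e, he⟩ := he
        obtain ⟨β, hβ, hβ0, hβc⟩ := A.exists_c0_F _ hjf
        refine ⟨α + β * A.W ^ e, A.F.add_mem hα (A.F.mul_mem hβ (zpow_mem A.W_mem e)), ?_⟩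
        intro k hk
        have h3 : ((z - (α + β * A.W ^ e) : A.K) : LaurentSeries A.P).coeff k =
            ((z - α : A.K) : LaurentSeries A.P).coeff k -
              ((β * A.W ^ e : A.K) : LaurentSeries A.P).coeff k := by
          have : z - (α + β * A.W ^ e) = (z - α) - β * A.W ^ e := by ring
          rw [this]
          rfl
        rw [h3, coeff_mul_W]
        rcases lt_or_eq_of_le (show k ≤ j by push_cast at hk; omega) with h4 | h4
        · rw [h2 k h4]
          have h5 := (A.le_v_iff β 0).1 hβ0 (k - 2 * e) (by omega)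
          rw [h5, sub_zero]
        · rw [h4]
          have h6 : j - 2 * e = 0 := by omega
          rw [h6]
          have h7 : (β : LaurentSeries A.P).coeff 0 = A.c0 β := rfl
          rw [h7, hβc, sub_self]
      · refine ⟨α, hα, ?_⟩
        intro k hk
        rcases lt_or_eq_of_le (show k ≤ j by push_cast at hk; omega) with h4 | h4
        · exact h2 k h4
        · rw [h4]
          have h5 := A.K_τ (z - α : A.K) (z - α : A.K).2 j
          rw [A.τ_f _ hjf, ho.neg_one_zpow] at h5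
          have h6 : (2 : A.P) * ((z - α : A.K) : LaurentSeries A.P).coeff j = 0 := by
            linear_combination h5
          exact (mul_eq_zero.1 h6).resolve_left two_ne_zero
  rcases le_total n k0 with h | h
  · refine ⟨0, A.F.zero_mem, fun k hk => ?_⟩
    rw [sub_zero]
    exact hlow k (by omega)
  · obtain ⟨α, hα, h2⟩ := key (n - k0).toNat (by omega)
    exact ⟨α, hα, fun k hk => h2 k (by omega)⟩

/-- 10.1 -/
theorem lemmaZ (z : A.K) (hz : z ∉ A.F) : ∃ Q : A.K[X], (∀ i, Q.coeff i ∈ A.F) ∧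
    0 ≤ A.v (Q.eval z) ∧ A.c0 (Q.eval z) ∉ A.f := by
  have hz0 : z ≠ 0 := by
    rintro rfl
    exact hz A.F.zero_mem
  have h1 : (z : LaurentSeries A.P) ≠ 0 := fun h => hz0 (Subtype.ext h)
  obtain ⟨k0, hk0⟩ := WithTop.ne_top_iff_exists.1 (HahnSeries.orderTop_ne_top.2 h1)
  have hlow : ∀ k < k0, (z : LaurentSeries A.P).coeff k = 0 := by
    intro k hk
    apply HahnSeries.coeff_eq_zero_of_lt_orderTop
    rw [← hk0]
    exact_mod_cast hk
  obtain ⟨n, hn, hmin⟩ : ∃ n : ℤ, (z : LaurentSeries A.P).coeff n ∉ A.f ∧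
      ∀ k < n, (z : LaurentSeries A.P).coeff k ∈ A.f := by
    have hex : ∃ n : ℤ, (z : LaurentSeries A.P).coeff n ∉ A.f := by
      by_contra hcon
      push Not at hcon
      exact hz ((A.mem_F z).2 hcon)
    obtain ⟨n, hn, h2⟩ := Int.exists_least_of_bdd (P := fun n : ℤ =>
      (z : LaurentSeries A.P).coeff n ∉ A.f) ⟨k0, fun k hk => by
        by_contra hlt
        rw [not_le] at hlt
        apply hk
        rw [hlow k hlt]
        exact A.f.zero_mem⟩ hex
    refine ⟨n, hn, fun k hk => ?_⟩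
    by_contra h3
    exact absurd (h2 k h3) (by omega)
  obtain ⟨α, hα, hα2⟩ := A.approx z n hmin
  set b := ((z - α : A.K) : LaurentSeries A.P).coeff n with hb
  have hbf : b ∉ A.f := by
    intro h
    apply hn
    have : (z : LaurentSeries A.P).coeff n = b + (α : LaurentSeries A.P).coeff n := by
      rw [hb]
      have : ((z - α : A.K) : LaurentSeries A.P).coeff n =
          (z : LaurentSeries A.P).coeff n - (α : LaurentSeries A.P).coeff n := rfl
      rw [this]
      ring
    rw [this]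
    exact A.f.add_mem h ((A.mem_F α).1 hα n)
  have coefX : ∀ i, (X - C α : A.K[X]).coeff i ∈ A.F := by
    intro i
    rw [coeff_sub, coeff_X, coeff_C]
    refine A.F.sub_mem ?_ ?_
    · split_ifs
      exacts [A.F.one_mem, A.F.zero_mem]
    · split_ifs
      exacts [hα, A.F.zero_mem]
  rcases Int.even_or_odd n with he | ho
  · obtain ⟨e, he⟩ := he
    refine ⟨C (A.W ^ (-e)) * (X - C α), ?_, ?_, ?_⟩
    · intro i
      rw [coeff_C_mul]
      exact A.F.mul_mem (zpow_mem A.W_mem _) (coefX i)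
    · rw [eval_mul, eval_C, eval_sub, eval_X, eval_C, mul_comm]
      refine (A.le_v_iff _ 0).2 fun k hk => ?_
      rw [coeff_mul_W]
      exact hα2 _ (by omega)
    · rw [eval_mul, eval_C, eval_sub, eval_X, eval_C, mul_comm]
      unfold c0
      rw [coeff_mul_W]
      have : 0 - 2 * -e = n := by omega
      rw [this]
      exact hbf
  · refine ⟨C (A.W ^ (-n)) * ((X - C α) * (X - C α)), ?_, ?_, ?_⟩
    · intro i
      rw [coeff_C_mul]
      refine A.F.mul_mem (zpow_mem A.W_mem _) ?_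
      rw [coeff_mul]
      exact A.F.sum_mem fun j _ => A.F.mul_mem (coefX _) (coefX _)
    · rw [eval_mul, eval_C, eval_mul, eval_sub, eval_X, eval_C, mul_comm]
      refine (A.le_v_iff _ 0).2 fun k hk => ?_
      rw [coeff_mul_W]
      have h5 : ((2 * n : ℤ) : WithTop ℤ) ≤ A.v ((z - α) * (z - α)) := by
        rw [AddValuation.map_mul]
        have h6 : (n : WithTop ℤ) ≤ A.v (z - α) := (A.le_v_iff _ n).2 hα2
        calc ((2 * n : ℤ) : WithTop ℤ) = (n : WithTop ℤ) + (n : WithTop ℤ) := by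
              rw [two_mul]; rfl
          _ ≤ _ := add_le_add h6 h6
      exact (A.le_v_iff _ _).1 h5 _ (by omega)
    · rw [eval_mul, eval_C, eval_mul, eval_sub, eval_X, eval_C, mul_comm]
      unfold c0
      rw [coeff_mul_W]
      have : 0 - 2 * -n = n + n := by omega
      rw [this]
      have h7 := coeff_mul_le ((z - α : A.K) : LaurentSeries A.P)
        ((z - α : A.K) : LaurentSeries A.P) n n hα2 hα2
      have h8 : (((z - α) * (z - α) : A.K) : LaurentSeries A.P).coeff (n + n) = b * b := h7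
      rw [h8]
      intro h9
      apply hbf
      apply A.hf
      refine ⟨X ^ 2 - C ⟨b * b, h9⟩, ?_, ?_⟩
      · exact X_pow_sub_C_ne_zero (by norm_num) _
      · simp only [map_sub, map_pow, aeval_X, aeval_C]
        change b ^ 2 - b * b = 0
        ring

/-- 10.3 first half, general form -/
theorem ind_of_residue' (K1 : Subfield A.K) (k0 : Subfield A.P)
    (h : ∀ x ∈ K1, 0 ≤ A.v x → A.c0 x ∈ k0) {ι : Type} (x : ι → A.K) (hx : ∀ i, 0 ≤ A.v (x i))
    (hi : AlgebraicIndependent k0 (fun i => A.c0 (x i))) : AlgebraicIndependent K1 x := by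
  classical
  rw [algebraicIndependent_iff]
  intro p hp
  by_contra hp0
  have hsupp : p.support.Nonempty := by
    rw [Finset.nonempty_iff_ne_empty]
    intro h0
    exact hp0 (MvPolynomial.support_eq_empty.1 h0)
  obtain ⟨s, hs, hmin⟩ := Finset.exists_min_image p.support (fun t => A.v ((p.coeff t : K1) : A.K)) hsupp
  have hs0 : p.coeff s ≠ 0 := MvPolynomial.mem_support_iff.1 hs
  have hs1 : ((p.coeff s : K1) : A.K) ≠ 0 := fun h0 => hs0 (Subtype.ext h0)
  set q : (ι →₀ ℕ) → K1 := fun t => (p.coeff s)⁻¹ * p.coeff t with hq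
  have hq0 : ∀ t ∈ p.support, 0 ≤ A.v (q t : A.K) := by
    intro t ht
    have h1 : ((p.coeff t : K1) : A.K) = ((p.coeff s : K1) : A.K) * (q t : A.K) := by
      rw [hq]
      push_cast
      rw [mul_inv_cancel_left₀ hs1]
    have h2 := hmin t ht
    rw [h1, AddValuation.map_mul] at h2
    by_contra hlt
    rw [not_le] at hlt
    have hfin : A.v ((p.coeff s : K1) : A.K) ≠ ⊤ := by
      intro h0
      exact hs1 ((AddValuation.top_iff _).1 h0)
    obtain ⟨a, ha⟩ := WithTop.ne_top_iff_exists.1 hfin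
    have hfin2 : A.v (q t : A.K) ≠ ⊤ := ne_top_of_lt hlt
    obtain ⟨c, hc⟩ := WithTop.ne_top_iff_exists.1 hfin2
    rw [← ha, ← hc] at h2
    rw [← hc] at hlt
    have h3 : a ≤ a + c := by exact_mod_cast h2
    have h4 : c < 0 := by exact_mod_cast hlt
    omega
  have hqs : q s = 1 := by rw [hq]; exact inv_mul_cancel₀ hs0
  set r : MvPolynomial ι k0 := ∑ t ∈ p.support.attach,
    MvPolynomial.monomial t.1 (⟨A.c0 (q t.1 : A.K), h _ (q t.1).2 (hq0 t.1 t.2)⟩ : k0) with hr
  have hr0 : MvPolynomial.aeval (fun i => A.c0 (x i)) r = 0 := by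
    have h1 : ∑ t ∈ p.support, (q t : A.K) * ∏ i ∈ t.support, x i ^ t i = 0 := by
      have h2 : ((p.coeff s : K1) : A.K)⁻¹ * MvPolynomial.aeval x p = 0 := by rw [hp, mul_zero]
      rw [MvPolynomial.aeval_def, MvPolynomial.eval₂_eq, Finset.mul_sum] at h2
      rw [← h2]
      refine Finset.sum_congr rfl fun t _ => ?_
      rw [hq, ← mul_assoc]
      push_cast
      rfl
    have h3 : A.c0 (∑ t ∈ p.support, (q t : A.K) * ∏ i ∈ t.support, x i ^ t i) = 0 := by
      rw [h1, c0_zero]
    rw [c0_sum] at h3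
    rw [hr, map_sum, ← h3, ← Finset.sum_attach p.support]
    refine Finset.sum_congr rfl fun t _ => ?_
    obtain ⟨h4, h5⟩ := A.c0_prod t.1.support (fun i => x i ^ t.1 i)
      (fun i _ => A.v_pow_nonneg (hx i) _)
    rw [MvPolynomial.aeval_monomial, c0_mul _ _ _ (hq0 t.1 t.2) h4, h5, Finsupp.prod]
    congr 1
    refine Finset.prod_congr rfl fun i _ => ?_
    rw [c0_pow _ (hx i)]
  have hr1 : r = 0 := (algebraicIndependent_iff.1 hi) r hr0
  have hr2 : r.coeff s = 1 := by
    rw [hr, MvPolynomial.coeff_sum, Finset.sum_eq_single ⟨s, hs⟩]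
    · rw [MvPolynomial.coeff_monomial, if_pos rfl]
      apply Subtype.ext
      change A.c0 (q s : A.K) = 1
      rw [hqs]
      exact A.c0_one
    · rintro ⟨t, ht⟩ _ hne
      rw [MvPolynomial.coeff_monomial, if_neg]
      intro h0
      exact hne (Subtype.ext h0)
    · intro h0
      exact absurd (Finset.mem_attach _ _) h0
  rw [hr1, MvPolynomial.coeff_zero] at hr2
  exact zero_ne_one hr2

/-- 10.3 second half: residues of algebraic elements are algebraic -/
theorem residue_alg (K1 : Subfield A.K) (k0 : Subfield A.P)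
    (h : ∀ x ∈ K1, 0 ≤ A.v x → A.c0 x ∈ k0) (x : A.K) (hx : 0 ≤ A.v x) (ha : IsAlgebraic K1 x) :
    IsAlgebraic k0 (A.c0 x) := by
  by_contra hcon
  have h1 : AlgebraicIndependent k0 (fun _ : Unit => A.c0 x) :=
    algebraicIndependent_unique_type_iff.2 hcon
  have h2 := A.ind_of_residue' K1 k0 h (fun _ : Unit => x) (fun _ => hx) h1
  exact algebraicIndependent_unique_type_iff.1 h2 ha

theorem eval_alg (z : A.K) (hz : IsAlgebraic A.F z) (Q : A.K[X]) (hQ : ∀ i, Q.coeff i ∈ A.F) :
    IsAlgebraic A.F (Q.eval z) := by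
  rw [← mem_algebraicClosure_iff]
  rw [eval_eq_sum_range]
  refine sum_mem fun i _ => mul_mem ?_ (pow_mem (mem_algebraicClosure_iff.2 hz) _)
  exact (algebraicClosure A.F A.K).algebraMap_mem ⟨Q.coeff i, hQ i⟩

/-- 10.2 -/
theorem alg_F (z : A.K) (hz : IsAlgebraic A.F z) : z ∈ A.F := by
  by_contra hcon
  obtain ⟨Q, hQ, hv, hc⟩ := A.lemmaZ z hcon
  apply hc
  apply A.hf
  exact A.residue_alg A.F A.f (fun x hx _ => A.c0_F x hx) _ hv (A.eval_alg z hz Q hQ)

/-- 10.3 first half -/
theorem ind_of_residue {ι : Type} (x : ι → A.K) (hx : ∀ i, 0 ≤ A.v (x i))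
    (h : AlgebraicIndependent A.f (fun i => A.c0 (x i))) : AlgebraicIndependent A.F x :=
  A.ind_of_residue' A.F A.f (fun x hx _ => A.c0_F x hx) x hx h

/-- 10.4 -/
theorem tight_alg (h : A.Tight 1) (z x : A.K) (hz : z ∉ A.F) : IsAlgebraic (ad A.F {z}) x := by
  have h1 : AlgebraicIndependent A.F (fun _ : Unit => z) :=
    algebraicIndependent_unique_type_iff.2 fun h2 => hz (A.alg_F z h2)
  have h2 : IsTranscendenceBasis A.F (fun _ : Unit => z) := by
    apply h1.isTranscendenceBasis_of_trdeg_le_of_finite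
    refine h.1.trans ?_
    simp
  have h3 := h2.isAlgebraic_field
  obtain ⟨p, hp0, hp⟩ := h3.isAlgebraic x
  have hle : ∀ y ∈ IntermediateField.adjoin A.F (Set.range fun _ : Unit => z), y ∈ ad A.F {z} := by
    intro y hy
    have hy2 : y ∈ (IntermediateField.adjoin A.F (Set.range fun _ : Unit => z)).toSubfield := hy
    rw [IntermediateField.adjoin_toSubfield] at hy2
    refine Subfield.closure_mono ?_ hy2
    rintro w (⟨c, rfl⟩ | ⟨_, rfl⟩)
    · exact Or.inl c.2
    · exact Or.inr rfl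
  let φ : ↥(IntermediateField.adjoin A.F (Set.range fun _ : Unit => z)) →+* ↥(ad A.F {z}) :=
    { toFun := fun y => ⟨y, hle y y.2⟩
      map_one' := rfl
      map_mul' := fun _ _ => rfl
      map_zero' := rfl
      map_add' := fun _ _ => rfl }
  refine ⟨p.map φ, ?_, ?_⟩
  · exact (Polynomial.map_ne_zero_iff φ.injective).2 hp0
  · rw [aeval_def, eval₂_map]
    exact hp

/-- residues algebraic over `f` lift to `F` (axiom A1 of the interface) -/
theorem axA1 (l : A.K) (hl : 0 ≤ A.v l) (p : A.K[X]) (hp : ∀ i, p.coeff i ∈ A.F)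
    (hv : ∀ i, 0 ≤ A.v (p.coeff i)) (hi : ∃ i, A.v (p.coeff i) = 0) (h : 0 < A.v (p.eval l)) :
    ∃ c ∈ A.F, 0 < A.v (l - c) := by
  have h1 : A.c0 (p.eval l) = 0 := (A.v_pos_iff _ h.le).1 h
  rw [A.c0_eval p hv l hl] at h1
  have h2 : A.c0 l ∈ A.f := by
    apply A.hf
    refine ⟨∑ i ∈ Finset.range (p.natDegree + 1),
      monomial i (⟨A.c0 (p.coeff i), A.c0_F _ (hp i)⟩ : A.f), ?_, ?_⟩
    · obtain ⟨i, hi⟩ := hi
      have hi0 : A.c0 (p.coeff i) ≠ 0 := (A.v_zero_iff _ (hv i)).1 hi
      have hir : i ∈ Finset.range (p.natDegree + 1) := by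
        rw [Finset.mem_range]
        by_contra hlt
        apply hi0
        rw [coeff_eq_zero_of_natDegree_lt (by omega)]
        exact A.c0_zero
      intro h3
      have h4 := congrArg (fun q => q.coeff i) h3
      simp only [finsetSum_coeff, coeff_monomial, coeff_zero] at h4
      rw [Finset.sum_eq_single i, if_pos rfl] at h4
      · exact hi0 (congrArg Subtype.val h4)
      · intro j _ hj
        rw [if_neg hj]
      · intro h5
        exact absurd hir h5
    · rw [map_sum, ← h1]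
      refine Finset.sum_congr rfl fun i _ => ?_
      rw [aeval_monomial]
      rfl
  obtain ⟨c, hc, hc0, hcc⟩ := A.exists_c0_F _ h2
  refine ⟨c, hc, ?_⟩
  rw [A.v_pos_iff]
  · rw [c0_sub, hcc, sub_self]
  · rw [sub_eq_add_neg]
    refine AddValuation.map_le_add _ hl ?_
    rw [AddValuation.map_neg]
    exact hc0

/-- 10.5 (axiom A2 of the interface) -/
theorem axA2 (r : A.K) (hr : A.v r = 1) (c : A.K) (hc : c ∈ A.F) :
    ¬ (2 < A.v (r ^ 2 - c * A.W)) := by
  intro h
  have h1 := A.v_lt_coeff (r ^ 2 - c * A.W) 2 h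
  have hlow : ∀ k < 1, (r : LaurentSeries A.P).coeff k = 0 := by
    intro k hk
    exact (A.le_v_iff r 1).1 (by rw [hr]; rfl) k hk
  set b := (r : LaurentSeries A.P).coeff 1 with hb
  have hb0 : b ≠ 0 := by
    apply HahnSeries.coeff_orderTop_ne
    rw [← v_apply, hr]
    rfl
  have h2 : ((r ^ 2 : A.K) : LaurentSeries A.P).coeff 2 = b * b := by
    have := coeff_mul_le (r : LaurentSeries A.P) (r : LaurentSeries A.P) 1 1 hlow hlow
    rw [sq]
    exact this
  have h3 : ((c * A.W : A.K) : LaurentSeries A.P).coeff 2 = (c : LaurentSeries A.P).coeff 0 := by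
    have := A.coeff_mul_W c 1 2
    rw [zpow_one] at this
    rw [this]
    norm_num
  have h4 : ((r ^ 2 - c * A.W : A.K) : LaurentSeries A.P).coeff 2 =
      ((r ^ 2 : A.K) : LaurentSeries A.P).coeff 2 -
        ((c * A.W : A.K) : LaurentSeries A.P).coeff 2 := rfl
  rw [h4, h2, h3, sub_eq_zero] at h1
  have hbf : b ∈ A.f := by
    apply A.hf
    refine ⟨X ^ 2 - C ⟨(c : LaurentSeries A.P).coeff 0, (A.mem_F c).1 hc 0⟩, ?_, ?_⟩
    · exact X_pow_sub_C_ne_zero (by norm_num) _
    · simp only [map_sub, map_pow, aeval_X, aeval_C]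
      change b ^ 2 - (c : LaurentSeries A.P).coeff 0 = 0
      rw [← h1]
      ring
  have h5 := A.K_τ r r.2 1
  rw [A.τ_f _ hbf, zpow_one] at h5
  have h6 : (2 : A.P) * b = 0 := by linear_combination h5
  exact hb0 ((mul_eq_zero.1 h6).resolve_left two_ne_zero)

/-- `NS` prevents approximation by squares -/
theorem NS_sq (x : A.K) (hx : A.v x = 0) (h : A.NS x) (s : A.K) : ¬ (0 < A.v (x - s ^ 2)) := by
  intro h1
  have h2 : 0 ≤ A.v (s ^ 2) := by
    have h3 : s ^ 2 = x + -(x - s ^ 2) := by ring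
    rw [h3]
    refine AddValuation.map_le_add _ hx.ge ?_
    rw [AddValuation.map_neg]
    exact h1.le
  have h4 : 0 ≤ A.v s := by
    by_contra hlt
    rw [not_le] at hlt
    rw [sq, AddValuation.map_mul] at h2
    obtain ⟨a, ha⟩ := WithTop.ne_top_iff_exists.1 (ne_top_of_lt hlt)
    rw [← ha] at h2 hlt
    have h5 : (0 : ℤ) ≤ a + a := by exact_mod_cast h2
    have h6 : a < 0 := by exact_mod_cast hlt
    omega
  apply h
  have h5 : A.c0 (x - s ^ 2) = 0 := (A.v_pos_iff _ h1.le).1 h1
  rw [c0_sub, c0_pow _ h4, sub_eq_zero] at h5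
  exact ⟨A.c0 s, by rw [h5, sq]⟩

end Datum

end Pool.Agent.DA
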