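import Mathlib

/-!
# MP_5766af_al (S01535), Parts II-IV: definitions (blueprint_5766af.md, sections 10-15)
-/

set_option autoImplicit false

namespace Pool.Agent.DA

open Finset

/-- power sums of the orbit `z, g z, ..., g^[N-1] z` -/
def ps {K : Type*} [Field K] (g : K → K) (N n : ℕ) (z : K) : K :=
  ∑ i ∈ range N, (g^[i] z) ^ n

/-- `A` is algebraically closed in `B` -/
def AC {Ω : Type*} [Field Ω] (A B : Subfield Ω) : Prop := ∀ x ∈ B, IsAlgebraic A x → x ∈ A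

/-- the subfield generated by `A` and `s` -/
def ad {Ω : Type*} [Field Ω] (A : Subfield Ω) (s : Set Ω) : Subfield Ω :=
  Subfield.closure ((A : Set Ω) ∪ s)

/-- coefficientwise map of Laurent series -/
noncomputable def hat {P Q : Type*} [Field P] [Field Q] (g : P →+* Q) :
    LaurentSeries P →+* LaurentSeries Q where
  toFun x := HahnSeries.map x g
  map_one' := by
    ext n
    simp only [HahnSeries.map_coeff, HahnSeries.coeff_one]
    split_ifs <;> simp
  map_mul' x y := by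
    have := HahnSeries.map_mul (Γ := ℤ) (g : P →ₙ+* Q) (x := x) (y := y)
    exact this
  map_zero' := by ext n; simp
  map_add' x y := by ext n; simp

@[simp] theorem hat_coeff {P Q : Type*} [Field P] [Field Q] (g : P →+* Q) (x : LaurentSeries P)
    (n : ℤ) : (hat g x).coeff n = g (x.coeff n) := rfl

/-- 10. a datum of level `m` -/
structure Datum (m : ℕ) where
  P : Type
  [fieldP : Field P]
  [charP : CharZero P]
  f : Subfield P
  hf : ∀ x : P, IsAlgebraic f x → x ∈ f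
  g : P ≃+* P
  τ : P ≃+* P
  g_f : ∀ x ∈ f, g x = x
  τ_f : ∀ x ∈ f, τ x = x
  g_pow : ∀ x, g^[2 ^ m] x = x
  τ_sq : ∀ x, τ (τ x) = x
  gτ : ∀ x, g (τ x) = τ (g x)
  ρ : P
  ρ_ne : ρ ≠ 0
  g_ρ : g ρ = ρ
  τ_ρ : τ ρ = -ρ
  K : Subfield (LaurentSeries P)
  K_cnt : Countable K
  K_τ : ∀ x ∈ K, ∀ n : ℤ, τ (x.coeff n) = (-1) ^ n * x.coeff n
  K_g : ∀ x ∈ K, hat (g : P →+* P) x ∈ K
  K_g' : ∀ x ∈ K, hat (g.symm : P →+* P) x ∈ K
  K_W : (HahnSeries.single 2 1 : LaurentSeries P) ∈ K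
  K_a : (HahnSeries.single 1 ρ⁻¹ : LaurentSeries P) ∈ K
  K_f : ∀ α ∈ f, ∃ x ∈ K, (∀ n, x.coeff n ∈ f) ∧ 0 < (x - HahnSeries.C α).orderTop

namespace Datum

attribute [instance] Datum.fieldP Datum.charP Datum.K_cnt

variable {m : ℕ} (A : Datum m)

/-- `W = π²` -/
noncomputable def W : A.K := ⟨HahnSeries.single 2 1, A.K_W⟩

/-- `a = π / ρ` -/
noncomputable def a : A.K := ⟨HahnSeries.single 1 A.ρ⁻¹, A.K_a⟩

/-- `v = ord` on `K` -/
noncomputable def v : AddValuation A.K (WithTop ℤ) :=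
  (HahnSeries.addVal ℤ A.P).comap A.K.subtype

/-- 0-th coefficient -/
def c0 (x : A.K) : A.P := (x : LaurentSeries A.P).coeff 0

/-- the action of `ĝ` on `K` -/
noncomputable def gK : A.K ≃+* A.K where
  toFun x := ⟨hat (A.g : A.P →+* A.P) x, A.K_g _ x.2⟩
  invFun x := ⟨hat (A.g.symm : A.P →+* A.P) x, A.K_g' _ x.2⟩
  left_inv x := by
    apply Subtype.ext
    ext n
    simp
  right_inv x := by
    apply Subtype.ext
    ext n
    simp
  map_mul' x y := by
    apply Subtype.ext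
    simp
  map_add' x y := by
    apply Subtype.ext
    simp

theorem v_apply (x : A.K) : A.v x = (x : LaurentSeries A.P).orderTop := by
  change HahnSeries.addVal ℤ A.P (x : LaurentSeries A.P) = _
  rw [HahnSeries.addVal_apply]

theorem gK_coeff (x : A.K) (n : ℤ) :
    ((A.gK x : A.K) : LaurentSeries A.P).coeff n = A.g ((x : LaurentSeries A.P).coeff n) := rfl

/-- `F = K ∩ f((π))` -/
noncomputable def F : Subfield A.K := (RingHom.fieldRange (hat A.f.subtype)).comap A.K.subtype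

/-- the residue of `x` is not a square -/
def NS (x : A.K) : Prop := ¬ IsSquare (A.c0 x)

/-- TIGHT(n), including: `K` finitely generated over `F` -/
def Tight (n : ℕ) : Prop :=
  Algebra.trdeg A.F A.K ≤ n ∧
  (∃ b : Fin n → A.K, (∀ i, 0 ≤ A.v (b i)) ∧ AlgebraicIndependent A.f (fun i => A.c0 (b i))) ∧
  ∃ s : Finset A.K, ∀ x : A.K, x ∈ Subfield.closure ((A.F : Set A.K) ∪ s)

end Datum

/-- morphisms of data of the same level (section 13, cu0, cu1) -/
structure CutHom {m : ℕ} (A B : Datum m) where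
  j : A.K →+* B.K
  v_j : ∀ x, B.v (j x) = A.v x
  g_j : ∀ x, B.gK (j x) = j (A.gK x)
  F_j : ∀ x ∈ A.F, j x ∈ B.F
  a_j : j A.a = B.a
  W_j : j A.W = B.W
  ns_j : ∀ x, A.v x = 0 → A.NS x → B.NS (j x)

/-- one level up (section 12, te0 - te4) -/
structure StepHom {m : ℕ} (A : Datum m) (B : Datum (m + 1)) where
  ι : A.K →+* B.K
  c : B.K
  v_ι : ∀ x, B.v (ι x) = A.v x
  gg_ι : ∀ x, B.gK (B.gK (ι x)) = ι (A.gK x)
  F_ι : ∀ x ∈ A.F, ι x ∈ B.F
  W_ι : ι A.W = B.W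
  v_c : B.v c = 0
  a_eq : B.a = ι A.a * ∏ i ∈ range (2 ^ m), (B.gK)^[2 * i] c
  te1 : ∀ r, A.v r = 1 → B.NS (B.gK (ι r) / ι r)
  te2 : ∀ x, A.v x = 0 → A.NS x → B.NS (ι x)
  te3 : ∀ x, 0 ≤ A.v x → 0 < B.v (B.gK (ι x) - ι x) → ∃ α ∈ A.F, 0 < A.v (x - α)
  te4 : ∀ z, IsAlgebraic (RingHom.fieldRange ι) (B.gK (ι z)) → z ∈ A.F

/-- the cut of `A` to `B` along `A0, A1` was made: `t = A0 + y A1` -/
def CutHom.Good {m : ℕ} {A B : Datum m} (h : CutHom A B) (A0 A1 : A.K) : Prop :=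
  ∃ y ∈ B.F, ∃ t ∈ B.F, y ≠ 0 ∧ t ≠ 0 ∧ t = h.j A0 + y * h.j A1

/-- task P for `z` is performed by `h` -/
def StepHom.TaskP {m : ℕ} {A : Datum m} {B : Datum (m + 1)} (h : StepHom A B) (z : A.K) : Prop :=
  ∀ x : A.K, A.gK x = x → h.ι x ∈ Subfield.closure ((B.F : Set B.K) ∪
    {y | ∃ i : ℕ, y = h.ι (ps A.gK (2 ^ m) i z) ∨ y = B.gK (h.ι (ps A.gK (2 ^ m) i z))})

/-- task N for `z` is performed by `h` -/
def StepHom.TaskN {m : ℕ} {A : Datum m} {B : Datum (m + 1)} (h : StepHom A B) (z : A.K) : Prop :=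
  (h.ι z)⁻¹ ∈ Subring.closure ((B.F : Set B.K) ∪ {y | ∃ i : ℕ, y = (B.gK)^[i] (h.ι z)})

/-- an infinite tower -/
structure Chain where
  A : ∀ m, Datum m
  h : ∀ m, StepHom (A m) (A (m + 1))
  tight : ∀ m, (A m).Tight 1

/-- transport in a tower -/
noncomputable def Chain.tr (C : Chain) (i : ℕ) : (k : ℕ) → (C.A i).K →+* (C.A (i + k)).K
  | 0 => RingHom.id _
  | k + 1 => (C.h (i + k)).ι.comp (C.tr i k)

/-- 15. the limit of a tower -/
structure Lim (C : Chain) (K : Type) [Field K] [CharZero K] where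
  e : ∀ m, (C.A m).K →+* K
  e_succ : ∀ m x, e (m + 1) ((C.h m).ι x) = e m x
  e_surj : ∀ x, ∃ m, ∃ y, x = e m y
  v : AddValuation K (WithTop ℤ)
  v_e : ∀ m x, v (e m x) = (C.A m).v x
  g : ℕ → (K ≃+* K)
  g_e : ∀ m x, g m (e m x) = e m ((C.A m).gK x)
  g_zero : ∀ x, g 0 x = x
  g_sq : ∀ l x, g (l + 1) (g (l + 1) x) = g l x

/-- the fixed field -/
def Lim.F {C : Chain} {K : Type} [Field K] [CharZero K] (L : Lim C K) : Subfield K where
  carrier := {x | ∀ l, L.g l x = x}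
  mul_mem' := by
    intro a b ha hb l
    rw [map_mul, ha, hb]
  one_mem' := by simp
  add_mem' := by
    intro a b ha hb l
    rw [map_add, ha, hb]
  zero_mem' := by simp
  neg_mem' := by
    intro a ha l
    rw [map_neg, ha]
  inv_mem' := by
    intro a ha l
    rw [map_inv₀, ha]

/-- level `m` of the limit -/
noncomputable def Lim.Kf {C : Chain} {K : Type} [Field K] [CharZero K] (L : Lim C K) (m : ℕ) : Subfield K :=
  (L.e m).fieldRange

end Pool.Agent.DA
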