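import Pool.Agent.DA.DoubleAux

/-! Section 9.5 : the double `Frac(P ⊗_f P)` -/

set_option autoImplicit false

namespace Pool.Agent.DA

open Polynomial TensorProduct Module

/-- 9.5, everything about the fraction field of `P ⊗_f P` -/
structure Double (P : Type) [Field P] (f : Subfield P) (E : Type) [Field E] where
  i0 : P →+* E
  i1 : P →+* E
  on_f : ∀ α ∈ f, i0 α = i1 α
  acl : ∀ x : E, ∀ Q : P[X], Q ≠ 0 → Q.eval₂ i0 x = 0 → ∃ p, x = i0 p
  meet : ∀ p q, i0 p = i1 q → p = q ∧ p ∈ f
  ind : ∀ (n : ℕ) (b : Fin n → P), AlgebraicIndependent f b →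
    ∀ Q : MvPolynomial (Fin n) P, Q.eval₂ i0 (fun j => i1 (b j)) = 0 → Q = 0
  univ : ∀ s0 s1 : P ≃+* P, (∀ α ∈ f, s0 α = α) → (∀ α ∈ f, s1 α = α) →
    ∃ s : E ≃+* E, (∀ p, s (i0 p) = i0 (s0 p)) ∧ (∀ p, s (i1 p) = i1 (s1 p))
  swap : ∃ s : E ≃+* E, (∀ p, s (i0 p) = i1 p) ∧ (∀ p, s (i1 p) = i0 p)
  ext : ∀ s t : E →+* E, (∀ p, s (i0 p) = t (i0 p)) → (∀ p, s (i1 p) = t (i1 p)) → s = t

section aux

variable {k P : Type} [Field k] [Field P] [Algebra k P]

/-- contraction with a functional on the second factor -/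
noncomputable def contr (lam : P →ₗ[k] k) : P ⊗[k] P →ₗ[k] P :=
  TensorProduct.lift (LinearMap.mk₂ k (fun p q => lam q • p)
    (fun p p' q => smul_add _ _ _)
    (fun c p q => smul_comm _ _ _)
    (fun p q q' => by rw [map_add, add_smul])
    (fun c p q => by rw [map_smul, smul_eq_mul, mul_smul]))

theorem contr_tmul (lam : P →ₗ[k] k) (p q : P) : contr lam (p ⊗ₜ[k] q) = lam q • p := by
  unfold contr
  rw [TensorProduct.lift.tmul]
  rfl

theorem meet_aux (p q : P) (h : p ⊗ₜ[k] (1 : P) = (1 : P) ⊗ₜ[k] q) :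
    p = q ∧ p ∈ (algebraMap k P).range := by
  have hq : q ∈ (algebraMap k P).range := by
    by_contra hqf
    have hn : q ∉ Submodule.span k {(1 : P)} := by
      intro h1
      rw [Submodule.mem_span_singleton] at h1
      obtain ⟨c, hc⟩ := h1
      apply hqf
      rw [← hc, Algebra.smul_def, mul_one]
      exact ⟨c, rfl⟩
    obtain ⟨lam, h1, h2⟩ := Submodule.exists_le_ker_of_notMem hn
    have h3 := congrArg (contr lam) h
    rw [contr_tmul, contr_tmul] at h3
    have h4 : lam 1 = 0 := h2 (Submodule.subset_span (Set.mem_singleton _))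
    rw [h4, zero_smul, eq_comm, smul_eq_zero] at h3
    rcases h3 with h3 | h3
    · exact h1 h3
    · exact one_ne_zero h3
  obtain ⟨c, rfl⟩ := hq
  have h1 : (1 : P) ⊗ₜ[k] (algebraMap k P c) = (algebraMap k P c) ⊗ₜ[k] (1 : P) := by
    rw [Algebra.algebraMap_eq_smul_one, TensorProduct.smul_tmul]
  obtain ⟨lam, hlam⟩ := Projective.exists_dual_eq_one k (one_ne_zero (α := P))
  rw [h1] at h
  have h3 := congrArg (contr lam) h
  rw [contr_tmul, contr_tmul, hlam, one_smul, one_smul] at h3
  exact ⟨h3, c, h3.symm⟩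

theorem congr_tmul (S0 S1 : P ≃ₐ[k] P) (p q : P) :
    (Algebra.TensorProduct.congr S0 S1 : P ⊗[k] P ≃ₐ[k] P ⊗[k] P) (p ⊗ₜ[k] q) =
      S0 p ⊗ₜ[k] S1 q := by
  rw [Algebra.TensorProduct.congr_apply, Algebra.TensorProduct.map_tmul]
  rfl

end aux

theorem exists_double_gen (k P : Type) [Field k] [Field P] [CharZero k] [Algebra k P]
    (hf' : ∀ x : P, IsAlgebraic k x → x ∈ (algebraMap k P).range) :
    ∃ (E : Type) (_ : Field E) (i0 i1 : P →+* E),
      (∀ c : k, i0 (algebraMap k P c) = i1 (algebraMap k P c)) ∧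
      (∀ x : E, ∀ Q : P[X], Q ≠ 0 → Q.eval₂ i0 x = 0 → ∃ p, x = i0 p) ∧
      (∀ p q, i0 p = i1 q → p = q ∧ p ∈ (algebraMap k P).range) ∧
      (∀ (n : ℕ) (b : Fin n → P), AlgebraicIndependent k b →
        ∀ Q : MvPolynomial (Fin n) P, Q.eval₂ i0 (fun j => i1 (b j)) = 0 → Q = 0) ∧
      (∀ s0 s1 : P ≃ₐ[k] P,
        ∃ s : E ≃+* E, (∀ p, s (i0 p) = i0 (s0 p)) ∧ (∀ p, s (i1 p) = i1 (s1 p))) ∧
      (∃ s : E ≃+* E, (∀ p, s (i0 p) = i1 p) ∧ (∀ p, s (i1 p) = i0 p)) ∧
      (∀ s t : E →+* E, (∀ p, s (i0 p) = t (i0 p)) → (∀ p, s (i1 p) = t (i1 p)) → s = t) := by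
  classical
  have hdom : IsDomain (P ⊗[k] P) := isDomain_tensor k P P hf'
  let T := P ⊗[k] P
  let E := FractionRing T
  let i0 : P →+* E := (algebraMap T E).comp
    (Algebra.TensorProduct.includeLeftRingHom : P →+* P ⊗[k] P)
  let i1 : P →+* E := (algebraMap T E).comp
    (Algebra.TensorProduct.includeRight : P →ₐ[k] P ⊗[k] P).toRingHom
  have hi0 : ∀ p, i0 p = algebraMap T E (p ⊗ₜ[k] (1 : P)) := fun p => rfl
  have hi1 : ∀ p, i1 p = algebraMap T E ((1 : P) ⊗ₜ[k] p) := fun p => rfl
  have hinj : Function.Injective (algebraMap T E) := IsFractionRing.injective T E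
  refine ⟨E, inferInstance, i0, i1, ?_, ?_, ?_, ?_, ?_, ?_, ?_⟩
  · -- on_f
    intro c
    rw [hi0, hi1]
    congr 1
    rw [Algebra.algebraMap_eq_smul_one, TensorProduct.smul_tmul]
  · -- acl
    intro x Q hQ hx
    let Ω := AlgebraicClosure P
    have hdomΩ : IsDomain (Ω ⊗[k] P) := isDomain_tensor k Ω P hf'
    let TΩ := Ω ⊗[k] P
    let E' := FractionRing TΩ
    let ι : P ⊗[k] P →ₐ[k] Ω ⊗[k] P :=
      Algebra.TensorProduct.map (IsScalarTower.toAlgHom k P Ω) (AlgHom.id k P)
    have hι : Function.Injective ι := by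
      have h := Module.Flat.rTensor_preserves_injective_linearMap (R := k) (M := P)
        (IsScalarTower.toAlgHom k P Ω).toLinearMap (algebraMap P Ω).injective
      exact h
    have hinj' : Function.Injective (algebraMap TΩ E') := IsFractionRing.injective TΩ E'
    let g : T →+* E' := (algebraMap TΩ E').comp ι.toRingHom
    have hg : Function.Injective g := hinj'.comp hι
    let j : E →+* E' := IsFractionRing.lift hg
    have hj : ∀ t : T, j (algebraMap T E t) = algebraMap TΩ E' (ι t) :=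
      fun t => IsFractionRing.lift_algebraMap hg t
    let e : Ω →+* E' := (algebraMap TΩ E').comp
      (Algebra.TensorProduct.includeLeftRingHom : Ω →+* Ω ⊗[k] P)
    have he : ∀ p : P, e (algebraMap P Ω p) = j (i0 p) := by
      intro p
      rw [hi0, hj]
      rfl
    -- `j x` is in the image of `Ω`
    obtain ⟨ω, hω⟩ : ∃ ω, j x = e ω := by
      have h1 : (Q.map (algebraMap P Ω)).eval₂ e (j x) = 0 := by
        rw [eval₂_map]
        have : e.comp (algebraMap P Ω) = j.comp i0 := RingHom.ext he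
        rw [this, ← hom_eval₂, hx, map_zero]
      have hQ' : Q.map (algebraMap P Ω) ≠ 0 := (Polynomial.map_ne_zero_iff (algebraMap P Ω).injective).2 hQ
      have h2 := (IsAlgClosed.splits (Q.map (algebraMap P Ω))).eq_prod_roots
      rw [h2, eval₂_mul, eval₂_C, eval₂_multiset_prod, mul_eq_zero] at h1
      rcases h1 with h1 | h1
      · exact absurd ((map_eq_zero e).1 h1) (leadingCoeff_ne_zero.2 hQ')
      · rw [Multiset.prod_eq_zero_iff, Multiset.mem_map] at h1
        obtain ⟨y, hy, hy0⟩ := h1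
        rw [Multiset.mem_map] at hy
        obtain ⟨r, _, rfl⟩ := hy
        rw [eval₂_sub, eval₂_X, eval₂_C, sub_eq_zero] at hy0
        exact ⟨r, hy0⟩
    obtain ⟨u, v, hv, hx'⟩ := IsFractionRing.div_surjective (A := T) x
    have hv0 : v ≠ 0 := nonZeroDivisors.ne_zero hv
    have h1 : ι u = (ω ⊗ₜ[k] (1 : P)) * ι v := by
      apply hinj'
      rw [map_mul, ← hj, ← hj]
      have h2 : algebraMap TΩ E' (ω ⊗ₜ[k] (1 : P)) = j x := hω.symm
      rw [h2, ← map_mul, ← hx']
      congr 1
      rw [div_mul_cancel₀]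
      intro h3
      exact hv0 (hinj (h3.trans (map_zero _).symm))
    let b := Basis.ofVectorSpace k P
    let BΩ := Algebra.TensorProduct.basis Ω b
    let BP := Algebra.TensorProduct.basis P b
    have hB : ∀ (w : P ⊗[k] P) i, BΩ.repr (ι w) i = algebraMap P Ω (BP.repr w i) := by
      intro w i
      induction w using TensorProduct.induction_on with
      | zero => simp
      | tmul p q =>
        simp only [ι, Algebra.TensorProduct.map_tmul, BΩ, BP,
          Algebra.TensorProduct.basis_repr_tmul, Finsupp.smul_apply, Finsupp.mapRange_apply,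
          smul_eq_mul, map_mul, AlgHom.coe_id, id, IsScalarTower.toAlgHom_apply]
        rw [← IsScalarTower.algebraMap_apply k P Ω]
      | add p q hp hq => simp only [map_add, Finsupp.add_apply, hp, hq]
    obtain ⟨i, hi⟩ : ∃ i, BP.repr v i ≠ 0 := by
      by_contra h
      push Not at h
      exact hv0 ((LinearEquiv.map_eq_zero_iff BP.repr).1 (Finsupp.ext h))
    have h2 : algebraMap P Ω (BP.repr u i) = ω * algebraMap P Ω (BP.repr v i) := by
      rw [← hB, ← hB, h1]
      have : (ω ⊗ₜ[k] (1 : P)) * ι v = ω • ι v := by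
        rw [Algebra.smul_def, Algebra.TensorProduct.algebraMap_apply]
        rfl
      rw [this, map_smul, Finsupp.smul_apply, smul_eq_mul]
    refine ⟨BP.repr u i / BP.repr v i, ?_⟩
    apply j.injective
    rw [hω, ← he, map_div₀, h2, mul_div_cancel_right₀]
    intro h3
    exact hi ((map_eq_zero _).1 h3)
  · -- meet
    intro p q h
    rw [hi0, hi1] at h
    exact meet_aux p q (hinj h)
  · -- ind
    intro n b hb Q hQ
    let m : MvPolynomial (Fin n) k →ₐ[k] P := MvPolynomial.aeval b
    have hm : Function.Injective m := hb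
    have hL := Module.Flat.lTensor_preserves_injective_linearMap (R := k) (M := P)
      m.toLinearMap hm
    let A := MvPolynomial.algebraTensorAlgEquiv (R := k) (σ := Fin n) P
    let Φ : P ⊗[k] MvPolynomial (Fin n) k →+* T :=
      (Algebra.TensorProduct.map (AlgHom.id k P) m).toRingHom
    have hΦ : Function.Injective Φ := hL
    have h1 : ∀ Q : MvPolynomial (Fin n) P,
        algebraMap T E (Φ (A.symm Q)) = Q.eval₂ i0 (fun j => i1 (b j)) := by
      intro Q
      have : ((algebraMap T E).comp (Φ.comp (A.symm : MvPolynomial (Fin n) P →+* P ⊗[k] MvPolynomial (Fin n) k))) =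
          MvPolynomial.eval₂Hom i0 (fun j => i1 (b j)) := by
        apply MvPolynomial.ringHom_ext
        · intro p
          simp only [RingHom.comp_apply, MvPolynomial.coe_eval₂Hom, MvPolynomial.eval₂_C]
          rw [hi0]
          have e1 : (A.symm : MvPolynomial (Fin n) P →+* P ⊗[k] MvPolynomial (Fin n) k) (MvPolynomial.C p) = p ⊗ₜ[k] 1 := by
            show A.symm (MvPolynomial.C p) = _
            rw [AlgEquiv.symm_apply_eq, MvPolynomial.algebraTensorAlgEquiv_tmul, map_one,
              Algebra.smul_def, mul_one]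
            rfl
          rw [e1]
          congr 1
          show (Algebra.TensorProduct.map (AlgHom.id k P) m) (p ⊗ₜ[k] 1) = _
          rw [Algebra.TensorProduct.map_tmul, map_one]
          rfl
        · intro r
          simp only [RingHom.comp_apply, MvPolynomial.coe_eval₂Hom, MvPolynomial.eval₂_X]
          rw [hi1]
          have e1 : (A.symm : MvPolynomial (Fin n) P →+* P ⊗[k] MvPolynomial (Fin n) k) (MvPolynomial.X r) =
              1 ⊗ₜ[k] MvPolynomial.X r := by
            show A.symm (MvPolynomial.X r) = _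
            rw [AlgEquiv.symm_apply_eq, MvPolynomial.algebraTensorAlgEquiv_tmul, one_smul,
              MvPolynomial.map_X]
          rw [e1]
          congr 1
          show (Algebra.TensorProduct.map (AlgHom.id k P) m) (1 ⊗ₜ[k] MvPolynomial.X r) = _
          rw [Algebra.TensorProduct.map_tmul]
          simp [m]
      exact congrArg (fun h => h Q) this
    have h2 := h1 Q
    rw [hQ] at h2
    have h3 : Φ (A.symm Q) = 0 := hinj (h2.trans (map_zero _).symm)
    have h4 : A.symm Q = 0 := hΦ (h3.trans (map_zero _).symm)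
    exact (AlgEquiv.symm_apply_eq A).1 h4 |>.trans (map_zero A)
  · -- univ
    intro S0 S1
    let S : T ≃ₐ[k] T := Algebra.TensorProduct.congr S0 S1
    refine ⟨IsFractionRing.ringEquivOfRingEquiv S.toRingEquiv, fun p => ?_, fun p => ?_⟩
    · rw [hi0, IsFractionRing.ringEquivOfRingEquiv_algebraMap, hi0]
      congr 1
      exact (congr_tmul S0 S1 p 1).trans (by rw [map_one])
    · rw [hi1, IsFractionRing.ringEquivOfRingEquiv_algebraMap, hi1]
      congr 1
      exact (congr_tmul S0 S1 1 p).trans (by rw [map_one])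
  · -- swap
    let S : T ≃ₐ[k] T := Algebra.TensorProduct.comm k P P
    refine ⟨IsFractionRing.ringEquivOfRingEquiv S.toRingEquiv, fun p => ?_, fun p => ?_⟩
    · rw [hi0, IsFractionRing.ringEquivOfRingEquiv_algebraMap, hi1]
      rfl
    · rw [hi1, IsFractionRing.ringEquivOfRingEquiv_algebraMap, hi0]
      rfl
  · -- ext
    intro s t h0 h1
    apply IsLocalization.ringHom_ext (nonZeroDivisors T)
    refine RingHom.ext (fun x => ?_)
    induction x using TensorProduct.induction_on with
    | zero => simp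
    | tmul p q =>
      have h : p ⊗ₜ[k] q = (p ⊗ₜ[k] (1 : P)) * ((1 : P) ⊗ₜ[k] q) := by
        rw [Algebra.TensorProduct.tmul_mul_tmul, mul_one, one_mul]
      rw [h, map_mul, map_mul]
      have e0 := h0 p
      have e1 := h1 q
      rw [hi0] at e0
      rw [hi1] at e1
      simp only [RingHom.comp_apply]
      rw [e0, e1]
    | add p q hp hq => rw [map_add, map_add, hp, hq]

theorem exists_double (P : Type) [Field P] [CharZero P] (f : Subfield P)
    (hf : ∀ x : P, IsAlgebraic f x → x ∈ f) :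
    ∃ (E : Type) (_ : Field E), Nonempty (Double P f E) := by
  have hf' : ∀ x : P, IsAlgebraic f x → x ∈ (algebraMap f P).range :=
    fun x hx => ⟨⟨x, hf x hx⟩, rfl⟩
  obtain ⟨E, hE, i0, i1, h1, h2, h3, h4, h5, h6, h7⟩ := exists_double_gen f P hf'
  refine ⟨E, hE, ⟨⟨i0, i1, fun α hα => h1 ⟨α, hα⟩, h2, fun p q h => ?_, h4, ?_, h6, h7⟩⟩⟩
  · obtain ⟨e1, c, e2⟩ := h3 p q h
    exact ⟨e1, e2 ▸ c.2⟩
  · intro s0 s1 g0 g1
    exact h5 (AlgEquiv.ofRingEquiv (f := s0) (fun c => g0 c c.2))
      (AlgEquiv.ofRingEquiv (f := s1) (fun c => g1 c c.2))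

end Pool.Agent.DA
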