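import Mathlib

/-! Section 9.5 : tensor products over an algebraically closed subfield -/

set_option autoImplicit false

namespace Pool.Agent.DA

open Polynomial TensorProduct Module

/-- Finite case: if `k` is algebraically closed in `L` and `M / k` is finite then `L ⊗ M` is
a domain. -/
theorem isDomain_finite (k L M : Type) [Field k] [Field L] [Field M] [Algebra k L] [Algebra k M]
    [CharZero k] [FiniteDimensional k M]
    (hL : ∀ x : L, IsAlgebraic k x → x ∈ (algebraMap k L).range) :
    IsDomain (L ⊗[k] M) := by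
  let Ω := AlgebraicClosure L
  let σ : M →ₐ[k] Ω := IsAlgClosed.lift
  let pb := Field.powerBasisOfFiniteOfSeparable k M
  obtain ⟨θ, hθ⟩ : ∃ θ, θ = pb.gen := ⟨_, rfl⟩
  let φ : L ⊗[k] M →ₐ[L] Ω := Algebra.TensorProduct.lift (Algebra.ofId L Ω) σ
    (fun _ _ => Commute.all _ _)
  -- degree of the minimal polynomial
  have hint : IsIntegral k θ := IsIntegral.of_finite k θ
  have hy : IsIntegral L (σ θ) := (hint.map σ).tower_top
  have hdeg : (minpoly L (σ θ)).natDegree = (minpoly k θ).natDegree := by
    have hdvd : minpoly L (σ θ) ∣ (minpoly k θ).map (algebraMap k L) := by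
      apply minpoly.dvd
      rw [aeval_map_algebraMap, aeval_algHom_apply, minpoly.aeval, map_zero]
    have hlift := integralClosure.mem_lifts_of_monic_of_dvd_map L (minpoly.monic hint)
      (minpoly.monic hy) hdvd
    have hlift2 : minpoly L (σ θ) ∈ lifts (algebraMap k L) := by
      rw [lifts_iff_coeff_lifts] at hlift ⊢
      intro n
      obtain ⟨c, hc⟩ := hlift n
      obtain ⟨d, hd⟩ := hL c (c.2.isAlgebraic)
      exact ⟨d, by rw [hd, ← hc]; rfl⟩
    obtain ⟨q, hq, hqd, hqm⟩ := lifts_and_natDegree_eq_and_monic hlift2 (minpoly.monic hy)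
    have hq0 : aeval θ q = 0 := by
      have h : σ (aeval θ q) = 0 := by
        rw [← aeval_algHom_apply, ← aeval_map_algebraMap L, hq, minpoly.aeval]
      exact (map_eq_zero σ).1 h
    refine le_antisymm ?_ ?_
    · have := natDegree_le_of_dvd hdvd ((minpoly.monic hint).map _).ne_zero
      rwa [natDegree_map] at this
    · rw [← hqd]
      exact natDegree_le_of_dvd (minpoly.dvd k θ hq0) hqm.ne_zero
  have hinj : Function.Injective φ := by
    let B := Algebra.TensorProduct.basis L pb.basis
    have hli : LinearIndependent L (fun i => φ (B i)) := by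
      have h1 := linearIndependent_pow (K := L) (σ θ)
      have e : pb.dim = (minpoly L (σ θ)).natDegree := by
        rw [hdeg, hθ, pb.natDegree_minpoly]
      have h2 : (fun i => φ (B i)) = (fun i : Fin (minpoly L (σ θ)).natDegree => σ θ ^ (i : ℕ)) ∘
          (finCongr e) := by
        funext i
        simp only [B, Algebra.TensorProduct.basis_apply, φ, Algebra.TensorProduct.lift_tmul,
          map_one, one_mul, PowerBasis.coe_basis, map_pow, Function.comp, finCongr_apply,
          Fin.val_cast, hθ]
      rw [h2]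
      exact h1.comp _ (finCongr e).injective
    have h3 : Function.Injective φ.toLinearMap := by
      rw [← LinearMap.ker_eq_bot, LinearMap.ker_eq_bot']
      intro x hx
      have h4 := B.linearCombination_repr x
      rw [Finsupp.linearCombination_apply] at h4
      have h5 : φ.toLinearMap x = Finsupp.linearCombination L (fun i => φ (B i)) (B.repr x) := by
        conv_lhs => rw [← B.linearCombination_repr x]
        rw [Finsupp.linearCombination_apply, Finsupp.linearCombination_apply, Finsupp.sum, map_sum]
        refine Finset.sum_congr rfl (fun i _ => ?_)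
        rw [map_smul]; rfl
      rw [h5] at hx
      have h6 := (linearIndependent_iff.1 hli) _ hx
      exact (LinearEquiv.map_eq_zero_iff B.repr).1 h6
    exact h3
  exact hinj.isDomain φ.toRingHom

/-- General case. -/
theorem isDomain_tensor (k P L : Type) [Field k] [Field P] [Field L] [Algebra k P] [Algebra k L]
    [CharZero k] (hL : ∀ x : L, IsAlgebraic k x → x ∈ (algebraMap k L).range) :
    IsDomain (P ⊗[k] L) := by
  classical
  have : NoZeroDivisors (P ⊗[k] L) := by
    refine ⟨fun {u v} huv => ?_⟩
    by_contra hcon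
    push Not at hcon
    obtain ⟨hu, hv⟩ := hcon
    let b := Basis.ofVectorSpace k L
    let B := Algebra.TensorProduct.basis P b
    obtain ⟨i0, hi0⟩ : ∃ i, B.repr u i ≠ 0 := by
      by_contra h
      push Not at h
      exact hu ((LinearEquiv.map_eq_zero_iff B.repr).1 (Finsupp.ext h))
    obtain ⟨j0, hj0⟩ : ∃ i, B.repr v i ≠ 0 := by
      by_contra h
      push Not at h
      exact hv ((LinearEquiv.map_eq_zero_iff B.repr).1 (Finsupp.ext h))
    let s : Finset P := ((B.repr u).support.image (B.repr u)) ∪ ((B.repr v).support.image (B.repr v))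
      ∪ {(B.repr u i0)⁻¹, (B.repr v j0)⁻¹}
    let A : Subalgebra k P := Algebra.adjoin k (s : Set P)
    have hAft : Algebra.FiniteType k A := by
      rw [← Subalgebra.fg_iff_finiteType]
      exact ⟨s, rfl⟩
    have hAu : ∀ i, B.repr u i ∈ A := by
      intro i
      by_cases h : B.repr u i = 0
      · rw [h]; exact A.zero_mem
      · apply Algebra.subset_adjoin
        simp only [s, Finset.coe_union, Set.mem_union]
        left; left
        rw [Finset.mem_coe, Finset.mem_image]
        exact ⟨i, Finsupp.mem_support_iff.2 h, rfl⟩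
    have hAv : ∀ i, B.repr v i ∈ A := by
      intro i
      by_cases h : B.repr v i = 0
      · rw [h]; exact A.zero_mem
      · apply Algebra.subset_adjoin
        simp only [s, Finset.coe_union, Set.mem_union]
        left; right
        rw [Finset.mem_coe, Finset.mem_image]
        exact ⟨i, Finsupp.mem_support_iff.2 h, rfl⟩
    have hinvu : (B.repr u i0)⁻¹ ∈ A := Algebra.subset_adjoin (by simp [s])
    have hinvv : (B.repr v j0)⁻¹ ∈ A := Algebra.subset_adjoin (by simp [s])
    obtain ⟨m, hm⟩ := Ideal.exists_maximal A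
    let κ := A ⧸ m
    let _ : Field κ := Ideal.Quotient.field m
    have hκft : Algebra.FiniteType k κ :=
      Algebra.FiniteType.of_surjective (Ideal.Quotient.mkₐ k m) (Ideal.Quotient.mkₐ_surjective k m)
    have hκ : FiniteDimensional k κ := finite_of_finite_type_of_isJacobsonRing k κ
    -- `κ ⊗ L` is a domain
    have hdom : IsDomain (κ ⊗[k] L) := by
      have h1 := isDomain_finite k L κ hL
      exact (Algebra.TensorProduct.comm k κ L).injective.isDomain
        (Algebra.TensorProduct.comm k κ L).toRingHom
    -- the elements of `A ⊗ L`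
    let uA : A ⊗[k] L := ∑ i ∈ (B.repr u).support, (⟨B.repr u i, hAu i⟩ : A) ⊗ₜ[k] b i
    let vA : A ⊗[k] L := ∑ i ∈ (B.repr v).support, (⟨B.repr v i, hAv i⟩ : A) ⊗ₜ[k] b i
    let ι : A ⊗[k] L →ₐ[k] P ⊗[k] L := Algebra.TensorProduct.map A.val (AlgHom.id k L)
    have hι : Function.Injective ι := by
      have h := Module.Flat.rTensor_preserves_injective_linearMap (R := k) (M := L)
        A.val.toLinearMap Subtype.val_injective
      exact h
    have key : ∀ w : P ⊗[k] L, w = ∑ i ∈ (B.repr w).support, (B.repr w i) ⊗ₜ[k] b i := by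
      intro w
      conv_lhs => rw [← B.linearCombination_repr w]
      rw [Finsupp.linearCombination_apply, Finsupp.sum]
      refine Finset.sum_congr rfl (fun i _ => ?_)
      rw [Algebra.TensorProduct.basis_apply, TensorProduct.smul_tmul', smul_eq_mul, mul_one]
    have hιu : ι uA = u := by
      simp only [uA, map_sum, ι, Algebra.TensorProduct.map_tmul]
      exact (key u).symm
    have hιv : ι vA = v := by
      simp only [vA, map_sum, ι, Algebra.TensorProduct.map_tmul]
      exact (key v).symm
    have huvA : uA * vA = 0 := by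
      apply hι
      rw [map_mul, hιu, hιv, huv, map_zero]
    -- reduction modulo `m`
    let ρ : A ⊗[k] L →ₐ[k] κ ⊗[k] L :=
      Algebra.TensorProduct.map (Ideal.Quotient.mkₐ k m) (AlgHom.id k L)
    let Bκ := Algebra.TensorProduct.basis κ b
    have hunit : ∀ x : P, x ≠ 0 → ∀ (hx : x ∈ A), x⁻¹ ∈ A →
        Ideal.Quotient.mkₐ k m ⟨x, hx⟩ ≠ 0 := by
      intro x hx0 hx hx' h0
      have h1 : (⟨x, hx⟩ : A) * ⟨x⁻¹, hx'⟩ = 1 := Subtype.ext (mul_inv_cancel₀ hx0)
      have h2 := congrArg (Ideal.Quotient.mkₐ k m) h1
      rw [map_mul, h0, zero_mul, map_one] at h2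
      exact zero_ne_one h2
    have hne : ∀ (w : P ⊗[k] L) (hw : ∀ i, B.repr w i ∈ A) (i0), B.repr w i0 ≠ 0 →
        (B.repr w i0)⁻¹ ∈ A →
        ρ (∑ i ∈ (B.repr w).support, (⟨B.repr w i, hw i⟩ : A) ⊗ₜ[k] b i) ≠ 0 := by
      intro w hw i0 hi0 hinv h0
      rw [map_sum] at h0
      have h1 : Bκ.repr (∑ i ∈ (B.repr w).support, ρ ((⟨B.repr w i, hw i⟩ : A) ⊗ₜ[k] b i)) i0 = 0 := by
        rw [h0, map_zero]; rfl
      rw [map_sum, Finsupp.finsetSum_apply, Finset.sum_eq_single i0] at h1
      · simp only [ρ, Algebra.TensorProduct.map_tmul, AlgHom.coe_id, id, Bκ,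
          Algebra.TensorProduct.basis_repr_tmul, Finsupp.smul_apply, Finsupp.mapRange_apply,
          Basis.repr_self, Finsupp.single_eq_same, map_one, smul_eq_mul, mul_one] at h1
        exact hunit _ hi0 _ hinv h1
      · intro i _ hi
        simp [ρ, Bκ, Algebra.TensorProduct.basis_repr_tmul, hi]
      · intro h; exact absurd (Finsupp.mem_support_iff.2 hi0) h
    have h1 := hne u hAu i0 hi0 hinvu
    have h2 := hne v hAv j0 hj0 hinvv
    have h3 : ρ uA * ρ vA = 0 := by rw [← map_mul, huvA, map_zero]
    exact (mul_ne_zero h1 h2) h3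
  exact NoZeroDivisors.to_isDomain _

end Pool.Agent.DA
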