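import Pool.Agent.DA.Defs
import Pool.Agent.Helper13.DV.GP3
import Pool.Agent.Helper13.DV.PT

/-! Section 9 (9.1, 9.2, 9.3) : interpolation, `f(T)` algebraically closed in `P(T)`, purely transcendental
extensions -/

set_option autoImplicit false

namespace Pool.Agent.DA

open Polynomial

/-- 9.1 interpolation -/
theorem interp {k K' : Type*} [Field k] [Field K'] [Algebra k K'] (U V : K'[X]) (hV : V ≠ 0)
    (h : {c : k | V.eval (algebraMap k K' c) ≠ 0 ∧
      ∃ d : k, U.eval (algebraMap k K' c) =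
        algebraMap k K' d * V.eval (algebraMap k K' c)}.Infinite) :
    ∃ U1 V1 : k[X], V1 ≠ 0 ∧
      U * V1.map (algebraMap k K') = U1.map (algebraMap k K') * V :=
  Helper13.DV.interpolation U V hV _ h (fun _ hc => hc.2)

/-- elements of `K'(T)` are quotients `U(T)/V(T)` -/
theorem mem_ad_singleton {Ω : Type*} [Field Ω] (K' : Subfield Ω) (T x : Ω) :
    x ∈ ad K' {T} ↔ ∃ U V : K'[X], aeval T V ≠ 0 ∧ x = aeval T U / aeval T V := by
  rw [ad, Helper13.DV.mem_closure_simple]
  constructor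
  · rintro ⟨U, V, hV, h⟩
    exact ⟨U, V, hV, by rw [eq_div_iff hV, h]⟩
  · rintro ⟨U, V, hV, h⟩
    exact ⟨U, V, hV, by rw [h, div_mul_cancel₀ _ hV]⟩

/-- 9.2 -/
theorem thmX {Ω : Type*} [Field Ω] [CharZero Ω] (k K' : Subfield Ω) (hk : k ≤ K') (hac : AC k K')
    (T : Ω) (hT : ¬ IsAlgebraic K' T) : AC (ad k {T}) (ad K' {T}) :=
  fun x hx hxa => Helper13.DV.rat_descent k K' hk (Helper13.DV.infinite_subfield k) hac T hT x hx hxa

/-- 9.3 -/
theorem pt {Ω : Type*} [Field Ω] (E : Subfield Ω) {ι : Type*} (x : ι → Ω)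
    (hx : AlgebraicIndependent E x) : AC E (ad E (Set.range x)) := by
  intro y hy hya
  have hfin : ∃ t : Finset ι, y ∈ Subfield.closure ((E : Set Ω) ∪ x '' (t : Set ι)) := by
    rw [ad, Helper13.DV.closure_eq_adjoin, IntermediateField.mem_toSubfield] at hy
    obtain ⟨T, hT, hyT⟩ := IntermediateField.exists_finset_of_mem_adjoin hy
    classical
    obtain ⟨t, ht⟩ : ∃ t : Finset ι, (T : Set Ω) ⊆ x '' (t : Set ι) := by
      choose g hg using fun s : T => hT s.2
      refine ⟨Finset.univ.image g, ?_⟩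
      intro s hs
      exact ⟨g ⟨s, hs⟩, by simp, hg ⟨s, hs⟩⟩
    refine ⟨t, ?_⟩
    rw [Helper13.DV.closure_eq_adjoin, IntermediateField.mem_toSubfield]
    exact IntermediateField.adjoin.mono _ _ _ ht hyT
  obtain ⟨t, ht⟩ := hfin
  let e := t.equivFin
  refine Helper13.DV.mem_of_isAlgebraic_pt E (fun i : Fin t.card => x (e.symm i)) ?_ y ?_ hya
  · exact hx.comp (fun i : Fin t.card => ((e.symm i : t) : ι))
      (Subtype.val_injective.comp e.symm.injective)
  · refine Subfield.closure_mono (Set.union_subset_union_right _ ?_) ht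
    rintro _ ⟨i, hi, rfl⟩
    exact ⟨e ⟨i, hi⟩, by simp⟩

end Pool.Agent.DA
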