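import Pool.Agent.DA.DBasic

/-! Section 15 : existence of the limit -/

set_option autoImplicit false

namespace Pool.Agent.DA

namespace LimExAux

section
variable {A : ℕ → Type} [∀ m, Field (A m)] (φ : ∀ m, A m →+* A (m + 1))

/-- transition maps -/
noncomputable def tr (i j : ℕ) (h : i ≤ j) : A i →+* A j :=
  Nat.leRecOn (C := fun k => A i →+* A k) h (fun {k} f => (φ k).comp f) (RingHom.id (A i))

theorem tr_self (i : ℕ) (h : i ≤ i) : tr φ i i h = RingHom.id (A i) :=
  Nat.leRecOn_self _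

theorem tr_succ (i j : ℕ) (h : i ≤ j) (h' : i ≤ j + 1) :
    tr φ i (j + 1) h' = (φ j).comp (tr φ i j h) :=
  Nat.leRecOn_succ h (h2 := h') _

theorem tr_tr (i j k : ℕ) (hij : i ≤ j) (hjk : j ≤ k) (x : A i) :
    tr φ j k hjk (tr φ i j hij x) = tr φ i k (hij.trans hjk) x := by
  induction k, hjk using Nat.le_induction with
  | base => rw [tr_self]; rfl
  | succ k hjk ih =>
    rw [tr_succ φ j k hjk, tr_succ φ i k (hij.trans hjk), RingHom.comp_apply, RingHom.comp_apply, ih]

instance dirSys : DirectedSystem A (fun i j h => tr φ i j h) where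
  map_self i x := by rw [tr_self]; rfl
  map_map k j i hij hjk x := tr_tr φ _ _ _ _ _ x

end

end LimExAux

open LimExAux

/-- limits of sequences of fields -/
theorem lim_field (A : ℕ → Type) [∀ m, Field (A m)] (φ : ∀ m, A m →+* A (m + 1)) :
    ∃ (L : Type) (_ : Field L) (j : ∀ m, A m →+* L),
      (∀ m x, j (m + 1) (φ m x) = j m x) ∧ (∀ x : L, ∃ m y, x = j m y) := by
  refine ⟨DirectLimit A (fun i j h => tr φ i j h), inferInstance, fun m =>
    { toFun := fun x => ⟦⟨m, x⟩⟧
      map_one' := (DirectLimit.one_def m).symm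
      map_mul' := fun x y => (DirectLimit.mul_def m x y).symm
      map_zero' := (DirectLimit.zero_def m).symm
      map_add' := fun x y => (DirectLimit.add_def m x y).symm }, ?_, ?_⟩
  · intro m x
    have h := DirectLimit.eq_of_le (f := fun i j h => tr φ i j h) ⟨m, x⟩ (m + 1) (Nat.le_succ m)
    have h2 : tr φ m (m + 1) (Nat.le_succ m) x = φ m x := by
      rw [tr_succ φ m m le_rfl, tr_self]; rfl
    change (⟦⟨m + 1, φ m x⟩⟧ : DirectLimit A (fun i j h => tr φ i j h)) = ⟦⟨m, x⟩⟧
    rw [h]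
    simp only [h2]
  · intro x
    obtain ⟨m, y, h⟩ := DirectLimit.exists_eq_mk _ x
    exact ⟨m, y, h⟩

/-- functions on the limit -/
theorem lim_fun {A : ℕ → Type} [∀ m, Field (A m)] (φ : ∀ m, A m →+* A (m + 1))
    {L : Type} [Field L] (j : ∀ m, A m →+* L) (hj : ∀ m x, j (m + 1) (φ m x) = j m x)
    (hex : ∀ x : L, ∃ m y, x = j m y) {T : Type*} (h : ∀ m, A m → T)
    (hh : ∀ m x, h (m + 1) (φ m x) = h m x) : ∃ H : L → T, ∀ m x, H (j m x) = h m x := by
  classical
  have key : ∀ (m k : ℕ) (hmk : m ≤ k) (x : A m), j k (tr φ m k hmk x) = j m x ∧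
      h k (tr φ m k hmk x) = h m x := by
    intro m k hmk x
    induction k, hmk using Nat.le_induction with
    | base => rw [tr_self]; exact ⟨rfl, rfl⟩
    | succ k hmk ih =>
      rw [tr_succ φ m k hmk, RingHom.comp_apply, hj, hh]
      exact ih
  choose M Yy hY using hex
  refine ⟨fun x => h (M x) (Yy x), ?_⟩
  intro m x
  set k := max m (M (j m x)) with hk
  have h1 := key m k (le_max_left _ _) x
  have h2 := key (M (j m x)) k (le_max_right _ _) (Yy (j m x))
  change h (M (j m x)) (Yy (j m x)) = h m x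
  rw [← h1.2, ← h2.2]
  congr 1
  apply (j k).injective
  rw [h1.1, h2.1, ← hY]

namespace LimExAux

variable {A : ℕ → Type} [∀ m, Field (A m)] (φ : ∀ m, A m →+* A (m + 1))
    {L : Type} [Field L] (j : ∀ m, A m →+* L)

/-- every element of the limit comes from every sufficiently large level -/
theorem later (hj : ∀ m x, j (m + 1) (φ m x) = j m x) (m k : ℕ) (hmk : m ≤ k) (y : A m) :
    ∃ z : A k, j m y = j k z := by
  induction k, hmk using Nat.le_induction with
  | base => exact ⟨y, rfl⟩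
  | succ k hmk ih =>
    obtain ⟨z, hz⟩ := ih
    exact ⟨φ k z, by rw [hj, hz]⟩

theorem exists_level (hj : ∀ m x, j (m + 1) (φ m x) = j m x)
    (hex : ∀ x : L, ∃ m y, x = j m y) (l : ℕ) (x : L) : ∃ m, ∃ y : A (l + m), x = j (l + m) y := by
  obtain ⟨m, y, rfl⟩ := hex x
  exact ⟨m, later φ j hj m (l + m) (Nat.le_add_left m l) y⟩

theorem exists_level₂ (hj : ∀ m x, j (m + 1) (φ m x) = j m x)
    (hex : ∀ x : L, ∃ m y, x = j m y) (l : ℕ) (x x' : L) :
    ∃ m, (∃ y : A (l + m), x = j (l + m) y) ∧ (∃ y : A (l + m), x' = j (l + m) y) := by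
  obtain ⟨m, y, rfl⟩ := exists_level φ j hj hex l x
  obtain ⟨m', y', rfl⟩ := exists_level φ j hj hex l x'
  refine ⟨max m m', later φ j hj (l + m) _ ?_ y, later φ j hj (l + m') _ ?_ y'⟩
  · exact Nat.add_le_add_left (le_max_left _ _) _
  · exact Nat.add_le_add_left (le_max_right _ _) _

/-- ring homomorphisms on the limit -/
theorem lim_hom (hj : ∀ m x, j (m + 1) (φ m x) = j m x)
    (hex : ∀ x : L, ∃ m y, x = j m y) (l : ℕ) (h : ∀ m, A (l + m) →+* L)
    (hh : ∀ m x, h (m + 1) (φ (l + m) x) = h m x) :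
    ∃ H : L →+* L, ∀ m x, H (j (l + m) x) = h m x := by
  obtain ⟨H, hH⟩ := lim_fun (A := fun m => A (l + m)) (fun m => φ (l + m)) (fun m => j (l + m))
    (fun m x => hj (l + m) x) (fun x => exists_level φ j hj hex l x) (fun m x => h m x) hh
  refine ⟨{ toFun := H, map_one' := ?_, map_mul' := ?_, map_zero' := ?_, map_add' := ?_ },
    fun m x => hH m x⟩
  · have h1 := hH 0 1
    rw [map_one, map_one] at h1
    exact h1
  · intro x x'
    obtain ⟨m, ⟨y, rfl⟩, ⟨y', rfl⟩⟩ := exists_level₂ φ j hj hex l x x'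
    have h1 := hH m (y * y')
    rw [map_mul, map_mul] at h1
    rw [h1, hH, hH]
  · have h1 := hH 0 0
    rw [map_zero, map_zero] at h1
    exact h1
  · intro x x'
    obtain ⟨m, ⟨y, rfl⟩, ⟨y', rfl⟩⟩ := exists_level₂ φ j hj hex l x x'
    have h1 := hH m (y + y')
    rw [map_add, map_add] at h1
    rw [h1, hH, hH]

/-- iterates of a ring automorphism -/
noncomputable def itr {K : Type} [Field K] (g : K ≃+* K) (n : ℕ) : K →+* K :=
  (g : K →+* K) ^ n

theorem itr_apply {K : Type} [Field K] (g : K ≃+* K) (n : ℕ) (x : K) : itr g n x = g^[n] x := by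
  induction n generalizing x with
  | zero => rfl
  | succ n ih =>
    rw [Function.iterate_succ_apply, ← ih]
    rfl

theorem char_zero {m : ℕ} (A : Datum m) : CharZero A.K := by
  refine charZero_of_inj_zero fun n h0 => ?_
  by_contra hn
  have h1 := A.v_nat n hn
  rw [h0] at h1
  have h2 : A.v (0 : A.K) = ⊤ := A.v.map_zero
  rw [h2] at h1
  exact absurd h1 (by decide)

theorem ι_iter {m : ℕ} {A : Datum m} {B : Datum (m + 1)} (h : StepHom A B) (k : ℕ) (x : A.K) :
    (B.gK)^[2 * k] (h.ι x) = h.ι ((A.gK)^[k] x) := by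
  induction k generalizing x with
  | zero => rfl
  | succ k ih =>
    have h2 : 2 * (k + 1) = (2 * k) + 1 + 1 := by ring
    rw [h2, Function.iterate_succ_apply, Function.iterate_succ_apply, h.gg_ι, ih,
      Function.iterate_succ_apply]

end LimExAux

theorem exists_lim (C : Chain) :
    ∃ (K : Type) (_ : Field K) (_ : CharZero K), Nonempty (Lim C K) := by
  classical
  obtain ⟨K, hK, e, he, hex⟩ := lim_field (fun m => (C.A m).K) (fun m => (C.h m).ι)
  have : CharZero (C.A 0).K := char_zero (C.A 0)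
  have hcz : CharZero K := charZero_of_injective_ringHom (e 0).injective
  have hex2 : ∀ x x' : K, ∃ m, (∃ y : (C.A m).K, x = e m y) ∧ (∃ y : (C.A m).K, x' = e m y) := by
    intro x x'
    obtain ⟨m, h1, h2⟩ := exists_level₂ (A := fun m => (C.A m).K) (fun m => (C.h m).ι) e he hex 0 x x'
    exact ⟨0 + m, h1, h2⟩
  -- the valuation
  obtain ⟨v, hv⟩ := lim_fun (A := fun m => (C.A m).K) (fun m => (C.h m).ι) e he hex
    (T := WithTop ℤ) (fun m x => (C.A m).v x) (fun m x => (C.h m).v_ι x)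
  have v0 : v 0 = ⊤ := by
    have h1 := hv 0 0
    rw [map_zero] at h1
    rw [h1]
    exact (C.A 0).v.map_zero
  have v1 : v 1 = 0 := by
    have h1 := hv 0 1
    rw [map_one] at h1
    rw [h1]
    exact (C.A 0).v.map_one
  have vadd : ∀ x y, min (v x) (v y) ≤ v (x + y) := by
    intro x x'
    obtain ⟨m, ⟨y, rfl⟩, ⟨y', rfl⟩⟩ := hex2 x x'
    rw [← map_add, hv, hv, hv]
    exact (C.A m).v.map_add y y'
  have vmul : ∀ x y, v (x * y) = v x + v y := by
    intro x x'
    obtain ⟨m, ⟨y, rfl⟩, ⟨y', rfl⟩⟩ := hex2 x x'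
    rw [← map_mul, hv, hv, hv]
    exact (C.A m).v.map_mul y y'
  -- the automorphisms
  have hg : ∀ l : ℕ, ∃ H : K →+* K, ∀ m (x : (C.A (l + m)).K),
      H (e (l + m) x) = e (l + m) (((C.A (l + m)).gK)^[2 ^ m] x) := by
    intro l
    obtain ⟨H, hH⟩ := lim_hom (A := fun m => (C.A m).K) (fun m => (C.h m).ι) e he hex l
      (fun m => (e (l + m)).comp (itr (C.A (l + m)).gK (2 ^ m))) (by
        intro m x
        have h1 : (2 : ℕ) ^ (m + 1) = 2 * 2 ^ m := by ring
        change e (l + m + 1) (itr (C.A (l + m + 1)).gK (2 ^ (m + 1)) ((C.h (l + m)).ι x))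
          = e (l + m) (itr (C.A (l + m)).gK (2 ^ m) x)
        rw [itr_apply, itr_apply, h1, ι_iter, he])
    refine ⟨H, fun m x => ?_⟩
    rw [hH]
    change e (l + m) (itr (C.A (l + m)).gK (2 ^ m) x) = _
    rw [itr_apply]
  choose G hG using hg
  have G0 : ∀ x, G 0 x = x := by
    intro x
    obtain ⟨m, y, rfl⟩ := exists_level (A := fun m => (C.A m).K) (fun m => (C.h m).ι) e he hex 0 x
    rw [hG]
    have h1 := (C.A (0 + m)).gK_pow y
    have h2 : (2 : ℕ) ^ (0 + m) = 2 ^ m := by rw [Nat.zero_add]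
    rw [h2] at h1
    rw [h1]
  have Ge : ∀ m (x : (C.A m).K), G m (e m x) = e m ((C.A m).gK x) := by
    intro m x
    have h1 := hG m 0 x
    exact h1
  have Gsq : ∀ l x, G (l + 1) (G (l + 1) x) = G l x := by
    intro l x
    obtain ⟨m, y, rfl⟩ := exists_level (A := fun m => (C.A m).K) (fun m => (C.h m).ι) e he hex
      (l + 1) x
    rw [hG, hG, ← Function.iterate_add_apply]
    -- compare with `G l` at level `l + (m + 1)`
    have key : ∀ (n : ℕ) (hn : l + (m + 1) = n) (y : (C.A n).K),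
        G l (e n y) = e n (((C.A n).gK)^[2 ^ (m + 1)] y) := by
      intro n hn
      subst hn
      intro y
      exact hG l (m + 1) y
    rw [key (l + 1 + m) (by ring) y]
    have h1 : (2 : ℕ) ^ (m + 1) = 2 ^ m + 2 ^ m := by ring
    rw [h1]
  have Gbij : ∀ l, Function.Bijective (G l) := by
    intro l
    induction l with
    | zero =>
      have h1 : (G 0 : K → K) = id := funext G0
      rw [h1]
      exact Function.bijective_id
    | succ l ih =>
      refine ⟨(G (l + 1)).injective, fun x => ?_⟩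
      obtain ⟨y, hy⟩ := ih.2 x
      exact ⟨G (l + 1) y, by rw [Gsq, hy]⟩
  refine ⟨K, hK, hcz, ⟨{
    e := e
    e_succ := he
    e_surj := hex
    v := AddValuation.of v v0 v1 vadd vmul
    v_e := fun m x => hv m x
    g := fun l => RingEquiv.ofBijective (G l) (Gbij l)
    g_e := fun m x => Ge m x
    g_zero := fun x => G0 x
    g_sq := fun l x => Gsq l x }⟩⟩

end Pool.Agent.DA
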