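import Pool.Agent.DA.LimProp
import Pool.Agent.DA.LimEx
import Pool.Agent.DA.ChainEx
import Pool.Agent.Helper91.DV.Defs

/-! Final theorem of Parts II-IV -/

set_option autoImplicit false

namespace Pool.Agent.DA

open Pool.Agent.Helper91.DV Finset

namespace KDaux

/-- `ℤ ∪ ∞ → ℚ ∪ ∞` -/
noncomputable def cm : WithTop ℤ →+ WithTop ℚ := (Int.castAddHom ℚ).withTopMap

theorem cm_top : cm ⊤ = ⊤ := rfl
theorem cm_coe (n : ℤ) : cm (n : WithTop ℤ) = ((n : ℚ) : WithTop ℚ) := rfl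
theorem cm_zero : cm 0 = 0 := map_zero _
theorem cm_one : cm 1 = 1 := by
  have : cm ((1 : ℤ) : WithTop ℤ) = (((1 : ℤ) : ℚ) : WithTop ℚ) := rfl
  simpa using this
theorem cm_two : cm 2 = 2 := by
  have : cm ((2 : ℤ) : WithTop ℤ) = (((2 : ℤ) : ℚ) : WithTop ℚ) := rfl
  simpa using this

theorem cm_lt (a b : WithTop ℤ) : cm a < cm b ↔ a < b := by
  cases a with
  | top => simp [cm_top]
  | coe a =>
    cases b with
    | top => rw [cm_top, cm_coe]; simp
    | coe b => rw [cm_coe, cm_coe]; norm_cast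

theorem cm_le (a b : WithTop ℤ) : cm a ≤ cm b ↔ a ≤ b := by
  rw [← not_lt, ← not_lt, cm_lt]

theorem cm_inj (a b : WithTop ℤ) : cm a = cm b ↔ a = b := by
  rw [le_antisymm_iff, le_antisymm_iff, cm_le, cm_le]

theorem cm_mono : Monotone cm := fun a b h => (cm_le a b).2 h

variable {K : Type} [Field K] (v : AddValuation K (WithTop ℤ))

/-- the valuation with values in `ℚ ∪ ∞` -/
noncomputable def vq : AddValuation K (WithTop ℚ) := v.map cm cm_top cm_mono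

theorem vq_apply (x : K) : vq v x = cm (v x) := rfl

theorem vq_eq_zero (x : K) : vq v x = 0 ↔ v x = 0 := by
  rw [vq_apply, ← cm_zero, cm_inj]
theorem vq_eq_one (x : K) : vq v x = 1 ↔ v x = 1 := by
  rw [vq_apply, ← cm_one, cm_inj]
theorem vq_eq_two (x : K) : vq v x = 2 ↔ v x = 2 := by
  rw [vq_apply, ← cm_two, cm_inj]
theorem zero_le_vq (x : K) : 0 ≤ vq v x ↔ 0 ≤ v x := by
  rw [vq_apply, ← cm_zero, cm_le]
theorem zero_lt_vq (x : K) : 0 < vq v x ↔ 0 < v x := by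
  rw [vq_apply, ← cm_zero, cm_lt]
theorem one_lt_vq (x : K) : 1 < vq v x ↔ 1 < v x := by
  rw [vq_apply, ← cm_one, cm_lt]
theorem two_lt_vq (x : K) : 2 < vq v x ↔ 2 < v x := by
  rw [vq_apply, ← cm_two, cm_lt]

end KDaux

open KDaux

/-- the K-level data from a tower with its tasks performed -/
noncomputable def Lim.toKD {C : Chain} {K : Type} [Field K] [CharZero K] (L : Lim C K)
    (hP : ∀ (i : ℕ) (z : (C.A i).K) (n : ℕ), ∃ k, n ≤ k ∧
      (C.tr i k z ∉ (C.A (i + k)).F → (C.h (i + k)).TaskP (C.tr i k z)))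
    (hN : ∀ (i : ℕ) (z : (C.A i).K), ∃ k,
      (C.tr i k z ∉ (C.A (i + k)).F → (C.h (i + k)).TaskN (C.tr i k z))) : KD K where
  F := L.F
  Kf := L.Kf
  Kf_mono := L.Kf_mono
  Kf_exh := L.Kf_exh
  g := L.g
  g_zero := L.g_zero
  g_succ := L.g_sq
  g_F := fun m x hx => hx m
  g_Kf := L.g_Kf
  v := vq L.v
  v_int := by
    intro x hx
    obtain ⟨n, hn⟩ := L.v_int x hx
    exact ⟨n, by rw [vq_apply, hn, cm_coe]⟩
  v_g := by
    intro m x
    rw [vq_apply, vq_apply, L.v_g]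
  v_F := by
    intro x hx h0
    obtain ⟨n, hn⟩ := L.v_F x hx h0
    refine ⟨n, ?_⟩
    rw [vq_apply, hn, cm_coe]
    push_cast
    rfl
  v_two := (vq_eq_zero _ _).2 L.v_two
  ϖ := L.e 0 (C.A 0).W
  ϖ_mem := (L.e_mem_F 0 _).2 (C.A 0).W_mem
  v_ϖ := by
    rw [vq_eq_two, L.v_e]
    exact (C.A 0).v_W
  a := fun m => L.e m (C.A m).a
  a_mem := fun m => ⟨_, rfl⟩
  v_a := by
    intro m
    rw [vq_eq_one, L.v_e]
    exact (C.A m).v_a
  g_a := by
    intro m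
    rw [L.g_e, (C.A m).g_a]
  c := fun m => L.e (m + 1) (C.h m).c
  c_mem := fun m => ⟨_, rfl⟩
  v_c := by
    intro m
    rw [vq_eq_zero, L.v_e]
    exact (C.h m).v_c
  a_succ := by
    intro m
    rw [(C.h m).a_eq, map_mul, L.e_succ, map_prod]
    congr 1
    apply Finset.prod_congr rfl
    intro i _
    rw [← L.g_e_iter, Function.iterate_mul]
    congr 1
    funext y
    exact L.g_sq m y
  A1 := by
    intro l hl p hp hv hi h
    obtain ⟨c, hc, hlt⟩ := L.axA1 l ((vq_eq_zero _ _).1 hl) p hp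
      (fun i => (zero_le_vq _ _).1 (hv i)) (hi.imp fun i hi => (vq_eq_zero _ _).1 hi)
      ((zero_lt_vq _ _).1 h)
    exact ⟨c, hc, (zero_lt_vq _ _).2 hlt⟩
  A2 := by
    intro μ hμ c hc h
    exact L.axA2 μ ((vq_eq_one _ _).1 hμ) c hc ((two_lt_vq _ _).1 h)
  V3 := by
    intro k μ hμ hv ω h
    exact L.axV3 k μ hμ ((vq_eq_one _ _).1 hv) ω ((one_lt_vq _ _).1 h)
  F2 := L.axF2
  F3 := L.axF3
  N := L.axN hN
  P := L.axP hP

theorem exists_KD : ∃ (K : Type) (_ : Field K) (_ : CharZero K), Nonempty (KD K) := by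
  obtain ⟨C, hP, hN⟩ := exists_chain
  obtain ⟨K, i1, i2, ⟨L⟩⟩ := exists_lim C
  exact ⟨K, i1, i2, ⟨L.toKD hP hN⟩⟩

end Pool.Agent.DA
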