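import Pool.Agent.DA.DBasic2

/-! Section 15 : properties of the limit -/

set_option autoImplicit false

namespace Pool.Agent.DA

open Finset Polynomial

namespace LimAux

theorem isAlg_map {A B : Type*} [Field A] [Field B] (φ : A →+* B) (S : Subfield A) (T : Subfield B)
    (h : ∀ s ∈ S, φ s ∈ T) (x : A) (hx : IsAlgebraic S x) : IsAlgebraic T (φ x) := by
  obtain ⟨p, hp, hpx⟩ := hx
  let ψ : S →+* T := (φ.comp S.subtype).codRestrict T (fun s => h s s.2)
  refine ⟨p.map ψ, (Polynomial.map_ne_zero_iff ψ.injective).2 hp, ?_⟩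
  rw [aeval_def, eval₂_map]
  have e : (algebraMap T B).comp ψ = φ.comp (algebraMap S A) := by
    ext s; rfl
  rw [e, ← hom_eval₂, ← aeval_def, hpx, map_zero]

theorem isAlg_comap {A B : Type*} [Field A] [Field B] (φ : A →+* B) (S : Subfield A) (T : Subfield B)
    (h : ∀ t ∈ T, ∃ s ∈ S, φ s = t) (x : A) (hx : IsAlgebraic T (φ x)) : IsAlgebraic S x := by
  obtain ⟨p, hp, hpx⟩ := hx
  have hl : p.map (algebraMap T B) ∈ Polynomial.lifts (φ.comp (algebraMap S A)) := by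
    rw [Polynomial.lifts_iff_coeff_lifts]
    intro n
    rw [coeff_map]
    obtain ⟨s, hs, hst⟩ := h _ (p.coeff n).2
    exact ⟨⟨s, hs⟩, hst⟩
  obtain ⟨q, hq⟩ := (Polynomial.mem_lifts _).1 hl
  have hq0 : q ≠ 0 := by
    rintro rfl
    rw [Polynomial.map_zero] at hq
    exact hp ((Polynomial.map_eq_zero_iff (algebraMap T B).injective).1 hq.symm)
  refine ⟨q, hq0, ?_⟩
  apply φ.injective
  rw [map_zero, aeval_def, hom_eval₂, ← eval_map, hq, eval_map, ← aeval_def, hpx]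

theorem sum_range_two_mul {M : Type*} [AddCommMonoid M] (f : ℕ → M) (n : ℕ) :
    ∑ s ∈ range (2 * n), f s = ∑ s ∈ range n, (f (2 * s) + f (2 * s + 1)) := by
  induction n with
  | zero => simp
  | succ n ih =>
    rw [show 2 * (n + 1) = 2 * n + 1 + 1 by ring, sum_range_succ, sum_range_succ, ih,
      sum_range_succ, add_assoc]

end LimAux

namespace Lim

variable {C : Chain} {K : Type} [Field K] [CharZero K] (L : Lim C K)

theorem e_tr (i k : ℕ) (x : (C.A i).K) : L.e (i + k) (C.tr i k x) = L.e i x := by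
  induction k with
  | zero => rfl
  | succ k ih => rw [← ih]; exact L.e_succ (i + k) (C.tr i k x)

theorem e_le {i m : ℕ} (h : i ≤ m) (x : (C.A i).K) : ∃ y : (C.A m).K, L.e m y = L.e i x := by
  obtain ⟨k, rfl⟩ := Nat.exists_eq_add_of_le h
  exact ⟨C.tr i k x, L.e_tr i k x⟩

/-- any two elements live on a common level, as high as we want -/
theorem surj_ge (x : K) (n : ℕ) : ∃ m, n ≤ m ∧ ∃ y, x = L.e m y := by
  obtain ⟨m, y, rfl⟩ := L.e_surj x
  obtain ⟨y', hy'⟩ := L.e_le (Nat.le_add_right m n) y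
  exact ⟨m + n, Nat.le_add_left n m, y', hy'.symm⟩

theorem surj_two (x y : K) (n : ℕ) : ∃ m, n ≤ m ∧ ∃ x' y', x = L.e m x' ∧ y = L.e m y' := by
  obtain ⟨m, hm, x', rfl⟩ := L.surj_ge x n
  obtain ⟨m', hm', y', rfl⟩ := L.surj_ge y m
  obtain ⟨x'', hx''⟩ := L.e_le hm' x'
  exact ⟨m', hm.trans hm', x'', y', hx''.symm, rfl⟩

theorem Kf_mono (m : ℕ) : L.Kf m ≤ L.Kf (m + 1) := by
  rintro _ ⟨y, rfl⟩
  exact ⟨(C.h m).ι y, L.e_succ m y⟩

theorem Kf_exh (x : K) : ∃ m, x ∈ L.Kf m := by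
  obtain ⟨m, y, rfl⟩ := L.e_surj x
  exact ⟨m, y, rfl⟩

theorem Kf_le {i m : ℕ} (h : i ≤ m) : L.Kf i ≤ L.Kf m := by
  rintro _ ⟨y, rfl⟩
  obtain ⟨y', hy'⟩ := L.e_le h y
  exact ⟨y', hy'⟩

/-- `g m` on the level `m + n` is a power of `g (m + n)` -/
theorem g_iter (m n : ℕ) (x : K) : (L.g (m + n))^[2 ^ n] x = L.g m x := by
  induction n generalizing x with
  | zero => simp
  | succ n ih =>
    rw [pow_succ, mul_comm, Function.iterate_mul]
    have e : (⇑(L.g (m + (n + 1))))^[2] = ⇑(L.g (m + n)) := by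
      funext y
      exact L.g_sq (m + n) y
    rw [e, ih]

theorem g_e_iter (m n : ℕ) (y : (C.A m).K) :
    (L.g m)^[n] (L.e m y) = L.e m ((C.A m).gK^[n] y) := by
  induction n with
  | zero => rfl
  | succ n ih => rw [Function.iterate_succ_apply', Function.iterate_succ_apply', ih, L.g_e]

theorem g_Kf (m j : ℕ) (h : m ≤ j) (x : K) (hx : x ∈ L.Kf j) : L.g m x ∈ L.Kf j := by
  obtain ⟨k, rfl⟩ := Nat.exists_eq_add_of_le h
  obtain ⟨y, rfl⟩ := hx
  rw [← L.g_iter m k, L.g_e_iter]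
  exact ⟨_, rfl⟩

theorem tr_mem_F (i k : ℕ) (x : (C.A i).K) (hx : x ∈ (C.A i).F) : C.tr i k x ∈ (C.A (i + k)).F := by
  induction k with
  | zero => exact hx
  | succ k ih => exact (C.h (i + k)).F_ι _ ih

/-- `F` meets the level `m` in the image of `F_m` -/
theorem e_mem_F (m : ℕ) (x : (C.A m).K) : L.e m x ∈ L.F ↔ x ∈ (C.A m).F := by
  constructor
  · intro h
    have h1 := h (m + 1)
    rw [← L.e_succ, L.g_e] at h1
    have h2 : (C.A (m + 1)).gK ((C.h m).ι x) = (C.h m).ι x := (L.e (m + 1)).injective h1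
    apply (C.h m).te4
    rw [h2]
    exact isAlgebraic_algebraMap (⟨(C.h m).ι x, ⟨x, rfl⟩⟩ : RingHom.fieldRange (C.h m).ι)
  · intro h l
    have h1 : L.g (m + l) (L.e m x) = L.e m x := by
      rw [← L.e_tr m l, L.g_e, (C.A (m + l)).g_F _ (tr_mem_F m l x h)]
    rw [← L.g_iter l m, add_comm l m]
    exact Function.iterate_fixed h1 _

theorem v_g (m : ℕ) (x : K) : L.v (L.g m x) = L.v x := by
  obtain ⟨M, hM, y, rfl⟩ := L.surj_ge x m
  obtain ⟨k, rfl⟩ := Nat.exists_eq_add_of_le hM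
  rw [← L.g_iter m k, L.g_e_iter, L.v_e, L.v_e]
  induction (2 ^ k) with
  | zero => rfl
  | succ n ih => rw [Function.iterate_succ_apply', Datum.v_gK, ih]

theorem v_int (x : K) (hx : x ≠ 0) : ∃ n : ℤ, L.v x = (n : WithTop ℤ) := by
  have h : L.v x ≠ ⊤ := fun h => hx ((L.v.top_iff).1 h)
  exact ⟨(L.v x).untop h, by simp⟩

theorem v_F (x : K) (hx : x ∈ L.F) (h0 : x ≠ 0) : ∃ n : ℤ, L.v x = ((2 * n : ℤ) : WithTop ℤ) := by
  obtain ⟨m, y, rfl⟩ := L.e_surj x
  rw [L.v_e]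
  apply (C.A m).v_F_even y ((L.e_mem_F m y).1 hx)
  rintro rfl
  exact h0 (map_zero _)

theorem v_two : L.v 2 = 0 := by
  have h := (C.A 0).v_nat 2 (by norm_num)
  rw [← L.v_e 0, map_natCast] at h
  exact_mod_cast h

/-- the element `W` is the same on all levels -/
theorem e_W (m : ℕ) : L.e m (C.A m).W = L.e 0 (C.A 0).W := by
  induction m with
  | zero => rfl
  | succ m ih => rw [← ih, ← (C.h m).W_ι, L.e_succ]

theorem poly_level (p : K[X]) (n : ℕ) : ∃ m, n ≤ m ∧ ∃ q : (C.A m).K[X], q.map (L.e m) = p := by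
  classical
  choose f y hf using fun i => L.e_surj (p.coeff i)
  refine ⟨n + ∑ i ∈ p.support, f i, Nat.le_add_right _ _, ?_⟩
  rw [← Polynomial.mem_lifts, Polynomial.lifts_iff_coeff_lifts]
  intro i
  by_cases hi : i ∈ p.support
  · have h1 : f i ≤ n + ∑ i ∈ p.support, f i :=
      (Finset.single_le_sum (f := f) (fun _ _ => Nat.zero_le _) hi).trans (Nat.le_add_left _ _)
    obtain ⟨y', hy'⟩ := L.e_le h1 (y i)
    exact ⟨y', by rw [hy', ← hf i]⟩
  · rw [Polynomial.notMem_support_iff.1 hi]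
    exact ⟨0, map_zero _⟩

theorem axA1 (l : K) (hl : L.v l = 0) (p : K[X]) (hp : ∀ i, p.coeff i ∈ L.F)
    (hv : ∀ i, 0 ≤ L.v (p.coeff i)) (hi : ∃ i, L.v (p.coeff i) = 0) (h : 0 < L.v (p.eval l)) :
    ∃ c ∈ L.F, 0 < L.v (l - c) := by
  obtain ⟨m, -, q, rfl⟩ := L.poly_level p 0
  obtain ⟨M, hM, l', rfl⟩ := L.surj_ge l m
  obtain ⟨k, rfl⟩ := Nat.exists_eq_add_of_le hM
  have e : (q.map (C.tr m k)).map (L.e (m + k)) = q.map (L.e m) := by
    rw [Polynomial.map_map]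
    congr 1
    exact RingHom.ext (L.e_tr m k)
  rw [← e] at hp hv hi h
  set q' := q.map (C.tr m k)
  simp only [coeff_map, L.e_mem_F] at hp
  simp only [coeff_map, L.v_e] at hv hi
  rw [Polynomial.eval_map, Polynomial.eval₂_hom, L.v_e] at h
  rw [L.v_e] at hl
  obtain ⟨c, hc, hlt⟩ := (C.A (m + k)).axA1 l' hl.ge q' hp hv hi h
  exact ⟨L.e _ c, (L.e_mem_F _ _).2 hc, by rw [← map_sub, L.v_e]; exact hlt⟩

theorem axA2 (r : K) (hr : L.v r = 1) (c : K) (hc : c ∈ L.F) :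
    ¬ (2 < L.v (r ^ 2 - c * L.e 0 (C.A 0).W)) := by
  obtain ⟨m, -, r', c', rfl, rfl⟩ := L.surj_two r c 0
  rw [← L.e_W m, ← map_pow, ← map_mul, ← map_sub, L.v_e]
  rw [L.v_e] at hr
  exact (C.A m).axA2 r' hr c' ((L.e_mem_F m c').1 hc)

theorem v_tr (i k : ℕ) (x : (C.A i).K) : (C.A (i + k)).v (C.tr i k x) = (C.A i).v x := by
  induction k with
  | zero => rfl
  | succ k ih => rw [← ih]; exact (C.h (i + k)).v_ι _

theorem NS_tr (i k : ℕ) (x : (C.A i).K) (hx : (C.A i).v x = 0) (h : (C.A i).NS x) :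
    (C.A (i + k)).NS (C.tr i k x) := by
  induction k with
  | zero => exact h
  | succ k ih => exact (C.h (i + k)).te2 _ (by rw [v_tr, hx]) ih

theorem axV3 (k : ℕ) (μ : K) (hμ : μ ∈ L.Kf k) (hv : L.v μ = 1) (ω : K) :
    ¬ (1 < L.v (L.g (k + 1) μ - ω ^ 2 * μ)) := by
  obtain ⟨m, rfl⟩ := hμ
  obtain ⟨M, hM, w, rfl⟩ := L.surj_ge ω (k + 1)
  obtain ⟨n, rfl⟩ := Nat.exists_eq_add_of_le hM
  rw [L.v_e] at hv
  have hns := (C.h k).te1 m hv
  set x := (C.A (k + 1)).gK ((C.h k).ι m) / (C.h k).ι m with hx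
  have hm0 : m ≠ 0 := by
    rintro rfl
    simp at hv
  have hι0 : (C.h k).ι m ≠ 0 := (_root_.map_ne_zero _).2 hm0
  have hvι : (C.A (k + 1)).v ((C.h k).ι m) = 1 := by rw [(C.h k).v_ι, hv]
  have hxm : x * (C.h k).ι m = (C.A (k + 1)).gK ((C.h k).ι m) := div_mul_cancel₀ _ hι0
  have hxv : (C.A (k + 1)).v x = 0 := by
    have h1 := congrArg (C.A (k + 1)).v hxm
    rw [AddValuation.map_mul, Datum.v_gK, hvι] at h1
    generalize (C.A (k + 1)).v x = t at h1
    cases t with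
    | top => simp at h1
    | coe t =>
      have h2 : t + 1 = 1 := by exact_mod_cast h1
      have h3 : t = 0 := by linarith
      rw [h3]; rfl
  have hns' := NS_tr (C := C) (k + 1) n x hxv hns
  have key := (C.A (k + 1 + n)).NS_sq (C.tr (k + 1) n x) (by rw [v_tr, hxv]) hns' w
  intro hlt
  apply key
  rw [← L.v_e, map_sub, map_pow, L.e_tr]
  have e1 : L.g (k + 1) (L.e k m) - L.e (k + 1 + n) w ^ 2 * L.e k m =
      (L.e (k + 1) x - L.e (k + 1 + n) w ^ 2) * L.e k m := by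
    rw [sub_mul, ← L.e_succ k m, L.g_e, ← map_mul, hxm]
  rw [e1, AddValuation.map_mul, L.v_e k m, hv] at hlt
  generalize L.v (L.e (k + 1) x - L.e (k + 1 + n) w ^ 2) = t at hlt
  cases t with
  | top => simp
  | coe t =>
    have h2 : (1 : ℤ) < t + 1 := by exact_mod_cast hlt
    have h3 : 0 < t := by linarith
    exact_mod_cast h3

theorem axF2 (k : ℕ) (z : K) (hz : z ∈ L.Kf k) (hF : z ∉ L.F) (w : K) (hw : w ∈ L.Kf k) :
    IsAlgebraic (Subfield.closure (((L.F : Set K) ∩ (L.Kf k : Set K)) ∪ {z})) w := by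
  obtain ⟨z', rfl⟩ := hz
  obtain ⟨w', rfl⟩ := hw
  have hz' : z' ∉ (C.A k).F := fun h => hF ((L.e_mem_F k z').2 h)
  refine LimAux.isAlg_map (L.e k) (ad (C.A k).F {z'}) _ ?_ w'
    ((C.A k).tight_alg (C.tight k) z' w' hz')
  intro s hs
  have hle : ad (C.A k).F {z'} ≤
      (Subfield.closure (((L.F : Set K) ∩ (L.Kf k : Set K)) ∪ {L.e k z'})).comap (L.e k) := by
    apply Subfield.closure_le.2
    rintro x (hx | hx)
    · exact Subfield.subset_closure (Or.inl ⟨(L.e_mem_F k x).2 hx, ⟨x, rfl⟩⟩)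
    · rw [Set.mem_singleton_iff.1 hx]
      exact Subfield.subset_closure (Or.inr rfl)
  exact hle hs

theorem axF3 (k : ℕ) (z : K) (hz : z ∈ L.Kf k) (hF : z ∉ L.F) :
    Transcendental (L.Kf k) (L.g (k + 1) z) := by
  obtain ⟨z', rfl⟩ := hz
  intro halg
  apply hF
  rw [L.e_mem_F]
  apply (C.h k).te4
  rw [← L.e_succ, L.g_e] at halg
  refine LimAux.isAlg_comap (L.e (k + 1)) _ (L.Kf k) ?_ _ halg
  rintro _ ⟨y, rfl⟩
  exact ⟨(C.h k).ι y, ⟨y, rfl⟩, L.e_succ k y⟩

/-- axiom N from the N-tasks -/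
theorem axN (hN : ∀ (i : ℕ) (z : (C.A i).K), ∃ k,
      (C.tr i k z ∉ (C.A (i + k)).F → (C.h (i + k)).TaskN (C.tr i k z))) (z : K) (hz : z ≠ 0) :
    z⁻¹ ∈ Algebra.adjoin L.F {x : K | ∃ m i : ℕ, x = (L.g m)^[i] z} := by
  obtain ⟨i, z', rfl⟩ := L.e_surj z
  obtain ⟨k, hk⟩ := hN i z'
  by_cases hF : C.tr i k z' ∈ (C.A (i + k)).F
  · have h1 : L.e i z' ∈ L.F := by
      rw [← L.e_tr i k, L.e_mem_F]
      exact hF
    exact Subalgebra.algebraMap_mem _ (⟨(L.e i z')⁻¹, inv_mem h1⟩ : L.F)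
  · have h1 := hk hF
    have hle : Subring.closure (((C.A (i + k + 1)).F : Set (C.A (i + k + 1)).K) ∪
        {y | ∃ n : ℕ, y = ((C.A (i + k + 1)).gK)^[n] ((C.h (i + k)).ι (C.tr i k z'))}) ≤
        (Algebra.adjoin L.F {x : K | ∃ m n : ℕ, x = (L.g m)^[n] (L.e i z')}).toSubring.comap
          (L.e (i + k + 1)) := by
      apply Subring.closure_le.2
      rintro y (hy | ⟨n, rfl⟩)
      · exact (Algebra.adjoin L.F {x : K | ∃ m n : ℕ, x = (L.g m)^[n] (L.e i z')}).algebraMap_mem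
          (⟨_, (L.e_mem_F _ y).2 hy⟩ : L.F)
      · change L.e (i + k + 1) _ ∈ Algebra.adjoin L.F {x : K | ∃ m n : ℕ, x = (L.g m)^[n] (L.e i z')}
        apply Algebra.subset_adjoin
        exact ⟨i + k + 1, n, by rw [← L.g_e_iter, L.e_succ, L.e_tr]⟩
    have h2 := hle h1
    rw [Subring.mem_comap, map_inv₀, L.e_succ, L.e_tr] at h2
    exact h2

/-- interpolation on one level -/
theorem galois_level {F : Type} [Field F] (g : F ≃+* F) (d : ℕ) (hd : 0 < d) (z x : F)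
    (hz : (⇑g)^[d] z = z) (hx : (⇑g)^[d] x = x)
    (hinj : ∀ s < d, ∀ t < d, (⇑g)^[s] z = (⇑g)^[t] z → s = t) :
    ∃ P : F[X], (∀ i, g (P.coeff i) = P.coeff i) ∧ P.eval z = x := by
  classical
  let P : F[X] := Lagrange.interpolate (range d) (fun t => (⇑g)^[t] z) (fun t => (⇑g)^[t] x)
  have hinj' : Set.InjOn (fun t => (⇑g)^[t] z) (range d : Set ℕ) := by
    intro s hs t ht hst
    exact hinj s (by simpa using hs) t (by simpa using ht) hst
  have hdeg : P.degree < (range d).card := Lagrange.degree_interpolate_lt _ hinj'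
  have hev : ∀ t < d, P.eval ((⇑g)^[t] z) = (⇑g)^[t] x := fun t ht =>
    Lagrange.eval_interpolate_at_node _ hinj' (by simpa using ht)
  have hmap : P.map (g : F →+* F) = P := by
    apply Polynomial.eq_of_degrees_lt_of_eval_index_eq (range d) hinj'
    · exact lt_of_le_of_lt (Polynomial.degree_map_le) hdeg
    · exact hdeg
    · intro t ht
      have ht' : t < d := by simpa using ht
      have hg : ∀ s < d, (P.map (g : F →+* F)).eval (g ((⇑g)^[s] z)) = g ((⇑g)^[s] x) := by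
        intro s hs
        have := Polynomial.eval_map (g : F →+* F) (p := P) (g ((⇑g)^[s] z))
        rw [this]
        have h2 := Polynomial.eval₂_hom (p := P) (g : F →+* F) ((⇑g)^[s] z)
        rw [hev s hs] at h2
        exact h2
      rcases Nat.eq_zero_or_pos t with rfl | htp
      · have h1 := hg (d - 1) (by omega)
        rw [← Function.iterate_succ_apply' (⇑g) (d - 1) z,
          ← Function.iterate_succ_apply' (⇑g) (d - 1) x] at h1
        have e : (d - 1).succ = d := by omega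
        rw [e, hz, hx] at h1
        simp only [Function.iterate_zero, id_eq]
        rw [h1]
        have := hev 0 hd
        simpa using this.symm
      · have h1 := hg (t - 1) (by omega)
        rw [← Function.iterate_succ_apply' (⇑g) (t - 1) z,
          ← Function.iterate_succ_apply' (⇑g) (t - 1) x] at h1
        have e : (t - 1).succ = t := by omega
        rw [e] at h1
        rw [h1, hev t ht']
  refine ⟨P, fun i => ?_, by simpa using hev 0 hd⟩
  conv_rhs => rw [← hmap]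
  rw [coeff_map]
  rfl

/-- Galois theory on one level: an element fixed by the stabiliser of `z` is in
`(K_j^{g_j})(z)` -/
theorem galois (j : ℕ) (z x : K) (hz : z ∈ L.Kf j) (hx : x ∈ L.Kf j)
    (hst : ∀ l, L.g l z = z → L.g l x = x) (Q : Subfield K)
    (hQ : ∀ y ∈ L.Kf j, L.g j y = y → y ∈ Q) (hzQ : z ∈ Q) : x ∈ Q := by
  obtain ⟨z', rfl⟩ := hz
  obtain ⟨x', rfl⟩ := hx
  -- the least `s` with `g_{j-s} z = z`, i.e. `g_j^[2^s] z = z`
  have hex : ∃ s, ((C.A j).gK)^[2 ^ s] z' = z' := ⟨j, (C.A j).gK_pow z'⟩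
  classical
  set s := Nat.find hex with hs
  have hs1 : ((C.A j).gK)^[2 ^ s] z' = z' := Nat.find_spec hex
  have hsj : s ≤ j := Nat.find_min' hex ((C.A j).gK_pow z')
  have hs2 : ((C.A j).gK)^[2 ^ s] x' = x' := by
    apply (L.e j).injective
    obtain ⟨r, hr⟩ := Nat.exists_eq_add_of_le hsj
    have h1 : ∀ y : (C.A j).K, L.e j (((C.A j).gK)^[2 ^ s] y) = L.g r (L.e j y) := by
      intro y
      rw [← L.g_e_iter, ← L.g_iter r s]
      have e : j = r + s := by omega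
      rw [← e]
    rw [h1]
    apply hst
    rw [← h1, hs1]
  -- injectivity of the orbit map
  have hper : ∀ n, 0 < n → n < 2 ^ s → ((C.A j).gK)^[n] z' ≠ z' := by
    intro n hn hn2 hfix
    -- the gcd of `n` and `2^s` is a smaller power of two
    have hg : Function.IsPeriodicPt (⇑(C.A j).gK) n z' := hfix
    have hg2 : Function.IsPeriodicPt (⇑(C.A j).gK) (2 ^ s) z' := hs1
    have hgcd : Function.IsPeriodicPt (⇑(C.A j).gK) (Nat.gcd n (2 ^ s)) z' := hg.gcd hg2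
    obtain ⟨r, hr, hr2⟩ := (Nat.dvd_prime_pow Nat.prime_two).1 (Nat.gcd_dvd_right n (2 ^ s))
    have hrs : r < s := by
      rcases lt_or_eq_of_le hr with h | h
      · exact h
      · exfalso
        have h1 : 2 ^ s ∣ n := by rw [← h, ← hr2]; exact Nat.gcd_dvd_left _ _
        exact absurd (Nat.le_of_dvd hn h1) (by omega)
    rw [hr2] at hgcd
    exact Nat.find_min hex hrs hgcd
  have hinj : ∀ a < 2 ^ s, ∀ b < 2 ^ s, (⇑(C.A j).gK)^[a] z' = (⇑(C.A j).gK)^[b] z' → a = b := by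
    have hwlog : ∀ a b, a < b → b < 2 ^ s → (⇑(C.A j).gK)^[a] z' ≠ (⇑(C.A j).gK)^[b] z' := by
      intro a b hab hb h
      obtain ⟨n, rfl⟩ := Nat.exists_eq_add_of_lt hab
      rw [show a + n + 1 = a + (n + 1) by ring, Function.iterate_add_apply] at h
      exact hper (n + 1) (by omega) (by omega) ((C.A j).gK.injective.iterate a h).symm
    intro a ha b hb h
    rcases lt_trichotomy a b with h1 | h1 | h1
    · exact absurd h (hwlog a b h1 hb)
    · exact h1
    · exact absurd h.symm (hwlog b a h1 ha)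
  obtain ⟨P, hP, hPz⟩ := galois_level (C.A j).gK (2 ^ s) (by positivity) z' x' hs1 hs2 hinj
  rw [← hPz, Polynomial.eval_eq_sum_range, map_sum]
  apply sum_mem
  intro i _
  rw [map_mul, map_pow]
  apply mul_mem _ (pow_mem hzQ i)
  apply hQ _ ⟨_, rfl⟩
  rw [L.g_e, hP]

/-- axiom P from the P-tasks -/
theorem axP (hP : ∀ (i : ℕ) (z : (C.A i).K) (n : ℕ), ∃ k, n ≤ k ∧
      (C.tr i k z ∉ (C.A (i + k)).F → (C.h (i + k)).TaskP (C.tr i k z)))
    (z : K) (hz : z ∉ L.F) (x : K) (hst : ∀ l, L.g l z = z → L.g l x = x) (n : ℕ) :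
    x ∈ Subfield.closure ((L.F : Set K) ∪ {z} ∪
      {y : K | ∃ i t : ℕ, n ≤ t ∧ y = ∑ s ∈ range (2 ^ t), (L.g t)^[s] (z ^ i)}) := by
  obtain ⟨i, -, z', x', rfl, rfl⟩ := L.surj_two z x 0
  obtain ⟨k, hk, htask⟩ := hP i z' n
  have hF : C.tr i k z' ∉ (C.A (i + k)).F := by
    intro h
    exact hz (by rw [← L.e_tr i k, L.e_mem_F]; exact h)
  have hT := htask hF
  have hps : ∀ r, L.e (i + k) (ps (C.A (i + k)).gK (2 ^ (i + k)) r (C.tr i k z')) =
      ∑ s ∈ range (2 ^ (i + k)), (L.g (i + k))^[s] ((L.e i z') ^ r) := by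
    intro r
    unfold ps
    rw [map_sum]
    apply Finset.sum_congr rfl
    intro s _
    rw [map_pow, ← L.g_e_iter, L.e_tr, iterate_map_pow]
  refine L.galois (i + k) (L.e i z') (L.e i x') (L.Kf_le (Nat.le_add_right i k) ⟨z', rfl⟩)
    (L.Kf_le (Nat.le_add_right i k) ⟨x', rfl⟩) hst _ ?_
    (Subfield.subset_closure (Or.inl (Or.inr rfl)))
  rintro _ ⟨w, rfl⟩ hw
  have hw' : (C.A (i + k)).gK w = w := by
    apply (L.e (i + k)).injective
    rw [← L.g_e, hw]
  have h1 := hT w hw'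
  rw [← L.e_succ (i + k) w]
  have hle : Subfield.closure (((C.A (i + k + 1)).F : Set (C.A (i + k + 1)).K) ∪
      {y | ∃ r : ℕ, y = (C.h (i + k)).ι (ps (C.A (i + k)).gK (2 ^ (i + k)) r (C.tr i k z')) ∨
        y = (C.A (i + k + 1)).gK
          ((C.h (i + k)).ι (ps (C.A (i + k)).gK (2 ^ (i + k)) r (C.tr i k z')))}) ≤
      (Subfield.closure ((L.F : Set K) ∪ {L.e i z'} ∪
      {y : K | ∃ i_1 t : ℕ, n ≤ t ∧ y = ∑ s ∈ range (2 ^ t), (L.g t)^[s] ((L.e i z') ^ i_1)})).comap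
        (L.e (i + k + 1)) := by
    apply Subfield.closure_le.2
    have hbase : ∀ r, (∑ s ∈ range (2 ^ (i + k)), (L.g (i + k))^[s] ((L.e i z') ^ r)) ∈
        Subfield.closure ((L.F : Set K) ∪ {L.e i z'} ∪
        {y : K | ∃ i_1 t : ℕ, n ≤ t ∧ y = ∑ s ∈ range (2 ^ t), (L.g t)^[s] ((L.e i z') ^ i_1)}) :=
      fun r => Subfield.subset_closure (Or.inr ⟨r, i + k, by omega, rfl⟩)
    rintro y (hy | ⟨r, rfl | rfl⟩)
    · exact Subfield.subset_closure (Or.inl (Or.inl ((L.e_mem_F _ y).2 hy)))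
    · rw [SetLike.mem_coe, Subfield.mem_comap, L.e_succ, hps]
      exact hbase r
    · rw [SetLike.mem_coe, Subfield.mem_comap, ← L.g_e, L.e_succ, hps]
      have hsplit : ∑ s ∈ range (2 ^ (i + k + 1)), (L.g (i + k + 1))^[s] ((L.e i z') ^ r) =
          (∑ s ∈ range (2 ^ (i + k)), (L.g (i + k))^[s] ((L.e i z') ^ r)) +
          L.g (i + k + 1) (∑ s ∈ range (2 ^ (i + k)), (L.g (i + k))^[s] ((L.e i z') ^ r)) := by
        have e2 : ∀ s y, (L.g (i + k + 1))^[2 * s] y = (L.g (i + k))^[s] y := by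
          intro s y
          rw [Function.iterate_mul]
          congr 1
          funext y
          exact L.g_sq (i + k) y
        rw [map_sum, pow_succ, mul_comm, ← Finset.sum_add_distrib, LimAux.sum_range_two_mul]
        apply Finset.sum_congr rfl
        intro s _
        rw [e2, Function.iterate_succ_apply', e2]
      have h2 : L.g (i + k + 1) (∑ s ∈ range (2 ^ (i + k)), (L.g (i + k))^[s] ((L.e i z') ^ r)) =
          ∑ s ∈ range (2 ^ (i + k + 1)), (L.g (i + k + 1))^[s] ((L.e i z') ^ r) -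
          ∑ s ∈ range (2 ^ (i + k)), (L.g (i + k))^[s] ((L.e i z') ^ r) := by
        rw [hsplit]; ring
      rw [h2]
      exact sub_mem (Subfield.subset_closure (Or.inr ⟨r, i + k + 1, by omega, rfl⟩)) (hbase r)
  exact hle h1

end Lim

end Pool.Agent.DA
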