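import Pool.Agent.DA.DBasic2

/-! Section 14.4 : composition of steps and cuts -/

set_option autoImplicit false

namespace Pool.Agent.DA

namespace StepComp

theorem iter_j {m : ℕ} {B C : Datum m} (k : CutHom B C) (n : ℕ) (x : B.K) :
    (C.gK)^[n] (k.j x) = k.j ((B.gK)^[n] x) := by
  induction n with
  | zero => rfl
  | succ n ih => rw [Function.iterate_succ_apply', Function.iterate_succ_apply', ih, k.g_j]

theorem v_quot {m : ℕ} (B : Datum m) (y : B.K) (hy : B.v y = 1) : B.v (B.gK y / y) = 0 := by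
  have hy0 : y ≠ 0 := by
    rintro rfl
    rw [AddValuation.map_zero] at hy
    exact absurd hy (by decide)
  have h1 : B.v (B.gK y) = B.v (B.gK y / y) + B.v y := by
    rw [← AddValuation.map_mul, div_mul_cancel₀ _ hy0]
  rw [B.v_gK, hy] at h1
  generalize B.v (B.gK y / y) = q at h1 ⊢
  induction q using WithTop.recTopCoe with
  | top => exact absurd h1 (by decide)
  | coe q =>
    have h2 : ((1 : ℤ) : WithTop ℤ) = ((q + 1 : ℤ) : WithTop ℤ) := by
      rw [WithTop.coe_add]; exact h1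
    have h3 : (1 : ℤ) = q + 1 := WithTop.coe_injective h2
    have h4 : q = 0 := by omega
    rw [h4]; rfl

end StepComp

open StepComp

/-- the composition of a step with a cut is a step -/
theorem StepHom.comp {m : ℕ} {A : Datum m} {B C : Datum (m + 1)} (h : StepHom A B) (k : CutHom B C) :
    ∃ h' : StepHom A C, h'.ι = k.j.comp h.ι := by
  refine ⟨{ ι := k.j.comp h.ι, c := k.j h.c, v_ι := ?_, gg_ι := ?_, F_ι := ?_, W_ι := ?_, v_c := ?_,
            a_eq := ?_, te1 := ?_, te2 := ?_, te3 := ?_, te4 := ?_ }, rfl⟩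
  · intro x
    rw [RingHom.comp_apply, k.v_j, h.v_ι]
  · intro x
    rw [RingHom.comp_apply, RingHom.comp_apply, k.g_j, k.g_j, h.gg_ι]
  · intro x hx
    exact k.F_j _ (h.F_ι x hx)
  · rw [RingHom.comp_apply, h.W_ι, k.W_j]
  · rw [k.v_j, h.v_c]
  · rw [RingHom.comp_apply, ← k.a_j, h.a_eq, map_mul, map_prod]
    congr 1
    refine Finset.prod_congr rfl fun i _ => ?_
    rw [iter_j]
  · intro r hr
    rw [RingHom.comp_apply, k.g_j, ← map_div₀]
    exact k.ns_j _ (v_quot B _ (by rw [h.v_ι, hr])) (h.te1 r hr)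
  · intro x hx hn
    rw [RingHom.comp_apply]
    exact k.ns_j _ (by rw [h.v_ι, hx]) (h.te2 x hx hn)
  · intro x hx hv
    refine h.te3 x hx ?_
    rw [RingHom.comp_apply, k.g_j, ← map_sub, k.v_j] at hv
    exact hv
  · intro z hz
    refine h.te4 z ?_
    rw [RingHom.comp_apply, k.g_j] at hz
    have key : ∀ y : (RingHom.fieldRange h.ι), k.j (y : B.K) ∈ RingHom.fieldRange (k.j.comp h.ι) := by
      rintro ⟨y, x, rfl⟩
      exact ⟨x, rfl⟩
    let f : (RingHom.fieldRange h.ι) →+* (RingHom.fieldRange (k.j.comp h.ι)) :=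
      (k.j.comp (RingHom.fieldRange h.ι).subtype).codRestrict _ key
    refine IsAlgebraic.of_ringHom_of_comp_eq f k.j hz ?_ k.j.injective ?_
    · rintro ⟨y, x, rfl⟩
      exact ⟨⟨h.ι x, x, rfl⟩, rfl⟩
    · ext y
      rfl

/-- a performed task stays performed after further cuts -/
theorem taskP_cut {m : ℕ} {A : Datum m} {B C : Datum (m + 1)} (h : StepHom A B) (k : CutHom B C)
    (h' : StepHom A C) (hh : h'.ι = k.j.comp h.ι) (z : A.K) (hz : h.TaskP z) : h'.TaskP z := by
  intro x hx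
  have h1 := hz x hx
  rw [hh, RingHom.comp_apply]
  have h2 : Subfield.closure ((B.F : Set B.K) ∪
      {y | ∃ i : ℕ, y = h.ι (ps A.gK (2 ^ m) i z) ∨ y = B.gK (h.ι (ps A.gK (2 ^ m) i z))}) ≤
      (Subfield.closure ((C.F : Set C.K) ∪
        {y | ∃ i : ℕ, y = (k.j.comp h.ι) (ps A.gK (2 ^ m) i z) ∨
          y = C.gK ((k.j.comp h.ι) (ps A.gK (2 ^ m) i z))})).comap k.j := by
    rw [Subfield.closure_le]
    rintro y (hy | ⟨i, rfl | rfl⟩)
    · exact Subfield.subset_closure (Or.inl (k.F_j y hy))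
    · exact Subfield.subset_closure (Or.inr ⟨i, Or.inl rfl⟩)
    · exact Subfield.subset_closure (Or.inr ⟨i, Or.inr (by rw [RingHom.comp_apply, k.g_j])⟩)
  exact h2 h1

theorem taskN_cut {m : ℕ} {A : Datum m} {B C : Datum (m + 1)} (h : StepHom A B) (k : CutHom B C)
    (h' : StepHom A C) (hh : h'.ι = k.j.comp h.ι) (z : A.K) (hz : h.TaskN z) : h'.TaskN z := by
  unfold StepHom.TaskN at hz ⊢
  rw [hh, RingHom.comp_apply, ← map_inv₀]
  have h2 : Subring.closure ((B.F : Set B.K) ∪ {y | ∃ i : ℕ, y = (B.gK)^[i] (h.ι z)}) ≤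
      (Subring.closure ((C.F : Set C.K) ∪ {y | ∃ i : ℕ, y = (C.gK)^[i] (k.j (h.ι z))})).comap k.j := by
    rw [Subring.closure_le]
    rintro y (hy | ⟨i, rfl⟩)
    · exact Subring.subset_closure (Or.inl (k.F_j y hy))
    · exact Subring.subset_closure (Or.inr ⟨i, by rw [iter_j]⟩)
  exact h2 hz

end Pool.Agent.DA
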