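import Pool.Agent.DA.TaskBasic

/-! Section 14.3 -/

set_option autoImplicit false

namespace Pool.Agent.DA

namespace TaskNAux

open Finset

theorem ι_iter {m : ℕ} {A : Datum m} {C : Datum (m + 1)} (h : StepHom A C) (x : A.K) (s : ℕ) :
    h.ι ((A.gK)^[s] x) = (C.gK)^[2 * s] (h.ι x) := by
  induction s with
  | zero => rfl
  | succ s ih =>
    rw [Function.iterate_succ_apply', ← h.gg_ι, ih, show 2 * (s + 1) = (2 * s + 1) + 1 from by ring,
      Function.iterate_succ_apply', Function.iterate_succ_apply']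

/-- the ring of task N -/
noncomputable def NR {m : ℕ} {A : Datum m} {C : Datum (m + 1)} (h : StepHom A C) (z : A.K) : Subring C.K :=
  Subring.closure ((C.F : Set C.K) ∪ {y | ∃ i : ℕ, y = (C.gK)^[i] (h.ι z)})

theorem F_mem {m : ℕ} {A : Datum m} {C : Datum (m + 1)} (h : StepHom A C) (z : A.K) {x : C.K}
    (hx : x ∈ C.F) : x ∈ NR h z :=
  Subring.subset_closure (Or.inl hx)

theorem iter_mem {m : ℕ} {A : Datum m} {C : Datum (m + 1)} (h : StepHom A C) (z : A.K) (i : ℕ) :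
    (C.gK)^[i] (h.ι z) ∈ NR h z :=
  Subring.subset_closure (Or.inr ⟨i, rfl⟩)

/-- the norm -/
noncomputable def nm {m : ℕ} (A : Datum m) (z : A.K) : A.K := ∏ s ∈ range (2 ^ m), (A.gK)^[s] z

theorem gK_nm {m : ℕ} (A : Datum m) (z : A.K) : A.gK (nm A z) = nm A z := by
  unfold nm
  rw [map_prod]
  have h1 : ∀ s ∈ range (2 ^ m), A.gK ((A.gK)^[s] z) = (A.gK)^[s + 1] z := by
    intro s _
    rw [Function.iterate_succ_apply']
  rw [prod_congr rfl h1]
  have hpos : 0 < 2 ^ m := by positivity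
  obtain ⟨n, hn⟩ : ∃ n, 2 ^ m = n + 1 := ⟨2 ^ m - 1, by omega⟩
  have h2 := A.gK_pow z
  rw [hn] at h2 ⊢
  rw [prod_range_succ, h2, prod_range_succ']
  rfl

theorem nm_eq {m : ℕ} (A : Datum m) (z : A.K) :
    ∃ n, 2 ^ m = n + 1 ∧ nm A z = (∏ s ∈ range n, (A.gK)^[s + 1] z) * z := by
  have hpos : 0 < 2 ^ m := by positivity
  obtain ⟨n, hn⟩ : ∃ n, 2 ^ m = n + 1 := ⟨2 ^ m - 1, by omega⟩
  refine ⟨n, hn, ?_⟩
  unfold nm
  rw [hn, prod_range_succ']
  rfl

theorem ι_nm_mem {m : ℕ} {A : Datum m} {C : Datum (m + 1)} (h : StepHom A C) (z : A.K) :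
    h.ι (nm A z) ∈ NR h z := by
  unfold nm
  rw [map_prod]
  refine Subring.prod_mem _ ?_
  intro s _
  rw [ι_iter]
  exact iter_mem h z _

theorem gι_nm_mem {m : ℕ} {A : Datum m} {C : Datum (m + 1)} (h : StepHom A C) (z : A.K) :
    C.gK (h.ι (nm A z)) ∈ NR h z := by
  unfold nm
  rw [map_prod, map_prod]
  refine Subring.prod_mem _ ?_
  intro s _
  rw [ι_iter, ← Function.iterate_succ_apply' (f := (C.gK))]
  exact iter_mem h z _

/-- it suffices to invert the norm -/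
theorem reduce {m : ℕ} {A : Datum m} {C : Datum (m + 1)} (h : StepHom A C) (z : A.K) (hz : z ≠ 0)
    (hn : (h.ι (nm A z))⁻¹ ∈ NR h z) : h.TaskN z := by
  change (h.ι z)⁻¹ ∈ NR h z
  obtain ⟨n, hn1, hn2⟩ := nm_eq A z
  have hz' : h.ι z ≠ 0 := (map_ne_zero _).2 hz
  have hne : nm A z ≠ 0 := by
    unfold nm
    rw [prod_ne_zero_iff]
    intro s _
    have : Function.Injective ((A.gK)^[s]) := Function.Injective.iterate A.gK.injective s
    intro h0
    apply hz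
    apply this
    rw [h0]
    exact (Function.iterate_fixed (map_zero A.gK) s).symm
  have e : (h.ι z)⁻¹ = (h.ι (nm A z))⁻¹ * h.ι (∏ s ∈ range n, (A.gK)^[s + 1] z) := by
    have h0 : h.ι (nm A z) ≠ 0 := (map_ne_zero _).2 hne
    rw [eq_comm, inv_mul_eq_iff_eq_mul₀ h0, hn2, map_mul, mul_assoc, mul_inv_cancel₀ hz', mul_one]
  rw [e]
  refine Subring.mul_mem _ hn ?_
  rw [map_prod]
  refine Subring.prod_mem _ ?_
  intro s _
  rw [ι_iter]
  exact iter_mem h z _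

/-- transport of the auxiliary elements -/
theorem tr_mem {m : ℕ} {A : Datum m} {B C : Datum (m + 1)} (h : StepHom A B) (k : CutHom B C)
    (h' : StepHom A C) (hh : h'.ι = k.j.comp h.ι) (z w : A.K)
    (h0 : h'.ι w ∈ NR h' z) (h1 : C.gK (h'.ι w) ∈ NR h' z) (S : B.K)
    (hS : S ∈ Subring.closure (h.ι '' (A.F : Set A.K) ∪ {h.ι w, B.gK (h.ι w)})) :
    k.j S ∈ NR h' z := by
  have hh' : ∀ x, k.j (h.ι x) = h'.ι x := by
    intro x
    rw [hh]
    rfl
  have : Subring.closure (h.ι '' (A.F : Set A.K) ∪ {h.ι w, B.gK (h.ι w)}) ≤ (NR h' z).comap k.j := by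
    rw [Subring.closure_le]
    rintro x (⟨y, hy, rfl⟩ | rfl | rfl)
    · change k.j (h.ι y) ∈ NR h' z
      rw [hh']
      exact F_mem h' z (h'.F_ι y hy)
    · change k.j (h.ι w) ∈ NR h' z
      rw [hh']
      exact h0
    · change k.j (B.gK (h.ι w)) ∈ NR h' z
      rw [← k.g_j, hh']
      exact h1
  exact this hS

theorem v_W_npow {m : ℕ} (B : Datum m) (n : ℕ) : B.v (B.W ^ n) = ((2 * n : ℤ) : WithTop ℤ) := by
  induction n with
  | zero => simp
  | succ n ih =>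
    rw [pow_succ, AddValuation.map_mul, ih, B.v_W]
    push_cast
    have : ((2 * (n + 1) : ℤ)) = 2 * n + 2 := by ring
    norm_cast

theorem v_W_zpow {m : ℕ} (B : Datum m) (n : ℤ) : B.v (B.W ^ n) = ((2 * n : ℤ) : WithTop ℤ) := by
  obtain ⟨k, rfl | rfl⟩ := n.eq_nat_or_neg
  · rw [zpow_natCast]
    exact v_W_npow B k
  · have h0 : B.W ^ (-(k : ℤ)) * B.W ^ k = 1 := by
      rw [zpow_neg, zpow_natCast, inv_mul_cancel₀ (pow_ne_zero _ B.W_ne)]
    have h1 := congrArg B.v h0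
    rw [AddValuation.map_mul, v_W_npow, AddValuation.map_one] at h1
    have h2 : B.v (B.W ^ (-(k : ℤ))) ≠ ⊤ := by
      intro ht
      exact zpow_ne_zero _ B.W_ne ((AddValuation.top_iff _).1 ht)
    obtain ⟨q, hq⟩ := WithTop.ne_top_iff_exists.1 h2
    rw [← hq] at h1 ⊢
    norm_cast at h1 ⊢
    omega

/-- the end of the proof of 14.3 -/
theorem finish {m : ℕ} (A : Datum m) (B : Datum (m + 1)) (h : StepHom A B)
    (z : A.K) (hz0 : z ≠ 0) (n : ℤ) (u : B.K) (hgu : B.gK u = u) (hvu : B.v u = 0)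
    (huW : u * B.W ^ n = h.ι (nm A z) * B.gK (h.ι (nm A z)))
    (x1 x2 : B.K) (g1 : B.gK x1 = x1) (g2 : B.gK x2 = x2) (v1 : 0 ≤ B.v x1) (v2 : 0 ≤ B.v x2)
    (m1 : x1 ∈ Subring.closure (h.ι '' (A.F : Set A.K) ∪ {h.ι (nm A z), B.gK (h.ι (nm A z))}))
    (m2 : x2 ∈ Subring.closure (h.ι '' (A.F : Set A.K) ∪ {h.ι (nm A z), B.gK (h.ι (nm A z))}))
    (hi : AlgebraicIndependent B.f ![B.c0 u * B.c0 x1, B.c0 u * B.c0 x2]) :
    ∃ A0 A1 : B.K, B.gK A0 = A0 ∧ B.gK A1 = A1 ∧ 0 ≤ B.v A0 ∧ 0 ≤ B.v A1 ∧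
      AlgebraicIndependent B.f ![B.c0 A0, B.c0 A1] ∧
      ∀ (C : Datum (m + 1)) (k : CutHom B C) (h' : StepHom A C), k.Good A0 A1 →
        h'.ι = k.j.comp h.ι → h'.TaskN z := by
  refine ⟨u * x1, u * x2, by rw [map_mul, hgu, g1], by rw [map_mul, hgu, g2], ?_, ?_, ?_, ?_⟩
  · rw [AddValuation.map_mul, hvu, zero_add]
    exact v1
  · rw [AddValuation.map_mul, hvu, zero_add]
    exact v2
  · rw [B.c0_mul u x1 (le_of_eq hvu.symm) v1, B.c0_mul u x2 (le_of_eq hvu.symm) v2]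
    exact hi
  · rintro C k h' ⟨y, hy, t, ht, hy0, ht0, hte⟩ hh
    refine reduce h' z hz0 ?_
    have hx1 := tr_mem h k h' hh z (nm A z) (ι_nm_mem h' z) (gι_nm_mem h' z) x1 m1
    have hx2 := tr_mem h k h' hh z (nm A z) (ι_nm_mem h' z) (gι_nm_mem h' z) x2 m2
    have hune : u ≠ 0 := by
      rintro rfl
      rw [AddValuation.map_zero] at hvu
      exact absurd hvu (by simp)
    have hkune : k.j u ≠ 0 := (map_ne_zero _).2 hune
    have e1 : t = k.j u * (k.j x1 + y * k.j x2) := by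
      rw [hte, map_mul, map_mul]
      ring
    have e2 : (k.j u)⁻¹ = t⁻¹ * (k.j x1 + y * k.j x2) := by
      rw [eq_comm, inv_mul_eq_iff_eq_mul₀ ht0, eq_mul_inv_iff_mul_eq₀ hkune, mul_comm, e1]
    have hu' : (k.j u)⁻¹ ∈ NR h' z := by
      rw [e2]
      exact Subring.mul_mem _ (F_mem h' z (Subfield.inv_mem _ ht))
        (Subring.add_mem _ hx1 (Subring.mul_mem _ (F_mem h' z hy) hx2))
    have hh' : ∀ x, k.j (h.ι x) = h'.ι x := by
      intro x
      rw [hh]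
      rfl
    have e3 : k.j u * C.W ^ n = h'.ι (nm A z) * C.gK (h'.ι (nm A z)) := by
      have := congrArg k.j huW
      rw [map_mul, map_mul, map_zpow₀, k.W_j, ← k.g_j, hh'] at this
      exact this
    have hWn : C.W ^ n ≠ 0 := zpow_ne_zero _ C.W_ne
    have hne : h'.ι (nm A z) ≠ 0 := by
      intro h0
      rw [h0, zero_mul] at e3
      exact mul_ne_zero hkune hWn e3
    have e4 : (h'.ι (nm A z))⁻¹ = C.gK (h'.ι (nm A z)) * (C.W ^ n)⁻¹ * (k.j u)⁻¹ := by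
      refine inv_eq_of_mul_eq_one_right ?_
      rw [← mul_assoc, ← mul_assoc, ← e3, mul_assoc (k.j u), mul_inv_cancel₀ hWn, mul_one,
        mul_inv_cancel₀ hkune]
    rw [e4]
    exact Subring.mul_mem _ (Subring.mul_mem _ (gι_nm_mem h' z)
      (F_mem h' z (Subfield.inv_mem _ (zpow_mem C.W_mem n)))) hu'

end TaskNAux

open TaskNAux in
/-- 14.3 -/
theorem taskN_elements {m : ℕ} (A : Datum m) (B : Datum (m + 1)) (h : StepHom A B)
    (hind : ∀ ζ : A.K, 0 ≤ A.v ζ → A.c0 ζ ∉ A.f →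
      AlgebraicIndependent B.f ![B.c0 (h.ι ζ), B.c0 (B.gK (h.ι ζ))])
    (z : A.K) (hz : z ∉ A.F) :
    ∃ A0 A1 : B.K, B.gK A0 = A0 ∧ B.gK A1 = A1 ∧ 0 ≤ B.v A0 ∧ 0 ≤ B.v A1 ∧
      AlgebraicIndependent B.f ![B.c0 A0, B.c0 A1] ∧
      ∀ (C : Datum (m + 1)) (k : CutHom B C) (h' : StepHom A C), k.Good A0 A1 →
        h'.ι = k.j.comp h.ι → h'.TaskN z := by
  have hz0 : z ≠ 0 := by
    rintro rfl
    exact hz (Subfield.zero_mem _)
  by_cases hw : nm A z ∈ A.F
  · obtain ⟨i, hi⟩ := exists_ps A z hz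
    obtain ⟨S1, S2, g1, g2, v1, v2, hi1, -, -⟩ := aux_S h hind _ (gK_ps A z i) hi
    refine ⟨S1, S2, g1, g2, v1, v2, hi1, ?_⟩
    intro C k h' _ _
    refine reduce h' z hz0 ?_
    exact F_mem h' z (Subfield.inv_mem _ (h'.F_ι _ hw))
  · have hw0 : nm A z ≠ 0 := by
      intro h0
      rw [h0] at hw
      exact hw (Subfield.zero_mem _)
    obtain ⟨S1, S2, g1, g2, v1, v2, hi1, m1, m2⟩ := aux_S h hind _ (gK_nm A z) hw
    obtain ⟨n, hn⟩ : ∃ n : ℤ, A.v (nm A z) = (n : WithTop ℤ) := by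
      have : A.v (nm A z) ≠ ⊤ := by
        intro ht
        exact hw0 ((AddValuation.top_iff _).1 ht)
      obtain ⟨n, hn⟩ := WithTop.ne_top_iff_exists.1 this
      exact ⟨n, hn.symm⟩
    set w := nm A z with hwdef
    have hgw : A.gK w = w := gK_nm A z
    set w0 := h.ι w with hw0def
    set w1 := B.gK w0 with hw1def
    have hgw1 : B.gK w1 = w0 := by
      rw [hw1def, hw0def, h.gg_ι, hgw]
    have hw0ne : w0 ≠ 0 := (map_ne_zero _).2 hw0
    have hw1ne : w1 ≠ 0 := (map_ne_zero B.gK).2 hw0ne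
    have hWne : B.W ≠ 0 := B.W_ne
    set u := w0 * w1 * (B.W ^ n)⁻¹ with hu
    have hune : u ≠ 0 := mul_ne_zero (mul_ne_zero hw0ne hw1ne) (inv_ne_zero (zpow_ne_zero _ hWne))
    have hgu : B.gK u = u := by
      rw [hu, map_mul, map_mul, map_inv₀, map_zpow₀, B.g_W, hgw1, ← hw1def, mul_comm w1 w0]
    have huW : u * B.W ^ n = w0 * w1 := by
      rw [hu, mul_assoc, inv_mul_cancel₀ (zpow_ne_zero _ hWne), mul_one]
    clear_value u
    have hvu : B.v u = 0 := by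
      have e1 : B.v w0 = (n : WithTop ℤ) := by rw [hw0def, h.v_ι, hn]
      have e2 : B.v w1 = (n : WithTop ℤ) := by rw [hw1def, B.v_gK, e1]
      have e3 : B.v (B.W ^ n) = ((2 * n : ℤ) : WithTop ℤ) := v_W_zpow B n
      have e4 : B.v u + ((2 * n : ℤ) : WithTop ℤ) = ((2 * n : ℤ) : WithTop ℤ) := by
        have e6 := congrArg B.v huW
        rw [AddValuation.map_mul, AddValuation.map_mul, e1, e2, e3] at e6
        rw [e6]
        norm_cast
        ring
      have e5 : B.v u ≠ ⊤ := by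
        intro ht
        exact hune ((AddValuation.top_iff _).1 ht)
      obtain ⟨q, hq⟩ := WithTop.ne_top_iff_exists.1 e5
      rw [← hq] at e4 ⊢
      norm_cast at e4 ⊢
      omega
    have hcu : B.c0 u ≠ 0 := (B.v_zero_iff u (le_of_eq hvu.symm)).1 hvu
    have one_mem : (1 : B.K) ∈ Subring.closure (h.ι '' (A.F : Set A.K) ∪ {w0, w1}) :=
      Subring.one_mem _
    have c0_one : B.c0 (1 : B.K) = 1 := by
      change ((1 : B.K) : LaurentSeries B.P).coeff 0 = 1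
      simp
    have v_one : 0 ≤ B.v (1 : B.K) := by rw [AddValuation.map_one]
    rcases ind_scale B.f (B.c0 u) _ _ hcu hi1 with hc | hc | hc
    · refine finish A B h z hz0 n u hgu hvu huW 1 S1 (map_one _) g1 v_one v1 one_mem m1 ?_
      rw [c0_one, mul_one]
      exact hc
    · refine finish A B h z hz0 n u hgu hvu huW 1 S2 (map_one _) g2 v_one v2 one_mem m2 ?_
      rw [c0_one, mul_one]
      exact hc
    · exact finish A B h z hz0 n u hgu hvu huW S1 S2 g1 g2 v1 v2 m1 m2 hc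

end Pool.Agent.DA
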