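import Pool.Agent.DA.TaskBasic

/-! Section 14.2 -/

set_option autoImplicit false

namespace Pool.Agent.DA

namespace TaskPAux

open Polynomial

theorem map_alg {K K' : Type*} [Field K] [Field K'] (φ : K →+* K') (L : Subfield K)
    (M : Subfield K') (hLM : ∀ x ∈ L, φ x ∈ M) (x : K) (hx : IsAlgebraic L x) :
    IsAlgebraic M (φ x) := by
  obtain ⟨p, hp, hp0⟩ := hx
  let ψ : L →+* M := (φ.comp L.subtype).codRestrict M (fun y => hLM y y.2)
  refine ⟨p.map ψ, ?_, ?_⟩
  · rwa [Ne, Polynomial.map_eq_zero_iff ψ.injective]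
  · rw [aeval_def, eval₂_map]
    have e : (algebraMap M K').comp ψ = φ.comp (algebraMap L K) := by
      ext y
      rfl
    rw [e, ← hom_eval₂, ← aeval_def, hp0, map_zero]

theorem charZeroK {m : ℕ} (A : Datum m) : CharZero A.K := by
  refine charZero_of_inj_zero ?_
  intro n hn
  by_contra h
  have := A.v_nat n h
  rw [hn, AddValuation.map_zero] at this
  exact absurd this (by simp)

/-- `Z = F(w)(x1)` -/
theorem exists_prim {m : ℕ} (A : Datum m) (hT : A.Tight 1) (w : A.K) (hw : A.gK w = w)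
    (hwF : w ∉ A.F) :
    ∃ x1 : A.K, A.gK x1 = x1 ∧ ∀ x : A.K, A.gK x = x →
      x ∈ Subfield.closure ((A.F : Set A.K) ∪ {w, x1}) := by
  set L : Subfield A.K := ad A.F {w} with hL
  have hFL : A.F ≤ L := by
    intro x hx
    exact Subfield.subset_closure (Or.inl hx)
  have hwL : w ∈ L := Subfield.subset_closure (Or.inr rfl)
  have halg : ∀ x : A.K, IsAlgebraic L x := fun x => A.tight_alg hT w x hwF
  obtain ⟨s, hs⟩ := hT.2.2
  have hfin : FiniteDimensional L A.K := by
    have h1 : FiniteDimensional L (IntermediateField.adjoin L (s : Set A.K)) := by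
      refine IntermediateField.finiteDimensional_adjoin ?_
      intro x _
      exact (halg x).isIntegral
    have h2 : IntermediateField.adjoin L (s : Set A.K) = ⊤ := by
      rw [eq_top_iff]
      intro x _
      have h3 : Subfield.closure ((A.F : Set A.K) ∪ s) ≤
          (IntermediateField.adjoin L (s : Set A.K)).toSubfield := by
        rw [Subfield.closure_le]
        rintro y (hy | hy)
        · exact (IntermediateField.adjoin L (s : Set A.K)).algebraMap_mem (⟨y, hFL hy⟩ : L)
        · exact IntermediateField.subset_adjoin L _ hy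
      exact h3 (hs x)
    rw [h2] at h1
    exact LinearEquiv.finiteDimensional (IntermediateField.topEquiv (F := L) (E := A.K)).toLinearEquiv
  have hLfix : ∀ x ∈ L, A.gK x = x := by
    have h3 : L ≤ RingHom.eqLocusField (A.gK : A.K →+* A.K) (RingHom.id _) := by
      rw [hL]
      unfold ad
      rw [Subfield.closure_le]
      rintro y (hy | hy)
      · exact A.g_F y hy
      · rw [Set.mem_singleton_iff] at hy
        subst hy
        exact hw
    intro x hx
    exact h3 hx
  let Z : IntermediateField L A.K :=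
    { carrier := {x | A.gK x = x}
      mul_mem' := by
        intro a b ha hb
        change A.gK (a * b) = a * b
        rw [map_mul, ha, hb]
      one_mem' := map_one _
      add_mem' := by
        intro a b ha hb
        change A.gK (a + b) = a + b
        rw [map_add, ha, hb]
      zero_mem' := map_zero _
      algebraMap_mem' := fun r => hLfix r r.2
      inv_mem' := by
        intro a ha
        change A.gK a⁻¹ = a⁻¹
        rw [map_inv₀, ha] }
  have : CharZero A.K := charZeroK A
  have : CharZero L := RingHom.charZero L.subtype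
  obtain ⟨α, hα⟩ := Field.exists_primitive_element L Z
  refine ⟨α, α.2, ?_⟩
  intro x hx
  have hxZ : (⟨x, hx⟩ : Z) ∈ IntermediateField.adjoin L ({α} : Set Z) := by
    rw [hα]
    trivial
  have h4 : ∀ y : Z, y ∈ IntermediateField.adjoin L ({α} : Set Z) →
      (y : A.K) ∈ Subfield.closure ((A.F : Set A.K) ∪ {w, (α : A.K)}) := by
    intro y hy
    rw [← IntermediateField.mem_toSubfield, IntermediateField.adjoin_toSubfield] at hy
    have h5 : Subfield.closure (Set.range (algebraMap L Z) ∪ {α}) ≤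
        (Subfield.closure ((A.F : Set A.K) ∪ {w, (α : A.K)})).comap (algebraMap Z A.K) := by
      rw [Subfield.closure_le]
      rintro u (⟨v, rfl⟩ | hu)
      · have h6 : ad A.F {w} ≤ Subfield.closure ((A.F : Set A.K) ∪ {w, (α : A.K)}) := by
          unfold ad
          refine Subfield.closure_mono ?_
          rintro a (ha | ha)
          · exact Or.inl ha
          · exact Or.inr (Or.inl ha)
        exact h6 v.2
      · rw [Set.mem_singleton_iff] at hu
        subst hu
        exact Subfield.subset_closure (Or.inr (Or.inr rfl))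
    exact h5 hy
  exact h4 _ hxZ

end TaskPAux

open TaskPAux in
/-- one element `X` controls all `g`-fixed elements of `K` -/
theorem exists_X {m : ℕ} (A : Datum m) (hT : A.Tight 1) (B : Datum (m + 1)) (h : StepHom A B)
    (w : A.K) (hw : A.gK w = w) (hwF : w ∉ A.F) :
    ∃ X : B.K, B.gK X = X ∧ ∀ x : A.K, A.gK x = x →
      h.ι x ∈ Subfield.closure (h.ι '' (A.F : Set A.K) ∪ {h.ι w, B.gK (h.ι w), X}) := by
  obtain ⟨x1, hx1, hgen⟩ := exists_prim A hT w hw hwF
  set w0 := h.ι w with hw0
  set w1 := B.gK w0 with hw1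
  set x0 := h.ι x1 with hx0
  set y0 := B.gK x0 with hy0
  have gw1 : B.gK w1 = w0 := by rw [hw1, hw0, h.gg_ι, hw]
  have gy0 : B.gK y0 = x0 := by rw [hy0, hx0, h.gg_ι, hx1]
  set Bf : Subfield B.K := Subfield.closure (h.ι '' (A.F : Set A.K) ∪ {w0, w1}) with hBf
  have hw0B : w0 ∈ Bf := Subfield.subset_closure (Or.inr (Or.inl rfl))
  have hw1B : w1 ∈ Bf := Subfield.subset_closure (Or.inr (Or.inr rfl))
  have halg1 : IsAlgebraic (ad A.F {w}) x1 := A.tight_alg hT w x1 hwF
  have hx0a : IsAlgebraic Bf x0 := by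
    refine map_alg h.ι (ad A.F {w}) Bf ?_ x1 halg1
    have : ad A.F {w} ≤ Bf.comap h.ι := by
      unfold ad
      rw [Subfield.closure_le]
      rintro y (hy | hy)
      · exact Subfield.subset_closure (Or.inl ⟨y, hy, rfl⟩)
      · rw [Set.mem_singleton_iff] at hy
        subst hy
        exact hw0B
    exact this
  have hy0a : IsAlgebraic Bf y0 := by
    refine map_alg ((B.gK : B.K →+* B.K).comp h.ι) (ad A.F {w}) Bf ?_ x1 halg1
    have : ad A.F {w} ≤ Bf.comap ((B.gK : B.K →+* B.K).comp h.ι) := by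
      unfold ad
      rw [Subfield.closure_le]
      rintro y (hy | hy)
      · change B.gK (h.ι y) ∈ Bf
        rw [B.g_F _ (h.F_ι y hy)]
        exact Subfield.subset_closure (Or.inl ⟨y, hy, rfl⟩)
      · rw [Set.mem_singleton_iff] at hy
        subst hy
        exact hw1B
    exact this
  have alg_mem : ∀ y ∈ Bf, IsAlgebraic Bf y := fun y hy => isAlgebraic_algebraMap (⟨y, hy⟩ : Bf)
  set X0 := x0 + y0 with hX0
  set X1 := x0 * w0 + y0 * w1 with hX1
  have := charZeroK B
  obtain ⟨n, hn0, hn1⟩ := prim_int Bf X0 X1 (hx0a.add hy0a)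
    ((hx0a.mul (alg_mem _ hw0B)).add (hy0a.mul (alg_mem _ hw1B)))
  have gX0 : B.gK X0 = X0 := by rw [hX0, map_add, gy0, ← hy0, add_comm y0 x0]
  have gX1 : B.gK X1 = X1 := by
    rw [hX1, map_add, map_mul, map_mul, gy0, ← hy0, gw1, ← hw1, add_comm (y0 * w1)]
  refine ⟨X0 + n * X1, by rw [map_add, map_mul, gX0, gX1, map_natCast], ?_⟩
  set M : Subfield B.K := Subfield.closure (h.ι '' (A.F : Set A.K) ∪ {w0, w1, X0 + n * X1}) with hM
  have hBM : ad Bf {X0 + n * X1} ≤ M := by
    unfold ad
    rw [Subfield.closure_le]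
    rintro y (hy | hy)
    · have : Bf ≤ M := by
        rw [hBf]
        refine Subfield.closure_mono ?_
        rintro a (ha | ha | ha)
        · exact Or.inl ha
        · exact Or.inr (Or.inl ha)
        · exact Or.inr (Or.inr (Or.inl ha))
      exact this hy
    · rw [Set.mem_singleton_iff] at hy
      subst hy
      exact Subfield.subset_closure (Or.inr (Or.inr (Or.inr rfl)))
  have hX0M := hBM hn0
  have hX1M := hBM hn1
  have hw0M : w0 ∈ M := Subfield.subset_closure (Or.inr (Or.inl rfl))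
  have hw1M : w1 ∈ M := Subfield.subset_closure (Or.inr (Or.inr (Or.inl rfl)))
  have hne : w0 - w1 ≠ 0 := by
    intro h0
    apply hwF
    refine h.te4 w ?_
    have e : B.gK (h.ι w) = h.ι w := (sub_eq_zero.1 h0).symm
    rw [e]
    exact isAlgebraic_algebraMap (⟨h.ι w, ⟨w, rfl⟩⟩ : RingHom.fieldRange h.ι)
  have hx0M : x0 ∈ M := by
    have e : x0 = (X1 - w1 * X0) / (w0 - w1) := by
      rw [eq_div_iff hne, hX1, hX0]
      ring
    rw [e]
    exact div_mem (sub_mem hX1M (mul_mem hw1M hX0M)) (sub_mem hw0M hw1M)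
  intro x hx
  have hfinal : Subfield.closure ((A.F : Set A.K) ∪ {w, x1}) ≤ M.comap h.ι := by
    rw [Subfield.closure_le]
    rintro y (hy | rfl | rfl)
    · exact Subfield.subset_closure (Or.inl ⟨y, hy, rfl⟩)
    · exact hw0M
    · exact hx0M
  exact hfinal (hgen x hx)

/-- 14.2 -/
theorem taskP_elements {m : ℕ} (A : Datum m) (hT : A.Tight 1) (B : Datum (m + 1)) (h : StepHom A B)
    (hind : ∀ ζ : A.K, 0 ≤ A.v ζ → A.c0 ζ ∉ A.f →
      AlgebraicIndependent B.f ![B.c0 (h.ι ζ), B.c0 (B.gK (h.ι ζ))])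
    (z : A.K) (hz : z ∉ A.F) :
    ∃ A0 A1 : B.K, B.gK A0 = A0 ∧ B.gK A1 = A1 ∧ 0 ≤ B.v A0 ∧ 0 ≤ B.v A1 ∧
      AlgebraicIndependent B.f ![B.c0 A0, B.c0 A1] ∧
      ∀ (C : Datum (m + 1)) (k : CutHom B C) (h' : StepHom A C), k.Good A0 A1 →
        h'.ι = k.j.comp h.ι → h'.TaskP z := by
  obtain ⟨i, hi⟩ := exists_ps A z hz
  set w := ps A.gK (2 ^ m) i z with hw
  have hgw : A.gK w = w := gK_ps A z i
  obtain ⟨S1, S2, g1, g2, v1, v2, hi1, m1, m2⟩ := aux_S h hind w hgw hi
  obtain ⟨X, gX, hX⟩ := exists_X A hT B h w hgw hi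
  have hWpow : ∀ n : ℕ, B.v (B.W ^ n) = ((2 * n : ℤ) : WithTop ℤ) := by
    intro n
    induction n with
    | zero => simp
    | succ n ih =>
      rw [pow_succ, AddValuation.map_mul, ih, B.v_W]
      have : ((2 * (n + 1) : ℤ)) = 2 * n + 2 := by ring
      norm_cast
  obtain ⟨e, he⟩ : ∃ e : ℕ, 0 < B.v (B.W ^ e * X) := by
    by_cases hX0 : B.v X = ⊤
    · refine ⟨0, ?_⟩
      rw [AddValuation.map_mul, hX0, add_top]
      exact WithTop.coe_lt_top 0
    · obtain ⟨q, hq⟩ := WithTop.ne_top_iff_exists.1 hX0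
      refine ⟨(1 - q).toNat, ?_⟩
      rw [AddValuation.map_mul, hWpow, ← hq]
      have : 0 < 2 * (((1 - q).toNat : ℕ) : ℤ) + q := by omega
      exact_mod_cast this
  have hce : B.c0 (B.W ^ e * X) = 0 := (B.v_pos_iff _ he.le).1 he
  refine ⟨S1, S2 + B.W ^ e * X, g1, ?_, v1, ?_, ?_, ?_⟩
  · rw [map_add, map_mul, map_pow, g2, gX, B.g_W]
  · exact (le_min v2 he.le).trans (B.v.map_add _ _)
  · rw [B.c0_add, hce, add_zero]
    exact hi1
  · rintro C k h' ⟨y, hy, t, ht, hy0, ht0, hte⟩ hh
    have hh' : ∀ x, k.j (h.ι x) = h'.ι x := by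
      intro x
      rw [hh]
      rfl
    intro x hx
    set M : Subfield C.K := Subfield.closure ((C.F : Set C.K) ∪
      {y | ∃ i : ℕ, y = h'.ι (ps A.gK (2 ^ m) i z) ∨ y = C.gK (h'.ι (ps A.gK (2 ^ m) i z))}) with hM
    have hF : ∀ y ∈ C.F, y ∈ M := fun y hy => Subfield.subset_closure (Or.inl hy)
    have hw0 : k.j (h.ι w) ∈ M := by
      rw [hh']
      exact Subfield.subset_closure (Or.inr ⟨i, Or.inl rfl⟩)
    have hw1 : k.j (B.gK (h.ι w)) ∈ M := by
      rw [← k.g_j, hh']
      exact Subfield.subset_closure (Or.inr ⟨i, Or.inr rfl⟩)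
    have hιF : ∀ a ∈ A.F, k.j (h.ι a) ∈ M := by
      intro a ha
      rw [hh']
      exact hF _ (h'.F_ι a ha)
    have hS : ∀ S ∈ Subring.closure (h.ι '' (A.F : Set A.K) ∪ {h.ι w, B.gK (h.ι w)}),
        k.j S ∈ M := by
      have : Subring.closure (h.ι '' (A.F : Set A.K) ∪ {h.ι w, B.gK (h.ι w)}) ≤
          (M.comap k.j).toSubring := by
        rw [Subring.closure_le]
        rintro a (⟨b, hb, rfl⟩ | rfl | rfl)
        · exact hιF b hb
        · exact hw0
        · exact hw1
      exact this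
    have hWe : C.W ^ e ≠ 0 := pow_ne_zero _ C.W_ne
    have hXM : k.j X ∈ M := by
      have e1 : k.j X = ((t - k.j S1) / y - k.j S2) / C.W ^ e := by
        rw [hte, map_add, map_mul, map_pow, k.W_j, eq_div_iff hWe, eq_sub_iff_add_eq,
          eq_div_iff hy0]
        ring
      rw [e1]
      exact div_mem (sub_mem (div_mem (sub_mem (hF t ht) (hS _ m1)) (hF y hy)) (hS _ m2))
        (hF _ (pow_mem C.W_mem e))
    rw [← hh']
    have hfin : Subfield.closure (h.ι '' (A.F : Set A.K) ∪ {h.ι w, B.gK (h.ι w), X}) ≤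
        M.comap k.j := by
      rw [Subfield.closure_le]
      rintro a (⟨b, hb, rfl⟩ | rfl | rfl | rfl)
      · exact hιF b hb
      · exact hw0
      · exact hw1
      · exact hXM
    exact hfin (hX x hx)

end Pool.Agent.DA
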