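import Pool.Agent.DA.Tensor
import Pool.Agent.DA.Cut
import Pool.Agent.DA.AuxC
import Pool.Agent.DA.StepComp
import Pool.Agent.DA.TaskP
import Pool.Agent.DA.TaskN

/-! Section 14.4 -/

set_option autoImplicit false

namespace Pool.Agent.DA

/-- cutting down to TIGHT(1), keeping the performed tasks -/
theorem cut_down {m : ℕ} {A : Datum m} (n : ℕ) : ∀ (B : Datum (m + 1)) (h : StepHom A B),
    B.Tight (n + 1) → ∃ (C : Datum (m + 1)) (h' : StepHom A C), C.Tight 1 ∧
      (∀ z, h.TaskP z → h'.TaskP z) ∧ (∀ z, h.TaskN z → h'.TaskN z) := by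
  induction n with
  | zero => intro B h hB; exact ⟨B, h, hB, fun z hz => hz, fun z hz => hz⟩
  | succ n ih =>
    intro B h hB
    obtain ⟨A0, A1, h0, h1, v0, v1, hind⟩ := aux_elements B (n + 1 + 1) (by omega) hB
    obtain ⟨C, k, hk, hT⟩ := cut B A0 A1 h0 h1 v0 v1 hind
    obtain ⟨h', hh'⟩ := StepHom.comp h k
    have hC : C.Tight (n + 1) := by
      have := hT (n + 1 + 1) (by omega) hB
      simpa using this
    obtain ⟨E, h'', hE, hP, hN⟩ := ih C h' hC
    exact ⟨E, h'', hE, fun z hz => hP z (taskP_cut h k h' hh' z hz),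
      fun z hz => hN z (taskN_cut h k h' hh' z hz)⟩

/-- 14.4 -/
theorem step {m : ℕ} (A : Datum m) (hT : A.Tight 1) (z : A.K) (b : Bool) :
    ∃ (B : Datum (m + 1)) (h : StepHom A B), B.Tight 1 ∧
      (z ∉ A.F → if b then h.TaskP z else h.TaskN z) := by
  obtain ⟨B, h, hB, hind⟩ := tensor A
  have hp : 2 ≤ 2 ^ (m + 1) := by
    calc 2 = 2 ^ 1 := by norm_num
      _ ≤ 2 ^ (m + 1) := Nat.pow_le_pow_right (by norm_num) (by omega)
  have hB' := hB 1 hT
  by_cases hz : z ∈ A.F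
  · have e : 2 * 1 + 2 ^ (m + 1) - 1 = 2 ^ (m + 1) + 1 := by omega
    rw [e] at hB'
    obtain ⟨C, h', hC, -, -⟩ := cut_down (2 ^ (m + 1)) B h hB'
    exact ⟨C, h', hC, fun h => absurd hz h⟩
  · have key : ∃ A0 A1 : B.K, B.gK A0 = A0 ∧ B.gK A1 = A1 ∧ 0 ≤ B.v A0 ∧ 0 ≤ B.v A1 ∧
        AlgebraicIndependent B.f ![B.c0 A0, B.c0 A1] ∧
        ∀ (C : Datum (m + 1)) (k : CutHom B C) (h' : StepHom A C), k.Good A0 A1 →
          h'.ι = k.j.comp h.ι → if b then h'.TaskP z else h'.TaskN z := by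
      cases b with
      | true => simpa using taskP_elements A hT B h hind z hz
      | false => simpa using taskN_elements A B h hind z hz
    obtain ⟨A0, A1, h0, h1, v0, v1, hi, hC⟩ := key
    obtain ⟨C, k, hk, hT'⟩ := cut B A0 A1 h0 h1 v0 v1 hi
    obtain ⟨h', hh'⟩ := StepHom.comp h k
    have hC1 := hC C k h' hk hh'
    have hC2 : C.Tight (2 ^ (m + 1) - 1 + 1) := by
      have := hT' (2 * 1 + 2 ^ (m + 1) - 1) (by omega) hB'
      have e : 2 * 1 + 2 ^ (m + 1) - 1 - 1 = 2 ^ (m + 1) - 1 + 1 := by omega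
      rwa [e] at this
    obtain ⟨E, h'', hE, hP, hN⟩ := cut_down (2 ^ (m + 1) - 1) C h' hC2
    refine ⟨E, h'', hE, fun _ => ?_⟩
    cases b with
    | true => simpa using hP z (by simpa using hC1)
    | false => simpa using hN z (by simpa using hC1)

end Pool.Agent.DA
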