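import Pool.Agent.DA.DBasic2
import Pool.Agent.DA.PS

/-! Section 14 : the auxiliary elements `S1, S2` -/

set_option autoImplicit false

namespace Pool.Agent.DA

namespace TaskBasic

open Polynomial

theorem eval_mem {m : ℕ} {A : Datum m} {B : Datum (m + 1)} (φ : A.K →+* B.K) (w : A.K)
    (Q : A.K[X]) (hQ : ∀ i, Q.coeff i ∈ A.F) (S : Subring B.K)
    (hF : ∀ x ∈ A.F, φ x ∈ S) (hw : φ w ∈ S) : φ (Q.eval w) ∈ S := by
  rw [Polynomial.eval_eq_sum_range, map_sum]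
  refine Subring.sum_mem _ fun i _ => ?_
  rw [map_mul, map_pow]
  exact S.mul_mem (hF _ (hQ i)) (S.pow_mem hw i)

theorem g_eval {m : ℕ} (A : Datum m) (w : A.K) (hw : A.gK w = w)
    (Q : A.K[X]) (hQ : ∀ i, Q.coeff i ∈ A.F) : A.gK (Q.eval w) = Q.eval w := by
  rw [Polynomial.eval_eq_sum_range, map_sum]
  refine Finset.sum_congr rfl fun i _ => ?_
  rw [map_mul, map_pow, hw, A.g_F _ (hQ i)]

theorem charZero_K {m : ℕ} (A : Datum m) : CharZero A.K := by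
  refine charZero_of_inj_zero fun n hn => ?_
  by_contra h0
  have h1 := A.v_nat n h0
  rw [hn, AddValuation.map_zero] at h1
  exact absurd h1 (by decide)

end TaskBasic

open TaskBasic

/-- two independent `g'`-fixed elements in the ring generated by `F`, `w0`, `w1` -/
theorem aux_S {m : ℕ} {A : Datum m} {B : Datum (m + 1)} (h : StepHom A B)
    (hind : ∀ ζ : A.K, 0 ≤ A.v ζ → A.c0 ζ ∉ A.f →
      AlgebraicIndependent B.f ![B.c0 (h.ι ζ), B.c0 (B.gK (h.ι ζ))])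
    (w : A.K) (hw : A.gK w = w) (hwF : w ∉ A.F) :
    ∃ S1 S2 : B.K, B.gK S1 = S1 ∧ B.gK S2 = S2 ∧ 0 ≤ B.v S1 ∧ 0 ≤ B.v S2 ∧
      AlgebraicIndependent B.f ![B.c0 S1, B.c0 S2] ∧
      S1 ∈ Subring.closure (h.ι '' (A.F : Set A.K) ∪ {h.ι w, B.gK (h.ι w)}) ∧
      S2 ∈ Subring.closure (h.ι '' (A.F : Set A.K) ∪ {h.ι w, B.gK (h.ι w)}) := by
  obtain ⟨Q, hQ, hv, hc⟩ := A.lemmaZ w hwF
  have hg := g_eval A w hw Q hQ
  have hgg : B.gK (B.gK (h.ι (Q.eval w))) = h.ι (Q.eval w) := by rw [h.gg_ι, hg]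
  have hv0 : 0 ≤ B.v (h.ι (Q.eval w)) := by rw [h.v_ι]; exact hv
  have hv1 : 0 ≤ B.v (B.gK (h.ι (Q.eval w))) := by rw [B.v_gK]; exact hv0
  have hm0 : h.ι (Q.eval w) ∈
      Subring.closure (h.ι '' (A.F : Set A.K) ∪ {h.ι w, B.gK (h.ι w)}) := by
    refine eval_mem h.ι w Q hQ _ (fun x hx => Subring.subset_closure (Or.inl ⟨x, hx, rfl⟩)) ?_
    exact Subring.subset_closure (Or.inr (Or.inl rfl))
  have hm1 : B.gK (h.ι (Q.eval w)) ∈
      Subring.closure (h.ι '' (A.F : Set A.K) ∪ {h.ι w, B.gK (h.ι w)}) := by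
    refine eval_mem ((B.gK : B.K →+* B.K).comp h.ι) w Q hQ _ (fun x hx => ?_) ?_
    · have : ((B.gK : B.K →+* B.K).comp h.ι) x = h.ι x := B.g_F _ (h.F_ι x hx)
      rw [this]
      exact Subring.subset_closure (Or.inl ⟨x, hx, rfl⟩)
    · exact Subring.subset_closure (Or.inr (Or.inr rfl))
  refine ⟨h.ι (Q.eval w) + B.gK (h.ι (Q.eval w)), h.ι (Q.eval w) * B.gK (h.ι (Q.eval w)),
    ?_, ?_, ?_, ?_, ?_, ?_, ?_⟩
  · rw [map_add, hgg]
    exact add_comm _ _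
  · rw [map_mul, hgg]
    exact mul_comm _ _
  · exact le_trans (le_min hv0 hv1) (AddValuation.map_add _ _ _)
  · rw [AddValuation.map_mul]
    exact add_nonneg hv0 hv1
  · rw [B.c0_add, B.c0_mul _ _ hv0 hv1]
    exact ind_symm _ _ _ (hind _ hv hc)
  · exact Subring.add_mem _ hm0 hm1
  · exact Subring.mul_mem _ hm0 hm1

/-- some power sum of `z ∉ F` is not in `F` -/
theorem exists_ps {m : ℕ} (A : Datum m) (z : A.K) (hz : z ∉ A.F) :
    ∃ i : ℕ, ps A.gK (2 ^ m) i z ∉ A.F := by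
  have := charZero_K A
  by_contra hcon
  push Not at hcon
  exact hz (A.alg_F z (newton_alg A.F (2 ^ m) (fun i => (A.gK)^[i] z) (fun a => hcon a) 0
    (by positivity)))

theorem gK_ps {m : ℕ} (A : Datum m) (z : A.K) (i : ℕ) :
    A.gK (ps A.gK (2 ^ m) i z) = ps A.gK (2 ^ m) i z := by
  unfold ps
  rw [map_sum]
  have h1 : ∀ j, A.gK (((A.gK)^[j] z) ^ i) = ((A.gK)^[j + 1] z) ^ i := by
    intro j
    rw [map_pow, Function.iterate_succ_apply']
  simp only [h1]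
  have h2 := Finset.sum_range_succ (fun j => ((A.gK)^[j] z) ^ i) (2 ^ m)
  have h3 := Finset.sum_range_succ' (fun j => ((A.gK)^[j] z) ^ i) (2 ^ m)
  rw [h2, A.gK_pow] at h3
  exact (add_right_cancel h3).symm

end Pool.Agent.DA
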