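import Pool.Agent.DA.TensorA

/-! Section 12 : te5 (TIGHT) and conclusion -/

set_option autoImplicit false

namespace Pool.Agent.DA

open Finset

namespace TensorB

/-- algebraic elements go to algebraic elements -/
theorem alg_transport {K L : Type} [Field K] [Field L] (F : Subfield K) (G : Subfield L)
    (φ : K →+* L) (hφ : ∀ x ∈ F, φ x ∈ G) (s : Set K) (T : Set L) (hs : ∀ x ∈ s, φ x ∈ T)
    (x : K) (hx : IsAlgebraic (IntermediateField.adjoin F s) x) :
    IsAlgebraic (IntermediateField.adjoin G T) (φ x) := by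
  have key : ∀ y ∈ IntermediateField.adjoin F s, φ y ∈ IntermediateField.adjoin G T := by
    have h1 : (IntermediateField.adjoin F s).toSubfield ≤
        ((IntermediateField.adjoin G T).toSubfield).comap φ := by
      rw [IntermediateField.adjoin_toSubfield, Subfield.closure_le]
      rintro y (⟨z, rfl⟩ | hy)
      · exact (IntermediateField.adjoin G T).algebraMap_mem ⟨φ z, hφ _ z.2⟩
      · exact IntermediateField.subset_adjoin G T (hs y hy)
    exact fun y hy => h1 hy
  let f : IntermediateField.adjoin F s →+* IntermediateField.adjoin G T :=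
    (φ.comp (algebraMap (IntermediateField.adjoin F s) K)).codRestrict
      (IntermediateField.adjoin G T) (fun y => key y y.2)
  exact hx.ringHom_of_comp_eq f φ f.injective rfl

theorem trdeg_le_of_closure {L : Type} [Field L] (G : Subfield L) (T U : Set L)
    (hU : ∀ x ∈ U, IsAlgebraic (IntermediateField.adjoin G T) x)
    (gen : ∀ x, x ∈ Subfield.closure U) : Algebra.trdeg G L ≤ Cardinal.mk T := by
  have h1 : Subfield.closure U ≤
      (algebraicClosure (IntermediateField.adjoin G T) L).toSubfield := by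
    rw [Subfield.closure_le]
    intro x hx
    exact mem_algebraicClosure_iff.mpr (hU x hx)
  have h2 : Algebra.IsAlgebraic (IntermediateField.adjoin G T) L :=
    ⟨fun x => mem_algebraicClosure_iff.mp (h1 (gen x))⟩
  have h3 := IntermediateField.isAlgebraic_adjoin_iff_top.mp h2
  exact Algebra.IsAlgebraic.trdeg_le_cardinalMk G T

end TensorB

/-- 12, te5 -/
theorem tensor_tight {m : ℕ} {A : Datum m} {B : Datum (m + 1)} (h : StepHom A B)
    (gen : ∀ x : B.K, x ∈ Subfield.closure (Set.range h.ι ∪ Set.range (fun x => B.gK (h.ι x)) ∪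
      {y | ∃ i : ℕ, y = (B.gK)^[i] h.c}))
    (res : ∀ (n : ℕ) (b : Fin n → A.K), (∀ i, 0 ≤ A.v (b i)) →
      AlgebraicIndependent A.f (fun i => A.c0 (b i)) →
      AlgebraicIndependent B.f (Sum.elim (Sum.elim (fun i => B.c0 (h.ι (b i)))
        (fun i => B.c0 (B.gK (h.ι (b i)))))
        (fun j : Fin (2 ^ (m + 1) - 1) => B.c0 ((B.gK)^[(j : ℕ) + 1] h.c))))
    (n : ℕ) (hn : A.Tight n) : B.Tight (2 * n + 2 ^ (m + 1) - 1) := by
  classical
  obtain ⟨htr, ⟨b, hb, hbi⟩, s0, hs0⟩ := hn
  have hvk : ∀ k : ℕ, B.v ((B.gK)^[k] h.c) = 0 := by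
    intro k
    induction k with
    | zero => exact h.v_c
    | succ k ih => rw [Function.iterate_succ', Function.comp, B.v_gK, ih]
  have hck : ∀ k : ℕ, (B.gK)^[k] h.c ≠ 0 := by
    intro k hk
    have := hvk k
    rw [hk, AddValuation.map_zero] at this
    exact absurd this (by decide)
  have hNpos : 0 < 2 ^ (m + 1) := by positivity
  have hper : ∀ k : ℕ, (B.gK)^[k] h.c = (B.gK)^[k % 2 ^ (m + 1)] h.c := by
    intro k
    have hp : Function.IsPeriodicPt B.gK (2 ^ (m + 1)) h.c := B.gK_pow h.c
    exact (hp.iterate_mod_apply k).symm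
  refine ⟨?_, ?_, ?_⟩
  · -- upper bound for the transcendence degree
    obtain ⟨s, hs⟩ := exists_isTranscendenceBasis A.F A.K
    have hscard : Cardinal.mk s ≤ n := by
      rw [hs.cardinalMk_eq_trdeg]; exact htr
    have hsalg := hs.isAlgebraic_field
    rw [Subtype.range_coe] at hsalg
    let T : Set B.K := (h.ι '' s ∪ (fun x => B.gK (h.ι x)) '' s) ∪
      Set.range (fun j : Fin (2 ^ (m + 1) - 1) => (B.gK)^[(j : ℕ) + 1] h.c)
    have hT : Cardinal.mk T ≤ ((2 * n + 2 ^ (m + 1) - 1 : ℕ) : Cardinal) := by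
      have e1 : Cardinal.mk (h.ι '' s) ≤ n := Cardinal.mk_image_le.trans hscard
      have e2 : Cardinal.mk ((fun x => B.gK (h.ι x)) '' s) ≤ n := Cardinal.mk_image_le.trans hscard
      have e3 : Cardinal.mk (Set.range (fun j : Fin (2 ^ (m + 1) - 1) =>
          (B.gK)^[(j : ℕ) + 1] h.c)) ≤ ((2 ^ (m + 1) - 1 : ℕ) : Cardinal) := by
        refine Cardinal.mk_range_le.trans ?_
        simp
      have e4 : (2 * n + 2 ^ (m + 1) - 1 : ℕ) = n + n + (2 ^ (m + 1) - 1) := by omega
      rw [e4]
      push_cast [Nat.cast_add]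
      refine (Cardinal.mk_union_le _ _).trans (add_le_add ((Cardinal.mk_union_le _ _).trans
        (add_le_add e1 e2)) ?_)
      exact_mod_cast e3
    refine (TensorB.trdeg_le_of_closure B.F T _ ?_ gen).trans hT
    have hι : ∀ x : A.K, IsAlgebraic (IntermediateField.adjoin B.F T) (h.ι x) := by
      intro x
      refine TensorB.alg_transport A.F B.F h.ι h.F_ι s T ?_ x (hsalg.isAlgebraic x)
      intro y hy
      exact Or.inl (Or.inl ⟨y, hy, rfl⟩)
    have hgι : ∀ x : A.K, IsAlgebraic (IntermediateField.adjoin B.F T) (B.gK (h.ι x)) := by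
      intro x
      refine TensorB.alg_transport A.F B.F ((B.gK : B.K →+* B.K).comp h.ι) ?_ s T ?_ x
        (hsalg.isAlgebraic x)
      · intro y hy
        change B.gK (h.ι y) ∈ B.F
        rw [B.g_F _ (h.F_ι y hy)]
        exact h.F_ι y hy
      · intro y hy
        exact Or.inl (Or.inr ⟨y, hy, rfl⟩)
    have hcpos : ∀ k : ℕ, 0 < k → k < 2 ^ (m + 1) →
        IsAlgebraic (IntermediateField.adjoin B.F T) ((B.gK)^[k] h.c) := by
      intro k hk hk2
      have hmem : (B.gK)^[k] h.c ∈ T := by
        refine Or.inr ⟨⟨k - 1, by omega⟩, ?_⟩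
        have : k - 1 + 1 = k := by omega
        simp only [this]
      have := IntermediateField.subset_adjoin B.F T hmem
      exact isAlgebraic_algebraMap (⟨_, this⟩ : IntermediateField.adjoin B.F T)
    have hc0 : IsAlgebraic (IntermediateField.adjoin B.F T) h.c := by
      have ha := h.a_eq
      have ha2 : B.a = B.gK (h.ι A.a) * ∏ i ∈ range (2 ^ m), (B.gK)^[2 * i + 1] h.c := by
        have := congrArg B.gK ha
        rw [B.g_a, map_mul, map_prod] at this
        rw [this]
        congr 1
        refine Finset.prod_congr rfl fun i _ => ?_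
        rw [Function.iterate_succ', Function.comp]
      have hprod : ∏ i ∈ range (2 ^ m), (B.gK)^[2 * i] h.c =
          (∏ i ∈ range (2 ^ m - 1), (B.gK)^[2 * (i + 1)] h.c) * h.c := by
        have hm : 2 ^ m = (2 ^ m - 1) + 1 := by
          have : 0 < 2 ^ m := by positivity
          omega
        conv_lhs => rw [hm]
        rw [Finset.prod_range_succ']
        rfl
      have hane : h.ι A.a ≠ 0 := by
        have h0 : A.a ≠ 0 := by
          intro h0
          have := A.v_a
          rw [h0, AddValuation.map_zero] at this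
          exact absurd this (by decide)
        exact (map_ne_zero h.ι).mpr h0
      have hpne : (∏ i ∈ range (2 ^ m - 1), (B.gK)^[2 * (i + 1)] h.c) ≠ 0 :=
        Finset.prod_ne_zero_iff.mpr fun i _ => hck _
      have hce : h.c = (B.gK (h.ι A.a) * ∏ i ∈ range (2 ^ m), (B.gK)^[2 * i + 1] h.c) *
          (h.ι A.a * (∏ i ∈ range (2 ^ m - 1), (B.gK)^[2 * (i + 1)] h.c))⁻¹ := by
        rw [← ha2, ha, hprod]
        field_simp
      have hmem : h.c ∈ algebraicClosure (IntermediateField.adjoin B.F T) B.K := by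
        rw [hce]
        refine mul_mem (mul_mem ?_ (prod_mem fun i hi => ?_)) (inv_mem (mul_mem ?_
          (prod_mem fun i hi => ?_)))
        · exact mem_algebraicClosure_iff.mpr (hgι _)
        · refine mem_algebraicClosure_iff.mpr (hcpos _ (by omega) ?_)
          have := Finset.mem_range.mp hi
          rw [pow_succ]; omega
        · exact mem_algebraicClosure_iff.mpr (hι _)
        · refine mem_algebraicClosure_iff.mpr (hcpos _ (by omega) ?_)
          have := Finset.mem_range.mp hi
          rw [pow_succ]; omega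
      exact mem_algebraicClosure_iff.mp hmem
    rintro x ((⟨y, rfl⟩ | ⟨y, rfl⟩) | ⟨i, rfl⟩)
    · exact hι y
    · exact hgι y
    · rw [hper i]
      rcases Nat.eq_zero_or_pos (i % 2 ^ (m + 1)) with h0 | h0
      · rw [h0]; exact hc0
      · exact hcpos _ h0 (Nat.mod_lt _ hNpos)
  · -- independent residues
    have hind := res n b hb hbi
    have hcard : Fintype.card ((Fin n ⊕ Fin n) ⊕ Fin (2 ^ (m + 1) - 1)) =
        2 * n + 2 ^ (m + 1) - 1 := by
      simp only [Fintype.card_sum, Fintype.card_fin]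
      omega
    let e : Fin (2 * n + 2 ^ (m + 1) - 1) ≃ ((Fin n ⊕ Fin n) ⊕ Fin (2 ^ (m + 1) - 1)) :=
      (Fintype.equivFinOfCardEq hcard).symm
    let w : (Fin n ⊕ Fin n) ⊕ Fin (2 ^ (m + 1) - 1) → B.K :=
      Sum.elim (Sum.elim (fun i => h.ι (b i)) (fun i => B.gK (h.ι (b i))))
        (fun j => (B.gK)^[(j : ℕ) + 1] h.c)
    refine ⟨fun i => w (e i), ?_, ?_⟩
    · intro i
      change 0 ≤ B.v (w (e i))
      generalize e i = q
      rcases q with (j | j) | j
      · change 0 ≤ B.v (h.ι (b j))
        rw [h.v_ι]; exact hb j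
      · change 0 ≤ B.v (B.gK (h.ι (b j)))
        rw [B.v_gK, h.v_ι]; exact hb j
      · change 0 ≤ B.v ((B.gK)^[(j : ℕ) + 1] h.c)
        rw [hvk]
    · have hcomp := hind.comp e e.injective
      have hEq : (fun i => B.c0 (w (e i))) = (Sum.elim (Sum.elim (fun i => B.c0 (h.ι (b i)))
          (fun i => B.c0 (B.gK (h.ι (b i)))))
          (fun j : Fin (2 ^ (m + 1) - 1) => B.c0 ((B.gK)^[(j : ℕ) + 1] h.c))) ∘ e := by
        funext i
        change B.c0 (w (e i)) = Sum.elim (Sum.elim (fun i => B.c0 (h.ι (b i)))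
          (fun i => B.c0 (B.gK (h.ι (b i)))))
          (fun j : Fin (2 ^ (m + 1) - 1) => B.c0 ((B.gK)^[(j : ℕ) + 1] h.c)) (e i)
        generalize e i = q
        rcases q with (j | j) | j <;> rfl
      change AlgebraicIndependent B.f (fun i => B.c0 (w (e i)))
      rw [hEq]
      exact hcomp
  · -- finite generation
    refine ⟨(s0.image h.ι ∪ s0.image (fun x => B.gK (h.ι x))) ∪
      (Finset.range (2 ^ (m + 1))).image (fun k => (B.gK)^[k] h.c), ?_⟩
    intro x
    set U : Set B.K := (B.F : Set B.K) ∪ (((s0.image h.ι ∪ s0.image (fun x => B.gK (h.ι x))) ∪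
      (Finset.range (2 ^ (m + 1))).image (fun k => (B.gK)^[k] h.c) : Finset B.K) : Set B.K) with hU
    have h1 : Subfield.closure (Set.range h.ι ∪ Set.range (fun x => B.gK (h.ι x)) ∪
      {y | ∃ i : ℕ, y = (B.gK)^[i] h.c}) ≤ Subfield.closure U := by
      rw [Subfield.closure_le]
      have k1 : Subfield.closure ((A.F : Set A.K) ∪ s0) ≤ (Subfield.closure U).comap h.ι := by
        rw [Subfield.closure_le]
        rintro y (hy | hy)
        · exact Subfield.subset_closure (Or.inl (h.F_ι y hy))
        · refine Subfield.subset_closure (Or.inr ?_)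
          simp only [Finset.coe_union, Finset.coe_image]
          exact Or.inl (Or.inl ⟨y, hy, rfl⟩)
      have k2 : Subfield.closure ((A.F : Set A.K) ∪ s0) ≤
          (Subfield.closure U).comap ((B.gK : B.K →+* B.K).comp h.ι) := by
        rw [Subfield.closure_le]
        rintro y (hy | hy)
        · refine Subfield.subset_closure (Or.inl ?_)
          change B.gK (h.ι y) ∈ B.F
          rw [B.g_F _ (h.F_ι y hy)]
          exact h.F_ι y hy
        · refine Subfield.subset_closure (Or.inr ?_)
          simp only [Finset.coe_union, Finset.coe_image]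
          exact Or.inl (Or.inr ⟨y, hy, rfl⟩)
      rintro y ((⟨z, rfl⟩ | ⟨z, rfl⟩) | ⟨i, rfl⟩)
      · exact k1 (hs0 z)
      · exact k2 (hs0 z)
      · refine Subfield.subset_closure (Or.inr ?_)
        simp only [Finset.coe_union, Finset.coe_image]
        refine Or.inr ⟨i % 2 ^ (m + 1), ?_, ?_⟩
        · simpa using Nat.mod_lt i hNpos
        · exact (hper i).symm
    exact h1 (gen x)

/-- 12 -/
theorem tensor {m : ℕ} (A : Datum m) : ∃ (B : Datum (m + 1)) (h : StepHom A B),
    (∀ n, A.Tight n → B.Tight (2 * n + 2 ^ (m + 1) - 1)) ∧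
    (∀ ζ : A.K, 0 ≤ A.v ζ → A.c0 ζ ∉ A.f →
      AlgebraicIndependent B.f ![B.c0 (h.ι ζ), B.c0 (B.gK (h.ι ζ))]) := by
  obtain ⟨B, h, gen, res⟩ := tensorA A
  refine ⟨B, h, fun n hn => tensor_tight h gen res n hn, ?_⟩
  intro ζ hζ hζf
  have htr : AlgebraicIndependent A.f (fun _ : Fin 1 => A.c0 ζ) := by
    have : Transcendental A.f (A.c0 ζ) := fun halg => hζf (A.hf _ halg)
    exact (algebraicIndependent_unique_type_iff (ι := Fin 1)).mpr this
  have hind := res 1 (fun _ => ζ) (fun _ => hζ) htr
  let e : Fin 2 → (Fin 1 ⊕ Fin 1) ⊕ Fin (2 ^ (m + 1) - 1) := ![Sum.inl (Sum.inl 0), Sum.inl (Sum.inr 0)]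
  have he : Function.Injective e := by
    intro i j hij
    fin_cases i <;> fin_cases j <;> simp_all [e]
  have hcomp := hind.comp e he
  have hEq : ![B.c0 (h.ι ζ), B.c0 (B.gK (h.ι ζ))] =
      (Sum.elim (Sum.elim (fun _ : Fin 1 => B.c0 (h.ι ζ))
        (fun _ : Fin 1 => B.c0 (B.gK (h.ι ζ))))
        (fun j : Fin (2 ^ (m + 1) - 1) => B.c0 ((B.gK)^[(j : ℕ) + 1] h.c))) ∘ e := by
    funext i
    fin_cases i <;> rfl
  rw [hEq]
  exact hcomp

end Pool.Agent.DA
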