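import Pool.Agent.DA.DBasic2
import Pool.Agent.DA.Double
import Pool.Agent.DA.Cadj
import Pool.Agent.DA.PS

/-! Section 12 without te5 -/

set_option autoImplicit false

namespace Pool.Agent.DA

open Finset Polynomial

namespace TA

/-- residue level of section 12 -/
structure TRes {m : ℕ} (A : Datum m) where
  P' : Type
  [fP : Field P']
  j0 : A.P →+* P'
  j1 : A.P →+* P'
  θ : P' ≃+* P'
  τ : P' ≃+* P'
  c : P'
  c_ne : c ≠ 0
  on_f : ∀ α ∈ A.f, j0 α = j1 α
  θ0 : ∀ p, θ (j0 p) = j1 p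
  θ1 : ∀ p, θ (j1 p) = j0 (A.g p)
  τ0 : ∀ p, τ (j0 p) = j0 (A.τ p)
  τ1 : ∀ p, τ (j1 p) = j1 (A.τ p)
  θ_pow : ∀ x, θ^[2 * 2 ^ m] x = x
  τ_sq : ∀ x, τ (τ x) = x
  θτ : ∀ x, θ (τ x) = τ (θ x)
  τ_c : ∀ k, τ (θ^[k] c) = θ^[k] c
  prod : ∏ j ∈ range (2 ^ m), θ^[2 * j] c =
    (j0 A.ρ / j1 A.ρ) * ∏ j ∈ range (2 ^ m), θ^[2 * j + 1] c
  acl0 : ∀ x : P', ∀ Q : A.P[X], Q ≠ 0 → Q.eval₂ j0 x = 0 → ∃ p, x = j0 p
  meet : ∀ p q, j0 p = j1 q → p = q ∧ p ∈ A.f
  sq : ∀ r : A.P, r ≠ 0 → A.τ r = -r → ¬ IsSquare (j1 r / j0 r)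
  ind : ∀ (n : ℕ) (b : Fin n → A.P), AlgebraicIndependent A.f b →
    AlgebraicIndependent (A.f.map j0) (Sum.elim (Sum.elim (j0 ∘ b) (j1 ∘ b))
      (fun j : Fin (2 * 2 ^ m - 1) => θ^[(j : ℕ) + 1] c))

attribute [instance] TRes.fP

theorem iter_hom {E : Type} [Field E] (θ : E ≃+* E) (k : ℕ) :
    ∃ φ : E →+* E, ∀ x, φ x = θ^[k] x := by
  induction k with
  | zero => exact ⟨RingHom.id E, fun x => rfl⟩
  | succ k ih =>
    obtain ⟨φ, hφ⟩ := ih
    exact ⟨(θ : E →+* E).comp φ, fun x => by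
      rw [Function.iterate_succ_apply', RingHom.comp_apply, hφ]; rfl⟩

theorem ta_ind {k P E P' : Type} [Field k] [Field P] [Field E] [Field P'] (e : k →+* P)
    (i0 i1 : P →+* E) (i : E →+* P') {n N : ℕ} (b : Fin n → P) (c : Fin N → P')
    (h1 : letI := e.toAlgebra; AlgebraicIndependent k b)
    (h2 : ∀ Q : MvPolynomial (Fin n) P, Q.eval₂ i0 (fun j => i1 (b j)) = 0 → Q = 0)
    (h3 : ∀ Q : MvPolynomial (Fin N) E, Q.eval₂ i c = 0 → Q = 0) :
    letI := (i.comp (i0.comp e)).toAlgebra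
    AlgebraicIndependent k (Sum.elim (Sum.elim (i.comp i0 ∘ b) (i.comp i1 ∘ b)) c) := by
  let a1 : Algebra k P := e.toAlgebra
  let a2 : Algebra P E := i0.toAlgebra
  let a3 : Algebra k E := (i0.comp e).toAlgebra
  let a4 : Algebra E P' := i.toAlgebra
  let a5 : Algebra k P' := (i.comp (i0.comp e)).toAlgebra
  have t1 : IsScalarTower k P E := IsScalarTower.of_algebraMap_eq (fun x => rfl)
  have t2 : IsScalarTower k E P' := IsScalarTower.of_algebraMap_eq (fun x => rfl)
  have hy : AlgebraicIndependent P (fun j => i1 (b j)) := by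
    rw [algebraicIndependent_iff]
    intro Q hQ
    exact h2 Q hQ
  have hz : AlgebraicIndependent E c := by
    rw [algebraicIndependent_iff]
    intro Q hQ
    exact h3 Q hQ
  have h4 : AlgebraicIndependent k (Sum.elim (fun j => i1 (b j)) (algebraMap P E ∘ b)) :=
    AlgebraicIndependent.sumElim_comp h1 hy
  have h5 : AlgebraicIndependent k (Sum.elim c (algebraMap E P' ∘
      Sum.elim (fun j => i1 (b j)) (algebraMap P E ∘ b))) :=
    AlgebraicIndependent.sumElim_comp h4 hz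
  refine (algebraicIndependent_equiv'
    ((Equiv.sumComm (Fin n ⊕ Fin n) (Fin N)).trans
      (Equiv.sumCongr (Equiv.refl (Fin N)) (Equiv.sumComm (Fin n) (Fin n)))) ?_).2 h5
  funext x
  rcases x with (x | x) | x <;> rfl

theorem exists_TRes {m : ℕ} (A : Datum m) : Nonempty (TRes A) := by
  obtain ⟨E, fE, ⟨D⟩⟩ := exists_double A.P A.f A.hf
  obtain ⟨s, hs0, hs1⟩ := D.univ A.g (RingEquiv.refl _) A.g_f (fun α _ => rfl)
  obtain ⟨w, hw0, hw1⟩ := D.swap
  let θ : E ≃+* E := w.trans s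
  have hθ0 : ∀ p, θ (D.i0 p) = D.i1 p := fun p => by
    change s (w (D.i0 p)) = _
    rw [hw0, hs1]; rfl
  have hθ1 : ∀ p, θ (D.i1 p) = D.i0 (A.g p) := fun p => by
    change s (w (D.i1 p)) = _
    rw [hw1, hs0]
  obtain ⟨τ1, hτ0, hτ1⟩ := D.univ A.τ A.τ A.τ_f A.τ_f
  obtain ⟨τ0, hτa, hτb⟩ := D.univ A.τ (RingEquiv.refl _) A.τ_f (fun α _ => rfl)
  have hθk0 : ∀ k p, θ^[2 * k] (D.i0 p) = D.i0 ((A.g)^[k] p) := by
    intro k
    induction k with
    | zero => intro p; rfl
    | succ k ih =>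
      intro p
      rw [show 2 * (k + 1) = 2 * k + 1 + 1 by ring, Function.iterate_succ_apply,
        Function.iterate_succ_apply, hθ0, hθ1, ih, Function.iterate_succ_apply]
  have hθk1 : ∀ k p, θ^[2 * k] (D.i1 p) = D.i1 ((A.g)^[k] p) := by
    intro k
    induction k with
    | zero => intro p; rfl
    | succ k ih =>
      intro p
      rw [show 2 * (k + 1) = 2 * k + 1 + 1 by ring, Function.iterate_succ_apply,
        Function.iterate_succ_apply, hθ1, hθ0, ih, Function.iterate_succ_apply]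
  have hpow : ∀ x, θ^[2 * 2 ^ m] x = x := by
    obtain ⟨φ, hφ⟩ := iter_hom θ (2 * 2 ^ m)
    have h := D.ext φ (RingHom.id E) (fun p => by rw [hφ, hθk0, A.g_pow]; rfl)
      (fun p => by rw [hφ, hθk1, A.g_pow]; rfl)
    intro x
    rw [← hφ, h]; rfl
  have hτsq : ∀ x, τ1 (τ1 x) = x := by
    have h := D.ext ((τ1 : E →+* E).comp (τ1 : E →+* E)) (RingHom.id E)
      (fun p => by simp [hτ0, A.τ_sq]) (fun p => by simp [hτ1, A.τ_sq])
    intro x
    exact congrArg (fun φ : E →+* E => φ x) h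
  have hτ0sq : ∀ x, τ0 (τ0 x) = x := by
    have h := D.ext ((τ0 : E →+* E).comp (τ0 : E →+* E)) (RingHom.id E)
      (fun p => by simp [hτa, A.τ_sq]) (fun p => by simp [hτb])
    intro x
    exact congrArg (fun φ : E →+* E => φ x) h
  have hcomm : ∀ x, θ (τ1 x) = τ1 (θ x) := by
    have h := D.ext ((θ : E →+* E).comp (τ1 : E →+* E)) ((τ1 : E →+* E).comp (θ : E →+* E))
      (fun p => by simp [hτ0, hθ0, hτ1]) (fun p => by simp [hτ0, hθ1, hτ1, A.gτ])
    intro x
    exact congrArg (fun φ : E →+* E => φ x) h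
  have hρ0 : D.i0 A.ρ ≠ 0 := (_root_.map_ne_zero D.i0).2 A.ρ_ne
  have hρ1 : D.i1 A.ρ ≠ 0 := (_root_.map_ne_zero D.i1).2 A.ρ_ne
  obtain ⟨P', fP', i, θ', τ', c, hc, h1, h2, h3, h4, h5, h6, h7, h8, h9⟩ :=
    cadj E θ τ1 (2 ^ m) Nat.one_le_two_pow hpow hτsq hcomm (D.i0 A.ρ / D.i1 A.ρ)
      (div_ne_zero hρ0 hρ1)
      (by rw [map_div₀, hθ0, hθ1, A.g_ρ, inv_div])
      (by rw [map_div₀, hτ0, hτ1, A.τ_ρ, map_neg, map_neg, neg_div_neg_eq])
  have : CharZero E := charZero_of_injective_ringHom D.i0.injective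
  have : CharZero P' := charZero_of_injective_ringHom i.injective
  have hacl : ∀ x : P', ∀ Q : A.P[X], Q ≠ 0 → Q.eval₂ (i.comp D.i0) x = 0 →
      ∃ p, x = (i.comp D.i0) p := by
    intro x Q hQ hx
    have hQ' : Q.map D.i0 ≠ 0 := (Polynomial.map_ne_zero_iff D.i0.injective).2 hQ
    obtain ⟨e, rfl⟩ := h9 x (Q.map D.i0) hQ' (by rw [Polynomial.eval₂_map]; exact hx)
    have hx' : i (Q.eval₂ D.i0 e) = 0 := by
      rw [Polynomial.hom_eval₂]; exact hx
    obtain ⟨p, rfl⟩ := D.acl e Q hQ ((map_eq_zero i).1 hx')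
    exact ⟨p, rfl⟩
  refine ⟨TRes.mk P' (i.comp D.i0) (i.comp D.i1) θ' τ' c hc ?_ ?_ ?_ ?_ ?_ h3 h4 h5 h6 ?_ hacl
    ?_ ?_ ?_⟩
  · intro α hα
    rw [RingHom.comp_apply, RingHom.comp_apply, D.on_f α hα]
  · intro p
    rw [RingHom.comp_apply, RingHom.comp_apply, h1, hθ0]
  · intro p
    rw [RingHom.comp_apply, RingHom.comp_apply, h1, hθ1]
  · intro p
    rw [RingHom.comp_apply, RingHom.comp_apply, h2, hτ0]
  · intro p
    rw [RingHom.comp_apply, RingHom.comp_apply, h2, hτ1]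
  · rw [h7, map_div₀]; rfl
  · intro p q h
    exact D.meet p q (i.injective h)
  · intro r hr hτr hsq
    obtain ⟨s, hs⟩ := hsq
    have hr0 : D.i0 r ≠ 0 := (_root_.map_ne_zero D.i0).2 hr
    have hr1 : D.i1 r ≠ 0 := (_root_.map_ne_zero D.i1).2 hr
    set ω : E := D.i1 r / D.i0 r with hω
    have hsω : s * s = i ω := by
      rw [← hs, hω, map_div₀]; rfl
    obtain ⟨s', rfl⟩ := h9 s (X ^ 2 - C ω) (X_pow_sub_C_ne_zero (by norm_num) ω) (by
      rw [eval₂_sub, eval₂_pow, eval₂_X, eval₂_C, sq, hsω, sub_self])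
    have hs' : s' * s' = ω := by
      apply i.injective
      rw [map_mul, hsω]
    have hω0 : ω ≠ 0 := div_ne_zero hr1 hr0
    have hs0' : s' ≠ 0 := by
      rintro rfl
      rw [mul_zero] at hs'
      exact hω0 hs'.symm
    have hτω : τ0 ω = -ω := by
      rw [hω, map_div₀, hτa, hτb, hτr, map_neg, div_neg]
      rfl
    set j : E := τ0 s' / s' with hj
    have hj2 : j * j = -1 := by
      have : τ0 s' * τ0 s' = -(s' * s') := by
        rw [← map_mul, hs', hτω]
      rw [hj, div_mul_div_comm, this, neg_div, div_self (mul_ne_zero hs0' hs0')]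
    obtain ⟨p, hp⟩ := D.acl j (X ^ 2 - C (-1)) (X_pow_sub_C_ne_zero (by norm_num) _) (by
      rw [eval₂_sub, eval₂_pow, eval₂_X, eval₂_C, sq, hj2, map_neg, map_one, sub_self])
    have hp2 : p * p = -1 := by
      apply D.i0.injective
      rw [map_mul, ← hp, hj2, map_neg, map_one]
    have hpf : p ∈ A.f := by
      apply A.hf
      refine ⟨X ^ 2 - C (-1), X_pow_sub_C_ne_zero (by norm_num) _, ?_⟩
      simp [sq, hp2]
    have hτj : τ0 j = j := by
      rw [hp, hτa, A.τ_f p hpf]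
    have h10 : τ0 s' = j * s' := by
      rw [hj, div_mul_cancel₀ _ hs0']
    have h11 : s' = -s' := by
      calc s' = τ0 (τ0 s') := (hτ0sq s').symm
        _ = τ0 (j * s') := by rw [h10]
        _ = j * (j * s') := by rw [map_mul, hτj, h10]
        _ = (j * j) * s' := by ring
        _ = -s' := by rw [hj2]; ring
    have h12 : (2 : E) * s' = 0 := by linear_combination h11
    rcases mul_eq_zero.1 h12 with h | h
    · exact two_ne_zero h
    · exact hs0' h
  · intro n b hb
    have h10 := ta_ind A.f.subtype D.i0 D.i1 i b (fun j : Fin (2 * 2 ^ m - 1) =>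
      θ'^[(j : ℕ) + 1] c) hb (D.ind n b hb) h8
    let φ : A.f →+* A.f.map (i.comp D.i0) :=
      ((i.comp D.i0).comp A.f.subtype).codRestrict (A.f.map (i.comp D.i0))
        (fun x => ⟨x, x.2, rfl⟩)
    let a5 : Algebra A.f P' := (i.comp (D.i0.comp A.f.subtype)).toAlgebra
    have h11 := AlgebraicIndependent.ringHom_of_comp_eq φ (RingHom.id P') h10 (by
      rintro ⟨_, α, hα, rfl⟩
      exact ⟨⟨α, hα⟩, rfl⟩) (RingHom.id P').injective (by ext x; rfl)
    exact h11

/-! ### Laurent series -/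

section laurent

variable {P Q : Type*} [Field P] [Field Q]

theorem orderTop_congr (x : LaurentSeries P) (y : LaurentSeries Q)
    (h : ∀ n, x.coeff n = 0 ↔ y.coeff n = 0) : x.orderTop = y.orderTop := by
  by_cases hx : x = 0
  · have hy : y = 0 := by
      ext n
      rw [HahnSeries.coeff_zero, ← h n, hx, HahnSeries.coeff_zero]
    rw [hx, hy, HahnSeries.orderTop_zero, HahnSeries.orderTop_zero]
  · obtain ⟨k, hk⟩ : ∃ k : ℤ, x.orderTop = k :=
      ⟨x.orderTop.untop (HahnSeries.orderTop_ne_top.2 hx), (WithTop.coe_untop _ _).symm⟩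
    rw [hk]
    refine (HahnSeries.orderTop_eq_of_le ?_ ?_).symm
    · rw [HahnSeries.mem_support, Ne, ← h k]
      exact HahnSeries.coeff_orderTop_ne hk
    · intro g hg
      rw [HahnSeries.mem_support, Ne, ← h g] at hg
      by_contra hlt
      push Not at hlt
      exact hg (HahnSeries.coeff_eq_zero_of_lt_orderTop (by rw [hk]; exact_mod_cast hlt))

theorem hat_ord (g : P →+* Q) (x : LaurentSeries P) : (hat g x).orderTop = x.orderTop :=
  orderTop_congr _ _ (fun n => by rw [hat_coeff, map_eq_zero])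

theorem hat_single (g : P →+* Q) (n : ℤ) (a : P) :
    hat g (HahnSeries.single n a) = HahnSeries.single n (g a) := by
  ext k
  rw [hat_coeff, HahnSeries.coeff_single, HahnSeries.coeff_single]
  split_ifs
  · rfl
  · exact map_zero g

theorem hat_C (g : P →+* Q) (a : P) : hat g (HahnSeries.C a) = HahnSeries.C (g a) := by
  rw [HahnSeries.C_apply, HahnSeries.C_apply, hat_single]

theorem C_ord (a : P) (ha : a ≠ 0) : (HahnSeries.C a : LaurentSeries P).orderTop = 0 := by
  rw [HahnSeries.C_apply, HahnSeries.orderTop_single ha]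
  rfl

theorem C_coeff (a : P) (n : ℤ) :
    (HahnSeries.C a : LaurentSeries P).coeff n = if n = 0 then a else 0 := by
  rw [HahnSeries.C_apply, HahnSeries.coeff_single]
  split_ifs <;> rfl

/-- the twisted coefficientwise action on series -/
noncomputable def twf (ε : P) (γ : P →+* P) (x : LaurentSeries P) : LaurentSeries P :=
  ⟨fun n => ε ^ n * γ (x.coeff n), by
    refine x.isPWO_support.mono ?_
    intro n hn
    rw [Function.mem_support] at hn
    rw [HahnSeries.mem_support]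
    intro h
    apply hn
    rw [h, map_zero, mul_zero]⟩

theorem twf_coeff (ε : P) (γ : P →+* P) (x : LaurentSeries P) (n : ℤ) :
    (twf ε γ x).coeff n = ε ^ n * γ (x.coeff n) := rfl

theorem twf_support (ε : P) (hε : ε ≠ 0) (γ : P →+* P) (x : LaurentSeries P) :
    (twf ε γ x).support = x.support := by
  ext n
  rw [HahnSeries.mem_support, HahnSeries.mem_support, twf_coeff, Ne, Ne, mul_eq_zero, not_or,
    map_eq_zero]
  constructor
  · exact fun h => h.2
  · exact fun h => ⟨zpow_ne_zero n hε, h⟩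

theorem twf_mul (ε : P) (hε : ε ≠ 0) (γ : P →+* P) (x y : LaurentSeries P) :
    twf ε γ (x * y) = twf ε γ x * twf ε γ y := by
  ext n
  rw [twf_coeff, HahnSeries.coeff_mul, HahnSeries.coeff_mul, map_sum, mul_sum]
  refine Finset.sum_congr ?_ ?_
  · ext ij
    rw [Finset.mem_antidiagonal, Finset.mem_antidiagonal, twf_support ε hε, twf_support ε hε]
  · intro ij hij
    rw [Finset.mem_antidiagonal] at hij
    rw [twf_coeff, twf_coeff, map_mul, ← hij.2.2, zpow_add₀ hε]
    ring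

/-- the twisted coefficientwise action -/
noncomputable def tw (ε : P) (hε : ε ≠ 0) (γ : P →+* P) :
    LaurentSeries P →+* LaurentSeries P where
  toFun := twf ε γ
  map_one' := by
    ext n
    rw [twf_coeff]
    simp only [HahnSeries.coeff_one]
    split_ifs with h
    · rw [h, zpow_zero, map_one, one_mul]
    · rw [map_zero, mul_zero]
  map_zero' := by
    ext n
    simp [twf_coeff]
  map_add' x y := by
    ext n
    simp [twf_coeff, mul_add]
  map_mul' := twf_mul ε hε γ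

theorem tw_coeff (ε : P) (hε : ε ≠ 0) (γ : P →+* P) (x : LaurentSeries P) (n : ℤ) :
    (tw ε hε γ x).coeff n = ε ^ n * γ (x.coeff n) := rfl

end laurent

/-! ### the construction -/

section build

variable {m : ℕ} {A : Datum m} (R : TRes A)

/-- the product of the even conjugates -/
noncomputable def pe : R.P' := ∏ j ∈ range (2 ^ m), R.θ^[2 * j] R.c

/-- the product of the odd conjugates -/
noncomputable def po : R.P' := ∏ j ∈ range (2 ^ m), R.θ^[2 * j + 1] R.c

theorem it_ne (k : ℕ) : R.θ^[k] R.c ≠ 0 := by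
  obtain ⟨φ, hφ⟩ := iter_hom R.θ k
  rw [← hφ]
  exact (_root_.map_ne_zero φ).2 R.c_ne

theorem pe_ne : pe R ≠ 0 := Finset.prod_ne_zero_iff.2 fun _ _ => it_ne R _

theorem po_ne : po R ≠ 0 := Finset.prod_ne_zero_iff.2 fun _ _ => it_ne R _

theorem θ_pe : R.θ (pe R) = po R := by
  rw [pe, po, map_prod]
  refine Finset.prod_congr rfl fun j _ => ?_
  rw [Function.iterate_succ_apply']

theorem τ_pe : R.τ (pe R) = pe R := by
  rw [pe, map_prod]
  exact Finset.prod_congr rfl fun j _ => R.τ_c _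

theorem pe_eq : pe R = (R.j0 A.ρ / R.j1 A.ρ) * po R := R.prod

/-- the new `ρ` -/
noncomputable def nρ : R.P' := R.j0 A.ρ / pe R

theorem ρ0_ne : R.j0 A.ρ ≠ 0 := (_root_.map_ne_zero R.j0).2 A.ρ_ne

theorem ρ1_ne : R.j1 A.ρ ≠ 0 := (_root_.map_ne_zero R.j1).2 A.ρ_ne

theorem nρ_ne : nρ R ≠ 0 := div_ne_zero (ρ0_ne R) (pe_ne R)

theorem θ_nρ : R.θ (nρ R) = nρ R := by
  have h0 := ρ0_ne R
  have h1 := ρ1_ne R
  have h2 := po_ne R
  rw [nρ, map_div₀, R.θ0, θ_pe, pe_eq]
  field_simp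

theorem τ_nρ : R.τ (nρ R) = -nρ R := by
  rw [nρ, map_div₀, R.τ0, A.τ_ρ, τ_pe, map_neg, neg_div]

/-- the new field -/
noncomputable def KK : Subfield (LaurentSeries R.P') :=
  Subfield.closure ((Set.range fun k : A.K => hat R.j0 (k : LaurentSeries A.P)) ∪
    (Set.range fun k : A.K => hat R.j1 (k : LaurentSeries A.P)) ∪
    (Set.range fun j : ℕ => HahnSeries.C (R.θ^[j] R.c)))

theorem h0_mem (k : A.K) : hat R.j0 (k : LaurentSeries A.P) ∈ KK R :=
  Subfield.subset_closure (Or.inl (Or.inl ⟨k, rfl⟩))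

theorem h1_mem (k : A.K) : hat R.j1 (k : LaurentSeries A.P) ∈ KK R :=
  Subfield.subset_closure (Or.inl (Or.inr ⟨k, rfl⟩))

theorem c_mem (j : ℕ) : HahnSeries.C (R.θ^[j] R.c) ∈ KK R :=
  Subfield.subset_closure (Or.inr ⟨j, rfl⟩)

theorem KK_cnt : Countable (KK R) := by
  rw [← Cardinal.mk_le_aleph0_iff]
  refine (Subfield.cardinalMk_closure_le_max _).trans (max_le ?_ le_rfl)
  rw [Cardinal.mk_le_aleph0_iff]
  exact ((Set.countable_range _).union (Set.countable_range _)).union (Set.countable_range _)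

theorem KK_τ (x : LaurentSeries R.P') (hx : x ∈ KK R) (n : ℤ) :
    R.τ (x.coeff n) = (-1) ^ n * x.coeff n := by
  have hne : (-1 : R.P') ≠ 0 := neg_ne_zero.2 one_ne_zero
  have key : KK R ≤ RingHom.eqLocusField (tw (-1) hne (R.τ : R.P' →+* R.P'))
      (RingHom.id _) := by
    rw [KK, Subfield.closure_le]
    rintro _ ((⟨k, rfl⟩ | ⟨k, rfl⟩) | ⟨j, rfl⟩)
    · change tw (-1) hne (R.τ : R.P' →+* R.P') _ = _
      ext l
      rw [tw_coeff, hat_coeff, RingHom.id_apply, hat_coeff]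
      change (-1) ^ l * R.τ (R.j0 _) = _
      rw [R.τ0, A.K_τ _ k.2, map_mul, map_zpow₀, map_neg, map_one, ← mul_assoc, ← mul_zpow]
      simp
    · change tw (-1) hne (R.τ : R.P' →+* R.P') _ = _
      ext l
      rw [tw_coeff, hat_coeff, RingHom.id_apply, hat_coeff]
      change (-1) ^ l * R.τ (R.j1 _) = _
      rw [R.τ1, A.K_τ _ k.2, map_mul, map_zpow₀, map_neg, map_one, ← mul_assoc, ← mul_zpow]
      simp
    · change tw (-1) hne (R.τ : R.P' →+* R.P') _ = _
      ext l
      rw [tw_coeff, RingHom.id_apply, C_coeff]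
      split_ifs with h
      · rw [h, zpow_zero, one_mul]
        exact R.τ_c j
      · rw [map_zero, mul_zero]
  have h := key hx
  change tw (-1) hne (R.τ : R.P' →+* R.P') x = x at h
  have h2 := congrArg (fun y : LaurentSeries R.P' => y.coeff n) h
  simp only [tw_coeff] at h2
  change (-1) ^ n * R.τ (x.coeff n) = x.coeff n at h2
  have h3 : ((-1 : R.P') ^ n) * (-1) ^ n = 1 := by
    rw [← mul_zpow]; simp
  calc R.τ (x.coeff n) = ((-1) ^ n * (-1) ^ n) * R.τ (x.coeff n) := by rw [h3, one_mul]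
    _ = (-1) ^ n * ((-1) ^ n * R.τ (x.coeff n)) := by ring
    _ = _ := by rw [h2]

theorem KK_g (x : LaurentSeries R.P') (hx : x ∈ KK R) :
    hat (R.θ : R.P' →+* R.P') x ∈ KK R := by
  have key : KK R ≤ (KK R).comap (hat (R.θ : R.P' →+* R.P')) := by
    conv_lhs => rw [KK]
    rw [Subfield.closure_le]
    rintro _ ((⟨k, rfl⟩ | ⟨k, rfl⟩) | ⟨j, rfl⟩)
    · change hat (R.θ : R.P' →+* R.P') (hat R.j0 (k : LaurentSeries A.P)) ∈ KK R
      have : hat (R.θ : R.P' →+* R.P') (hat R.j0 (k : LaurentSeries A.P)) =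
          hat R.j1 (k : LaurentSeries A.P) := by
        ext n
        rw [hat_coeff, hat_coeff, hat_coeff]
        exact R.θ0 _
      rw [this]
      exact h1_mem R k
    · change hat (R.θ : R.P' →+* R.P') (hat R.j1 (k : LaurentSeries A.P)) ∈ KK R
      have : hat (R.θ : R.P' →+* R.P') (hat R.j1 (k : LaurentSeries A.P)) =
          hat R.j0 ((A.gK k : A.K) : LaurentSeries A.P) := by
        ext n
        rw [hat_coeff, hat_coeff, hat_coeff, A.gK_coeff]
        exact R.θ1 _
      rw [this]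
      exact h0_mem R _
    · change hat (R.θ : R.P' →+* R.P') (HahnSeries.C (R.θ^[j] R.c)) ∈ KK R
      rw [hat_C]
      have : (R.θ : R.P' →+* R.P') (R.θ^[j] R.c) = R.θ^[j + 1] R.c :=
        (Function.iterate_succ_apply' _ _ _).symm
      rw [this]
      exact c_mem R _
  exact key hx

theorem KK_g' (x : LaurentSeries R.P') (hx : x ∈ KK R) :
    hat (R.θ.symm : R.P' →+* R.P') x ∈ KK R := by
  have h1 : ∀ k : ℕ, (hat (R.θ : R.P' →+* R.P'))^[k] x ∈ KK R := by
    intro k
    induction k with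
    | zero => exact hx
    | succ k ih =>
      rw [Function.iterate_succ_apply']
      exact KK_g R _ ih
  have h2 : ∀ (k : ℕ) (n : ℤ), ((hat (R.θ : R.P' →+* R.P'))^[k] x).coeff n =
      R.θ^[k] (x.coeff n) := by
    intro k
    induction k with
    | zero => intro n; rfl
    | succ k ih =>
      intro n
      rw [Function.iterate_succ_apply', Function.iterate_succ_apply', hat_coeff, ih]
      rfl
  have h3 : hat (R.θ.symm : R.P' →+* R.P') x =
      (hat (R.θ : R.P' →+* R.P'))^[2 * 2 ^ m - 1] x := by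
    ext n
    rw [hat_coeff, h2]
    change R.θ.symm (x.coeff n) = _
    rw [RingEquiv.symm_apply_eq, ← Function.iterate_succ_apply' R.θ]
    have h4 : (2 * 2 ^ m - 1).succ = 2 * 2 ^ m := by
      have := Nat.one_le_two_pow (n := m)
      omega
    rw [h4, R.θ_pow]
  rw [h3]
  exact h1 _

theorem W_of : hat R.j0 (A.W : LaurentSeries A.P) = HahnSeries.single 2 1 := by
  rw [A.W_coe, hat_single, map_one]

theorem pe_mem : HahnSeries.C (pe R) ∈ KK R := by
  rw [pe, map_prod]
  exact Subfield.prod_mem _ fun j _ => c_mem R _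

theorem a_of : hat R.j0 (A.a : LaurentSeries A.P) * HahnSeries.C (pe R) =
    HahnSeries.single 1 (nρ R)⁻¹ := by
  rw [A.a_coe, hat_single, HahnSeries.C_apply, HahnSeries.single_mul_single, add_zero, nρ,
    inv_div, map_inv₀, div_eq_mul_inv, mul_comm]

theorem nf_hf (x : R.P') (hx : IsAlgebraic (A.f.map R.j0) x) : x ∈ A.f.map R.j0 := by
  obtain ⟨Q, hQ, hQx⟩ := hx
  have hlift : ∀ i, ∃ α : A.P, α ∈ A.f ∧ R.j0 α = ((Q.coeff i : A.f.map R.j0) : R.P') :=
    fun i => (Q.coeff i).2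
  choose α hα1 hα2 using hlift
  -- polynomial over `f`
  let Q1 : (A.f)[X] := ∑ i ∈ range (Q.natDegree + 1), monomial i (⟨α i, hα1 i⟩ : A.f)
  have hc : ∀ i, i ≤ Q.natDegree → Q1.coeff i = ⟨α i, hα1 i⟩ := by
    intro i hi
    simp only [Q1, finsetSum_coeff, coeff_monomial]
    rw [Finset.sum_ite_eq' (range (Q.natDegree + 1)) i, if_pos (by simp; omega)]
  have hQ1 : Q1 ≠ 0 := by
    intro h
    have h1 := hc Q.natDegree le_rfl
    rw [h, coeff_zero] at h1
    have h2 : α Q.natDegree = 0 := (congrArg Subtype.val h1).symm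
    have h3 := hα2 Q.natDegree
    rw [h2, map_zero] at h3
    exact hQ (leadingCoeff_eq_zero.1 (Subtype.ext h3.symm))
  have hev : Q1.eval₂ (R.j0.comp A.f.subtype) x = 0 := by
    simp only [Q1, eval₂_finsetSum, eval₂_monomial]
    rw [aeval_eq_sum_range] at hQx
    rw [← hQx]
    refine Finset.sum_congr rfl fun i _ => ?_
    rw [Algebra.smul_def]
    congr 1
    exact hα2 i
  have hev2 : (Q1.map A.f.subtype).eval₂ R.j0 x = 0 := by
    rw [eval₂_map]; exact hev
  obtain ⟨p, rfl⟩ := R.acl0 x (Q1.map A.f.subtype)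
    ((Polynomial.map_ne_zero_iff A.f.subtype.injective).2 hQ1) hev2
  refine ⟨p, A.hf p ⟨Q1, hQ1, ?_⟩, rfl⟩
  apply R.j0.injective
  rw [map_zero, ← hev, aeval_def, Polynomial.hom_eval₂]
  rfl

/-- the new datum -/
@[reducible] noncomputable def newD : Datum (m + 1) :=
  haveI : CharZero R.P' := charZero_of_injective_ringHom R.j0.injective
  { P := R.P'
    f := A.f.map R.j0
    hf := nf_hf R
    g := R.θ
    τ := R.τ
    g_f := by
      rintro _ ⟨α, hα, rfl⟩
      change R.θ (R.j0 α) = R.j0 α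
      rw [R.θ0, R.on_f α hα]
    τ_f := by
      rintro _ ⟨α, hα, rfl⟩
      change R.τ (R.j0 α) = R.j0 α
      rw [R.τ0, A.τ_f α hα]
    g_pow := fun x => by
      rw [pow_succ, mul_comm]
      exact R.θ_pow x
    τ_sq := R.τ_sq
    gτ := R.θτ
    ρ := nρ R
    ρ_ne := nρ_ne R
    g_ρ := θ_nρ R
    τ_ρ := τ_nρ R
    K := KK R
    K_cnt := KK_cnt R
    K_τ := KK_τ R
    K_g := KK_g R
    K_g' := KK_g' R
    K_W := by
      rw [← W_of R]
      exact h0_mem R A.W
    K_a := by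
      rw [← a_of R]
      exact Subfield.mul_mem _ (h0_mem R A.a) (pe_mem R)
    K_f := by
      rintro _ ⟨α, hα, rfl⟩
      obtain ⟨x, hx, h1, h2⟩ := A.K_f α hα
      refine ⟨hat R.j0 x, h0_mem R ⟨x, hx⟩, fun n => ⟨x.coeff n, h1 n, rfl⟩, ?_⟩
      have h3 : hat R.j0 x - HahnSeries.C (R.j0 α) = hat R.j0 (x - HahnSeries.C α) := by
        rw [map_sub, hat_C]
      change 0 < (hat R.j0 x - HahnSeries.C (R.j0 α)).orderTop
      rw [h3, hat_ord]
      exact h2 }

/-- the embedding -/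
noncomputable def io : A.K →+* (newD R).K :=
  ((hat R.j0).comp A.K.subtype).codRestrict (KK R) (fun k => h0_mem R k)

theorem io_coeff (x : A.K) (n : ℤ) :
    ((io R x : (newD R).K) : LaurentSeries (newD R).P).coeff n =
      R.j0 ((x : LaurentSeries A.P).coeff n) := rfl

/-- the element `c` -/
noncomputable def nc : (newD R).K := ⟨HahnSeries.C R.c, c_mem R 0⟩

theorem gK_nc (k : ℕ) :
    ((((newD R).gK)^[k] (nc R) : (newD R).K) : LaurentSeries (newD R).P) =
      HahnSeries.C (R.θ^[k] R.c) := by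
  induction k with
  | zero => rfl
  | succ k ih =>
    rw [Function.iterate_succ_apply', Function.iterate_succ_apply']
    change hat (R.θ : R.P' →+* R.P') _ = _
    rw [ih, hat_C]
    rfl

theorem v_io (x : A.K) : (newD R).v (io R x) = A.v x := by
  rw [Datum.v_apply, Datum.v_apply]
  exact hat_ord R.j0 _

theorem c0_io (x : A.K) : (newD R).c0 (io R x) = R.j0 (A.c0 x) := rfl

theorem c0_gio (x : A.K) : (newD R).c0 ((newD R).gK (io R x)) = R.j1 (A.c0 x) := R.θ0 _

theorem io_F (x : A.K) (hx : x ∈ A.F) : io R x ∈ (newD R).F := by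
  rw [Datum.mem_F]
  intro n
  exact ⟨_, (A.mem_F x).1 hx n, rfl⟩

theorem gen (x : (newD R).K) : x ∈ Subfield.closure (Set.range (io R) ∪
    Set.range (fun x => (newD R).gK (io R x)) ∪
      {y | ∃ i : ℕ, y = ((newD R).gK)^[i] (nc R)}) := by
  have h : KK R ≤ (Subfield.closure (Set.range (io R) ∪
    Set.range (fun x => (newD R).gK (io R x)) ∪
      {y | ∃ i : ℕ, y = ((newD R).gK)^[i] (nc R)})).map (KK R).subtype := by
    conv_lhs => rw [KK]
    rw [Subfield.closure_le]
    rintro _ ((⟨k, rfl⟩ | ⟨k, rfl⟩) | ⟨j, rfl⟩)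
    · exact ⟨io R k, Subfield.subset_closure (Or.inl (Or.inl ⟨k, rfl⟩)), rfl⟩
    · refine ⟨(newD R).gK (io R k), Subfield.subset_closure (Or.inl (Or.inr ⟨k, rfl⟩)), ?_⟩
      change hat (R.θ : R.P' →+* R.P') (hat R.j0 (k : LaurentSeries A.P)) = _
      ext n
      rw [hat_coeff, hat_coeff]
      exact R.θ0 _
    · exact ⟨((newD R).gK)^[j] (nc R), Subfield.subset_closure (Or.inr ⟨j, rfl⟩), gK_nc R j⟩
  obtain ⟨w, hw, hwx⟩ := h x.2
  have : w = x := Subtype.ext hwx
  rw [← this]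
  exact hw

theorem te1 (r : A.K) (hr : A.v r = 1) :
    (newD R).NS ((newD R).gK (io R r) / io R r) := by
  have hr0 : r ≠ 0 := by
    rintro rfl
    rw [AddValuation.map_zero] at hr
    exact absurd hr (by decide)
  have hio : io R r ≠ 0 := (_root_.map_ne_zero (io R)).2 hr0
  have hlow : ∀ k < (1 : ℤ), (r : LaurentSeries A.P).coeff k = 0 := by
    intro k hk
    apply A.v_lt_coeff
    rw [hr]
    exact_mod_cast hk
  have h1 : (r : LaurentSeries A.P).coeff 1 ≠ 0 := by
    apply HahnSeries.coeff_orderTop_ne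
    rw [← A.v_apply, hr]
    rfl
  have hvz : (newD R).v ((newD R).gK (io R r) / io R r) = 0 := by
    have h2 : (newD R).v ((newD R).gK (io R r) / io R r) + (newD R).v (io R r) =
        (newD R).v (io R r) := by
      rw [← AddValuation.map_mul, div_mul_cancel₀ _ hio, Datum.v_gK]
    rw [v_io, hr] at h2
    cases h3 : (newD R).v ((newD R).gK (io R r) / io R r) with
    | top => rw [h3] at h2; exact absurd h2 (by simp)
    | coe a =>
      rw [h3] at h2
      have h4 : a + 1 = 1 := by exact_mod_cast h2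
      have h5 : a = 0 := by omega
      rw [h5]; rfl
  have h2 := Datum.coeff_mul_le
    (((newD R).gK (io R r) / io R r : (newD R).K) : LaurentSeries (newD R).P)
    ((io R r : (newD R).K) : LaurentSeries (newD R).P) 0 1
    (fun k hk => (newD R).v_lt_coeff _ k (by rw [hvz]; exact_mod_cast hk))
    (fun k hk => by rw [io_coeff, hlow k hk, map_zero])
  have h3 : (((newD R).gK (io R r) / io R r : (newD R).K) : LaurentSeries (newD R).P) *
      ((io R r : (newD R).K) : LaurentSeries (newD R).P) =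
      (((newD R).gK (io R r) : (newD R).K) : LaurentSeries (newD R).P) := by
    have h4 := congrArg (Subtype.val) (div_mul_cancel₀ ((newD R).gK (io R r)) hio)
    exact h4
  rw [h3, zero_add] at h2
  have h4 : (((newD R).gK (io R r) : (newD R).K) : LaurentSeries (newD R).P).coeff 1 =
      R.j1 ((r : LaurentSeries A.P).coeff 1) := by
    rw [Datum.gK_coeff]
    exact R.θ0 _
  rw [h4, io_coeff] at h2
  have h5 : (newD R).c0 ((newD R).gK (io R r) / io R r) =
      R.j1 ((r : LaurentSeries A.P).coeff 1) / R.j0 ((r : LaurentSeries A.P).coeff 1) := by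
    rw [eq_div_iff ((_root_.map_ne_zero R.j0).2 h1)]
    exact h2.symm
  change ¬ IsSquare ((newD R).c0 ((newD R).gK (io R r) / io R r))
  rw [h5]
  refine R.sq _ h1 ?_
  have h6 := A.K_τ _ r.2 1
  rw [zpow_one, neg_one_mul] at h6
  exact h6

theorem te2 (x : A.K) (h : A.NS x) : (newD R).NS (io R x) := by
  rintro ⟨s, hs⟩
  change R.j0 (A.c0 x) = s * s at hs
  obtain ⟨p, rfl⟩ := R.acl0 s (X ^ 2 - C (A.c0 x)) (X_pow_sub_C_ne_zero (by norm_num) _) (by
    rw [eval₂_sub, eval₂_pow, eval₂_X, eval₂_C, hs, sq, sub_self])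
  refine h ⟨p, R.j0.injective ?_⟩
  rw [hs, map_mul]

theorem te3 (x : A.K) (hx : 0 ≤ A.v x)
    (h : 0 < (newD R).v ((newD R).gK (io R x) - io R x)) : ∃ α ∈ A.F, 0 < A.v (x - α) := by
  have h1 : (newD R).c0 ((newD R).gK (io R x) - io R x) = 0 := (newD R).v_lt_coeff _ 0 h
  rw [Datum.c0_sub, c0_gio, c0_io, sub_eq_zero] at h1
  obtain ⟨_, h2⟩ := R.meet _ _ h1.symm
  obtain ⟨α, hα, h3, h4⟩ := A.exists_c0_F _ h2
  refine ⟨α, hα, ?_⟩
  rw [A.v_pos_iff _ (le_trans (le_min hx h3) (AddValuation.map_sub _ _ _)), A.c0_sub, h4, sub_self]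

theorem te4 (z : A.K) (hz : IsAlgebraic (RingHom.fieldRange (io R)) ((newD R).gK (io R z))) :
    z ∈ A.F := by
  by_contra hcon
  obtain ⟨Q, hQ, hv, hc⟩ := A.lemmaZ z hcon
  apply hc
  -- `g (ι ζ)` is a polynomial in `g (ι z)` with coefficients in the range of `ι`
  have h1 : (newD R).gK (io R (Q.eval z)) =
      (Q.map (io R)).eval ((newD R).gK (io R z)) := by
    have e1 : io R (Q.eval z) = (Q.map (io R)).eval (io R z) := by
      rw [eval_map, Polynomial.eval₂_at_apply]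
    rw [e1, eval_eq_sum_range, eval_eq_sum_range, map_sum]
    refine Finset.sum_congr rfl fun i _ => ?_
    rw [map_mul, map_pow, coeff_map, (newD R).g_F _ (io_F R _ (hQ i))]
  have h2 : IsAlgebraic (RingHom.fieldRange (io R)) ((newD R).gK (io R (Q.eval z))) := by
    rw [h1, ← mem_algebraicClosure_iff, eval_eq_sum_range]
    refine sum_mem fun i _ => mul_mem ?_ (pow_mem (mem_algebraicClosure_iff.2 hz) i)
    rw [coeff_map]
    exact (algebraicClosure (RingHom.fieldRange (io R)) (newD R).K).algebraMap_mem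
      ⟨io R (Q.coeff i), ⟨_, rfl⟩⟩
  have h3 := (newD R).residue_alg (RingHom.fieldRange (io R)) (RingHom.fieldRange R.j0)
    (by rintro _ ⟨x, rfl⟩ _; exact ⟨A.c0 x, rfl⟩) _ (by rw [Datum.v_gK, v_io]; exact hv) h2
  rw [c0_gio] at h3
  obtain ⟨S, hS, hSx⟩ := h3
  -- a polynomial over `P`
  have hlift : ∀ i, ∃ α : A.P, R.j0 α = ((S.coeff i : RingHom.fieldRange R.j0) : R.P') :=
    fun i => (S.coeff i).2
  choose α hα using hlift
  let Q1 : (A.P)[X] := ∑ i ∈ range (S.natDegree + 1), monomial i (α i)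
  have hcf : ∀ i, i ≤ S.natDegree → Q1.coeff i = α i := by
    intro i hi
    simp only [Q1, finsetSum_coeff, coeff_monomial]
    rw [Finset.sum_ite_eq' (range (S.natDegree + 1)) i, if_pos (by simp; omega)]
  have hQ1 : Q1 ≠ 0 := by
    intro h
    have h1 := hcf S.natDegree le_rfl
    rw [h, coeff_zero] at h1
    have h3 := hα S.natDegree
    rw [← h1, map_zero] at h3
    exact hS (leadingCoeff_eq_zero.1 (Subtype.ext h3.symm))
  have hev : Q1.eval₂ R.j0 (R.j1 (A.c0 (Q.eval z))) = 0 := by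
    simp only [Q1, eval₂_finsetSum, eval₂_monomial]
    rw [aeval_eq_sum_range] at hSx
    rw [← hSx]
    refine Finset.sum_congr rfl fun i _ => ?_
    rw [Algebra.smul_def]
    congr 1
    exact hα i
  obtain ⟨p, hp⟩ := R.acl0 _ Q1 hQ1 hev
  obtain ⟨h5, h6⟩ := R.meet p _ hp.symm
  rw [← h5]
  exact h6

/-- the step -/
noncomputable def newH : StepHom A (newD R) where
  ι := io R
  c := nc R
  v_ι := v_io R
  gg_ι x := by
    apply Subtype.ext
    ext n
    rw [Datum.gK_coeff, Datum.gK_coeff, io_coeff, io_coeff, Datum.gK_coeff]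
    change R.θ (R.θ (R.j0 _)) = _
    rw [R.θ0, R.θ1]
  F_ι := io_F R
  W_ι := Subtype.ext (W_of R)
  v_c := by
    rw [Datum.v_apply]
    exact C_ord R.c R.c_ne
  a_eq := by
    apply Subtype.ext
    have h1 : ((∏ i ∈ range (2 ^ m), ((newD R).gK)^[2 * i] (nc R) : (newD R).K) :
        LaurentSeries (newD R).P) = HahnSeries.C (pe R) := by
      rw [pe, map_prod]
      have : ∀ s : Finset ℕ, ((∏ i ∈ s, ((newD R).gK)^[2 * i] (nc R) : (newD R).K) :
          LaurentSeries (newD R).P) = ∏ i ∈ s, HahnSeries.C (R.θ^[2 * i] R.c) := by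
        intro s
        classical
        induction s using Finset.induction_on with
        | empty => simp
        | insert a s ha ih =>
          rw [Finset.prod_insert ha, Finset.prod_insert ha, ← ih, ← gK_nc]
          rfl
      exact this _
    change HahnSeries.single 1 (nρ R)⁻¹ = hat R.j0 (A.a : LaurentSeries A.P) * _
    rw [h1, a_of]
  te1 := te1 R
  te2 x _ h := te2 R x h
  te3 := te3 R
  te4 := te4 R

end build

end TA

open TA in
/-- 12, te0 - te4, te6 and the facts needed for te5 -/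
theorem tensorA {m : ℕ} (A : Datum m) : ∃ (B : Datum (m + 1)) (h : StepHom A B),
    (∀ x : B.K, x ∈ Subfield.closure (Set.range h.ι ∪ Set.range (fun x => B.gK (h.ι x)) ∪
      {y | ∃ i : ℕ, y = (B.gK)^[i] h.c})) ∧
    (∀ (n : ℕ) (b : Fin n → A.K), (∀ i, 0 ≤ A.v (b i)) →
      AlgebraicIndependent A.f (fun i => A.c0 (b i)) →
      AlgebraicIndependent B.f (Sum.elim (Sum.elim (fun i => B.c0 (h.ι (b i)))
        (fun i => B.c0 (B.gK (h.ι (b i)))))
        (fun j : Fin (2 ^ (m + 1) - 1) => B.c0 ((B.gK)^[(j : ℕ) + 1] h.c)))) := by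
  obtain ⟨R⟩ := exists_TRes A
  refine ⟨newD R, newH R, gen R, fun n b _ hb => ?_⟩
  have h1 := R.ind n (fun i => A.c0 (b i)) hb
  have hN : 2 ^ (m + 1) - 1 = 2 * 2 ^ m - 1 := by rw [pow_succ, mul_comm]
  refine (algebraicIndependent_equiv' (Equiv.sumCongr (Equiv.refl (Fin n ⊕ Fin n))
    (finCongr hN)) ?_).2 h1
  funext x
  rcases x with (x | x) | x
  · rfl
  · exact (c0_gio R (b x)).symm
  · change R.θ^[(x : ℕ) + 1] R.c = (((((newD R).gK)^[(x : ℕ) + 1] (nc R) : (newD R).K)) :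
      LaurentSeries (newD R).P).coeff 0
    rw [gK_nc, C_coeff, if_pos rfl]

end Pool.Agent.DA
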